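import Pool.Agent.Work.MP_252c1e_lc.Interface

/-!
# MP_252c1e_lc, block A: basic facts about tree spaces
-/

open Set Topology TopologicalSpace

namespace Pool.Agent.Work.MP_252c1e_lc

/-! ## the contractions -/

theorem ctr_eq (a : ℕ) (x : ℝ) : ctr a x = (3 : ℝ)⁻¹ ^ (a + 1) * (2 + x) := by
  unfold ctr
  rw [pow_succ]
  ring

theorem third_pos (a : ℕ) : (0 : ℝ) < (3 : ℝ)⁻¹ ^ a := by positivity

theorem third_le (a : ℕ) : (3 : ℝ)⁻¹ ^ a ≤ 1 := pow_le_one₀ (by norm_num) (by norm_num)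

theorem third_anti {a b : ℕ} (h : a ≤ b) : (3 : ℝ)⁻¹ ^ b ≤ (3 : ℝ)⁻¹ ^ a :=
  pow_le_pow_of_le_one (by norm_num) (by norm_num) h

theorem ctr_sub (a : ℕ) (x y : ℝ) : ctr a x - ctr a y = (3 : ℝ)⁻¹ ^ (a + 1) * (x - y) := by
  rw [ctr_eq, ctr_eq]
  ring

theorem ctr_inj (a : ℕ) : Function.Injective (ctr a) := by
  intro x y h
  have := ctr_sub a x y
  rw [h, sub_self] at this
  have h2 := third_pos (a + 1)
  rcases mul_eq_zero.mp this.symm with h3 | h3
  · exact absurd h3 h2.ne'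
  · linarith

theorem ctr_cont (a : ℕ) : Continuous (ctr a) := by
  unfold ctr
  fun_prop

/-- the contraction as a homeomorphism of the line -/
noncomputable def ctrH (a : ℕ) : ℝ ≃ₜ ℝ where
  toFun := ctr a
  invFun y := y / (3 : ℝ)⁻¹ ^ (a + 1) - 2
  left_inv x := by
    rw [ctr_eq]
    have := (third_pos (a + 1)).ne'
    field_simp
    ring
  right_inv y := by
    rw [ctr_eq]
    have := (third_pos (a + 1)).ne'
    field_simp
    ring
  continuous_toFun := ctr_cont a
  continuous_invFun := by fun_prop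

theorem ctrH_apply (a : ℕ) (x : ℝ) : ctrH a x = ctr a x := rfl

/-- The composed contraction of a list. -/
noncomputable def cmp : List ℕ → ℝ → ℝ
  | [], x => x
  | a :: l, x => ctr a (cmp l x)

theorem cmp_nil (x : ℝ) : cmp [] x = x := rfl

theorem cmp_cons (a : ℕ) (l : List ℕ) (x : ℝ) : cmp (a :: l) x = ctr a (cmp l x) := rfl

theorem cmp_append (l m : List ℕ) (x : ℝ) : cmp (l ++ m) x = cmp l (cmp m x) := by
  induction l with
  | nil => rfl
  | cons a l ih => rw [List.cons_append, cmp_cons, cmp_cons, ih]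

theorem pt_eq (l : List ℕ) : pt l = cmp l 0 := by
  induction l with
  | nil => rfl
  | cons a l ih => rw [cmp_cons, ← ih]; rfl

theorem pt_append (l m : List ℕ) : pt (l ++ m) = cmp l (pt m) := by
  rw [pt_eq, pt_eq, cmp_append]

/-- the composed contraction as a homeomorphism -/
noncomputable def cmpH : List ℕ → ℝ ≃ₜ ℝ
  | [] => Homeomorph.refl ℝ
  | a :: l => (cmpH l).trans (ctrH a)

theorem cmpH_apply (l : List ℕ) (x : ℝ) : cmpH l x = cmp l x := by
  induction l with
  | nil => rfl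
  | cons a l ih => rw [cmp_cons, ← ih]; rfl

theorem cmp_inj (l : List ℕ) : Function.Injective (cmp l) := by
  intro x y h
  rw [← cmpH_apply, ← cmpH_apply] at h
  exact (cmpH l).injective h

theorem cmp_cont (l : List ℕ) : Continuous (cmp l) := by
  have : cmp l = cmpH l := by
    funext x
    rw [cmpH_apply]
  rw [this]
  exact (cmpH l).continuous

theorem cmp_dist (l : List ℕ) (x y : ℝ) : |cmp l x - cmp l y| ≤ (3 : ℝ)⁻¹ ^ l.length * |x - y| := by
  induction l with
  | nil => simp [cmp]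
  | cons a l ih =>
    rw [cmp_cons, cmp_cons, ctr_sub, abs_mul, abs_of_pos (third_pos _), List.length_cons]
    have h1 : (3 : ℝ)⁻¹ ^ (a + 1) ≤ (3 : ℝ)⁻¹ := by
      have := third_anti (show 1 ≤ a + 1 by omega)
      simpa using this
    calc (3 : ℝ)⁻¹ ^ (a + 1) * |cmp l x - cmp l y|
        ≤ (3 : ℝ)⁻¹ * ((3 : ℝ)⁻¹ ^ l.length * |x - y|) := by
          apply mul_le_mul h1 ih (abs_nonneg _) (by norm_num)
      _ = (3 : ℝ)⁻¹ ^ (l.length + 1) * |x - y| := by ring

/-! ## cells -/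

/-- the cell of a list -/
def cell (l : List ℕ) : Set ℝ := cmp l '' Icc 0 1

/-- an open neighbourhood of the cell -/
def opn (l : List ℕ) : Set ℝ := cmp l '' Ioo (-1 / 2) (5 / 2)

theorem isOpen_opn (l : List ℕ) : IsOpen (opn l) := by
  have : opn l = cmpH l '' Ioo (-1 / 2) (5 / 2) := by
    unfold opn
    apply image_congr
    intro x _
    rw [cmpH_apply]
  rw [this]
  exact (cmpH l).isOpenMap _ isOpen_Ioo

theorem isClosed_cell (l : List ℕ) : IsClosed (cell l) :=
  (isCompact_Icc.image (cmp_cont l)).isClosed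

theorem cell_subset_opn (l : List ℕ) : cell l ⊆ opn l := by
  apply image_mono
  intro x hx
  constructor
  · linarith [hx.1]
  · linarith [hx.2]

theorem cell_nil : cell [] = Icc 0 1 := by
  unfold cell
  ext x
  constructor
  · rintro ⟨y, hy, rfl⟩
    exact hy
  · intro hx
    exact ⟨x, hx, rfl⟩

theorem ctr_mem_Icc {a : ℕ} {x : ℝ} (hx : x ∈ Icc (0 : ℝ) 1) : ctr a x ∈ Icc (0 : ℝ) 1 := by
  rw [ctr_eq]
  have h1 := third_pos (a + 1)
  have h2 : (3 : ℝ)⁻¹ ^ (a + 1) ≤ (3 : ℝ)⁻¹ := by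
    have := third_anti (show 1 ≤ a + 1 by omega)
    simpa using this
  constructor
  · exact mul_nonneg h1.le (by linarith [hx.1])
  · have h3 : (3 : ℝ)⁻¹ ^ (a + 1) * (2 + x) ≤ (3 : ℝ)⁻¹ * 3 :=
      mul_le_mul h2 (by linarith [hx.2]) (by linarith [hx.1]) (by norm_num)
    linarith [show (3 : ℝ)⁻¹ * 3 = 1 by norm_num]

theorem cmp_mem_Icc (l : List ℕ) {x : ℝ} (hx : x ∈ Icc (0 : ℝ) 1) : cmp l x ∈ Icc (0 : ℝ) 1 := by
  induction l with
  | nil => exact hx
  | cons a l ih => exact ctr_mem_Icc ih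

theorem pt_mem_Icc (l : List ℕ) : pt l ∈ Icc (0 : ℝ) 1 := by
  rw [pt_eq]
  exact cmp_mem_Icc l ⟨le_rfl, zero_le_one⟩

theorem cell_append_subset (l m : List ℕ) : cell (l ++ m) ⊆ cell l := by
  rintro _ ⟨x, hx, rfl⟩
  rw [cmp_append]
  exact ⟨cmp m x, cmp_mem_Icc m hx, rfl⟩

theorem cell_mono {l m : List ℕ} (h : l <+: m) : cell m ⊆ cell l := by
  obtain ⟨t, rfl⟩ := h
  exact cell_append_subset l t

theorem pt_mem_cell (l : List ℕ) : pt l ∈ cell l := by
  rw [pt_eq]
  exact ⟨0, ⟨le_rfl, zero_le_one⟩, rfl⟩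

theorem cell_dist {l : List ℕ} {x y : ℝ} (hx : x ∈ cell l) (hy : y ∈ cell l) :
    |x - y| ≤ (3 : ℝ)⁻¹ ^ l.length := by
  obtain ⟨u, hu, rfl⟩ := hx
  obtain ⟨v, hv, rfl⟩ := hy
  refine (cmp_dist l u v).trans ?_
  have : |u - v| ≤ 1 := by
    rw [abs_le]
    constructor
    · linarith [hu.1, hv.2]
    · linarith [hu.2, hv.1]
  calc (3 : ℝ)⁻¹ ^ l.length * |u - v| ≤ (3 : ℝ)⁻¹ ^ l.length * 1 :=
        mul_le_mul_of_nonneg_left this (third_pos _).le
    _ = _ := mul_one _

/-- points of the cell of a child are close to the node -/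
theorem child_dist {l : List ℕ} {a : ℕ} {x : ℝ} (hx : x ∈ cell (l ++ [a])) :
    |x - pt l| ≤ (3 : ℝ)⁻¹ ^ a := by
  obtain ⟨u, hu, rfl⟩ := hx
  rw [cmp_append, pt_eq]
  refine (cmp_dist l _ _).trans ?_
  rw [cmp_cons, cmp_nil, sub_zero]
  have h1 : |ctr a u| ≤ (3 : ℝ)⁻¹ ^ a := by
    rw [ctr_eq, abs_of_nonneg (mul_nonneg (third_pos _).le (by linarith [hu.1])), pow_succ]
    have h3 := third_pos a
    have h4 := hu.2
    nlinarith
  calc (3 : ℝ)⁻¹ ^ l.length * |ctr a u| ≤ 1 * (3 : ℝ)⁻¹ ^ a :=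
        mul_le_mul (third_le _) h1 (abs_nonneg _) zero_le_one
    _ = _ := one_mul _

/-- the enlarged first level cells are disjoint -/
theorem ctr_disj {a b : ℕ} {x y : ℝ} (hx : x ∈ Ioo (-1 / 2 : ℝ) (5 / 2)) (hy : y ∈ Icc (0 : ℝ) 1)
    (h : ctr a x = ctr b y) : a = b := by
  rw [ctr_eq, ctr_eq] at h
  by_contra hne
  have ha := third_pos (a + 1)
  have hb := third_pos (b + 1)
  rcases lt_or_gt_of_ne hne with hlt | hlt
  · -- a < b: left side is large
    have h1 : (3 : ℝ)⁻¹ ^ (b + 1) ≤ (3 : ℝ)⁻¹ ^ (a + 1) * (3 : ℝ)⁻¹ := by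
      rw [← pow_succ]
      exact third_anti (by omega)
    have h2 := hx.1
    have h3 := hy.2
    have h4 := hy.1
    nlinarith
  · have h1 : (3 : ℝ)⁻¹ ^ (a + 1) ≤ (3 : ℝ)⁻¹ ^ (b + 1) * (3 : ℝ)⁻¹ := by
      rw [← pow_succ]
      exact third_anti (by omega)
    have h2 := hx.2
    have h3 := hy.1
    have h5 := hx.1
    nlinarith

theorem opn_sub (l : List ℕ) : opn l ⊆ Ioo (-1 / 2) (5 / 2) := by
  induction l with
  | nil =>
    rintro _ ⟨x, hx, rfl⟩
    exact hx
  | cons a l ih =>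
    rintro _ ⟨x, hx, rfl⟩
    have h1 : cmp l x ∈ Ioo (-1 / 2 : ℝ) (5 / 2) := ih ⟨x, hx, rfl⟩
    rw [cmp_cons, ctr_eq]
    have h2 := third_pos (a + 1)
    have h3 : (3 : ℝ)⁻¹ ^ (a + 1) ≤ (3 : ℝ)⁻¹ := by
      have := third_anti (show 1 ≤ a + 1 by omega)
      simpa using this
    constructor
    · have h4 := h1.1
      have : 0 < (3 : ℝ)⁻¹ ^ (a + 1) * (2 + cmp l x) := mul_pos h2 (by linarith)
      linarith
    · have h4 := h1.2
      have h5 := h1.1
      have : (3 : ℝ)⁻¹ ^ (a + 1) * (2 + cmp l x) ≤ (3 : ℝ)⁻¹ * (2 + cmp l x) :=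
        mul_le_mul_of_nonneg_right h3 (by linarith)
      have h6 : (3 : ℝ)⁻¹ * (2 + cmp l x) < 5 / 2 := by
        norm_num
        linarith
      linarith

/-! ## the full tree space -/

theorem tsp_mono {T T' : Set (List ℕ)} (h : T ⊆ T') : tsp T ⊆ tsp T' :=
  closure_mono (image_mono h)

theorem tsp_subset_Icc (T : Set (List ℕ)) : tsp T ⊆ Icc 0 1 := by
  apply closure_minimal _ isClosed_Icc
  rintro _ ⟨l, _, rfl⟩
  exact pt_mem_Icc l

theorem ctr_pos {a : ℕ} {x : ℝ} (hx : x ∈ Icc (0 : ℝ) 1) : 0 < ctr a x := by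
  rw [ctr_eq]
  exact mul_pos (third_pos _) (by linarith [hx.1])

/-- self-similarity -/
theorem tsp_self {x : ℝ} (hx : x ∈ tsp univ) : x = 0 ∨ ∃ a, ∃ y ∈ tsp univ, x = ctr a y := by
  by_cases h0 : x = 0
  · exact Or.inl h0
  right
  have hpos : 0 < x := lt_of_le_of_ne (tsp_subset_Icc _ hx).1 (Ne.symm h0)
  obtain ⟨N, hN⟩ := exists_pow_lt_of_lt_one hpos (show (3 : ℝ)⁻¹ < 1 by norm_num)
  have h1 : x ∈ closure (⋃ a ∈ Finset.range N, ctr a '' (pt '' univ)) := by
    rw [mem_closure_iff]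
    intro O hO hxO
    obtain ⟨z, ⟨hz1, hz2⟩, ⟨l, _, rfl⟩⟩ := mem_closure_iff.mp hx (O ∩ Ioi ((3 : ℝ)⁻¹ ^ N))
      (hO.inter isOpen_Ioi) ⟨hxO, hN⟩
    refine ⟨pt l, hz1, ?_⟩
    cases l with
    | nil =>
      exfalso
      have h2 : (3 : ℝ)⁻¹ ^ N < pt [] := hz2
      have h3 := third_pos N
      have : pt [] = 0 := rfl
      linarith
    | cons a l =>
      simp only [Finset.mem_range, mem_iUnion, exists_prop]
      refine ⟨a, ?_, pt l, ⟨l, mem_univ _, rfl⟩, rfl⟩
      by_contra hle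
      have h2 : (3 : ℝ)⁻¹ ^ N < ctr a (pt l) := hz2
      have h3 := third_anti (not_lt.mp hle)
      have h4 := (pt_mem_Icc l).2
      rw [ctr_eq, pow_succ] at h2
      have h5 := third_pos a
      nlinarith
  rw [Finset.closure_biUnion] at h1
  simp only [Finset.mem_range, mem_iUnion, exists_prop] at h1
  obtain ⟨a, _, ha⟩ := h1
  have h2 : closure (ctr a '' (pt '' univ)) = ctr a '' closure (pt '' univ) := by
    have := (ctrH a).image_closure (pt '' univ)
    exact this.symm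
  rw [h2] at ha
  obtain ⟨y, hy, hxy⟩ := ha
  exact ⟨a, y, hy, hxy.symm⟩

theorem ctr_mem_tsp {a : ℕ} {y : ℝ} (hy : y ∈ tsp univ) : ctr a y ∈ tsp univ := by
  have h2 : ctr a '' closure (pt '' univ) ⊆ closure (pt '' univ) := by
    have := (ctrH a).image_closure (pt '' univ)
    have h3 : ctr a '' closure (pt '' univ) = closure (ctr a '' (pt '' univ)) := this
    rw [h3]
    apply closure_mono
    rintro _ ⟨_, ⟨l, _, rfl⟩, rfl⟩
    exact ⟨a :: l, mem_univ _, rfl⟩
  exact h2 ⟨y, hy, rfl⟩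

theorem opn_inter {l : List ℕ} {x : ℝ} (hx : x ∈ tsp univ) (hl : x ∈ opn l) :
    ∃ z ∈ tsp univ, x = cmp l z := by
  induction l generalizing x with
  | nil => exact ⟨x, hx, rfl⟩
  | cons a l ih =>
    obtain ⟨u, hu, rfl⟩ := hl
    have hz : cmp l u ∈ opn l := ⟨u, hu, rfl⟩
    rw [cmp_cons] at hx ⊢
    rcases tsp_self hx with h | ⟨b, y, hy, hby⟩
    · exfalso
      have h1 := (opn_sub l hz).1
      have h2 := third_pos (a + 1)
      rw [ctr_eq] at h
      rcases mul_eq_zero.mp h with h3 | h3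
      · exact h2.ne' h3
      · linarith
    · have hab := ctr_disj (opn_sub l hz) (tsp_subset_Icc _ hy) hby
      subst hab
      have h3 : cmp l u = y := ctr_inj a hby
      rw [← h3] at hy
      obtain ⟨z, hz1, hz2⟩ := ih hy hz
      exact ⟨z, hz1, by rw [hz2]; rfl⟩

theorem mem_cell_iff_opn {l : List ℕ} {x : ℝ} (hx : x ∈ tsp univ) : x ∈ cell l ↔ x ∈ opn l := by
  constructor
  · intro h
    exact cell_subset_opn l h
  · intro h
    obtain ⟨z, hz, rfl⟩ := opn_inter hx h
    exact ⟨z, tsp_subset_Icc _ hz, rfl⟩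

/-- a point of a cell is the node or in the cell of a child -/
theorem cell_step {l : List ℕ} {x : ℝ} (hx : x ∈ tsp univ) (h : x ∈ cell l) :
    x = pt l ∨ ∃ a, x ∈ cell (l ++ [a]) := by
  obtain ⟨z, hz, rfl⟩ := opn_inter hx (cell_subset_opn l h)
  rcases tsp_self hz with h0 | ⟨a, y, hy, rfl⟩
  · left
    rw [h0, pt_eq]
  · right
    refine ⟨a, y, tsp_subset_Icc _ hy, ?_⟩
    rw [cmp_append]
    rfl

/-- the nodes in a cell are the extensions -/
theorem pt_mem_cell_iff (l m : List ℕ) : pt m ∈ cell l ↔ l <+: m := by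
  constructor
  · intro h
    induction l generalizing m with
    | nil => exact List.nil_prefix
    | cons a l ih =>
      obtain ⟨u, hu, hum⟩ := h
      rw [cmp_cons] at hum
      have h1 : cmp l u ∈ Icc (0 : ℝ) 1 := cmp_mem_Icc l hu
      cases m with
      | nil =>
        exfalso
        have h2 := ctr_pos (a := a) h1
        rw [hum] at h2
        exact lt_irrefl _ h2
      | cons b m =>
        have h2 : ctr a (cmp l u) = ctr b (pt m) := hum
        have hab := ctr_disj (cell_subset_opn [] (by rw [cell_nil]; exact h1) |> opn_sub [])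
          (pt_mem_Icc m) h2
        subst hab
        have h3 := ctr_inj a h2
        have := ih m ⟨u, hu, h3⟩
        exact List.cons_prefix_cons.mpr ⟨rfl, this⟩
  · rintro ⟨t, rfl⟩
    exact cell_append_subset l t (pt_mem_cell _)

theorem pt_inj : Function.Injective pt := by
  intro l m h
  have h1 : l <+: m := (pt_mem_cell_iff l m).mp (h ▸ pt_mem_cell l)
  have h2 : m <+: l := (pt_mem_cell_iff m l).mp (h ▸ pt_mem_cell m)
  exact h1.eq_of_length (le_antisymm h1.length_le h2.length_le)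

/-- two cells of the same depth containing a common point of the tree space are equal -/
theorem cell_unique {l m : List ℕ} {x : ℝ} (hx : x ∈ tsp univ) (hl : x ∈ cell l)
    (hm : x ∈ cell m) (h : l.length = m.length) : l = m := by
  induction l generalizing m x with
  | nil =>
    cases m with
    | nil => rfl
    | cons b m => simp at h
  | cons a l ih =>
    cases m with
    | nil => simp at h
    | cons b m =>
      obtain ⟨u, hu, rfl⟩ := opn_inter hx (cell_subset_opn _ hl)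
      obtain ⟨v, hv, hv2⟩ := hm
      rw [cmp_cons, cmp_cons] at hv2
      have h1 : cmp l u ∈ Icc (0 : ℝ) 1 := cmp_mem_Icc l (tsp_subset_Icc _ hu)
      have h2 : cmp m v ∈ Icc (0 : ℝ) 1 := cmp_mem_Icc m hv
      have hab := ctr_disj (cell_subset_opn [] (by rw [cell_nil]; exact h2) |> opn_sub [])
        h1 hv2
      subst hab
      have h3 := ctr_inj b hv2
      have h4 : cmp l u ∈ tsp univ := by
        clear ih hl hx h hv2 h1 h2 h3
        induction l with
        | nil => exact hu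
        | cons c l ih => exact ctr_mem_tsp ih
      have := ih h4 ⟨u, tsp_subset_Icc _ hu, rfl⟩ ⟨v, hv, h3⟩ (by simpa using h)
      rw [this]

/-! ## trees -/

theorem IsTree.initial {T : Set (List ℕ)} (hT : IsTree T) {l m : List ℕ} (h : l <+: m)
    (hm : m ∈ T) : l ∈ T := by
  obtain ⟨t, rfl⟩ := h
  induction t using List.reverseRecOn with
  | nil => simpa using hm
  | append_singleton t a ih =>
    apply ih
    rw [← List.append_assoc] at hm
    exact hT.init _ _ hm

theorem tsp_sub_univ (T : Set (List ℕ)) : tsp T ⊆ tsp univ := tsp_mono (subset_univ _)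

/-- a cell meeting the tree space belongs to the tree -/
theorem mem_of_cell {T : Set (List ℕ)} (hT : IsTree T) {l : List ℕ} {x : ℝ} (hx : x ∈ tsp T)
    (hl : x ∈ cell l) : l ∈ T := by
  have h1 := mem_closure_iff.mp hx (opn l) (isOpen_opn l) (cell_subset_opn l hl)
  obtain ⟨_, hz, ⟨m, hm, rfl⟩⟩ := h1
  have h2 : pt m ∈ tsp univ := subset_closure ⟨m, mem_univ _, rfl⟩
  exact hT.initial ((pt_mem_cell_iff l m).mp ((mem_cell_iff_opn h2).mpr hz)) hm

theorem pt_mem_tsp {T : Set (List ℕ)} {l : List ℕ} (h : l ∈ T) : pt l ∈ tsp T :=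
  subset_closure ⟨l, h, rfl⟩

theorem pt_mem_tsp_iff {T : Set (List ℕ)} (hT : IsTree T) {l : List ℕ} : pt l ∈ tsp T ↔ l ∈ T :=
  ⟨fun h => mem_of_cell hT h (pt_mem_cell l), pt_mem_tsp⟩

/-- classification of the points up to depth `h` -/
theorem tsp_class {T : Set (List ℕ)} (hT : IsTree T) {x : ℝ} (hx : x ∈ tsp T) (h : ℕ) :
    (∃ l ∈ T, l.length < h ∧ x = pt l) ∨ ∃ l ∈ T, l.length = h ∧ x ∈ cell l := by
  induction h with
  | zero =>
    right
    exact ⟨[], hT.nil, rfl, by rw [cell_nil]; exact tsp_subset_Icc _ hx⟩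
  | succ h ih =>
    rcases ih with ⟨l, hl, hlt, he⟩ | ⟨l, hl, hlen, hc⟩
    · exact Or.inl ⟨l, hl, by omega, he⟩
    · rcases cell_step (tsp_sub_univ _ hx) hc with h1 | ⟨a, ha⟩
      · exact Or.inl ⟨l, hl, by omega, h1⟩
      · exact Or.inr ⟨l ++ [a], mem_of_cell hT hx ha, by simp [hlen], ha⟩

/-- A1 -/
theorem tspBasic : TspBasic := by
  intro T
  refine ⟨?_, ?_, ?_⟩
  · exact isCompact_Icc.of_isClosed_subset isClosed_closure (tsp_subset_Icc T)
  · intro h
    exact ⟨pt [], pt_mem_tsp h⟩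
  · have h0 : interior (tsp univ) = ∅ := by
      by_contra hne
      obtain ⟨x, hx⟩ := nonempty_iff_ne_empty.mpr hne
      rw [mem_interior_iff_mem_nhds, Metric.mem_nhds_iff] at hx
      obtain ⟨ε, hε, hball⟩ := hx
      obtain ⟨h, hh⟩ := exists_pow_lt_of_lt_one hε (show (3 : ℝ)⁻¹ < 1 by norm_num)
      have hxt : x ∈ tsp univ := hball (Metric.mem_ball_self hε)
      have hTu : IsTree (univ : Set (List ℕ)) := ⟨mem_univ _, fun _ _ _ => mem_univ _⟩
      have key : ∃ l : List ℕ, cell l ⊆ Metric.ball x ε := by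
        rcases tsp_class hTu hxt h with ⟨l, _, _, rfl⟩ | ⟨l, _, hl, hc⟩
        · refine ⟨l ++ [h], fun y hy => ?_⟩
          rw [Metric.mem_ball, Real.dist_eq]
          exact (child_dist hy).trans_lt hh
        · refine ⟨l, fun y hy => ?_⟩
          rw [Metric.mem_ball, Real.dist_eq]
          have := cell_dist hy hc
          rw [hl] at this
          exact this.trans_lt hh
      obtain ⟨l, hl⟩ := key
      have h1 : cmp l (1 / 2) ∈ tsp univ := hball (hl ⟨1 / 2, ⟨by norm_num, by norm_num⟩, rfl⟩)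
      obtain ⟨z, hz, hz2⟩ := opn_inter (l := l) h1
        ⟨1 / 2, ⟨by norm_num, by norm_num⟩, rfl⟩
      have h2 : (1 / 2 : ℝ) = z := cmp_inj l hz2
      rw [← h2] at hz
      rcases tsp_self hz with h3 | ⟨a, y, hy, h3⟩
      · norm_num at h3
      · have h4 := tsp_subset_Icc _ hy
        cases a with
        | zero =>
          rw [ctr_eq] at h3
          have := h4.1
          norm_num at h3
          linarith
        | succ a =>
          rw [ctr_eq] at h3
          have h5 : (3 : ℝ)⁻¹ ^ (a + 1 + 1) ≤ (3 : ℝ)⁻¹ ^ 2 := third_anti (by omega)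
          have h6 := third_pos (a + 1 + 1)
          have h7 := h4.2
          have h8 := h4.1
          norm_num at h5
          nlinarith
    rw [← subset_empty_iff, ← h0]
    exact interior_mono (tsp_sub_univ T)

end Pool.Agent.Work.MP_252c1e_lc
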