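import Pool.Agent.Work.MP_252c1e_lc.A0

/-!
# MP_252c1e_lc, block A: isomorphic trees have homeomorphic tree spaces
-/

open Set Topology TopologicalSpace

namespace Pool.Agent.Work.MP_252c1e_lc

/-- A length preserving bijection of trees compatible with initial segments. -/
structure TMap (T T' : Set (List ℕ)) (g : List ℕ → List ℕ) : Prop where
  maps : ∀ l ∈ T, g l ∈ T'
  surj : ∀ m ∈ T', ∃ l ∈ T, g l = m
  inj : InjOn g T
  len : ∀ l ∈ T, (g l).length = l.length
  step : ∀ l a, l ++ [a] ∈ T → ∃ b, g (l ++ [a]) = g l ++ [b]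

theorem TMap.initial {T T' : Set (List ℕ)} {g : List ℕ → List ℕ} (hT : IsTree T)
    (h : TMap T T' g) {l m : List ℕ} (hlm : l <+: m) (hm : m ∈ T) : g l <+: g m := by
  obtain ⟨t, rfl⟩ := hlm
  induction t using List.reverseRecOn with
  | nil => simp
  | append_singleton t a ih =>
    rw [← List.append_assoc] at hm ⊢
    have h1 := hT.init _ _ hm
    obtain ⟨b, hb⟩ := h.step _ _ hm
    rw [hb]
    exact (ih h1).trans (List.prefix_append _ _)

/-- small oscillation -/
theorem TMap.osc {T T' : Set (List ℕ)} {g : List ℕ → List ℕ} (hT : IsTree T)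
    (h : TMap T T' g) {x : ℝ} (hx : x ∈ tsp T) {ε : ℝ} (hε : 0 < ε) :
    ∃ U, IsOpen U ∧ x ∈ U ∧ ∃ c, ∀ l ∈ T, pt l ∈ U → |pt (g l) - c| ≤ ε := by
  obtain ⟨k, hk⟩ := exists_pow_lt_of_lt_one hε (show (3 : ℝ)⁻¹ < 1 by norm_num)
  rcases tsp_class hT hx k with ⟨l0, hl0, hlt, rfl⟩ | ⟨l0, hl0, hlen, hc⟩
  · have hfin : {a | l0 ++ [a] ∈ T ∧ ∃ b, b < k ∧ g (l0 ++ [a]) = g l0 ++ [b]}.Finite := by
      have h1 : ((fun b => g l0 ++ [b]) '' (Iio k)).Finite := (finite_Iio k).image _
      apply Set.Finite.of_finite_image (f := fun a => g (l0 ++ [a])) (h1.subset ?_)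
      · intro a ha b hb hab
        have := h.inj ha.1 hb.1 hab
        simpa using this
      · rintro _ ⟨a, ⟨_, b, hb, he⟩, rfl⟩
        exact ⟨b, hb, he.symm⟩
    obtain ⟨N, hN⟩ := hfin.bddAbove
    refine ⟨opn l0 ∩ ⋂ a ∈ Finset.range (N + 1), (cell (l0 ++ [a]))ᶜ, ?_, ?_, pt (g l0), ?_⟩
    · apply (isOpen_opn l0).inter
      apply isOpen_biInter_finset
      intro a _
      exact (isClosed_cell _).isOpen_compl
    · refine ⟨cell_subset_opn _ (pt_mem_cell l0), ?_⟩
      simp only [Finset.mem_range, mem_iInter, mem_compl_iff]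
      intro a _ hmem
      rw [pt_mem_cell_iff] at hmem
      have := hmem.length_le
      simp at this
    · rintro l hl ⟨hU1, hU2⟩
      have h1 : l0 <+: l := (pt_mem_cell_iff l0 l).mp
        ((mem_cell_iff_opn (tsp_sub_univ T (pt_mem_tsp hl))).mpr hU1)
      obtain ⟨t, rfl⟩ := h1
      cases t with
      | nil =>
        simp only [List.append_nil, sub_self, abs_zero]
        exact hε.le
      | cons a t =>
        have h2 : l0 ++ [a] <+: l0 ++ a :: t := ⟨t, by simp⟩
        have h3 : l0 ++ [a] ∈ T := hT.initial h2 hl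
        obtain ⟨b, hb⟩ := h.step _ _ h3
        have h4 : N + 1 ≤ a := by
          by_contra hlt2
          simp only [Finset.mem_range, mem_iInter, mem_compl_iff] at hU2
          exact hU2 a (by omega) ((pt_mem_cell_iff _ _).mpr h2)
        have h5 : k ≤ b := by
          by_contra hlt2
          have := hN ⟨h3, b, by omega, hb⟩
          omega
        have h6 : g (l0 ++ [a]) <+: g (l0 ++ a :: t) := h.initial hT h2 hl
        rw [hb] at h6
        have h7 := child_dist ((pt_mem_cell_iff _ _).mpr h6)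
        exact (h7.trans (third_anti h5)).trans hk.le
  · refine ⟨opn l0, isOpen_opn l0, cell_subset_opn _ hc, pt (g l0), ?_⟩
    intro l hl hU
    have h1 : l0 <+: l := (pt_mem_cell_iff l0 l).mp
      ((mem_cell_iff_opn (tsp_sub_univ T (pt_mem_tsp hl))).mpr hU)
    have h6 : g l0 <+: g l := h.initial hT h1 hl
    have h7 := cell_dist ((pt_mem_cell_iff _ _).mpr h6) (pt_mem_cell (g l0))
    rw [h.len _ hl0, hlen] at h7
    exact h7.trans hk.le

/-- the graph -/
def gam (T : Set (List ℕ)) (g : List ℕ → List ℕ) : Set (ℝ × ℝ) :=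
  closure ((fun l => (pt l, pt (g l))) '' T)

theorem TMap.gam_fst {T T' : Set (List ℕ)} {g : List ℕ → List ℕ} (hT : IsTree T)
    (h : TMap T T' g) {x y y' : ℝ} (h1 : (x, y) ∈ gam T g) (h2 : (x, y') ∈ gam T g) : y = y' := by
  have hx : x ∈ tsp T := by
    have : Prod.fst '' gam T g ⊆ tsp T := by
      refine (image_closure_subset_closure_image continuous_fst).trans ?_
      apply closure_mono
      rintro _ ⟨_, ⟨l, hl, rfl⟩, rfl⟩
      exact ⟨l, hl, rfl⟩
    exact this ⟨_, h1, rfl⟩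
  by_contra hne
  have hpos : 0 < |y - y'| := abs_pos.mpr (sub_ne_zero.mpr hne)
  obtain ⟨U, hU, hxU, c, hc⟩ := h.osc hT hx (ε := |y - y'| / 8) (by linarith)
  have key : ∀ z, (x, z) ∈ gam T g → |z - c| ≤ |y - y'| / 4 := by
    intro z hz
    obtain ⟨_, ⟨hz1, hz2⟩, ⟨l, hl, rfl⟩⟩ := mem_closure_iff.mp hz
      (U ×ˢ Metric.ball z (|y - y'| / 8)) (hU.prod Metric.isOpen_ball)
      ⟨hxU, Metric.mem_ball_self (by linarith)⟩
    have h3 := hc l hl hz1
    have h4 : |pt (g l) - z| < |y - y'| / 8 := by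
      simpa [Metric.mem_ball, Real.dist_eq] using hz2
    calc |z - c| = |(pt (g l) - c) - (pt (g l) - z)| := by congr 1; ring
      _ ≤ |pt (g l) - c| + |pt (g l) - z| := abs_sub _ _
      _ ≤ |y - y'| / 4 := by linarith
  have e1 := key y h1
  have e2 := key y' h2
  have : |y - y'| ≤ |y - c| + |y' - c| := by
    calc |y - y'| = |(y - c) - (y' - c)| := by congr 1; ring
      _ ≤ _ := abs_sub _ _
  linarith

theorem TMap.symm {T T' : Set (List ℕ)} {g : List ℕ → List ℕ} (hT : IsTree T)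
    (h : TMap T T' g) : ∃ g', TMap T' T g' ∧ (∀ l ∈ T, g' (g l) = l) ∧ ∀ m ∈ T', g (g' m) = m := by
  classical
  choose! g' h1 h2 using h.surj
  have h3 : ∀ l ∈ T, g' (g l) = l := by
    intro l hl
    exact h.inj (h1 _ (h.maps l hl)) hl (h2 _ (h.maps l hl))
  refine ⟨g', ⟨h1, ?_, ?_, ?_, ?_⟩, h3, h2⟩
  · intro l hl
    exact ⟨g l, h.maps l hl, h3 l hl⟩
  · intro m hm m' hm' he
    rw [← h2 m hm, ← h2 m' hm', he]
  · intro m hm
    rw [← h.len _ (h1 m hm), h2 m hm]
  · intro m b hm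
    have e1 := h1 _ hm
    have e2 := h2 _ hm
    have e3 : (g' (m ++ [b])).length = m.length + 1 := by
      rw [← h.len _ e1, e2]
      simp
    obtain ⟨l, a, hl⟩ : ∃ l a, g' (m ++ [b]) = l ++ [a] := by
      rcases List.eq_nil_or_concat (g' (m ++ [b])) with h0 | ⟨l, a, h0⟩
      · rw [h0] at e3
        simp at e3
      · exact ⟨l, a, by simpa using h0⟩
    rw [hl] at e1 e2
    obtain ⟨b', hb'⟩ := h.step _ _ e1
    rw [hb'] at e2
    obtain ⟨e4, _⟩ := List.append_inj' e2 rfl
    refine ⟨a, ?_⟩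
    rw [hl, ← e4, h3 _ (hT.init _ _ e1)]

/-- isomorphic trees have homeomorphic tree spaces -/
theorem tsp_homeo {T T' : Set (List ℕ)} {g : List ℕ → List ℕ} (hT : IsTree T) (hT' : IsTree T')
    (h : TMap T T' g) : Nonempty (tsp T ≃ₜ tsp T') := by
  obtain ⟨g', hg', h3, h2⟩ := h.symm hT
  have hsub : gam T g ⊆ Icc 0 1 ×ˢ Icc 0 1 := by
    apply closure_minimal _ (isClosed_Icc.prod isClosed_Icc)
    rintro _ ⟨l, _, rfl⟩
    exact ⟨pt_mem_Icc l, pt_mem_Icc _⟩
  have hcomp : IsCompact (gam T g) :=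
    (isCompact_Icc.prod isCompact_Icc).of_isClosed_subset isClosed_closure hsub
  have hfst : Prod.fst '' gam T g = tsp T := by
    apply subset_antisymm
    · refine (image_closure_subset_closure_image continuous_fst).trans ?_
      apply closure_mono
      rintro _ ⟨_, ⟨l, hl, rfl⟩, rfl⟩
      exact ⟨l, hl, rfl⟩
    · apply closure_minimal _ (hcomp.image continuous_fst).isClosed
      rintro _ ⟨l, hl, rfl⟩
      exact ⟨_, subset_closure ⟨l, hl, rfl⟩, rfl⟩
  have hsnd : Prod.snd '' gam T g = tsp T' := by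
    apply subset_antisymm
    · refine (image_closure_subset_closure_image continuous_snd).trans ?_
      apply closure_mono
      rintro _ ⟨_, ⟨l, hl, rfl⟩, rfl⟩
      exact ⟨g l, h.maps l hl, rfl⟩
    · apply closure_minimal _ (hcomp.image continuous_snd).isClosed
      rintro _ ⟨m, hm, rfl⟩
      obtain ⟨l, hl, rfl⟩ := h.surj m hm
      exact ⟨_, subset_closure ⟨l, hl, rfl⟩, rfl⟩
  have hswap : ∀ p ∈ gam T g, p.swap ∈ gam T' g' := by
    have : Prod.swap '' gam T g ⊆ gam T' g' := by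
      refine (image_closure_subset_closure_image continuous_swap).trans ?_
      apply closure_mono
      rintro _ ⟨_, ⟨l, hl, rfl⟩, rfl⟩
      refine ⟨g l, h.maps l hl, ?_⟩
      simp only [Prod.swap_prod_mk]
      rw [h3 l hl]
    intro p hp
    exact this ⟨p, hp, rfl⟩
  have : CompactSpace (gam T g) := isCompact_iff_compactSpace.mp hcomp
  let p1 : gam T g → tsp T := fun p => ⟨p.1.1, by rw [← hfst]; exact ⟨p.1, p.2, rfl⟩⟩
  let p2 : gam T g → tsp T' := fun p => ⟨p.1.2, by rw [← hsnd]; exact ⟨p.1, p.2, rfl⟩⟩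
  have c1 : Continuous p1 := by
    apply Continuous.subtype_mk
    fun_prop
  have c2 : Continuous p2 := by
    apply Continuous.subtype_mk
    fun_prop
  have b1 : Function.Bijective p1 := by
    constructor
    · rintro ⟨⟨x, y⟩, hp⟩ ⟨⟨x', y'⟩, hp'⟩ he
      have hx : x = x' := congrArg Subtype.val he
      subst hx
      have hy := h.gam_fst hT hp hp'
      subst hy
      rfl
    · rintro ⟨x, hx⟩
      rw [← hfst] at hx
      obtain ⟨p, hp, rfl⟩ := hx
      exact ⟨⟨p, hp⟩, rfl⟩
  have b2 : Function.Bijective p2 := by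
    constructor
    · rintro ⟨⟨x, y⟩, hp⟩ ⟨⟨x', y'⟩, hp'⟩ he
      have hy : y = y' := congrArg Subtype.val he
      subst hy
      have f1 : (y, x) ∈ gam T' g' := hswap _ hp
      have f2 : (y, x') ∈ gam T' g' := hswap _ hp'
      have hx := hg'.gam_fst hT' f1 f2
      subst hx
      rfl
    · rintro ⟨x, hx⟩
      rw [← hsnd] at hx
      obtain ⟨p, hp, rfl⟩ := hx
      exact ⟨⟨p, hp⟩, rfl⟩
  have e1 : gam T g ≃ₜ tsp T := Continuous.homeoOfEquivCompactToT2 (f := Equiv.ofBijective p1 b1) c1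
  have e2 : gam T g ≃ₜ tsp T' := Continuous.homeoOfEquivCompactToT2 (f := Equiv.ofBijective p2 b2) c2
  exact ⟨e1.symm.trans e2⟩

/-! ## the trees with markers -/

/-- doubling the letters -/
def dbl (s : List ℕ) : List ℕ := s.map (2 * ·)

theorem dbl_inj : Function.Injective dbl := by
  apply List.map_injective_iff.mpr
  intro a b h
  simpa using h

theorem dbl_append (s t : List ℕ) : dbl (s ++ t) = dbl s ++ dbl t := by
  simp [dbl]

theorem dbl_single (a : ℕ) : dbl [a] = [2 * a] := rfl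

theorem dbl_length (s : List ℕ) : (dbl s).length = s.length := by simp [dbl]

theorem mem_plus {lab : ℕ → ℕ} {val : Set (List ℕ)} {l : List ℕ} :
    l ∈ plus lab val ↔ ∃ s ∈ val, l = dbl s ∨
      ∃ k w, l = dbl s ++ (2 * k + 1) :: w ∧ mark (ncode lab s) w := Iff.rfl

theorem mark_init {c : ℕ} {w : List ℕ} {a : ℕ} (h : mark c (w ++ [a])) : mark c w := by
  rcases w with _ | ⟨b, w⟩
  · exact Or.inl rfl
  · rcases h with h | ⟨j, w', h⟩ | ⟨j, w', h, hl⟩
    · simp at h
    · rw [List.cons_append, List.cons.injEq] at h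
      exact Or.inr (Or.inl ⟨j, w, by rw [h.1]⟩)
    · rw [List.cons_append, List.cons.injEq] at h
      refine Or.inr (Or.inr ⟨j, w, by rw [h.1], ?_⟩)
      rw [← h.2] at hl
      simp at hl
      omega

theorem plus_tree {lab : ℕ → ℕ} {val : Set (List ℕ)} (hv : IsTree val) : IsTree (plus lab val) := by
  constructor
  · exact mem_plus.mpr ⟨[], hv.nil, Or.inl rfl⟩
  · intro l a h
    rw [mem_plus] at h ⊢
    obtain ⟨s, hs, h | ⟨k, w, h, hm⟩⟩ := h
    · rcases List.eq_nil_or_concat s with h0 | ⟨s0, b, h0⟩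
      · rw [h0] at h
        simp [dbl] at h
      · have h1 : s = s0 ++ [b] := by simpa using h0
        rw [h1, dbl_append, dbl_single] at h
        obtain ⟨h2, _⟩ := List.append_inj' h rfl
        rw [h1] at hs
        exact ⟨s0, hv.init _ _ hs, Or.inl h2⟩
    · rcases List.eq_nil_or_concat w with h0 | ⟨w0, b, h0⟩
      · rw [h0] at h
        obtain ⟨h2, _⟩ := List.append_inj' h rfl
        exact ⟨s, hs, Or.inl h2⟩
      · have h1 : w = w0 ++ [b] := by simpa using h0
        rw [h1] at h hm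
        have h2 : l ++ [a] = (dbl s ++ (2 * k + 1) :: w0) ++ [b] := by rw [h]; simp
        obtain ⟨h3, _⟩ := List.append_inj' h2 rfl
        exact ⟨s, hs, Or.inr ⟨k, w0, h3, mark_init hm⟩⟩

/-- the parsing of a list is unique -/
theorem parse_inj {s s' : List ℕ} {k k' : ℕ} {w w' : List ℕ}
    (h : dbl s ++ (2 * k + 1) :: w = dbl s' ++ (2 * k' + 1) :: w') : s = s' ∧ k = k' ∧ w = w' := by
  induction s generalizing s' with
  | nil =>
    cases s' with
    | nil =>
      simp only [dbl, List.map_nil, List.nil_append, List.cons.injEq] at h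
      exact ⟨rfl, by omega, h.2⟩
    | cons b s' =>
      simp only [dbl, List.map_nil, List.nil_append, List.map_cons, List.cons_append,
        List.cons.injEq] at h
      omega
  | cons a s ih =>
    cases s' with
    | nil =>
      simp only [dbl, List.map_nil, List.nil_append, List.map_cons, List.cons_append,
        List.cons.injEq] at h
      omega
    | cons b s' =>
      simp only [dbl, List.map_cons, List.cons_append, List.cons.injEq] at h
      obtain ⟨h1, h2, h3⟩ := ih h.2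
      exact ⟨by rw [h1, show a = b by omega], h2, h3⟩

theorem parse_ne {s s' : List ℕ} {k : ℕ} {w : List ℕ} : dbl s ≠ dbl s' ++ (2 * k + 1) :: w := by
  intro h
  have h1 : 2 * k + 1 ∈ dbl s := by
    rw [h]
    simp
  simp only [dbl, List.mem_map] at h1
  obtain ⟨a, _, ha⟩ := h1
  omega

/-- the induced map of trees with markers -/
def gm (f : ℕ → ℕ) : List ℕ → List ℕ
  | [] => []
  | a :: l => if a % 2 = 0 then (2 * f (a / 2)) :: gm f l else a :: l

theorem gm_dbl (f : ℕ → ℕ) (s t : List ℕ) : gm f (dbl s ++ t) = dbl (s.map f) ++ gm f t := by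
  induction s with
  | nil => rfl
  | cons a s ih =>
    have h1 : dbl (a :: s) ++ t = (2 * a) :: (dbl s ++ t) := rfl
    rw [h1]
    have h2 : gm f ((2 * a) :: (dbl s ++ t)) = (2 * f (2 * a / 2)) :: gm f (dbl s ++ t) := by
      rw [gm, if_pos (by omega)]
    rw [h2, ih, show 2 * a / 2 = a by omega]
    rfl

theorem gm_odd (f : ℕ → ℕ) (k : ℕ) (w : List ℕ) : gm f ((2 * k + 1) :: w) = (2 * k + 1) :: w := by
  rw [gm, if_neg (by omega)]

theorem gm_dbl' (f : ℕ → ℕ) (s : List ℕ) : gm f (dbl s) = dbl (s.map f) := by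
  have := gm_dbl f s []
  simpa [gm] using this

theorem gm_length (f : ℕ → ℕ) (l : List ℕ) : (gm f l).length = l.length := by
  induction l with
  | nil => rfl
  | cons a l ih =>
    rw [gm]
    split_ifs
    · simp [ih]
    · rfl

theorem gm_step (f : ℕ → ℕ) (l : List ℕ) (a : ℕ) : ∃ b, gm f (l ++ [a]) = gm f l ++ [b] := by
  induction l with
  | nil =>
    by_cases h : a % 2 = 0
    · exact ⟨2 * f (a / 2), by simp [gm, h]⟩
    · exact ⟨a, by simp [gm, h]⟩
  | cons c l ih =>
    obtain ⟨b, hb⟩ := ih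
    by_cases h : c % 2 = 0
    · refine ⟨b, ?_⟩
      rw [List.cons_append, gm, if_pos h, hb, gm, if_pos h]
      rfl
    · refine ⟨a, ?_⟩
      rw [List.cons_append, gm, if_neg h, gm, if_neg h]
      rfl

theorem map_injOn {f : ℕ → ℕ} {A : Set ℕ} (hf : InjOn f A) {s s' : List ℕ} (hs : ∀ a ∈ s, a ∈ A)
    (hs' : ∀ a ∈ s', a ∈ A) (h : s.map f = s'.map f) : s = s' := by
  induction s generalizing s' with
  | nil =>
    cases s' with
    | nil => rfl
    | cons b s' => simp at h
  | cons a s ih =>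
    cases s' with
    | nil => simp at h
    | cons b s' =>
      simp only [List.map_cons, List.cons.injEq] at h
      have h1 := hf (hs a (by simp)) (hs' b (by simp)) h.1
      have h2 := ih (fun c hc => hs c (by simp [hc])) (fun c hc => hs' c (by simp [hc])) h.2
      rw [h1, h2]

theorem ncode_map {lab f : ℕ → ℕ} {A : Set ℕ} (hl : ∀ a ∈ A, lab (f a) = lab a) {s : List ℕ}
    (hs : ∀ a ∈ s, a ∈ A) : ncode lab (s.map f) = ncode lab s := by
  unfold ncode
  rw [List.length_map]
  congr 1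
  rcases List.eq_nil_or_concat s with h0 | ⟨s0, b, h0⟩
  · rw [h0]
    rfl
  · have h1 : s = s0 ++ [b] := by simpa using h0
    rw [h1] at hs ⊢
    simp only [List.map_append, List.map_cons, List.map_nil, List.getLast?_append,
      List.getLast?_singleton, Option.some_or]
    exact hl b (hs b (by simp))

/-- A2 -/
theorem treeIso : TreeIso := by
  intro lab val hval f A hf hA hlab
  have hval' : IsTree (List.map f '' val) := by
    constructor
    · exact ⟨[], hval.nil, rfl⟩
    · rintro l a ⟨s, hs, h⟩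
      rcases List.eq_nil_or_concat s with h0 | ⟨s0, b, h0⟩
      · rw [h0] at h
        simp at h
      · have h1 : s = s0 ++ [b] := by simpa using h0
        rw [h1, List.map_append] at h
        obtain ⟨h2, _⟩ := List.append_inj' h rfl
        rw [h1] at hs
        exact ⟨s0, hval.init _ _ hs, h2⟩
  apply tsp_homeo (plus_tree hval) (plus_tree hval') (g := gm f)
  refine ⟨?_, ?_, ?_, fun l _ => gm_length f l, fun l a _ => gm_step f l a⟩
  · intro l hl
    rw [mem_plus] at hl ⊢
    obtain ⟨s, hs, h | ⟨k, w, h, hm⟩⟩ := hl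
    · exact ⟨s.map f, ⟨s, hs, rfl⟩, Or.inl (by rw [h, gm_dbl'])⟩
    · refine ⟨s.map f, ⟨s, hs, rfl⟩, Or.inr ⟨k, w, by rw [h, gm_dbl, gm_odd], ?_⟩⟩
      rw [ncode_map hlab (hA s hs)]
      exact hm
  · intro m hm
    rw [mem_plus] at hm
    obtain ⟨_, ⟨s, hs, rfl⟩, h | ⟨k, w, h, hmk⟩⟩ := hm
    · exact ⟨dbl s, mem_plus.mpr ⟨s, hs, Or.inl rfl⟩, by rw [h, gm_dbl']⟩
    · refine ⟨dbl s ++ (2 * k + 1) :: w, mem_plus.mpr ⟨s, hs, Or.inr ⟨k, w, rfl, ?_⟩⟩,
        by rw [h, gm_dbl, gm_odd]⟩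
      rw [ncode_map hlab (hA s hs)] at hmk
      exact hmk
  · intro l hl m hm h
    rw [mem_plus] at hl hm
    obtain ⟨s, hs, h1 | ⟨k, w, h1, _⟩⟩ := hl
    · obtain ⟨s', hs', h2 | ⟨k', w', h2, _⟩⟩ := hm
      · rw [h1, h2, gm_dbl', gm_dbl'] at h
        rw [h1, h2, map_injOn hf (hA s hs) (hA s' hs') (dbl_inj h)]
      · rw [h1, h2, gm_dbl', gm_dbl, gm_odd] at h
        exact absurd h parse_ne
    · obtain ⟨s', hs', h2 | ⟨k', w', h2, _⟩⟩ := hm
      · rw [h1, h2, gm_dbl', gm_dbl, gm_odd] at h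
        exact absurd h.symm parse_ne
      · rw [h1, h2, gm_dbl, gm_odd, gm_dbl, gm_odd] at h
        obtain ⟨e1, e2, e3⟩ := parse_inj h
        rw [h1, h2, map_injOn hf (hA s hs) (hA s' hs') e1, e2, e3]

end Pool.Agent.Work.MP_252c1e_lc
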