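import Pool.Agent.Work.MP_252c1e_lc.A0

/-!
# MP_252c1e_lc, block A: the tree space depends on the tree in a Borel way
-/

open Set Topology TopologicalSpace Filter

namespace Pool.Agent.Work.MP_252c1e_lc

/-- the finite set of points attached to a finite set of nodes -/
noncomputable def finPts (S : Finset (List ℕ)) : NonemptyCompacts ℝ where
  carrier := pt '' (insert [] (S : Set (List ℕ)))
  isCompact' := ((S.finite_toSet.insert _).image _).isCompact
  nonempty' := ⟨pt [], [], Or.inl rfl, rfl⟩

/-- A4 -/
theorem tspMeasurable : TspMeasurable := by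
  classical
  intro Z _ T hT hmeas F hF
  letI : MeasurableSpace Z := borel Z
  letI : MeasurableSpace (NonemptyCompacts ℝ) := borel _
  haveI : BorelSpace (NonemptyCompacts ℝ) := ⟨rfl⟩
  obtain ⟨e, he⟩ := exists_surjective_nat (List ℕ)
  let S : ℕ → Z → Finset (List ℕ) := fun N z =>
    ((Finset.range N).image e).filter (fun l => l ∈ T z)
  letI : MeasurableSpace (Finset (List ℕ)) := ⊤
  have hS : ∀ N, Measurable (S N) := by
    intro N
    apply measurable_to_countable'
    intro y
    have : S N ⁻¹' {y} = ⋂ l ∈ ((Finset.range N).image e ∪ y),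
        {z | l ∈ y ↔ (l ∈ (Finset.range N).image e ∧ l ∈ T z)} := by
      ext z
      simp only [mem_preimage, mem_singleton_iff, mem_iInter, mem_setOf_eq, S]
      constructor
      · intro h l _
        rw [← h, Finset.mem_filter]
      · intro h
        ext l
        rw [Finset.mem_filter]
        by_cases hl : l ∈ (Finset.range N).image e ∪ y
        · exact (h l hl).symm
        · rw [Finset.mem_union, not_or] at hl
          exact ⟨fun h' => absurd h'.1 hl.1, fun h' => absurd h' hl.2⟩
    rw [this]
    apply Finset.measurableSet_biInter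
    intro l _
    by_cases h1 : l ∈ (Finset.range N).image e
    · by_cases h2 : l ∈ y
      · simp only [h1, h2, true_and, true_iff]
        exact hmeas l
      · simp only [h1, h2, true_and, false_iff]
        exact (hmeas l).compl
    · by_cases h2 : l ∈ y
      · simp only [h1, h2, false_and, iff_false, not_true_eq_false, setOf_false]
        exact MeasurableSet.empty
      · simp only [h1, h2, false_and, iff_false, not_false_eq_true, setOf_true]
        exact MeasurableSet.univ
  have hG : ∀ N, Measurable (fun z => finPts (S N z)) := by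
    intro N
    exact (measurable_from_top (f := finPts)).comp (hS N)
  refine measurable_of_tendsto_metrizable hG ?_
  rw [tendsto_pi_nhds]
  intro z
  rw [Metric.tendsto_atTop]
  intro ε hε
  have hcomp : IsCompact (tsp (T z)) := (tspBasic (T z)).1
  -- finite cover by balls around nodes
  have hcov : tsp (T z) ⊆ ⋃ l ∈ T z, Metric.ball (pt l) (ε / 2) := by
    intro x hx
    obtain ⟨_, ⟨l, hl, rfl⟩, hd⟩ := Metric.mem_closure_iff.mp hx (ε / 2) (by linarith)
    simp only [mem_iUnion, exists_prop]
    exact ⟨l, hl, hd⟩
  obtain ⟨t, ht, htfin, htcov⟩ := hcomp.elim_finite_subcover_image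
    (fun l _ => Metric.isOpen_ball) hcov
  have hidx : ∃ N, ∀ l ∈ t, ∃ i < N, e i = l := by
    choose! i hi using fun l : List ℕ => he l
    obtain ⟨M, hM⟩ := (htfin.image i).bddAbove
    refine ⟨M + 1, fun l hl => ⟨i l, ?_, hi l⟩⟩
    have := hM ⟨l, hl, rfl⟩
    omega
  obtain ⟨N, hN⟩ := hidx
  refine ⟨N, fun n hn => ?_⟩
  rw [Metric.NonemptyCompacts.dist_eq]
  refine lt_of_le_of_lt (Metric.hausdorffDist_le_of_mem_dist (r := ε / 2) (by linarith) ?_ ?_)
    (by linarith)
  · rintro _ ⟨l, hl, rfl⟩
    refine ⟨pt l, ?_, by rw [dist_self]; linarith⟩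
    rw [hF z]
    rcases hl with h | h
    · rw [h]
      exact pt_mem_tsp (hT z).nil
    · have h1 : l ∈ S n z := h
      rw [Finset.mem_filter] at h1
      exact pt_mem_tsp h1.2
  · intro x hx
    rw [hF z] at hx
    have := htcov hx
    simp only [mem_iUnion, exists_prop] at this
    obtain ⟨l, hl, hd⟩ := this
    refine ⟨pt l, ⟨l, Or.inr ?_, rfl⟩, le_of_lt hd⟩
    have h1 : l ∈ S n z := by
      rw [Finset.mem_filter, Finset.mem_image]
      obtain ⟨i, hi, hil⟩ := hN l hl
      exact ⟨⟨i, Finset.mem_range.mpr (by omega), hil⟩, ht hl⟩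
    exact h1

end Pool.Agent.Work.MP_252c1e_lc
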