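import Pool.Agent.Work.MP_252c1e_lc.A1

/-!
# MP_252c1e_lc, block A: decoding the tree from the topology
-/

open Set Topology TopologicalSpace

namespace Pool.Agent.Work.MP_252c1e_lc

/-! ## topological invariants -/

/-- A family of subsets of all spaces invariant under homeomorphisms. -/
def Invar (P : ∀ (X : Type) [TopologicalSpace X], Set X) : Prop :=
  ∀ (X X' : Type) [TopologicalSpace X] [TopologicalSpace X'] (e : X ≃ₜ X') (x : X),
    x ∈ P X → e x ∈ P X'

theorem Invar.iff {P : ∀ (X : Type) [TopologicalSpace X], Set X} (h : Invar P)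
    {X X' : Type} [TopologicalSpace X] [TopologicalSpace X'] (e : X ≃ₜ X') (x : X) :
    e x ∈ P X' ↔ x ∈ P X := by
  constructor
  · intro hx
    have := h X' X e.symm (e x) hx
    rwa [e.symm_apply_apply] at this
  · exact h X X' e x

theorem Invar.preimage {P : ∀ (X : Type) [TopologicalSpace X], Set X} (h : Invar P)
    {X X' : Type} [TopologicalSpace X] [TopologicalSpace X'] (e : X ≃ₜ X') :
    e ⁻¹' (P X') = P X := by
  ext x
  exact h.iff e x

/-- isolated points -/
def isoS (X : Type) [TopologicalSpace X] : Set X := {x | IsOpen ({x} : Set X)}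

/-- closure of the isolated points -/
def yS (X : Type) [TopologicalSpace X] : Set X := closure (isoS X)

/-- the part of `yS` in the closure of its complement -/
def mS (X : Type) [TopologicalSpace X] : Set X := yS X ∩ closure (yS X)ᶜ

/-- Cantor-Bendixson rank at most `h` inside `yS` -/
def rkS : ℕ → ∀ (X : Type) [TopologicalSpace X], Set X
  | 0, X, _ => {y | ∃ O : Set X, IsOpen O ∧ y ∈ O ∧ ∀ y' ∈ O, y' ∈ yS X → y' = y}
  | h + 1, X, _ => {y | ∃ O : Set X, IsOpen O ∧ y ∈ O ∧ ∀ y' ∈ O, y' ∈ yS X → y' ≠ y →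
      y' ∈ rkS h X}

/-- points isolated in `mS` -/
def mIso (X : Type) [TopologicalSpace X] : Set X :=
  {y | ∃ O : Set X, IsOpen O ∧ y ∈ O ∧ ∀ y' ∈ O, y' ∈ mS X → y' = y}

/-- marker roots of code `c` -/
def mrS (c : ℕ) (X : Type) [TopologicalSpace X] : Set X :=
  {x | x ∈ mS X ∧ x ∈ mIso X ∧ x ∈ rkS (c + 1) X ∧ x ∉ rkS c X}

/-- limits of marker roots of code `c` -/
def accS (c : ℕ) (X : Type) [TopologicalSpace X] : Set X := closure (mrS c X)

/-- control nodes of code `c` -/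
def ctlS (c : ℕ) (X : Type) [TopologicalSpace X] : Set X :=
  {x | x ∈ accS c X ∧ x ∉ mIso X ∧ ∀ c', x ∈ accS c' X →
    c' = c ∨ (Nat.unpair c).1 < (Nat.unpair c').1}

theorem invar_closure {P : ∀ (X : Type) [TopologicalSpace X], Set X} (h : Invar P) :
    Invar (fun X _ => closure (P X)) := by
  intro X X' _ _ e x hx
  have h1 : e ⁻¹' closure (P X') = closure (P X) := by
    rw [e.preimage_closure, h.preimage e]
  have hx' : x ∈ closure (P X) := hx
  rw [← h1] at hx'
  exact hx'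

theorem invar_iso : Invar (fun X _ => isoS X) := by
  intro X X' _ _ e x hx
  have h1 : ({e x} : Set X') = e '' {x} := by rw [image_singleton]
  change IsOpen ({e x} : Set X')
  rw [h1]
  exact e.isOpenMap _ hx

theorem invar_y : Invar (fun X _ => yS X) := invar_closure invar_iso

theorem invar_m : Invar (fun X _ => mS X) := by
  intro X X' _ _ e x hx
  refine ⟨invar_y X X' e x hx.1, ?_⟩
  have h2 : Invar (fun X _ => (yS X)ᶜ) := by
    intro X X' _ _ e x hx h
    exact hx ((invar_y.iff e x).mp h)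
  exact invar_closure h2 X X' e x hx.2

theorem invar_rk (h : ℕ) : Invar (fun X _ => rkS h X) := by
  induction h with
  | zero =>
    rintro X X' _ _ e x ⟨O, hO, hx, hy⟩
    refine ⟨e '' O, e.isOpenMap _ hO, ⟨x, hx, rfl⟩, ?_⟩
    rintro _ ⟨y, hyO, rfl⟩ hyY
    rw [hy y hyO ((invar_y.iff e y).mp hyY)]
  | succ h ih =>
    rintro X X' _ _ e x ⟨O, hO, hx, hy⟩
    refine ⟨e '' O, e.isOpenMap _ hO, ⟨x, hx, rfl⟩, ?_⟩
    rintro _ ⟨y, hyO, rfl⟩ hyY hne
    exact ih X X' e y (hy y hyO ((invar_y.iff e y).mp hyY) (fun h => hne (by rw [h])))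

theorem invar_mIso : Invar (fun X _ => mIso X) := by
  rintro X X' _ _ e x ⟨O, hO, hx, hy⟩
  refine ⟨e '' O, e.isOpenMap _ hO, ⟨x, hx, rfl⟩, ?_⟩
  rintro _ ⟨y, hyO, rfl⟩ hyY
  rw [hy y hyO ((invar_m.iff e y).mp hyY)]

theorem invar_mr (c : ℕ) : Invar (fun X _ => mrS c X) := by
  intro X X' _ _ e x hx
  refine ⟨invar_m X X' e x hx.1, invar_mIso X X' e x hx.2.1, invar_rk _ X X' e x hx.2.2.1, ?_⟩
  intro h
  exact hx.2.2.2 (((invar_rk c).iff e x).mp h)

theorem invar_acc (c : ℕ) : Invar (fun X _ => accS c X) := invar_closure (invar_mr c)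

theorem invar_ctl (c : ℕ) : Invar (fun X _ => ctlS c X) := by
  intro X X' _ _ e x hx
  refine ⟨invar_acc c X X' e x hx.1, ?_, ?_⟩
  · intro h
    exact hx.2.1 ((invar_mIso.iff e x).mp h)
  · intro c' h
    exact hx.2.2 c' (((invar_acc c').iff e x).mp h)

/-! ## cells of the subspace -/

section cells

variable {T : Set (List ℕ)}

/-- the trace of a cell -/
def cX (T : Set (List ℕ)) (l : List ℕ) : Set (tsp T) := {x | (x : ℝ) ∈ cell l}

/-- a node as a point of the subspace -/
noncomputable def pX {l : List ℕ} (h : l ∈ T) : tsp T := ⟨pt l, pt_mem_tsp h⟩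

theorem isOpen_cX (l : List ℕ) : IsOpen (cX T l) := by
  have : cX T l = Subtype.val ⁻¹' opn l := by
    ext x
    exact mem_cell_iff_opn (tsp_sub_univ T x.2)
  rw [this]
  exact (isOpen_opn l).preimage continuous_subtype_val

theorem pX_mem {l m : List ℕ} (h : m ∈ T) : pX h ∈ cX T l ↔ l <+: m := pt_mem_cell_iff l m

theorem mem_of_cX (hT : IsTree T) {l : List ℕ} {x : tsp T} (h : x ∈ cX T l) : l ∈ T :=
  mem_of_cell hT x.2 h

theorem cX_mono {l m : List ℕ} (h : l <+: m) : cX T m ⊆ cX T l := fun _ hx => cell_mono h hx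

theorem cX_step {l : List ℕ} {x : tsp T} (h : x ∈ cX T l) :
    (x : ℝ) = pt l ∨ ∃ a, x ∈ cX T (l ++ [a]) := cell_step (tsp_sub_univ T x.2) h

theorem cX_comp {l m : List ℕ} {x : tsp T} (h : x ∈ cX T l) (h' : x ∈ cX T m) :
    l <+: m ∨ m <+: l := by
  rcases le_total l.length m.length with hle | hle
  · left
    have h1 : x ∈ cX T (m.take l.length) := cX_mono (List.take_prefix _ _) h'
    have h2 : l = m.take l.length := cell_unique (tsp_sub_univ T x.2) h h1 (by
      rw [List.length_take]; omega)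
    rw [h2]
    exact List.take_prefix _ _
  · right
    have h1 : x ∈ cX T (l.take m.length) := cX_mono (List.take_prefix _ _) h
    have h2 : m = l.take m.length := cell_unique (tsp_sub_univ T x.2) h' h1 (by
      rw [List.length_take]; omega)
    rw [h2]
    exact List.take_prefix _ _

theorem nbhd_node {l : List ℕ} (h : l ∈ T) {U : Set (tsp T)} (hU : IsOpen U) (hx : pX h ∈ U) :
    ∃ N, ∀ a, N ≤ a → cX T (l ++ [a]) ⊆ U := by
  obtain ⟨ε, hε, hball⟩ := Metric.isOpen_iff.mp hU _ hx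
  obtain ⟨N, hN⟩ := exists_pow_lt_of_lt_one hε (show (3 : ℝ)⁻¹ < 1 by norm_num)
  refine ⟨N, fun a ha y hy => hball ?_⟩
  rw [Metric.mem_ball, Subtype.dist_eq, Real.dist_eq]
  exact ((child_dist hy).trans (third_anti ha)).trans_lt hN

theorem nbhd_cell {x : tsp T} {U : Set (tsp T)} (hU : IsOpen U) (hx : x ∈ U) :
    ∃ k, ∀ l : List ℕ, k ≤ l.length → x ∈ cX T l → cX T l ⊆ U := by
  obtain ⟨ε, hε, hball⟩ := Metric.isOpen_iff.mp hU _ hx
  obtain ⟨N, hN⟩ := exists_pow_lt_of_lt_one hε (show (3 : ℝ)⁻¹ < 1 by norm_num)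
  refine ⟨N, fun l hl hxl y hy => hball ?_⟩
  rw [Metric.mem_ball, Subtype.dist_eq, Real.dist_eq]
  exact ((cell_dist hy hxl).trans (third_anti hl)).trans_lt hN

theorem ext_pX {l : List ℕ} (h : l ∈ T) {x : tsp T} (hx : (x : ℝ) = pt l) : x = pX h :=
  Subtype.ext hx

theorem pX_inj {l m : List ℕ} (h : l ∈ T) (h' : m ∈ T) (he : pX h = pX h') : l = m :=
  pt_inj (congrArg Subtype.val he)

end cells

/-! ## the structure of the space with markers -/

section plus

variable {lab : ℕ → ℕ} {val : Set (List ℕ)}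

/-- the list of a control node followed by an odd letter -/
def nd (s : List ℕ) (k : ℕ) (w : List ℕ) : List ℕ := dbl s ++ (2 * k + 1) :: w

theorem nd_inj {s s' : List ℕ} {k k' : ℕ} {w w' : List ℕ} (h : nd s k w = nd s' k' w') :
    s = s' ∧ k = k' ∧ w = w' := parse_inj h

theorem nd_append (s : List ℕ) (k : ℕ) (w t : List ℕ) : nd s k w ++ t = nd s k (w ++ t) := by
  simp [nd]

theorem nd_nil (s : List ℕ) (k : ℕ) : nd s k [] = dbl s ++ [2 * k + 1] := rfl

theorem dbl_mem {s : List ℕ} : dbl s ∈ plus lab val ↔ s ∈ val := by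
  rw [mem_plus]
  constructor
  · rintro ⟨s', hs', h | ⟨k, w, h, _⟩⟩
    · rw [dbl_inj h]; exact hs'
    · exact absurd h parse_ne
  · intro h
    exact ⟨s, h, Or.inl rfl⟩

theorem nd_mem {s : List ℕ} {k : ℕ} {w : List ℕ} :
    nd s k w ∈ plus lab val ↔ s ∈ val ∧ mark (ncode lab s) w := by
  rw [mem_plus]
  constructor
  · rintro ⟨s', hs', h | ⟨k', w', h, hm⟩⟩
    · exact absurd h.symm parse_ne
    · obtain ⟨rfl, rfl, rfl⟩ := nd_inj h
      exact ⟨hs', hm⟩
  · rintro ⟨hs, hm⟩
    exact ⟨s, hs, Or.inr ⟨k, w, rfl, hm⟩⟩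

theorem nd_prefix {s s' : List ℕ} {k k' : ℕ} {w w' : List ℕ} (h : nd s k w <+: nd s' k' w') :
    s = s' ∧ k = k' ∧ w <+: w' := by
  obtain ⟨t, ht⟩ := h
  rw [nd_append] at ht
  obtain ⟨h1, h2, h3⟩ := nd_inj ht
  exact ⟨h1, h2, ⟨t, h3⟩⟩

theorem nd_not_prefix {s s' : List ℕ} {k : ℕ} {w : List ℕ} : ¬ nd s k w <+: dbl s' := by
  rintro ⟨t, ht⟩
  rw [nd_append] at ht
  exact parse_ne ht.symm

theorem dbl_prefix {s s' : List ℕ} : dbl s <+: dbl s' → s <+: s' := by
  rintro ⟨t, ht⟩
  refine ⟨s'.drop s.length, ?_⟩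
  have h1 : dbl s' = dbl (s'.take s.length) ++ dbl (s'.drop s.length) := by
    rw [← dbl_append, List.take_append_drop]
  rw [h1] at ht
  have hlen : s.length ≤ s'.length := by
    have := congrArg List.length ht
    rw [List.length_append, List.length_append, dbl_length, dbl_length, dbl_length] at this
    rw [List.length_take, List.length_drop] at this
    omega
  have h2 := List.append_inj ht (by
    rw [dbl_length, dbl_length, List.length_take]; omega)
  have h3 : s = s'.take s.length := dbl_inj h2.1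
  calc s ++ s'.drop s.length = s'.take s.length ++ s'.drop s.length :=
        congrArg (· ++ s'.drop s.length) h3
    _ = s' := List.take_append_drop _ _

theorem dbl_prefix_nd {s s' : List ℕ} {k : ℕ} {w : List ℕ} (h : dbl s <+: nd s' k w)
    (hl : s.length ≤ s'.length) : s <+: s' := by
  apply dbl_prefix
  have h1 : dbl s' <+: nd s' k w := List.prefix_append _ _
  exact List.prefix_of_prefix_length_le h h1 (by rw [dbl_length, dbl_length]; exact hl)

theorem mark_any (c : ℕ) (w : List ℕ) (h : w.length ≤ c) (j : ℕ) : mark c ((2 * j + 1) :: w) :=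
  Or.inr (Or.inr ⟨j, w, rfl, h⟩)

theorem mark_even (c : ℕ) (w : List ℕ) (j : ℕ) : mark c ((2 * j) :: w) :=
  Or.inr (Or.inl ⟨j, w, rfl⟩)

theorem mark_odd {c : ℕ} {w : List ℕ} {j : ℕ} (h : mark c ((2 * j + 1) :: w)) : w.length ≤ c := by
  rcases h with h | ⟨j', w', h⟩ | ⟨j', w', h, hl⟩
  · simp at h
  · rw [List.cons.injEq] at h
    omega
  · rw [List.cons.injEq] at h
    rw [h.2]
    exact hl

/-- classification of the points -/
theorem classify (hv : IsTree val) (x : tsp (plus lab val)) :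
    (∃ s ∈ val, (x : ℝ) = pt (dbl s)) ∨
    (∃ s ∈ val, ∃ k, (x : ℝ) = pt (nd s k [])) ∨
    (∃ s ∈ val, ∃ k j, x ∈ cX _ (nd s k [2 * j])) ∨
    (∃ s ∈ val, ∃ k j w, w.length ≤ ncode lab s ∧ (x : ℝ) = pt (nd s k ((2 * j + 1) :: w))) ∨
    (∀ n, ∃ s ∈ val, s.length = n ∧ x ∈ cX _ (dbl s)) := by
  have hT : IsTree (plus lab val) := plus_tree hv
  have h1 : ∀ n, (∃ s ∈ val, (x : ℝ) = pt (dbl s)) ∨
      (∃ s ∈ val, ∃ k, x ∈ cX (plus lab val) (dbl s ++ [2 * k + 1])) ∨
      (∃ s ∈ val, s.length = n ∧ x ∈ cX (plus lab val) (dbl s)) := by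
    intro n
    induction n with
    | zero =>
      right; right
      refine ⟨[], hv.nil, rfl, ?_⟩
      change (x : ℝ) ∈ cell []
      rw [cell_nil]
      exact tsp_subset_Icc _ x.2
    | succ n ih =>
      rcases ih with h | h | ⟨s, hs, hl, hx⟩
      · exact Or.inl h
      · exact Or.inr (Or.inl h)
      · rcases cX_step hx with h0 | ⟨a, ha⟩
        · exact Or.inl ⟨s, hs, h0⟩
        · rcases Nat.even_or_odd' a with ⟨b, rfl | rfl⟩
          · right; right
            have h2 : dbl s ++ [2 * b] = dbl (s ++ [b]) := by rw [dbl_append, dbl_single]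
            rw [h2] at ha
            exact ⟨s ++ [b], dbl_mem.mp (mem_of_cX hT ha), by simp [hl], ha⟩
          · exact Or.inr (Or.inl ⟨s, hs, b, ha⟩)
  by_cases h2 : ∀ n, ∃ s ∈ val, s.length = n ∧ x ∈ cX (plus lab val) (dbl s)
  · exact Or.inr (Or.inr (Or.inr (Or.inr h2)))
  · obtain ⟨n, hn⟩ := not_forall.mp h2
    rcases h1 n with h | ⟨s, hs, k, hx⟩ | h
    · exact Or.inl h
    · right
      rcases cX_step hx with h0 | ⟨a, ha⟩
      · exact Or.inl ⟨s, hs, k, h0⟩
      · right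
        have h3 : dbl s ++ [2 * k + 1] ++ [a] = nd s k [a] := by simp [nd]
        rw [h3] at ha
        rcases Nat.even_or_odd' a with ⟨j, rfl | rfl⟩
        · exact Or.inl ⟨s, hs, k, j, ha⟩
        · right; left
          -- descend in the tree of finite height
          have h4 : ∀ m w, m + w.length = ncode lab s + 1 →
              x ∈ cX (plus lab val) (nd s k ((2 * j + 1) :: w)) →
              ∃ w', w'.length ≤ ncode lab s ∧ (x : ℝ) = pt (nd s k ((2 * j + 1) :: w')) := by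
            intro m
            induction m with
            | zero =>
              intro w hw hxw
              have := mark_odd (nd_mem.mp (mem_of_cX hT hxw)).2
              omega
            | succ m ih =>
              intro w hw hxw
              rcases cX_step hxw with h0 | ⟨a, ha⟩
              · exact ⟨w, by omega, h0⟩
              · rw [nd_append] at ha
                exact ih (w ++ [a]) (by simp; omega) ha
          obtain ⟨w', hw', hx'⟩ := h4 (ncode lab s + 1) [] (by simp) ha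
          exact ⟨s, hs, k, j, w', hw', hx'⟩
    · exact absurd h hn

/-- the union of the even cells -/
def evS (lab : ℕ → ℕ) (val : Set (List ℕ)) : Set (tsp (plus lab val)) :=
  {x | ∃ s ∈ val, ∃ k j, x ∈ cX _ (nd s k [2 * j])}

/-- the union of the odd cells -/
def odS (lab : ℕ → ℕ) (val : Set (List ℕ)) : Set (tsp (plus lab val)) :=
  {x | ∃ s ∈ val, ∃ k j, x ∈ cX _ (nd s k [2 * j + 1])}

theorem isOpen_evS : IsOpen (evS lab val) := by
  have : evS lab val = ⋃ s ∈ val, ⋃ k, ⋃ j, cX (plus lab val) (nd s k [2 * j]) := by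
    ext x
    simp [evS]
  rw [this]
  exact isOpen_biUnion fun s _ => isOpen_iUnion fun k => isOpen_iUnion fun j => isOpen_cX _

theorem isOpen_odS : IsOpen (odS lab val) := by
  have : odS lab val = ⋃ s ∈ val, ⋃ k, ⋃ j, cX (plus lab val) (nd s k [2 * j + 1]) := by
    ext x
    simp [odS]
  rw [this]
  exact isOpen_biUnion fun s _ => isOpen_iUnion fun k => isOpen_iUnion fun j => isOpen_cX _

theorem nd_sing_prefix {s : List ℕ} {k a : ℕ} {w : List ℕ} : nd s k [a] <+: nd s k (a :: w) := by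
  refine ⟨w, ?_⟩
  rw [nd_append]
  rfl

/-- isolated points are the leaves -/
theorem iso_imp (hv : IsTree val) {x : tsp (plus lab val)} (hx : x ∈ isoS _) :
    ∃ s ∈ val, ∃ k j w, w.length = ncode lab s ∧ (x : ℝ) = pt (nd s k ((2 * j + 1) :: w)) := by
  have hT : IsTree (plus lab val) := plus_tree hv
  have hx' : IsOpen ({x} : Set (tsp (plus lab val))) := hx
  -- a node with all large children in the tree is not isolated
  have key : ∀ (l : List ℕ) (h : l ∈ plus lab val), (x : ℝ) = pt l →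
      (∀ N, ∃ a, N ≤ a ∧ l ++ [a] ∈ plus lab val) → False := by
    intro l h he hch
    have h1 := ext_pX h he
    rw [h1] at hx'
    obtain ⟨N, hN⟩ := nbhd_node h hx' rfl
    obtain ⟨a, ha, hmem⟩ := hch N
    have h2 := hN a ha ((pX_mem hmem).mpr List.prefix_rfl)
    have h3 := pX_inj _ _ (mem_singleton_iff.mp h2)
    simp at h3
  rcases classify hv x with ⟨s, hs, he⟩ | ⟨s, hs, k, he⟩ | ⟨s, hs, k, j, hc⟩ |
      ⟨s, hs, k, j, w, hw, he⟩ | h
  · exact (key _ (dbl_mem.mpr hs) he (fun N => ⟨2 * N + 1, by omega,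
      nd_mem (w := []).mpr ⟨hs, Or.inl rfl⟩⟩)).elim
  · exact (key _ (nd_mem.mpr ⟨hs, Or.inl rfl⟩) he (fun N => ⟨2 * N, by omega, by
      rw [nd_append]; exact nd_mem.mpr ⟨hs, mark_even _ _ _⟩⟩)).elim
  · -- even cell
    exfalso
    by_cases hnode : ∃ l, (x : ℝ) = pt l
    · obtain ⟨l, he⟩ := hnode
      have hl : l ∈ plus lab val := (pt_mem_tsp_iff hT).mp (he ▸ x.2)
      have hc' : pX hl ∈ cX (plus lab val) (nd s k [2 * j]) := by
        rw [← ext_pX hl he]; exact hc
      obtain ⟨t, ht⟩ := (pX_mem hl).mp hc'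
      refine key l hl he (fun N => ⟨N, le_rfl, ?_⟩)
      rw [← ht, List.append_assoc, nd_append]
      exact nd_mem.mpr ⟨hs, mark_even _ _ _⟩
    · obtain ⟨n, hn⟩ := nbhd_cell hx' rfl
      have hcl : ∀ m, ∃ l ∈ plus lab val, l.length = m ∧ x ∈ cX (plus lab val) l := by
        intro m
        rcases tsp_class hT x.2 m with ⟨l, _, _, he⟩ | ⟨l, h1, h2, h3⟩
        · exact absurd ⟨l, he⟩ hnode
        · exact ⟨l, h1, h2, h3⟩
      obtain ⟨l, h1, h2, h3⟩ := hcl n
      have h4 := hn l h2.ge h3 ((pX_mem h1).mpr List.prefix_rfl)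
      exact hnode ⟨l, (congrArg Subtype.val (mem_singleton_iff.mp h4)).symm⟩
  · rcases hw.lt_or_eq with hlt | heq
    · exfalso
      refine key _ (nd_mem.mpr ⟨hs, mark_any _ _ hw _⟩) he (fun N => ⟨N, le_rfl, ?_⟩)
      rw [nd_append]
      exact nd_mem.mpr ⟨hs, mark_any _ (w ++ [N]) (by simp; omega) _⟩
    · exact ⟨s, hs, k, j, w, heq, he⟩
  · exfalso
    obtain ⟨n, hn⟩ := nbhd_cell hx' rfl
    obtain ⟨s, hs, hl, hxs⟩ := h n
    have h4 := hn _ (by rw [dbl_length, hl]) hxs
    have h5 := h4 ((pX_mem (dbl_mem.mpr hs)).mpr List.prefix_rfl)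
    have hm : nd s 0 [] ∈ plus lab val := nd_mem.mpr ⟨hs, Or.inl rfl⟩
    have h6 := h4 ((pX_mem hm).mpr (List.prefix_append _ _))
    have h7 := pX_inj _ _ ((mem_singleton_iff.mp h5).trans (mem_singleton_iff.mp h6).symm)
    exact parse_ne h7

theorem iso_of (hv : IsTree val) {s : List ℕ} (hs : s ∈ val) {k j : ℕ} {w : List ℕ}
    (hw : w.length = ncode lab s) {x : tsp (plus lab val)}
    (he : (x : ℝ) = pt (nd s k ((2 * j + 1) :: w))) : x ∈ isoS _ := by
  have hT : IsTree (plus lab val) := plus_tree hv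
  have hmem : nd s k ((2 * j + 1) :: w) ∈ plus lab val := nd_mem.mpr ⟨hs, mark_any _ _ hw.le _⟩
  have h1 : ({x} : Set (tsp (plus lab val))) = cX _ (nd s k ((2 * j + 1) :: w)) := by
    ext y
    rw [mem_singleton_iff]
    constructor
    · rintro rfl
      rw [ext_pX hmem he]
      exact (pX_mem hmem).mpr List.prefix_rfl
    · intro hy
      rcases cX_step hy with h0 | ⟨a, ha⟩
      · exact Subtype.ext (h0.trans he.symm)
      · exfalso
        rw [nd_append] at ha
        have h2 := mark_odd (w := w ++ [a]) (nd_mem.mp (mem_of_cX hT ha)).2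
        simp at h2
        omega
  change IsOpen ({x} : Set (tsp (plus lab val)))
  rw [h1]
  exact isOpen_cX _

/-- leaves below a node of an odd part -/
theorem leaf_below (hv : IsTree val) {s : List ℕ} (hs : s ∈ val) (k j : ℕ) {w : List ℕ}
    (hw : w.length ≤ ncode lab s) :
    ∃ y ∈ isoS (tsp (plus lab val)), y ∈ cX (plus lab val) (nd s k ((2 * j + 1) :: w)) := by
  let w' := w ++ List.replicate (ncode lab s - w.length) 0
  have hw' : w'.length = ncode lab s := by simp [w']; omega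
  have hmem : nd s k ((2 * j + 1) :: w') ∈ plus lab val := nd_mem.mpr ⟨hs, mark_any _ _ hw'.le _⟩
  refine ⟨pX hmem, iso_of hv hs hw' rfl, (pX_mem hmem).mpr ?_⟩
  refine ⟨List.replicate (ncode lab s - w.length) 0, ?_⟩
  rw [nd_append]
  rfl

theorem evS_prefix {s s' : List ℕ} {k k' j j' : ℕ} {w : List ℕ} :
    ¬ nd s k [2 * j] <+: nd s' k' ((2 * j' + 1) :: w) := by
  intro h
  obtain ⟨_, _, t, ht⟩ := nd_prefix h
  rw [List.cons_append, List.cons.injEq] at ht
  omega

theorem y_iff (hv : IsTree val) (x : tsp (plus lab val)) : x ∈ yS _ ↔ x ∉ evS lab val := by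
  constructor
  · rintro hx ⟨s, hs, k, j, hc⟩
    obtain ⟨y, hy1, hy2⟩ := mem_closure_iff.mp hx _ (isOpen_cX _) hc
    obtain ⟨s', hs', k', j', w, _, he⟩ := iso_imp hv hy2
    have h1 : nd s k [2 * j] <+: nd s' k' ((2 * j' + 1) :: w) := by
      rw [← pt_mem_cell_iff, ← he]
      exact hy1
    exact evS_prefix h1
  · intro hx
    change x ∈ closure _
    rw [mem_closure_iff]
    intro U hU hxU
    rcases classify hv x with ⟨s, hs, he⟩ | ⟨s, hs, k, he⟩ | h | ⟨s, hs, k, j, w, hw, he⟩ | h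
    · have hm : dbl s ∈ plus lab val := dbl_mem.mpr hs
      rw [ext_pX hm he] at hxU
      obtain ⟨N, hN⟩ := nbhd_node hm hU hxU
      obtain ⟨y, hy1, hy2⟩ := leaf_below hv hs N 0 (w := []) (by simp)
      refine ⟨y, hN (2 * N + 1) (by omega) (cX_mono ?_ hy2), hy1⟩
      rw [← nd_nil]
      exact ⟨[2 * 0 + 1], by rw [nd_append]; rfl⟩
    · have hm : nd s k [] ∈ plus lab val := nd_mem.mpr ⟨hs, Or.inl rfl⟩
      rw [ext_pX hm he] at hxU
      obtain ⟨N, hN⟩ := nbhd_node hm hU hxU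
      obtain ⟨y, hy1, hy2⟩ := leaf_below hv hs k N (w := []) (by simp)
      refine ⟨y, hN (2 * N + 1) (by omega) ?_, hy1⟩
      rw [nd_append]
      exact hy2
    · exact absurd h hx
    · rcases hw.lt_or_eq with hlt | heq
      · have hm : nd s k ((2 * j + 1) :: w) ∈ plus lab val := nd_mem.mpr ⟨hs, mark_any _ _ hw _⟩
        rw [ext_pX hm he] at hxU
        obtain ⟨N, hN⟩ := nbhd_node hm hU hxU
        obtain ⟨y, hy1, hy2⟩ := leaf_below hv hs k j (w := w ++ [N]) (by simp; omega)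
        refine ⟨y, hN N le_rfl ?_, hy1⟩
        rw [nd_append]
        exact hy2
      · exact ⟨x, hxU, iso_of hv hs heq he⟩
    · obtain ⟨n, hn⟩ := nbhd_cell hU hxU
      obtain ⟨s, hs, hl, hxs⟩ := h n
      obtain ⟨y, hy1, hy2⟩ := leaf_below hv hs 0 0 (w := []) (by simp)
      exact ⟨y, hn _ (by rw [dbl_length, hl]) hxs (cX_mono (List.prefix_append _ _) hy2), hy1⟩

theorem pt_dbl_not {s : List ℕ} (hs : dbl s ∈ plus lab val) :
    pX hs ∉ evS lab val ∧ pX hs ∉ odS lab val := by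
  constructor
  · rintro ⟨s', _, k, j, h⟩
    exact nd_not_prefix ((pX_mem hs).mp h)
  · rintro ⟨s', _, k, j, h⟩
    exact nd_not_prefix ((pX_mem hs).mp h)

theorem pt_nd_not {s : List ℕ} {k : ℕ} (hs : nd s k [] ∈ plus lab val) :
    pX hs ∉ evS lab val ∧ pX hs ∉ odS lab val := by
  constructor
  · rintro ⟨s', _, k', j, h⟩
    obtain ⟨_, _, t, ht⟩ := nd_prefix ((pX_mem hs).mp h)
    simp at ht
  · rintro ⟨s', _, k', j, h⟩
    obtain ⟨_, _, t, ht⟩ := nd_prefix ((pX_mem hs).mp h)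
    simp at ht

theorem branch_not {x : tsp (plus lab val)}
    (h : ∀ n, ∃ s ∈ val, s.length = n ∧ x ∈ cX (plus lab val) (dbl s)) :
    x ∉ evS lab val ∧ x ∉ odS lab val := by
  have key : ∀ s k w, x ∉ cX (plus lab val) (nd s k w) := by
    intro s k w hc
    obtain ⟨s', _, hl, hx⟩ := h ((nd s k w).length + 1)
    rcases cX_comp hc hx with h1 | h1
    · exact nd_not_prefix h1
    · have := h1.length_le
      rw [dbl_length] at this
      omega
  constructor
  · rintro ⟨s', _, k', j, h⟩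
    exact key _ _ _ h
  · rintro ⟨s', _, k', j, h⟩
    exact key _ _ _ h

theorem odS_disj {x : tsp (plus lab val)} (h : x ∈ odS lab val) : x ∉ evS lab val := by
  obtain ⟨s, _, k, j, h1⟩ := h
  rintro ⟨s', _, k', j', h2⟩
  rcases cX_comp h1 h2 with h3 | h3
  · obtain ⟨_, _, t, ht⟩ := nd_prefix h3
    rw [List.cons_append, List.cons.injEq] at ht
    omega
  · exact evS_prefix h3

theorem m_iff (hv : IsTree val) (x : tsp (plus lab val)) :
    x ∈ mS _ ↔ x ∉ evS lab val ∧ x ∉ odS lab val := by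
  have hy : (yS (tsp (plus lab val)))ᶜ = evS lab val := by
    ext y
    rw [mem_compl_iff, y_iff hv, not_not]
  unfold mS
  rw [mem_inter_iff, hy, y_iff hv]
  constructor
  · rintro ⟨h1, h2⟩
    refine ⟨h1, fun h3 => ?_⟩
    obtain ⟨y, hy1, hy2⟩ := mem_closure_iff.mp h2 _ isOpen_odS h3
    exact odS_disj hy1 hy2
  · rintro ⟨h1, h2⟩
    refine ⟨h1, ?_⟩
    rw [mem_closure_iff]
    intro U hU hxU
    rcases classify hv x with ⟨s, hs, he⟩ | ⟨s, hs, k, he⟩ | h | ⟨s, hs, k, j, w, hw, he⟩ | h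
    · have hm : dbl s ∈ plus lab val := dbl_mem.mpr hs
      rw [ext_pX hm he] at hxU
      obtain ⟨N, hN⟩ := nbhd_node hm hU hxU
      have hm2 : nd s N [2 * 0] ∈ plus lab val := nd_mem.mpr ⟨hs, mark_even _ _ _⟩
      refine ⟨pX hm2, hN (2 * N + 1) (by omega) ((pX_mem hm2).mpr ?_),
        s, hs, N, 0, (pX_mem hm2).mpr List.prefix_rfl⟩
      rw [← nd_nil]
      exact ⟨[2 * 0], by rw [nd_append]; rfl⟩
    · have hm : nd s k [] ∈ plus lab val := nd_mem.mpr ⟨hs, Or.inl rfl⟩
      rw [ext_pX hm he] at hxU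
      obtain ⟨N, hN⟩ := nbhd_node hm hU hxU
      have hm2 : nd s k [2 * N] ∈ plus lab val := nd_mem.mpr ⟨hs, mark_even _ _ _⟩
      refine ⟨pX hm2, hN (2 * N) (by omega) ((pX_mem hm2).mpr ?_),
        s, hs, k, N, (pX_mem hm2).mpr List.prefix_rfl⟩
      rw [nd_append]
      exact List.prefix_rfl
    · exact absurd h h1
    · exfalso
      apply h2
      have hm : nd s k ((2 * j + 1) :: w) ∈ plus lab val := nd_mem.mpr ⟨hs, mark_any _ _ hw _⟩
      refine ⟨s, hs, k, j, ?_⟩
      rw [ext_pX hm he]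
      exact (pX_mem hm).mpr nd_sing_prefix
    · obtain ⟨n, hn⟩ := nbhd_cell hU hxU
      obtain ⟨s, hs, hl, hxs⟩ := h n
      have hm2 : nd s 0 [2 * 0] ∈ plus lab val := nd_mem.mpr ⟨hs, mark_even _ _ _⟩
      exact ⟨pX hm2, hn _ (by rw [dbl_length, hl]) hxs
        ((pX_mem hm2).mpr (List.prefix_append _ _)), s, hs, 0, 0,
        (pX_mem hm2).mpr List.prefix_rfl⟩

theorem mIso_nd (hv : IsTree val) {s : List ℕ} {k : ℕ} (hs : s ∈ val)
    (hm : nd s k [] ∈ plus lab val) : pX hm ∈ mIso _ := by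
  refine ⟨cX _ (nd s k []), isOpen_cX _, (pX_mem hm).mpr List.prefix_rfl, ?_⟩
  intro y hy hyM
  rcases cX_step hy with h0 | ⟨a, ha⟩
  · exact ext_pX hm h0
  · exfalso
    rw [nd_append] at ha
    have h1 := (m_iff hv y).mp hyM
    rcases Nat.even_or_odd' a with ⟨j, rfl | rfl⟩
    · exact h1.1 ⟨s, hs, k, j, ha⟩
    · exact h1.2 ⟨s, hs, k, j, ha⟩

theorem mIso_dbl (hv : IsTree val) {s : List ℕ} (hs : s ∈ val)
    (hm : dbl s ∈ plus lab val) : pX hm ∉ mIso _ := by
  rintro ⟨U, hU, hxU, h⟩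
  obtain ⟨N, hN⟩ := nbhd_node hm hU hxU
  have hm2 : nd s N [] ∈ plus lab val := nd_mem.mpr ⟨hs, Or.inl rfl⟩
  have h1 := h (pX hm2) (hN (2 * N + 1) (by omega) ((pX_mem hm2).mpr List.prefix_rfl))
    ((m_iff hv _).mpr (pt_nd_not hm2))
  exact parse_ne (pX_inj _ _ h1).symm

theorem mIso_branch (hv : IsTree val) {x : tsp (plus lab val)}
    (h : ∀ n, ∃ s ∈ val, s.length = n ∧ x ∈ cX (plus lab val) (dbl s)) : x ∉ mIso _ := by
  rintro ⟨U, hU, hxU, h'⟩
  obtain ⟨n, hn⟩ := nbhd_cell hU hxU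
  obtain ⟨s, hs, hl, hxs⟩ := h n
  have hsub := hn _ (by rw [dbl_length, hl]) hxs
  have hm : dbl s ∈ plus lab val := dbl_mem.mpr hs
  have hm2 : nd s 0 [] ∈ plus lab val := nd_mem.mpr ⟨hs, Or.inl rfl⟩
  have h1 := h' _ (hsub ((pX_mem hm).mpr List.prefix_rfl)) ((m_iff hv _).mpr (pt_dbl_not hm))
  have h2 := h' _ (hsub ((pX_mem hm2).mpr (List.prefix_append _ _)))
    ((m_iff hv _).mpr (pt_nd_not hm2))
  exact parse_ne (pX_inj _ _ (h1.trans h2.symm))

/-- points of an odd part are nodes -/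
theorem odd_point (hv : IsTree val) {s : List ℕ} {k j : ℕ} {w : List ℕ}
    {x : tsp (plus lab val)} (hx : x ∈ cX _ (nd s k ((2 * j + 1) :: w))) :
    ∃ t, (w ++ t).length ≤ ncode lab s ∧ (x : ℝ) = pt (nd s k ((2 * j + 1) :: (w ++ t))) := by
  have hT : IsTree (plus lab val) := plus_tree hv
  have h4 : ∀ m t, m + (w ++ t).length = ncode lab s + 1 →
      x ∈ cX (plus lab val) (nd s k ((2 * j + 1) :: (w ++ t))) →
      ∃ t, (w ++ t).length ≤ ncode lab s ∧
        (x : ℝ) = pt (nd s k ((2 * j + 1) :: (w ++ t))) := by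
    intro m
    induction m with
    | zero =>
      intro t ht hxt
      have := mark_odd (nd_mem.mp (mem_of_cX hT hxt)).2
      omega
    | succ m ih =>
      intro t ht hxt
      rcases cX_step hxt with h0 | ⟨a, ha⟩
      · exact ⟨t, by omega, h0⟩
      · rw [nd_append] at ha
        have e : (2 * j + 1) :: (w ++ t) ++ [a] = (2 * j + 1) :: (w ++ (t ++ [a])) := by simp
        rw [e] at ha
        refine ih (t ++ [a]) ?_ ha
        rw [← List.append_assoc, List.length_append]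
        simp only [List.length_cons, List.length_nil]
        omega
  have hw := mark_odd (nd_mem.mp (mem_of_cX hT hx)).2
  refine h4 (ncode lab s + 1 - w.length) [] ?_ (by simpa using hx)
  simp only [List.append_nil]
  omega

theorem nd_mem_y (hv : IsTree val) {s : List ℕ} {k j : ℕ} {w : List ℕ}
    (hm : nd s k ((2 * j + 1) :: w) ∈ plus lab val) : pX hm ∈ yS _ := by
  rw [y_iff hv]
  rintro ⟨s', _, k', j', h⟩
  exact evS_prefix ((pX_mem hm).mp h)

theorem rk_odd (hv : IsTree val) {s : List ℕ} (hs : s ∈ val) {k j : ℕ} (h : ℕ) :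
    ∀ (w : List ℕ) (hm : nd s k ((2 * j + 1) :: w) ∈ plus lab val),
    pX hm ∈ rkS h _ ↔ ncode lab s ≤ h + w.length := by
  induction h with
  | zero =>
    intro w hm
    have hw := mark_odd (nd_mem.mp hm).2
    constructor
    · rintro ⟨U, hU, hxU, h⟩
      by_contra hlt
      obtain ⟨N, hN⟩ := nbhd_node hm hU hxU
      have hm2 : nd s k ((2 * j + 1) :: (w ++ [N])) ∈ plus lab val :=
        nd_mem.mpr ⟨hs, mark_any _ _ (by simp; omega) _⟩
      have h1 := h (pX hm2) (hN N le_rfl ((pX_mem hm2).mpr (by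
        rw [nd_append]; exact List.prefix_rfl))) (nd_mem_y hv hm2)
      obtain ⟨_, _, h3⟩ := nd_inj (pX_inj _ _ h1)
      simp at h3
    · intro hle
      have h1 : pX hm ∈ isoS (tsp (plus lab val)) := iso_of hv hs (by omega) rfl
      exact ⟨{pX hm}, h1, rfl, fun y hy _ => hy⟩
  | succ h ih =>
    intro w hm
    have hw := mark_odd (nd_mem.mp hm).2
    constructor
    · rintro ⟨U, hU, hxU, h'⟩
      by_contra hlt
      obtain ⟨N, hN⟩ := nbhd_node hm hU hxU
      have hm2 : nd s k ((2 * j + 1) :: (w ++ [N])) ∈ plus lab val :=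
        nd_mem.mpr ⟨hs, mark_any _ _ (by simp; omega) _⟩
      have h1 := h' (pX hm2) (hN N le_rfl ((pX_mem hm2).mpr (by
        rw [nd_append]; exact List.prefix_rfl))) (nd_mem_y hv hm2) (by
        intro he
        obtain ⟨_, _, h3⟩ := nd_inj (pX_inj _ _ he)
        simp at h3)
      rw [ih] at h1
      simp at h1
      omega
    · intro hle
      refine ⟨cX _ (nd s k ((2 * j + 1) :: w)), isOpen_cX _,
        (pX_mem hm).mpr List.prefix_rfl, ?_⟩
      intro y hy _ hne
      obtain ⟨t, ht1, ht2⟩ := odd_point hv hy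
      have hm2 : nd s k ((2 * j + 1) :: (w ++ t)) ∈ plus lab val :=
        nd_mem.mpr ⟨hs, mark_any _ _ ht1 _⟩
      rw [ext_pX hm2 ht2, ih]
      have htne : t ≠ [] := by
        rintro rfl
        apply hne
        apply Subtype.ext
        rw [ht2, List.append_nil]
        rfl
      have := List.length_pos_iff.mpr htne
      rw [List.length_append]
      omega

theorem rk_root_zero (hv : IsTree val) {s : List ℕ} (hs : s ∈ val) {k : ℕ}
    (hm : nd s k [] ∈ plus lab val) : pX hm ∉ rkS 0 _ := by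
  rintro ⟨U, hU, hxU, h⟩
  obtain ⟨N, hN⟩ := nbhd_node hm hU hxU
  have hm2 : nd s k [2 * N + 1] ∈ plus lab val := nd_mem.mpr ⟨hs, mark_any _ _ (by simp) _⟩
  have h1 := h (pX hm2) (hN (2 * N + 1) (by omega) ((pX_mem hm2).mpr (by
    rw [nd_append]; exact List.prefix_rfl))) (nd_mem_y hv hm2)
  obtain ⟨_, _, h3⟩ := nd_inj (pX_inj _ _ h1)
  simp at h3

theorem rk_root (hv : IsTree val) {s : List ℕ} (hs : s ∈ val) {k : ℕ} (h : ℕ)
    (hm : nd s k [] ∈ plus lab val) : pX hm ∈ rkS (h + 1) _ ↔ ncode lab s ≤ h := by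
  constructor
  · rintro ⟨U, hU, hxU, h'⟩
    obtain ⟨N, hN⟩ := nbhd_node hm hU hxU
    have hm2 : nd s k [2 * N + 1] ∈ plus lab val := nd_mem.mpr ⟨hs, mark_any _ _ (by simp) _⟩
    have h1 := h' (pX hm2) (hN (2 * N + 1) (by omega) ((pX_mem hm2).mpr (by
      rw [nd_append]; exact List.prefix_rfl))) (nd_mem_y hv hm2) (by
      intro he
      obtain ⟨_, _, h3⟩ := nd_inj (pX_inj _ _ he)
      simp at h3)
    rw [rk_odd hv hs] at h1
    simpa using h1
  · intro hle
    refine ⟨cX _ (nd s k []), isOpen_cX _, (pX_mem hm).mpr List.prefix_rfl, ?_⟩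
    intro y hy hyY hne
    rcases cX_step hy with h0 | ⟨a, ha⟩
    · exact absurd (ext_pX hm h0) hne
    · rw [nd_append] at ha
      rcases Nat.even_or_odd' a with ⟨j, rfl | rfl⟩
      · exact absurd ⟨s, hs, k, j, ha⟩ ((y_iff hv y).mp hyY)
      · obtain ⟨t, ht1, ht2⟩ := odd_point hv (w := []) ha
        have hm2 : nd s k ((2 * j + 1) :: ([] ++ t)) ∈ plus lab val :=
          nd_mem.mpr ⟨hs, mark_any _ _ ht1 _⟩
        rw [ext_pX hm2 ht2, rk_odd hv hs]
        omega

theorem mr_iff (hv : IsTree val) (c : ℕ) (x : tsp (plus lab val)) :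
    x ∈ mrS c _ ↔ ∃ s ∈ val, ∃ k, (x : ℝ) = pt (nd s k []) ∧ ncode lab s = c := by
  constructor
  · rintro ⟨h1, h2, h3, h4⟩
    rw [m_iff hv] at h1
    rcases classify hv x with ⟨s, hs, he⟩ | ⟨s, hs, k, he⟩ | h | ⟨s, hs, k, j, w, hw, he⟩ | h
    · have hm : dbl s ∈ plus lab val := dbl_mem.mpr hs
      rw [ext_pX hm he] at h2
      exact absurd h2 (mIso_dbl hv hs hm)
    · refine ⟨s, hs, k, he, ?_⟩
      have hm : nd s k [] ∈ plus lab val := nd_mem.mpr ⟨hs, Or.inl rfl⟩
      rw [ext_pX hm he] at h3 h4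
      rw [rk_root hv hs] at h3
      cases c with
      | zero => omega
      | succ c =>
        rw [rk_root hv hs] at h4
        omega
    · exact absurd h h1.1
    · exfalso
      have hm : nd s k ((2 * j + 1) :: w) ∈ plus lab val := nd_mem.mpr ⟨hs, mark_any _ _ hw _⟩
      refine h1.2 ⟨s, hs, k, j, ?_⟩
      rw [ext_pX hm he]
      exact (pX_mem hm).mpr nd_sing_prefix
    · exact absurd h2 (mIso_branch hv h)
  · rintro ⟨s, hs, k, he, rfl⟩
    have hm : nd s k [] ∈ plus lab val := nd_mem.mpr ⟨hs, Or.inl rfl⟩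
    rw [ext_pX hm he]
    refine ⟨(m_iff hv _).mpr (pt_nd_not hm), mIso_nd hv hs hm, (rk_root hv hs _ hm).mpr le_rfl, ?_⟩
    intro h
    rcases Nat.eq_zero_or_pos (ncode lab s) with h0 | h0
    · rw [h0] at h
      exact rk_root_zero hv hs hm h
    · obtain ⟨c, hc⟩ : ∃ c, ncode lab s = c + 1 := ⟨ncode lab s - 1, by omega⟩
      rw [hc, rk_root hv hs] at h
      omega

theorem unpair_ncode (s : List ℕ) : (Nat.unpair (ncode lab s)).1 = s.length := by
  unfold ncode
  rw [Nat.unpair_pair]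

/-- a limit of marker roots inside the cell of a control node -/
theorem acc_cell (hv : IsTree val) {c : ℕ} {x : tsp (plus lab val)} (hx : x ∈ accS c _)
    {s : List ℕ} (hxs : x ∈ cX (plus lab val) (dbl s)) :
    ∃ s' ∈ val, ncode lab s' = c ∧ (s <+: s' ∨ s'.length < s.length) ∧ s <+: s' := by
  obtain ⟨y, hy1, hy2⟩ := mem_closure_iff.mp hx _ (isOpen_cX _) hxs
  obtain ⟨s', hs', k, he, hc⟩ := (mr_iff hv c y).mp hy2
  have h1 : dbl s <+: nd s' k [] := by
    rw [← pt_mem_cell_iff, ← he]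
    exact hy1
  have h2 : s.length ≤ s'.length := by
    by_contra hlt
    have h3 := h1.length_le
    have h4 : (nd s' k []).length = s'.length + 1 := by simp [nd, dbl_length]
    rw [dbl_length, h4] at h3
    have h5 : dbl s = nd s' k [] := h1.eq_of_length (by rw [dbl_length, h4]; omega)
    exact parse_ne h5
  have h3 := dbl_prefix_nd h1 h2
  exact ⟨s', hs', hc, Or.inl h3, h3⟩

theorem m_closed (X : Type) [TopologicalSpace X] : IsClosed (mS X) :=
  isClosed_closure.inter isClosed_closure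

theorem ctl_iff (hv : IsTree val) (c : ℕ) (x : tsp (plus lab val)) :
    x ∈ ctlS c _ ↔ ∃ s ∈ val, (x : ℝ) = pt (dbl s) ∧ ncode lab s = c := by
  have hacc : ∀ s (hs : s ∈ val) (hm : dbl s ∈ plus lab val), pX hm ∈ accS (ncode lab s) _ := by
    intro s hs hm
    change _ ∈ closure _
    rw [mem_closure_iff]
    intro U hU hxU
    obtain ⟨N, hN⟩ := nbhd_node hm hU hxU
    have hm2 : nd s N [] ∈ plus lab val := nd_mem.mpr ⟨hs, Or.inl rfl⟩
    exact ⟨pX hm2, hN (2 * N + 1) (by omega) ((pX_mem hm2).mpr List.prefix_rfl),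
      (mr_iff hv _ _).mpr ⟨s, hs, N, rfl, rfl⟩⟩
  constructor
  · rintro ⟨h1, h2, h3⟩
    have hM : x ∈ mS _ := by
      have : accS c (tsp (plus lab val)) ⊆ mS _ :=
        closure_minimal (fun y hy => hy.1) (m_closed _)
      exact this h1
    rw [m_iff hv] at hM
    rcases classify hv x with ⟨s, hs, he⟩ | ⟨s, hs, k, he⟩ | h | ⟨s, hs, k, j, w, hw, he⟩ | h
    · refine ⟨s, hs, he, ?_⟩
      have hm : dbl s ∈ plus lab val := dbl_mem.mpr hs
      have hx := ext_pX hm he
      rw [hx] at h1 h3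
      rcases h3 _ (hacc s hs hm) with h4 | h4
      · exact h4
      · exfalso
        obtain ⟨s', _, hc, _, hpre⟩ := acc_cell hv h1 ((pX_mem hm).mpr List.prefix_rfl)
        rw [← hc, unpair_ncode, unpair_ncode] at h4
        have := hpre.length_le
        omega
    · exfalso
      have hm : nd s k [] ∈ plus lab val := nd_mem.mpr ⟨hs, Or.inl rfl⟩
      rw [ext_pX hm he] at h2
      exact h2 (mIso_nd hv hs hm)
    · exact absurd h hM.1
    · exfalso
      have hm : nd s k ((2 * j + 1) :: w) ∈ plus lab val := nd_mem.mpr ⟨hs, mark_any _ _ hw _⟩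
      refine hM.2 ⟨s, hs, k, j, ?_⟩
      rw [ext_pX hm he]
      exact (pX_mem hm).mpr nd_sing_prefix
    · exfalso
      obtain ⟨s, hs, hl, hxs⟩ := h ((Nat.unpair c).1 + 1)
      obtain ⟨s', _, hc, _, hpre⟩ := acc_cell hv h1 hxs
      have h5 := hpre.length_le
      rw [← hc, unpair_ncode] at hl
      omega
  · rintro ⟨s, hs, he, rfl⟩
    have hm : dbl s ∈ plus lab val := dbl_mem.mpr hs
    rw [ext_pX hm he]
    refine ⟨hacc s hs hm, mIso_dbl hv hs hm, ?_⟩
    intro c' hc'
    obtain ⟨s', _, hc, _, hpre⟩ := acc_cell hv hc' ((pX_mem hm).mpr List.prefix_rfl)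
    rcases hpre.length_le.lt_or_eq with h1 | h1
    · right
      rw [← hc, unpair_ncode, unpair_ncode]
      exact h1
    · left
      rw [← hc, hpre.eq_of_length h1]

end plus

/-- A3 -/
theorem treeDecode : TreeDecode := by
  intro lab val val' hval hval' _ _ ⟨H⟩
  have hnc : ∀ (s t : List ℕ) (a : ℕ) (b : ℕ), ncode lab (s ++ [a]) = ncode lab (t ++ [b]) →
      lab a = lab b ∧ s.length = t.length := by
    intro s t a b h
    unfold ncode at h
    have h1 := congrArg Nat.unpair h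
    rw [Nat.unpair_pair, Nat.unpair_pair, Prod.mk.injEq] at h1
    simp only [List.getLast?_append, List.getLast?_singleton, Option.some_or] at h1
    refine ⟨h1.2, ?_⟩
    have := h1.1
    simp at this
    exact this
  -- one direction for an arbitrary homeomorphism
  have key : ∀ (v v' : Set (List ℕ)) (hv : IsTree v) (hv' : IsTree v')
      (e : tsp (plus lab v) ≃ₜ tsp (plus lab v')) (s t : List ℕ) (hs : s ∈ v) (ht : t ∈ v')
      (hms : dbl s ∈ plus lab v) (hmt : dbl t ∈ plus lab v'), e (pX hms) = pX hmt →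
      ∀ᶠ a in Filter.cofinite, ∀ h : s ++ [a] ∈ v, ∃ b, ∃ h' : t ++ [b] ∈ v', lab a = lab b ∧
        e (pX (dbl_mem.mpr h)) = pX (dbl_mem.mpr h') := by
    intro v v' hv hv' e s t hs ht hms hmt he
    have hopen : IsOpen (e ⁻¹' cX (plus lab v') (dbl t)) := (isOpen_cX _).preimage e.continuous
    have hmem : pX hms ∈ e ⁻¹' cX (plus lab v') (dbl t) := by
      rw [mem_preimage, he]
      exact (pX_mem hmt).mpr List.prefix_rfl
    obtain ⟨N, hN⟩ := nbhd_node hms hopen hmem
    have hcode : ncode lab s = ncode lab t := by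
      have h1 : pX hms ∈ ctlS (ncode lab s) _ := (ctl_iff hv _ _).mpr ⟨s, hs, rfl, rfl⟩
      have h2 := invar_ctl _ _ _ e _ h1
      rw [he] at h2
      obtain ⟨t', _, h3, h4⟩ := (ctl_iff hv' _ _).mp h2
      have h5 : t = t' := dbl_inj (pt_inj h3)
      rw [h5, h4]
    have hlen : s.length = t.length := by
      rw [← unpair_ncode (lab := lab) s, ← unpair_ncode (lab := lab) t, hcode]
    rw [Filter.eventually_cofinite]
    apply (Set.finite_Iio N).subset
    intro a ha
    by_contra hle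
    apply ha
    intro h
    have hN2 : N ≤ 2 * a := by
      simp only [mem_Iio, not_lt] at hle
      omega
    have hma : dbl (s ++ [a]) ∈ plus lab v := dbl_mem.mpr h
    have h1 : pX hma ∈ e ⁻¹' cX (plus lab v') (dbl t) := by
      apply hN (2 * a) hN2
      rw [pX_mem hma, dbl_append, dbl_single]
    have h2 : pX hma ∈ ctlS (ncode lab (s ++ [a])) _ := (ctl_iff hv _ _).mpr ⟨_, h, rfl, rfl⟩
    have h3 := invar_ctl _ _ _ e _ h2
    obtain ⟨t', ht', h4, h5⟩ := (ctl_iff hv' _ _).mp h3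
    have hmt' : dbl t' ∈ plus lab v' := dbl_mem.mpr ht'
    have h6 : e (pX hma) = pX hmt' := ext_pX hmt' h4
    rw [mem_preimage, h6, pX_mem hmt'] at h1
    have h7 : t <+: t' := dbl_prefix h1
    have h8 : t'.length = t.length + 1 := by
      rw [← unpair_ncode (lab := lab) t', h5, unpair_ncode]
      simp [hlen]
    obtain ⟨u, rfl⟩ := h7
    obtain ⟨b, rfl⟩ : ∃ b, u = [b] := by
      rw [List.length_append] at h8
      have : u.length = 1 := by omega
      exact List.length_eq_one_iff.mp this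
    exact ⟨b, ht', (hnc _ _ _ _ h5.symm).1, h6⟩
  let B : List ℕ → List ℕ → Prop := fun s t => ∃ (hs : s ∈ val) (ht : t ∈ val'),
    H (pX (dbl_mem (lab := lab).mpr hs)) = pX (dbl_mem (lab := lab).mpr ht)
  refine ⟨B, ?_, ?_, ?_, ?_⟩
  · -- the root
    have hm : dbl [] ∈ plus lab val := dbl_mem.mpr hval.nil
    have h1 : pX hm ∈ ctlS (ncode lab []) _ := (ctl_iff hval _ _).mpr ⟨[], hval.nil, rfl, rfl⟩
    have h2 := invar_ctl _ _ _ H _ h1
    obtain ⟨t, ht, h3, h4⟩ := (ctl_iff hval' _ _).mp h2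
    have h5 : t.length = 0 := by
      rw [← unpair_ncode (lab := lab) t, h4, unpair_ncode]
      rfl
    have h6 : t = [] := List.length_eq_zero_iff.mp h5
    subst h6
    exact ⟨hval.nil, ht, Subtype.ext h3⟩
  · rintro s t ⟨hs, ht, _⟩
    exact ⟨hs, ht⟩
  · rintro s t ⟨hs, ht, he⟩
    filter_upwards [key val val' hval hval' H s t hs ht _ _ he] with a ha hsa
    obtain ⟨b, hb, hl, he2⟩ := ha hsa
    exact ⟨b, hb, hl.symm, hsa, hb, he2⟩
  · rintro s t ⟨hs, ht, he⟩
    have he' : H.symm (pX (dbl_mem (lab := lab).mpr ht)) = pX (dbl_mem (lab := lab).mpr hs) := by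
      rw [← he, H.symm_apply_apply]
    filter_upwards [key val' val hval' hval H.symm t s ht hs _ _ he'] with b hb htb
    obtain ⟨a, ha, hl, he2⟩ := hb htb
    refine ⟨a, ha, hl, ha, htb, ?_⟩
    rw [← he2, H.apply_symm_apply]

end Pool.Agent.Work.MP_252c1e_lc
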