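import Pool.Agent.Work.MP_252c1e_lc.B1a

/-!
# Block B1, part f: compression of homeomorphisms with bounded displacement
-/

open Set Topology Metric Filter

namespace Pool.Agent.Work.MP_252c1e_lc.B1

section

variable {E : Type*} [NormedAddCommGroup E] [NormedSpace ℝ E]

/-- The radial factor. -/
noncomputable def rfac (s : ℝ) : ℝ := (2 * max s 1 - 1) / (max s 1) ^ 2

theorem rfac_of_le {s : ℝ} (h : s ≤ 1) : rfac s = 1 := by
  unfold rfac
  rw [max_eq_right h]
  norm_num

theorem rfac_pos (s : ℝ) : 0 < rfac s := by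
  unfold rfac
  have h1 : 1 ≤ max s 1 := le_max_right _ _
  have : 0 < 2 * max s 1 - 1 := by linarith
  positivity

theorem rfac_le (s : ℝ) : rfac s ≤ 1 := by
  unfold rfac
  have h1 : 1 ≤ max s 1 := le_max_right _ _
  rw [div_le_one (by positivity)]
  nlinarith [sq_nonneg (max s 1 - 1)]

theorem rfac_le' (s : ℝ) : rfac s ≤ 2 / max s 1 := by
  unfold rfac
  have h1 : 1 ≤ max s 1 := le_max_right _ _
  rw [div_le_div_iff₀ (by positivity) (by positivity)]
  nlinarith

/-- The radial factor is Lipschitz, with decay. -/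
theorem rfac_sub {s s' : ℝ} (h : s ≤ s') :
    |rfac s - rfac s'| * max s 1 ≤ 2 / max s 1 * (s' - s) := by
  unfold rfac
  have h1 : 1 ≤ max s 1 := le_max_right _ _
  have h2 : max s 1 ≤ max s' 1 := max_le_max h le_rfl
  have h3 : max s' 1 - max s 1 ≤ s' - s := by
    rcases le_total s' 1 with h4 | h4
    · rw [max_eq_right h4, max_eq_right (h.trans h4)]
      linarith
    · rw [max_eq_left h4]
      linarith [le_max_left s 1]
  set m := max s 1 with hm
  set m' := max s' 1 with hm'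
  have hm0 : 0 < m := by linarith
  have hm0' : 0 < m' := by linarith
  have e : (2 * m - 1) / m ^ 2 - (2 * m' - 1) / m' ^ 2 =
      (m' - m) * (2 * m * m' - m - m') / (m ^ 2 * m' ^ 2) := by
    field_simp
    ring
  have h5 : 0 ≤ 2 * m * m' - m - m' := by nlinarith
  rw [e, abs_of_nonneg (by
    have : 0 ≤ m' - m := by linarith
    positivity)]
  have h6 : (m' - m) * (2 * m * m' - m - m') / (m ^ 2 * m' ^ 2) * m ≤ 2 / m * (m' - m) := by
    rw [div_mul_eq_mul_div, div_mul_eq_mul_div, div_le_div_iff₀ (by positivity) hm0]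
    have h7 : (2 * m * m' - m - m') * m * m ≤ 2 * (m ^ 2 * m' ^ 2) := by
      have : 2 * m * m' - m - m' ≤ 2 * m' ^ 2 := by nlinarith
      nlinarith [mul_le_mul_of_nonneg_right this (by positivity : 0 ≤ m * m)]
    have h8 : 0 ≤ m' - m := by linarith
    nlinarith [mul_le_mul_of_nonneg_left h7 h8]
  refine h6.trans ?_
  exact mul_le_mul_of_nonneg_left h3 (by positivity)

/-- The radial compression of the space into the ball of radius two. -/
noncomputable def rho (z : E) : E := rfac ‖z‖ • z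

theorem rho_of_le {z : E} (h : ‖z‖ ≤ 1) : rho z = z := by
  rw [rho, rfac_of_le h, one_smul]

theorem norm_rho (z : E) : ‖rho z‖ = rfac ‖z‖ * ‖z‖ := by
  rw [rho, norm_smul, Real.norm_eq_abs, abs_of_pos (rfac_pos _)]

theorem norm_rho_of_ge {z : E} (h : 1 ≤ ‖z‖) : ‖rho z‖ = 2 - 1 / ‖z‖ := by
  rw [norm_rho, rfac, max_eq_left h]
  have : ‖z‖ ≠ 0 := by linarith
  field_simp

theorem norm_rho_lt (z : E) : ‖rho z‖ < 2 := by
  rcases le_total ‖z‖ 1 with h | h
  · rw [rho_of_le h]; linarith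
  · rw [norm_rho_of_ge h]
    have : 0 < 1 / ‖z‖ := by positivity
    linarith

theorem dist_rho_aux {z z' : E} (h : ‖z‖ ≤ ‖z'‖) :
    dist (rho z) (rho z') ≤ 4 / max ‖z‖ 1 * dist z z' := by
  have e : rho z - rho z' = rfac ‖z'‖ • (z - z') + (rfac ‖z‖ - rfac ‖z'‖) • z := by
    rw [rho, rho, smul_sub, sub_smul]
    abel
  rw [dist_eq_norm, dist_eq_norm, e]
  refine (norm_add_le _ _).trans ?_
  rw [norm_smul, norm_smul, Real.norm_eq_abs, Real.norm_eq_abs, abs_of_pos (rfac_pos _)]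
  have h1 : rfac ‖z'‖ ≤ 2 / max ‖z‖ 1 := by
    refine (rfac_le' _).trans ?_
    have : max ‖z‖ 1 ≤ max ‖z'‖ 1 := max_le_max h le_rfl
    have h2 : 0 < max ‖z‖ 1 := lt_of_lt_of_le one_pos (le_max_right _ _)
    gcongr
  have h2 : |rfac ‖z‖ - rfac ‖z'‖| * ‖z‖ ≤ 2 / max ‖z‖ 1 * ‖z - z'‖ := by
    have h3 : |rfac ‖z‖ - rfac ‖z'‖| * ‖z‖ ≤ |rfac ‖z‖ - rfac ‖z'‖| * max ‖z‖ 1 :=
      mul_le_mul_of_nonneg_left (le_max_left _ _) (abs_nonneg _)
    have h4 := rfac_sub h
    have h5 : ‖z'‖ - ‖z‖ ≤ ‖z - z'‖ := by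
      rw [norm_sub_rev]
      exact norm_sub_norm_le _ _
    have h6 : 0 < max ‖z‖ 1 := lt_of_lt_of_le one_pos (le_max_right _ _)
    have h7 := mul_le_mul_of_nonneg_left h5 (by positivity : 0 ≤ 2 / max ‖z‖ 1)
    linarith
  have h8 := mul_le_mul_of_nonneg_right h1 (norm_nonneg (z - z'))
  have e2 : 4 / max ‖z‖ 1 * ‖z - z'‖ = 2 / max ‖z‖ 1 * ‖z - z'‖ + 2 / max ‖z‖ 1 * ‖z - z'‖ := by
    ring
  rw [e2]
  exact add_le_add h8 h2

/-- The compression is Lipschitz, with small constant far away. -/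
theorem dist_rho (z z' : E) :
    dist (rho z) (rho z') ≤ 4 / max (min ‖z‖ ‖z'‖) 1 * dist z z' := by
  rcases le_total ‖z‖ ‖z'‖ with h | h
  · rw [min_eq_left h]
    exact dist_rho_aux h
  · rw [min_eq_right h, dist_comm, dist_comm z]
    exact dist_rho_aux h

theorem dist_rho_le (z z' : E) : dist (rho z) (rho z') ≤ 4 * dist z z' := by
  refine (dist_rho z z').trans ?_
  refine mul_le_mul_of_nonneg_right ?_ dist_nonneg
  have h1 : 1 ≤ max (min ‖z‖ ‖z'‖) 1 := le_max_right _ _
  rw [div_le_iff₀ (by linarith)]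
  linarith

theorem continuous_rho : Continuous (rho : E → E) :=
  (LipschitzWith.of_dist_le_mul (K := 4) fun z z' => by
    have := dist_rho_le z z'
    exact_mod_cast this).continuous

/-- The inverse of the compression. -/
noncomputable def rhoInv (x : E) : E := (1 / (max ‖x‖ 1 * (2 - max ‖x‖ 1))) • x

theorem rhoInv_rho (z : E) : rhoInv (rho z) = z := by
  rcases le_total ‖z‖ 1 with h | h
  · rw [rho_of_le h, rhoInv, max_eq_right h]
    norm_num
  · have h1 := norm_rho_of_ge h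
    have hz : ‖z‖ ≠ 0 := by linarith
    have hz0 : 0 < ‖z‖ := by linarith
    have h2 : 1 ≤ ‖rho z‖ := by
      rw [h1]
      have : 1 / ‖z‖ ≤ 1 := by rw [div_le_one hz0]; exact h
      linarith
    rw [rhoInv, max_eq_left h2, h1, rho, rfac, max_eq_left h, smul_smul]
    have h3 : 2 * ‖z‖ - 1 ≠ 0 := by linarith
    have e : 1 / ((2 - 1 / ‖z‖) * (2 - (2 - 1 / ‖z‖))) * ((2 * ‖z‖ - 1) / ‖z‖ ^ 2) = 1 := by
      have h4 : 2 - 1 / ‖z‖ = (2 * ‖z‖ - 1) / ‖z‖ := by field_simp
      have h5 : 2 - (2 - 1 / ‖z‖) = 1 / ‖z‖ := by ring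
      rw [h5, h4]
      field_simp
    rw [e, one_smul]

theorem rho_rhoInv {x : E} (hx : ‖x‖ < 2) : rho (rhoInv x) = x := by
  rcases le_total ‖x‖ 1 with h | h
  · have h1 : rhoInv x = x := by
      rw [rhoInv, max_eq_right h]
      norm_num
    rw [h1, rho_of_le h]
  · have h0 : 0 < ‖x‖ := by linarith
    have h2 : 0 < 2 - ‖x‖ := by linarith
    have h3 : ‖rhoInv x‖ = 1 / (2 - ‖x‖) := by
      rw [rhoInv, max_eq_left h, norm_smul, Real.norm_eq_abs, abs_of_pos (by positivity)]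
      field_simp
    have h4 : 1 ≤ ‖rhoInv x‖ := by
      rw [h3, le_div_iff₀ h2]
      linarith
    rw [rho, rfac, max_eq_left h4, h3, rhoInv, max_eq_left h, smul_smul]
    have e : (2 * (1 / (2 - ‖x‖)) - 1) / (1 / (2 - ‖x‖)) ^ 2 * (1 / (‖x‖ * (2 - ‖x‖))) = 1 := by
      field_simp
      ring
    rw [e, one_smul]

theorem norm_rhoInv {x : E} (hx : ‖x‖ < 2) : 1 / (2 - ‖x‖) ≤ max ‖rhoInv x‖ 1 := by
  rcases le_total ‖x‖ 1 with h | h
  · refine le_trans ?_ (le_max_right _ _)
    rw [div_le_one (by linarith)]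
    linarith
  · have h0 : 0 < ‖x‖ := by linarith
    have h2 : 0 < 2 - ‖x‖ := by linarith
    have h3 : ‖rhoInv x‖ = 1 / (2 - ‖x‖) := by
      rw [rhoInv, max_eq_left h, norm_smul, Real.norm_eq_abs, abs_of_pos (by positivity)]
      field_simp
    rw [← h3]
    exact le_max_left _ _

theorem continuousOn_rhoInv : ContinuousOn (rhoInv : E → E) (ball 0 2) := by
  unfold rhoInv
  refine ContinuousOn.smul ?_ continuousOn_id
  refine ContinuousOn.div continuousOn_const ?_ ?_
  · exact ((continuous_norm.max continuous_const).mul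
      (continuous_const.sub (continuous_norm.max continuous_const))).continuousOn
  · intro x hx
    rw [mem_ball_zero_iff] at hx
    have h1 : 1 ≤ max ‖x‖ 1 := le_max_right _ _
    have h2 : max ‖x‖ 1 < 2 := max_lt hx (by norm_num)
    have : 0 < 2 - max ‖x‖ 1 := by linarith
    positivity

open Classical in
/-- Compression of a map. -/
noncomputable def comp (H : E → E) (x : E) : E :=
  if ‖x‖ < 2 then rho (H (rhoInv x)) else x

theorem comp_of_lt (H : E → E) {x : E} (hx : ‖x‖ < 2) : comp H x = rho (H (rhoInv x)) := if_pos hx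

theorem comp_of_ge (H : E → E) {x : E} (hx : 2 ≤ ‖x‖) : comp H x = x := if_neg (not_lt.2 hx)

/-- Displacement of the compression, with decay near the boundary sphere. -/
theorem dist_comp {H : E → E} {M : ℝ} (hM : ∀ z, dist (H z) z ≤ M) {x : E} (hx : ‖x‖ < 2) :
    dist (comp H x) x ≤ 4 * (M + 1) * (2 - ‖x‖) * M := by
  rw [comp_of_lt H hx]
  have hM0 : 0 ≤ M := dist_nonneg.trans (hM x)
  have h2 : 0 < 2 - ‖x‖ := by linarith
  obtain ⟨z, hz⟩ : ∃ z, z = rhoInv x := ⟨_, rfl⟩
  have hx' : x = rho z := by rw [hz, rho_rhoInv hx]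
  rw [← hz]
  have h1 := dist_rho (H z) z
  rw [← hx'] at h1
  have h3 := norm_rhoInv hx
  rw [← hz] at h3
  have h4 : ‖z‖ - M ≤ ‖H z‖ := by
    have h5 := hM z
    rw [dist_eq_norm] at h5
    have h6 := norm_sub_norm_le z (H z)
    rw [norm_sub_rev] at h6
    linarith
  -- the minimum of the norms is large
  have h5 : max ‖z‖ 1 ≤ (M + 1) * max (min ‖H z‖ ‖z‖) 1 := by
    have h6 : 1 ≤ max (min ‖H z‖ ‖z‖) 1 := le_max_right _ _
    have h7 : ‖z‖ ≤ (M + 1) * max (min ‖H z‖ ‖z‖) 1 := by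
      rcases le_total ‖H z‖ ‖z‖ with h8 | h8
      · rw [min_eq_left h8] at h6 ⊢
        have h9 : ‖H z‖ ≤ max ‖H z‖ 1 := le_max_left _ _
        nlinarith
      · rw [min_eq_right h8] at h6 ⊢
        have h9 : ‖z‖ ≤ max ‖z‖ 1 := le_max_left _ _
        nlinarith
    refine max_le h7 ?_
    nlinarith
  have h6 : 4 / max (min ‖H z‖ ‖z‖) 1 ≤ 4 * (M + 1) * (2 - ‖x‖) := by
    have h7 : 0 < max (min ‖H z‖ ‖z‖) 1 := lt_of_lt_of_le one_pos (le_max_right _ _)
    rw [div_le_iff₀ h7]
    have h8 : 1 ≤ (2 - ‖x‖) * ((M + 1) * max (min ‖H z‖ ‖z‖) 1) := by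
      have h9 := h3.trans h5
      rw [div_le_iff₀ h2] at h9
      linarith
    nlinarith
  calc dist (rho (H z)) x ≤ 4 / max (min ‖H z‖ ‖z‖) 1 * dist (H z) z := h1
    _ ≤ 4 * (M + 1) * (2 - ‖x‖) * M := by
      refine mul_le_mul h6 (hM z) dist_nonneg ?_
      positivity

theorem dist_comp_le {H : E → E} {M : ℝ} (hM : ∀ z, dist (H z) z ≤ M) (x : E) :
    dist (comp H x) x ≤ 4 * M := by
  have hM0 : 0 ≤ M := dist_nonneg.trans (hM x)
  by_cases hx : ‖x‖ < 2
  · rw [comp_of_lt H hx]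
    have h1 := dist_rho_le (H (rhoInv x)) (rhoInv x)
    rw [rho_rhoInv hx] at h1
    have := hM (rhoInv x)
    linarith
  · rw [comp_of_ge H (not_lt.1 hx), dist_self]
    positivity

theorem continuous_comp {H : E → E} (hH : Continuous H) {M : ℝ} (hM : ∀ z, dist (H z) z ≤ M) :
    Continuous (comp H) := by
  rw [continuous_iff_continuousAt]
  intro x
  have hM0 : 0 ≤ M := dist_nonneg.trans (hM x)
  by_cases hx : ‖x‖ < 2
  · have h1 : ball (0 : E) 2 ∈ 𝓝 x := isOpen_ball.mem_nhds (by rwa [mem_ball_zero_iff])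
    have h2 : ContinuousAt (fun y => rho (H (rhoInv y))) x :=
      (continuous_rho.comp hH).continuousAt.comp (continuousOn_rhoInv.continuousAt h1)
    refine h2.congr ?_
    filter_upwards [h1] with y hy
    rw [mem_ball_zero_iff] at hy
    exact (comp_of_lt H hy).symm
  · push Not at hx
    rcases hx.lt_or_eq with hx2 | hx2
    · have h2 : (closedBall (0 : E) 2)ᶜ ∈ 𝓝 x := isClosed_closedBall.isOpen_compl.mem_nhds (by
        rw [mem_compl_iff, mem_closedBall_zero_iff]
        exact not_le.2 hx2)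
      refine continuousAt_id.congr ?_
      filter_upwards [h2] with y hy
      rw [mem_compl_iff, mem_closedBall_zero_iff, not_le] at hy
      exact (comp_of_ge H hy.le).symm
    · rw [ContinuousAt, comp_of_ge H hx, tendsto_iff_dist_tendsto_zero]
      have h2 : Tendsto (fun y : E => 4 * (M + 1) * |2 - ‖y‖| * M + dist y x) (𝓝 x) (𝓝 0) := by
        have h3 : Continuous (fun y : E => 4 * (M + 1) * |2 - ‖y‖| * M + dist y x) := by
          fun_prop
        have h4 := h3.tendsto x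
        simp only [← hx2, sub_self, abs_zero, mul_zero, zero_mul, dist_self, add_zero] at h4
        exact h4
      refine squeeze_zero (fun _ => dist_nonneg) (fun y => ?_) h2
      refine (dist_triangle _ y _).trans (add_le_add_left ?_ _)
      by_cases hy : ‖y‖ < 2
      · refine (dist_comp hM hy).trans ?_
        rw [abs_of_pos (by linarith : 0 < 2 - ‖y‖)]
      · rw [comp_of_ge H (not_lt.1 hy), dist_self]
        positivity

theorem comp_comp {H H' : E → E} (h : ∀ z, H' (H z) = z) (x : E) : comp H' (comp H x) = x := by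
  by_cases hx : ‖x‖ < 2
  · rw [comp_of_lt H hx, comp_of_lt H' (norm_rho_lt _), rhoInv_rho, h, rho_rhoInv hx]
  · rw [comp_of_ge H (not_lt.1 hx), comp_of_ge H' (not_lt.1 hx)]

/-- **Compression lemma.** -/
theorem exists_compression (H : E ≃ₜ E) {M : ℝ} (hM : ∀ z, dist (H z) z ≤ M) :
    ∃ g : E ≃ₜ E, (∀ z, dist (g z) z ≤ 4 * M) ∧ (∀ z, 2 ≤ ‖z‖ → g z = z) ∧
      (∀ z, ‖z‖ ≤ 1 → ‖H z‖ ≤ 1 → g z = H z) ∧
      ∀ z, (∀ c : ℝ, 1 ≤ c → H (c • z) = c • z) → g z = z := by
  have hM' : ∀ z, dist (H.symm z) z ≤ M := by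
    intro z
    have := hM (H.symm z)
    rwa [H.apply_symm_apply, dist_comm] at this
  refine ⟨{ toFun := comp H, invFun := comp H.symm, left_inv := comp_comp H.symm_apply_apply,
            right_inv := comp_comp H.apply_symm_apply,
            continuous_toFun := continuous_comp H.continuous hM,
            continuous_invFun := continuous_comp H.symm.continuous hM' }, ?_, ?_, ?_, ?_⟩
  · exact dist_comp_le hM
  · intro z hz
    exact comp_of_ge H hz
  · intro z h1 h2
    change comp H z = H z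
    have h3 : rhoInv z = z := by
      rw [rhoInv, max_eq_right h1]
      norm_num
    rw [comp_of_lt H (by linarith), h3, rho_of_le h2]
  · intro z hz
    change comp H z = z
    by_cases h1 : ‖z‖ < 2
    · rw [comp_of_lt H h1]
      have h2 : H (rhoInv z) = rhoInv z := by
        refine hz _ ?_
        have h3 : 1 ≤ max ‖z‖ 1 := le_max_right _ _
        have h4 : max ‖z‖ 1 < 2 := max_lt h1 (by norm_num)
        rw [le_div_iff₀ (mul_pos (by linarith) (by linarith))]
        nlinarith [sq_nonneg (max ‖z‖ 1 - 1)]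
      rw [h2, rho_rhoInv h1]
    · exact comp_of_ge H (not_lt.1 h1)

end

end Pool.Agent.Work.MP_252c1e_lc.B1
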