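import Pool.Agent.Work.MP_252c1e_lc.B1e
import Pool.Agent.Work.MP_252c1e_lc.B1f

/-!
# Block B1: the handle lemma
-/

open Set Topology Metric Filter

namespace Pool.Agent.Work.MP_252c1e_lc

namespace B1

theorem extR_model (n : ℕ) : ExtR 1 (ℝ × (Fin n → ℝ)) := by
  induction n with
  | zero =>
    refine extR_real.transfer (by norm_num) one_pos (ContinuousLinearEquiv.ofFinrankEq ?_)
    simp
  | succ n ih =>
    refine (extR_wrap ih).transfer one_pos one_pos (ContinuousLinearEquiv.ofFinrankEq ?_)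
    simp
    ring

theorem extR_all (W : Type) [NormedAddCommGroup W] [NormedSpace ℝ W] [FiniteDimensional ℝ W]
    (hW : Module.finrank ℝ W ≠ 0) {R : ℝ} (hR : 0 < R) : ExtR R W := by
  obtain ⟨n, hn⟩ := Nat.exists_eq_succ_of_ne_zero hW
  refine (extR_model n).transfer one_pos hR (ContinuousLinearEquiv.ofFinrankEq ?_)
  rw [hn]
  simp
  ring

/-- Scaling of the two factors. -/
noncomputable def scl {Y W : Type} [NormedAddCommGroup Y] [NormedSpace ℝ Y] [NormedAddCommGroup W]
    [NormedSpace ℝ W] (a b : ℝ) (ha : a ≠ 0) (hb : b ≠ 0) : Y × W ≃ₜ Y × W :=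
  (Homeomorph.smulOfNeZero a ha).prodCongr (Homeomorph.smulOfNeZero b hb)

section

variable {Y W : Type} [NormedAddCommGroup Y] [NormedSpace ℝ Y] [NormedAddCommGroup W]
    [NormedSpace ℝ W] {a b : ℝ} (ha : 0 < a) (hb : 0 < b)

theorem scl_apply (z : Y × W) : scl a b ha.ne' hb.ne' z = (a • z.1, b • z.2) := rfl

theorem scl_symm_apply (z : Y × W) :
    (scl a b ha.ne' hb.ne').symm z = (a⁻¹ • z.1, b⁻¹ • z.2) := rfl

include ha hb in
theorem dist_scl_aux (z z' : Y × W) :
    dist ((a • z.1, b • z.2) : Y × W) (a • z'.1, b • z'.2) ≤ (a + b) * dist z z' := by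
  rw [Prod.dist_eq, Prod.dist_eq (x := z)]
  have h1 : dist (a • z.1) (a • z'.1) = a * dist z.1 z'.1 := by
    rw [dist_smul₀, Real.norm_eq_abs, abs_of_pos ha]
  have h2 : dist (b • z.2) (b • z'.2) = b * dist z.2 z'.2 := by
    rw [dist_smul₀, Real.norm_eq_abs, abs_of_pos hb]
  have h3 : dist z.1 z'.1 ≤ max (dist z.1 z'.1) (dist z.2 z'.2) := le_max_left _ _
  have h4 : dist z.2 z'.2 ≤ max (dist z.1 z'.1) (dist z.2 z'.2) := le_max_right _ _
  have h5 : 0 ≤ max (dist z.1 z'.1) (dist z.2 z'.2) := dist_nonneg.trans h3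
  refine max_le ?_ ?_
  · change dist (a • z.1) (a • z'.1) ≤ _
    rw [h1]
    nlinarith [mul_le_mul_of_nonneg_left h3 ha.le, mul_nonneg hb.le h5]
  · change dist (b • z.2) (b • z'.2) ≤ _
    rw [h2]
    nlinarith [mul_le_mul_of_nonneg_left h4 hb.le, mul_nonneg ha.le h5]

end

end B1

open B1

/-- **Handle lemma.** -/
theorem handleLemma : HandleLemma := by
  intro Y W _ _ _ _ _ _ L R hL hR
  by_cases hW : Module.finrank ℝ W = 0
  · -- the zero-dimensional case
    have hsub : Subsingleton W := Module.finrank_zero_iff.1 hW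
    refine ⟨R / 2, by positivity, by linarith, fun ε hε => ⟨ε, hε, ?_⟩⟩
    intro h hO hn hfix
    have hall : ∀ z : Y × W, z ∈ (univ ×ˢ ball 0 R : Set (Y × W)) := by
      intro z
      refine ⟨mem_univ _, ?_⟩
      rw [Subsingleton.elim z.2 0]
      exact mem_ball_self hR
    have huniv : (univ ×ˢ ball 0 R : Set (Y × W)) = univ := eq_univ_of_forall hall
    have hc : Continuous h := by
      rw [← continuousOn_univ, ← huniv]
      exact hO.cont
    have ho : IsOpenMap h := fun V hV => hO.openMap V (fun z _ => hall z) hV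
    have hi : Function.Injective h := fun z z' hz => hO.inj (hall z) (hall z') hz
    obtain ⟨g, hg⟩ := exists_homeo_of_near hc ho hi (M := ε) fun z => (hn z (hall z)).le
    refine ⟨g, fun z => by rw [hg]; exact (hn z (hall z)).le, ?_, fun z _ => hg z⟩
    rintro z (hz | hz)
    · rw [hg]
      exact hfix z (hall z) hz
    · exfalso
      rw [Subsingleton.elim z.2 0, norm_zero] at hz
      linarith
  · obtain ⟨r₁, hr₁, hE⟩ := extR_all W hW hR
    refine ⟨min r₁ (R / 4), by positivity, (min_le_right _ _).trans_lt (by linarith), ?_⟩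
    intro ε hε
    obtain ⟨a, ha⟩ : ∃ a, a = 1 / (2 * L) := ⟨_, rfl⟩
    obtain ⟨b, hb⟩ : ∃ b, b = 2 / R := ⟨_, rfl⟩
    have ha0 : 0 < a := by rw [ha]; positivity
    have hb0 : 0 < b := by rw [hb]; positivity
    obtain ⟨ε₁, hε₁⟩ : ∃ ε₁, ε₁ = min (1 / (2 * (a + b))) (ε / (4 * (a + b) * (a⁻¹ + b⁻¹))) :=
      ⟨_, rfl⟩
    have hε₁0 : 0 < ε₁ := by rw [hε₁]; positivity
    have hε₁1 : (a + b) * ε₁ ≤ 1 / 2 := by
      have : ε₁ ≤ 1 / (2 * (a + b)) := hε₁ ▸ min_le_left _ _
      rw [le_div_iff₀ (by positivity)] at this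
      linarith
    have hε₁2 : (a⁻¹ + b⁻¹) * (4 * ((a + b) * ε₁)) ≤ ε := by
      have : ε₁ ≤ ε / (4 * (a + b) * (a⁻¹ + b⁻¹)) := hε₁ ▸ min_le_right _ _
      rw [le_div_iff₀ (by positivity)] at this
      linarith
    obtain ⟨δ, hδ, hE⟩ := hE Y ε₁ hε₁0
    refine ⟨δ, hδ, ?_⟩
    intro h hO hn hfix
    obtain ⟨H, H1, H2, H3⟩ := hE h hO hn
    let A : Y × W ≃ₜ Y × W := scl a b ha0.ne' hb0.ne'
    have hA : ∀ z, A z = (a • z.1, b • z.2) := fun z => rfl
    have dA : ∀ z z', dist (A z) (A z') ≤ (a + b) * dist z z' := fun z z' =>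
      dist_scl_aux ha0 hb0 z z'
    have dAs : ∀ z z', dist (A.symm z) (A.symm z') ≤ (a⁻¹ + b⁻¹) * dist z z' := fun z z' =>
      dist_scl_aux (inv_pos.2 ha0) (inv_pos.2 hb0) z z'
    obtain ⟨g', g1, g2, g3, g4⟩ := exists_compression (A.symm.trans (H.trans A))
      (M := (a + b) * ε₁) (by
        intro x
        change dist (A (H (A.symm x))) x ≤ _
        have h1 := dA (H (A.symm x)) (A.symm x)
        rw [A.apply_symm_apply] at h1
        exact h1.trans (mul_le_mul_of_nonneg_left (H1 _) (by positivity)))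
    have hgz : ∀ z : Y × W, L ≤ ‖z.1‖ ∨ R ≤ ‖z.2‖ → g' (A z) = A z := by
      rintro z (hz | hz)
      · refine g4 _ fun c hc => ?_
        change A (H (A.symm (c • A z))) = c • A z
        have e1 : c • A z = A (c • z) := by
          rw [hA, hA]
          apply Prod.ext
          · exact smul_comm _ _ _
          · exact smul_comm _ _ _
        rw [e1, A.symm_apply_apply]
        have h1 : H ((c • z).1, (c • z).2) = ((c • z).1, (c • z).2) := by
          refine H3 _ ?_ _
          intro w hw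
          refine hfix _ ⟨mem_univ _, by rwa [mem_ball_zero_iff]⟩ ?_
          change L ≤ ‖c • z.1‖
          rw [norm_smul, Real.norm_eq_abs, abs_of_pos (by linarith)]
          nlinarith [norm_nonneg z.1]
        exact congrArg A h1
      · refine g2 _ ?_
        rw [hA, Prod.norm_def]
        refine le_trans ?_ (le_max_right _ _)
        change 2 ≤ ‖b • z.2‖
        rw [norm_smul, Real.norm_eq_abs, abs_of_pos hb0, hb, div_mul_eq_mul_div,
          le_div_iff₀ hR]
        linarith
    refine ⟨A.trans (g'.trans A.symm), ?_, ?_, ?_⟩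
    · intro z
      change dist (A.symm (g' (A z))) z ≤ ε
      have h1 := dAs (g' (A z)) (A z)
      rw [A.symm_apply_apply] at h1
      have h2 := mul_le_mul_of_nonneg_left (g1 (A z)) (by positivity : 0 ≤ a⁻¹ + b⁻¹)
      linarith
    · intro z hz
      change A.symm (g' (A z)) = z
      rw [hgz z hz, A.symm_apply_apply]
    · intro z hz
      change A.symm (g' (A z)) = h z
      have hz1 : ‖z.2‖ < r₁ := hz.trans_le (min_le_left _ _)
      have hz2 : ‖z.2‖ < R / 4 := hz.trans_le (min_le_right _ _)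
      by_cases hzL : L ≤ ‖z.1‖
      · rw [hgz z (Or.inl hzL), A.symm_apply_apply]
        exact (hfix z ⟨mem_univ _, by rw [mem_ball_zero_iff]; linarith⟩ hzL).symm
      · push Not at hzL
        have h1 : ‖A z‖ ≤ 1 / 2 := by
          rw [hA, Prod.norm_def]
          refine max_le ?_ ?_
          · change ‖a • z.1‖ ≤ _
            rw [norm_smul, Real.norm_eq_abs, abs_of_pos ha0, ha, div_mul_eq_mul_div,
              div_le_div_iff₀ (by positivity) (by norm_num)]
            linarith
          · change ‖b • z.2‖ ≤ _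
            rw [norm_smul, Real.norm_eq_abs, abs_of_pos hb0, hb, div_mul_eq_mul_div,
              div_le_div_iff₀ hR (by norm_num)]
            linarith
        have h2 : ‖A (H z)‖ ≤ 1 := by
          have h3 := (dA (H z) z).trans (mul_le_mul_of_nonneg_left (H1 z)
            (by positivity : 0 ≤ a + b))
          rw [dist_eq_norm] at h3
          have h4 := norm_sub_norm_le (A (H z)) (A z)
          linarith
        have h5 : (A.symm.trans (H.trans A)) (A z) = A (H z) := by
          change A (H (A.symm (A z))) = A (H z)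
          rw [A.symm_apply_apply]
        rw [g3 (A z) (by linarith) (by rw [h5]; exact h2), h5, A.symm_apply_apply, H2 z hz1]

end Pool.Agent.Work.MP_252c1e_lc
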