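import Pool.Agent.Work.MP_252c1e_lc.OEapi

/-!
# Block B1, part a: near-identity maps of a finite-dimensional space
-/

open Set Topology Metric Filter

namespace Pool.Agent.Work.MP_252c1e_lc

/-- Open embeddings map neighbourhood filters to neighbourhood filters. -/
theorem OE.map_nhds {X Y : Type*} [TopologicalSpace X] [TopologicalSpace Y] {f : X → Y}
    {W : Set X} (h : OE f W) {x : X} (hx : x ∈ W) : map f (𝓝 x) = 𝓝 (f x) := by
  refine le_antisymm ((h.cont x hx).continuousAt (h.isOpen.mem_nhds hx)) ?_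
  intro s hs
  obtain ⟨V, hV, hVo, hxV⟩ := mem_nhds_iff.1 (mem_map.1 hs)
  refine mem_of_superset ((h.openMap (V ∩ W) inter_subset_right (hVo.inter h.isOpen)).mem_nhds
    ⟨x, ⟨hxV, hx⟩, rfl⟩) ?_
  rintro _ ⟨y, ⟨hy, -⟩, rfl⟩
  exact hV hy

/-- Composition of an open embedding with homeomorphisms on both sides. -/
theorem OE.conj1 {X Y X' Y' : Type*} [TopologicalSpace X] [TopologicalSpace Y]
    [TopologicalSpace X'] [TopologicalSpace Y'] {f : X → Y} {W : Set X} (h : OE f W)
    (e : X' ≃ₜ X) (e' : Y ≃ₜ Y') : OE (fun x => e' (f (e x))) (e ⁻¹' W) where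
  isOpen := h.isOpen.preimage e.continuous
  cont := e'.continuous.comp_continuousOn
    (h.cont.comp e.continuous.continuousOn (fun _ hx => hx))
  inj x hx y hy hxy := e.injective (h.inj hx hy (e'.injective hxy))
  openMap V hV hVo := by
    have : (fun x => e' (f (e x))) '' V = e' '' (f '' (e '' V)) := by
      rw [image_image, image_image]
    rw [this]
    refine e'.isOpenMap _ (h.openMap _ ?_ (e.isOpenMap _ hVo))
    rintro _ ⟨x, hx, rfl⟩
    exact hV hx

namespace B1

section NearId

variable {E : Type*} [NormedAddCommGroup E] [NormedSpace ℝ E] [FiniteDimensional ℝ E]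

/-- Closed sets have closed images under maps with bounded displacement. -/
theorem isClosed_image_of_near {h : E → E} {C : Set E} {M : ℝ} (hC : IsClosed C)
    (hh : ContinuousOn h C) (hM : ∀ z ∈ C, dist (h z) z ≤ M) : IsClosed (h '' C) := by
  have : ProperSpace E := FiniteDimensional.proper_real E
  refine isClosed_of_closure_subset fun z hz => ?_
  have hK : IsCompact (C ∩ closedBall z (M + 1)) := (isCompact_closedBall z (M + 1)).inter_left hC
  have hK' : IsClosed (h '' (C ∩ closedBall z (M + 1))) :=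
    (hK.image_of_continuousOn (hh.mono inter_subset_left)).isClosed
  have hz' : z ∈ closure (h '' (C ∩ closedBall z (M + 1))) := by
    rw [_root_.mem_closure_iff] at hz ⊢
    intro o ho hzo
    obtain ⟨_, ⟨ho', hb⟩, x, hx, rfl⟩ := hz (o ∩ ball z 1) (ho.inter isOpen_ball)
      ⟨hzo, mem_ball_self one_pos⟩
    refine ⟨h x, ho', x, ⟨hx, ?_⟩, rfl⟩
    rw [mem_closedBall]
    have h1 := hM x hx
    have h2 := mem_ball.1 hb
    have h3 := dist_triangle x (h x) z
    rw [dist_comm x (h x)] at h3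
    linarith
  rw [hK'.closure_eq] at hz'
  exact image_mono inter_subset_left hz'

/-- Near-identity open embeddings are locally onto. -/
theorem mem_image_ball {h : E → E} {O : Set E} (hO : OE h O) {η ρ : ℝ} {z : E} (hρ0 : 0 < ρ)
    (hη : ∀ x ∈ O, dist (h x) x < η) (hρ : closedBall z ρ ⊆ O) (h2 : 2 * η ≤ ρ) :
    z ∈ h '' ball z ρ := by
  have : ProperSpace E := FiniteDimensional.proper_real E
  have hzO : z ∈ O := hρ (mem_closedBall_self hρ0.le)
  have hη0 : 0 < η := lt_of_le_of_lt dist_nonneg (hη z hzO)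
  have hA : IsOpen (h '' ball z ρ) := hO.openMap _ (ball_subset_closedBall.trans hρ) isOpen_ball
  have hD : ball z (ρ - η) ⊆ h '' ball z ρ := by
    refine (convex_ball z (ρ - η)).isPreconnected.subset_of_closure_inter_subset hA
      ⟨h z, ?_, z, mem_ball_self hρ0, rfl⟩ ?_
    · rw [mem_ball]
      have := hη z hzO
      linarith
    · rintro p ⟨hp, hpD⟩
      have hcl : IsClosed (h '' closedBall z ρ) :=
        ((isCompact_closedBall z ρ).image_of_continuousOn (hO.cont.mono hρ)).isClosed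
      obtain ⟨b, hb, rfl⟩ := closure_minimal (image_mono ball_subset_closedBall) hcl hp
      refine ⟨b, ?_, rfl⟩
      rw [mem_ball] at hpD ⊢
      have h1 := hη b (hρ hb)
      have h3 := dist_triangle b (h b) z
      rw [dist_comm b (h b)] at h3
      linarith
  exact hD (mem_ball_self (by linarith))

/-- An open continuous map with bounded displacement is onto. -/
theorem surjective_of_near {h : E → E} (hc : Continuous h) (ho : IsOpenMap h) {M : ℝ}
    (hM : ∀ z, dist (h z) z ≤ M) : Function.Surjective h := by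
  have h1 : IsClosed (range h) := by
    rw [← image_univ]
    exact isClosed_image_of_near isClosed_univ hc.continuousOn fun z _ => hM z
  have h2 : IsClopen (range h) := ⟨h1, ho.isOpen_range⟩
  rw [← range_eq_univ]
  exact h2.eq_univ (range_nonempty h)

/-- A continuous open injective map with bounded displacement is a homeomorphism. -/
theorem exists_homeo_of_near {h : E → E} (hc : Continuous h) (ho : IsOpenMap h)
    (hi : Function.Injective h) {M : ℝ} (hM : ∀ z, dist (h z) z ≤ M) :
    ∃ H : E ≃ₜ E, ∀ x, H x = h x :=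
  ⟨(Equiv.ofBijective h ⟨hi, surjective_of_near hc ho hM⟩).toHomeomorphOfContinuousOpen hc ho,
    fun _ => rfl⟩

end NearId

/-- The identity plus a contraction is a homeomorphism. -/
theorem exists_homeo_add {E : Type*} [NormedAddCommGroup E] [NormedSpace ℝ E] [CompleteSpace E]
    {φ : E → E} {K : NNReal} (hK : K < 1) (hφ : LipschitzWith K φ) :
    ∃ U : E ≃ₜ E, (∀ x, U x = x + φ x) ∧ (∀ x y, dist (U x) (U y) ≤ (1 + K) * dist x y) ∧
      ∀ x y, (1 - K) * dist x y ≤ dist (U x) (U y) := by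
  have h1 : ApproximatesLinearOn (fun x => x + φ x)
      ((ContinuousLinearEquiv.refl ℝ E : E ≃L[ℝ] E) : E →L[ℝ] E) univ K := by
    intro x _ y _
    have : x + φ x - (y + φ y) - ((ContinuousLinearEquiv.refl ℝ E : E ≃L[ℝ] E) : E →L[ℝ] E) (x - y)
        = φ x - φ y := by
      simp
      abel
    rw [this, ← dist_eq_norm, ← dist_eq_norm]
    exact hφ.dist_le_mul x y
  have h2 : Subsingleton E ∨
      K < ‖((ContinuousLinearEquiv.refl ℝ E : E ≃L[ℝ] E).symm : E →L[ℝ] E)‖₊⁻¹ := by
    rcases subsingleton_or_nontrivial E with h | h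
    · exact Or.inl h
    · right
      have : ‖((ContinuousLinearEquiv.refl ℝ E : E ≃L[ℝ] E).symm : E →L[ℝ] E)‖₊ = 1 := by
        have h3 : ((ContinuousLinearEquiv.refl ℝ E : E ≃L[ℝ] E).symm : E →L[ℝ] E) =
          ContinuousLinearMap.id ℝ E := rfl
        rw [h3]
        exact NNReal.eq ContinuousLinearMap.norm_id
      rw [this, inv_one]
      exact hK
  refine ⟨h1.toHomeomorph _ h2, fun x => rfl, ?_, ?_⟩
  · intro x y
    change dist (x + φ x) (y + φ y) ≤ _
    have h3 := hφ.dist_le_mul x y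
    calc dist (x + φ x) (y + φ y) ≤ dist x y + dist (φ x) (φ y) := dist_add_add_le _ _ _ _
      _ ≤ (1 + K) * dist x y := by linarith
  · intro x y
    change _ ≤ dist (x + φ x) (y + φ y)
    have h3 := hφ.dist_le_mul x y
    have h4 : dist x y ≤ dist (x + φ x) (y + φ y) + dist (φ x) (φ y) := by
      rw [dist_eq_norm, dist_eq_norm, dist_eq_norm]
      have : x - y = (x + φ x - (y + φ y)) - (φ x - φ y) := by abel
      conv_lhs => rw [this]
      exact norm_sub_le _ _
    linarith

/-- Conjugate a homeomorphism by an open embedding and extend by the identity. -/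
theorem exists_conj {E : Type*} [TopologicalSpace E] {h : E → E} {O C : Set E} (hO : OE h O)
    (φ : E ≃ₜ E) (hC : C ⊆ O) (hφ : ∀ x ∈ O, φ x ∈ O) (hφ' : ∀ x ∈ O, φ.symm x ∈ O)
    (hφC : ∀ x, x ∉ C → φ x = x) (hcl : IsClosed (h '' C)) :
    ∃ b : E ≃ₜ E, (∀ x ∈ O, b (h x) = h (φ x)) ∧ ∀ z, z ∉ h '' C → b z = z := by
  classical
  -- the general construction
  have key : ∀ ψ : E ≃ₜ E, (∀ x ∈ O, ψ x ∈ O) → (∀ x, x ∉ C → ψ x = x) →
      ∃ b : E → E, Continuous b ∧ (∀ x ∈ O, b (h x) = h (ψ x)) ∧ ∀ z, z ∉ h '' C → b z = z := by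
    intro ψ hψ hψC
    by_cases hne : Nonempty E
    swap
    · exact ⟨id, continuous_id, fun x => (hne ⟨x⟩).elim, fun z => (hne ⟨z⟩).elim⟩
    obtain ⟨b, hb⟩ : ∃ b : E → E, b = fun z => if z ∈ h '' O then h (ψ (Function.invFunOn h O z))
      else z := ⟨_, rfl⟩
    have b1 : ∀ x ∈ O, b (h x) = h (ψ x) := by
      intro x hx
      have : h x ∈ h '' O := ⟨x, hx, rfl⟩
      rw [hb]
      simp only [this, if_true]
      rw [hO.inj.leftInvOn_invFunOn hx]
    have b2 : ∀ z, z ∉ h '' C → b z = z := by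
      intro z hz
      by_cases hzO : z ∈ h '' O
      · obtain ⟨x, hx, rfl⟩ := hzO
        have hxC : x ∉ C := fun hxC => hz ⟨x, hxC, rfl⟩
        rw [b1 x hx, hψC x hxC]
      · rw [hb]
        simp only [hzO, if_false]
    refine ⟨b, ?_, b1, b2⟩
    rw [continuous_iff_continuousAt]
    intro z
    by_cases hzO : z ∈ h '' O
    · obtain ⟨x, hx, rfl⟩ := hzO
      rw [ContinuousAt, ← hO.map_nhds hx, tendsto_map'_iff]
      have h1 : ContinuousAt (fun y => h (ψ y)) x :=
        ContinuousAt.comp ((hO.cont _ (hψ x hx)).continuousAt (hO.isOpen.mem_nhds (hψ x hx)))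
          ψ.continuous.continuousAt
      rw [b1 x hx]
      refine h1.congr' ?_
      filter_upwards [hO.isOpen.mem_nhds hx] with y hy
      exact (b1 y hy).symm
    · have hzC : z ∉ h '' C := fun hz => hzO (image_mono hC hz)
      refine continuousAt_id.congr ?_
      filter_upwards [hcl.isOpen_compl.mem_nhds hzC] with y hy
      exact (b2 y hy).symm
  have hφC' : ∀ x, x ∉ C → φ.symm x = x := fun x hx => by
    rw [Homeomorph.symm_apply_eq]
    exact (hφC x hx).symm
  obtain ⟨b, hb, b1, b2⟩ := key φ hφ hφC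
  obtain ⟨b', hb', b1', b2'⟩ := key φ.symm hφ' hφC'
  have inv : ∀ (φ ψ : E ≃ₜ E) (b b' : E → E), (∀ x ∈ O, φ x ∈ O) → (∀ x, x ∉ C → φ x = x) →
      (∀ x, ψ (φ x) = x) → (∀ x ∈ O, b (h x) = h (φ x)) →
      (∀ z, z ∉ h '' C → b z = z) → (∀ x ∈ O, b' (h x) = h (ψ x)) →
      (∀ z, z ∉ h '' C → b' z = z) → ∀ z, b' (b z) = z := by
    intro φ ψ b b' hφ hφC hψφ b1 b2 b1' b2' z
    by_cases hz : z ∈ h '' C
    · obtain ⟨x, hx, rfl⟩ := hz
      rw [b1 x (hC hx), b1' _ (hφ x (hC hx)), hψφ]
    · rw [b2 z hz, b2' z hz]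
  refine ⟨{ toFun := b, invFun := b', left_inv := ?_, right_inv := ?_, continuous_toFun := hb,
            continuous_invFun := hb' }, b1, b2⟩
  · exact inv φ φ.symm b b' hφ hφC φ.symm_apply_apply b1 b2 b1' b2'
  · exact inv φ.symm φ b' b hφ' hφC' φ.apply_symm_apply b1' b2' b1 b2

end B1

end Pool.Agent.Work.MP_252c1e_lc
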