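import Pool.Agent.Work.MP_252c1e_lc.B1a

/-!
# Block B1, part b: the one-dimensional trick
-/

open Set Topology Metric Filter

namespace Pool.Agent.Work.MP_252c1e_lc.B1

/-- The extension property for the normed space `W` and the radius `R`. -/
def ExtR (R : ℝ) (W : Type) [NormedAddCommGroup W] [NormedSpace ℝ W] : Prop :=
  ∃ r, 0 < r ∧ ∀ (Y : Type) [NormedAddCommGroup Y] [NormedSpace ℝ Y] [FiniteDimensional ℝ Y]
    (ε : ℝ), 0 < ε → ∃ δ, 0 < δ ∧ ∀ h : Y × W → Y × W, OE h (univ ×ˢ ball 0 R) →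
      (∀ z ∈ (univ ×ˢ ball 0 R : Set (Y × W)), dist (h z) z < δ) →
      ∃ H : Y × W ≃ₜ Y × W, (∀ z, dist (H z) z ≤ ε) ∧ (∀ z : Y × W, ‖z.2‖ < r → H z = h z) ∧
        ∀ y, (∀ w, ‖w‖ < R → h (y, w) = (y, w)) → ∀ w, H (y, w) = (y, w)

/-- The piecewise linear homeomorphism of the line. -/
theorem exists_u : ∃ u : ℝ ≃ₜ ℝ, (∀ t, 4 ≤ |t| → u t = t) ∧ (∀ t, |t + 1| ≤ 1 / 2 → u t = t + 2) ∧
    (∀ s t, dist (u s) (u t) ≤ 2 * dist s t) ∧ ∀ s t, dist s t ≤ 5 * dist (u s) (u t) := by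
  let β : ℝ → ℝ := fun t => max 0 (min 2 (min (4 / 5 * (t + 4)) (4 / 9 * (4 - t))))
  have l1 : LipschitzWith (4 / 5) (fun t : ℝ => 4 / 5 * (t + 4)) := by
    refine LipschitzWith.of_dist_le_mul fun s t => ?_
    rw [Real.dist_eq, Real.dist_eq]
    have : (4 / 5 * (s + 4) - 4 / 5 * (t + 4) : ℝ) = 4 / 5 * (s - t) := by ring
    rw [this, abs_mul, abs_of_pos (by norm_num : (0 : ℝ) < 4 / 5)]
    norm_num
  have l2 : LipschitzWith (4 / 5) (fun t : ℝ => 4 / 9 * (4 - t)) := by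
    refine LipschitzWith.of_dist_le_mul fun s t => ?_
    rw [Real.dist_eq, Real.dist_eq]
    have : (4 / 9 * (4 - s) - 4 / 9 * (4 - t) : ℝ) = -(4 / 9 * (s - t)) := by ring
    rw [this, abs_neg, abs_mul, abs_of_pos (by norm_num : (0 : ℝ) < 4 / 9)]
    have h0 := abs_nonneg (s - t)
    have h1 : (((4 / 5 : NNReal) : NNReal) : ℝ) = 4 / 5 := by norm_num
    rw [h1]
    linarith
  have l3 : LipschitzWith (4 / 5) β := by
    have := ((l1.min l2).const_min 2).const_max 0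
    rwa [max_self] at this
  obtain ⟨u, hu1, hu2, hu3⟩ := exists_homeo_add (by
    rw [div_lt_one (by norm_num)]
    norm_num : (4 / 5 : NNReal) < 1) l3
  have h1 : (((4 / 5 : NNReal) : NNReal) : ℝ) = 4 / 5 := by norm_num
  refine ⟨u, fun t ht => ?_, fun t ht => ?_, fun s t => ?_, fun s t => ?_⟩
  · rw [hu1]
    have : β t = 0 := by
      refine max_eq_left (min_le_iff.2 (Or.inr (min_le_iff.2 ?_)))
      rcases le_abs.1 ht with h | h
      · right; linarith
      · left; linarith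
    rw [this, add_zero]
  · rw [hu1]
    have h2 := abs_le.1 ht
    have : β t = 2 := by
      have h3 : min (4 / 5 * (t + 4)) (4 / 9 * (4 - t)) ≥ 2 := le_min (by linarith) (by linarith)
      change max 0 (min 2 _) = 2
      rw [min_eq_left h3]
      norm_num
    rw [this]
  · refine (hu2 s t).trans ?_
    rw [h1]
    have := dist_nonneg (x := s) (y := t)
    linarith
  · have h3 := hu3 s t
    rw [h1] at h3
    linarith

section

variable {Y : Type} [NormedAddCommGroup Y] [NormedSpace ℝ Y]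

/-- Vertical translation by `a`. -/
def vtr (Y : Type) [NormedAddCommGroup Y] (a : ℝ) : Y × ℝ ≃ₜ Y × ℝ :=
  (Homeomorph.refl Y).prodCongr (Homeomorph.addRight a)

omit [NormedSpace ℝ Y] in
theorem vtr_apply (a : ℝ) (z : Y × ℝ) : vtr Y a z = (z.1, z.2 + a) := rfl

omit [NormedSpace ℝ Y] in
theorem dist_vtr (a : ℝ) (z z' : Y × ℝ) : dist (vtr Y a z) (vtr Y a z') = dist z z' := by
  rw [vtr_apply, vtr_apply, Prod.dist_eq, Prod.dist_eq, dist_add_right]

omit [NormedSpace ℝ Y] in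
theorem vtr_pow (n : ℕ) (z : Y × ℝ) : (vtr Y 2 ^ n) z = (z.1, z.2 + 2 * n) := by
  induction n generalizing z with
  | zero => simp
  | succ n ih =>
    rw [pow_succ, Homeomorph.mul_apply, ih, vtr_apply]
    apply Prod.ext
    · rfl
    · change z.2 + 2 + 2 * (n : ℝ) = z.2 + 2 * ((n + 1 : ℕ) : ℝ)
      push_cast
      ring

omit [NormedSpace ℝ Y] in
theorem abs_snd_sub_le (z z' : Y × ℝ) : |z.2 - z'.2| ≤ dist z z' := by
  rw [Prod.dist_eq, ← Real.dist_eq]
  exact le_max_right _ _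

/-- The homeomorphism `Σ` of the one-dimensional trick. -/
theorem exists_sigma [FiniteDimensional ℝ Y] {δ : ℝ} (hδ1 : δ ≤ 1 / 200)
    {h : Y × ℝ → Y × ℝ} (hO : OE h (univ ×ˢ ball 0 5))
    (hn : ∀ z ∈ (univ ×ˢ ball 0 5 : Set (Y × ℝ)), dist (h z) z < δ) :
    ∃ S : Y × ℝ ≃ₜ Y × ℝ, (∀ x : Y × ℝ, |x.2 + 1| ≤ 1 / 4 → S (h x) = h (vtr Y 2 x)) ∧
      (∀ z : Y × ℝ, 9 / 2 ≤ |z.2| → S z = vtr Y 2 z) ∧
      (∀ z, dist (S z) (vtr Y 2 z) ≤ 15 * δ) ∧
      ∀ y, (∀ w, ‖w‖ < 5 → h (y, w) = (y, w)) → ∀ t, S (y, t) = (y, t + 2) := by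
  obtain ⟨u, u1, u2, u3, u4⟩ := exists_u
  let O : Set (Y × ℝ) := univ ×ˢ ball 0 5
  have memO : ∀ z : Y × ℝ, z ∈ O ↔ |z.2| < 5 := by
    intro z
    change (z.1 ∈ univ ∧ z.2 ∈ ball (0 : ℝ) 5) ↔ _
    rw [mem_ball_zero_iff, Real.norm_eq_abs]
    simp
  let C : Set (Y × ℝ) := {z | |z.2| ≤ 4}
  have hCO : C ⊆ O := fun z hz => (memO z).2 (lt_of_le_of_lt hz (by norm_num))
  have hCcl : IsClosed C := isClosed_le (continuous_snd.abs) continuous_const
  let ub : Y × ℝ ≃ₜ Y × ℝ := (Homeomorph.refl Y).prodCongr u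
  let v : ℝ ≃ₜ ℝ := u.symm.trans (Homeomorph.addRight 2)
  let w : Y × ℝ ≃ₜ Y × ℝ := (Homeomorph.refl Y).prodCongr v
  have hub : ∀ z : Y × ℝ, ub z = (z.1, u z.2) := fun z => rfl
  have hw : ∀ z : Y × ℝ, w z = (z.1, u.symm z.2 + 2) := fun z => rfl
  have us : ∀ t, 4 ≤ |t| → u.symm t = t := fun t ht => by
    rw [Homeomorph.symm_apply_eq, u1 t ht]
  have uO : ∀ t, |t| < 5 → |u t| < 5 := by
    intro t ht
    by_contra h5
    push Not at h5
    have : u (u t) = u t := u1 _ (by linarith)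
    rw [u.injective this] at h5
    linarith
  have uO' : ∀ t, |t| < 5 → |u.symm t| < 5 := by
    intro t ht
    by_contra h5
    push Not at h5
    have : u (u.symm t) = u.symm t := u1 _ (by linarith)
    rw [u.apply_symm_apply] at this
    rw [← this] at h5
    linarith
  have wub : ∀ z, w (ub z) = vtr Y 2 z := by
    intro z
    rw [hw, hub, vtr_apply]
    simp only [u.symm_apply_apply]
  have dub : ∀ z z', dist (ub z) (ub z') ≤ 2 * dist z z' := by
    intro z z'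
    rw [hub, hub, Prod.dist_eq, Prod.dist_eq]
    refine max_le ?_ ?_
    · have h1 : dist z.1 z'.1 ≤ max (dist z.1 z'.1) (dist z.2 z'.2) := le_max_left _ _
      have h2 : 0 ≤ dist z.1 z'.1 := dist_nonneg
      change dist z.1 z'.1 ≤ _
      linarith
    · refine (u3 _ _).trans ?_
      have h1 : dist z.2 z'.2 ≤ max (dist z.1 z'.1) (dist z.2 z'.2) := le_max_right _ _
      linarith
  have dw : ∀ z z', dist (w z) (w z') ≤ 5 * dist z z' := by
    intro z z'
    rw [hw, hw, Prod.dist_eq, Prod.dist_eq]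
    refine max_le ?_ ?_
    · have h1 : dist z.1 z'.1 ≤ max (dist z.1 z'.1) (dist z.2 z'.2) := le_max_left _ _
      have h2 : 0 ≤ dist z.1 z'.1 := dist_nonneg
      change dist z.1 z'.1 ≤ _
      linarith
    · change dist (u.symm z.2 + 2) (u.symm z'.2 + 2) ≤ _
      rw [dist_add_right]
      have h1 := u4 (u.symm z.2) (u.symm z'.2)
      rw [u.apply_symm_apply, u.apply_symm_apply] at h1
      have h2 : dist z.2 z'.2 ≤ max (dist z.1 z'.1) (dist z.2 z'.2) := le_max_right _ _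
      linarith
  obtain ⟨b, b1, b2⟩ := exists_conj hO ub hCO
    (fun x hx => (memO _).2 (uO _ ((memO x).1 hx)))
    (fun x hx => (memO _).2 (uO' _ ((memO x).1 hx)))
    (fun x hx => by
      have h4 : 4 < |x.2| := not_le.1 hx
      rw [hub, u1 _ h4.le])
    (isClosed_image_of_near hCcl (hO.cont.mono hCO) fun z hz => (hn z (hCO hz)).le)
  have hδ0 : 0 < δ := by
    have h0 : ((0, 0) : Y × ℝ) ∈ O := (memO _).2 (by simp)
    exact lt_of_le_of_lt dist_nonneg (hn _ h0)
  -- points outside the image of the core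
  have hout : ∀ z : Y × ℝ, 9 / 2 ≤ |z.2| → z ∉ h '' C := by
    rintro _ hz ⟨x, hx, rfl⟩
    have h1 := hn x (hCO hx)
    have h2 := abs_snd_sub_le (h x) x
    have h3 : |x.2| ≤ 4 := hx
    have h4 := abs_sub_abs_le_abs_sub (h x).2 x.2
    linarith
  have S2 : ∀ z : Y × ℝ, 9 / 2 ≤ |z.2| → w (b z) = vtr Y 2 z := by
    intro z hz
    rw [b2 z (hout z hz), hw, us _ (by linarith), vtr_apply]
  have hin : ∀ z : Y × ℝ, |z.2| < 9 / 2 → ∃ x ∈ O, h x = z := by
    intro z hz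
    have hsub : closedBall z (1 / 4) ⊆ O := by
      intro x hx
      rw [memO]
      have h1 := mem_closedBall.1 hx
      have h2 := abs_snd_sub_le x z
      have h4 := abs_sub_abs_le_abs_sub x.2 z.2
      linarith
    obtain ⟨x, hx, hxz⟩ := mem_image_ball (ρ := 1 / 4) hO (by norm_num) hn hsub (by linarith)
    exact ⟨x, hsub (ball_subset_closedBall hx), hxz⟩
  refine ⟨b.trans w, ?_, S2, ?_, ?_⟩
  · intro x hx
    have hx' := abs_le.1 hx
    have hxO : x ∈ O := (memO x).2 (abs_lt.2 ⟨by linarith, by linarith⟩)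
    have hxO' : vtr Y 2 x ∈ O := by
      rw [memO, vtr_apply]
      exact abs_lt.2 ⟨by change -5 < x.2 + 2; linarith, by change x.2 + 2 < 5; linarith⟩
    change w (b (h x)) = _
    have e1 : ub x = vtr Y 2 x := by
      rw [hub, vtr_apply, u2 _ (hx.trans (by norm_num))]
    rw [b1 x hxO, e1, hw]
    have h1 := hn _ hxO'
    have h2 := abs_snd_sub_le (h (vtr Y 2 x)) (vtr Y 2 x)
    have h3 := abs_le.1 h2
    have e2 : (vtr Y 2 x).2 = x.2 + 2 := rfl
    have h4 : |(h (vtr Y 2 x)).2 - 2 + 1| ≤ 1 / 2 := abs_le.2 ⟨by linarith, by linarith⟩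
    have h5 := u2 _ h4
    have h6 : u.symm (h (vtr Y 2 x)).2 = (h (vtr Y 2 x)).2 - 2 := by
      rw [Homeomorph.symm_apply_eq, h5]
      ring
    rw [h6]
    apply Prod.ext
    · rfl
    · change (h (vtr Y 2 x)).2 - 2 + 2 = _
      ring
  · intro z
    change dist (w (b z)) (vtr Y 2 z) ≤ 15 * δ
    by_cases hz : 9 / 2 ≤ |z.2|
    · rw [S2 z hz, dist_self]
      positivity
    · obtain ⟨x, hx, rfl⟩ := hin z (not_le.1 hz)
      have hux : ub x ∈ O := (memO _).2 (uO _ ((memO x).1 hx))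
      rw [b1 x hx, ← wub]
      refine (dw _ _).trans ?_
      have h1 := hn _ hux
      have h2 := dub x (h x)
      have h3 := hn x hx
      rw [dist_comm x] at h2
      have h4 := dist_triangle (h (ub x)) (ub x) (ub (h x))
      linarith
  · intro y hy t
    change w (b (y, t)) = _
    by_cases ht : 9 / 2 ≤ |t|
    · exact S2 (y, t) ht
    · push Not at ht
      have ht5 : |t| < 5 := by linarith
      have h1 : h (y, t) = (y, t) := hy t ht5
      have h2 : b (y, t) = (y, u t) := by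
        have h3 := b1 (y, t) ((memO _).2 ht5)
        rw [h1] at h3
        rw [h3, hub]
        exact hy _ (uO t ht5)
      rw [h2, hw]
      simp only [u.symm_apply_apply]

end

end Pool.Agent.Work.MP_252c1e_lc.B1
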