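import Pool.Agent.Work.MP_252c1e_lc.B1b

/-!
# Block B1, part c: the extension property for the line
-/

open Set Topology Metric Filter

namespace Pool.Agent.Work.MP_252c1e_lc.B1

section Level

variable {Y : Type} [NormedAddCommGroup Y] [NormedSpace ℝ Y] {S : Y × ℝ ≃ₜ Y × ℝ} {δ : ℝ}
  (hδ : 0 ≤ δ) (hδ1 : δ ≤ 1 / 200) (S2 : ∀ z : Y × ℝ, 9 / 2 ≤ |z.2| → S z = vtr Y 2 z)
  (S3 : ∀ z, dist (S z) (vtr Y 2 z) ≤ 15 * δ)

omit [NormedSpace ℝ Y] in
include S3 in
theorem level_S (z : Y × ℝ) : z.2 + 2 - 15 * δ ≤ (S z).2 ∧ (S z).2 ≤ z.2 + 2 + 15 * δ := by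
  have h1 := abs_le.1 ((abs_snd_sub_le _ _).trans (S3 z))
  rw [vtr_apply] at h1
  constructor <;> linarith [h1.1, h1.2]

omit [NormedSpace ℝ Y] in
include S3 in
theorem level_pow (n : ℕ) (z : Y × ℝ) : z.2 + n * (2 - 15 * δ) ≤ ((S ^ n) z).2 := by
  induction n generalizing z with
  | zero => simp
  | succ n ih =>
    rw [pow_succ, Homeomorph.mul_apply]
    have h1 := ih (S z)
    have h2 := (level_S S3 z).1
    push_cast
    linarith

omit [NormedSpace ℝ Y] in
include hδ hδ1 S2 S3 in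
theorem dist_pow (n : ℕ) (z : Y × ℝ) :
    dist ((S ^ n) z) (z.1, z.2 + 2 * n) ≤ 15 * δ * max 0 (6 - z.2) := by
  induction n generalizing z with
  | zero =>
    simp only [pow_zero, Homeomorph.one_apply, CharP.cast_eq_zero, mul_zero, add_zero,
      Prod.mk.eta, dist_self]
    positivity
  | succ n ih =>
    rw [pow_succ, Homeomorph.mul_apply]
    have h1 := ih (S z)
    have h2 : dist ((S z).1, (S z).2 + 2 * (n : ℝ)) (z.1, z.2 + 2 * ((n + 1 : ℕ) : ℝ)) =
        dist (S z) (vtr Y 2 z) := by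
      rw [← dist_vtr (2 * (n : ℝ)) (S z), vtr_apply, vtr_apply, vtr_apply]
      push_cast
      congr 1
      ring_nf
    have h3 := dist_triangle ((S ^ n) (S z)) ((S z).1, (S z).2 + 2 * (n : ℝ))
      (z.1, z.2 + 2 * ((n + 1 : ℕ) : ℝ))
    rw [h2] at h3
    have h4 := (level_S S3 z).1
    by_cases hz : 9 / 2 ≤ z.2
    · rw [S2 z (hz.trans (le_abs_self _)), dist_self] at h3
      rw [S2 z (hz.trans (le_abs_self _))] at h1 ⊢
      have h5 : max 0 (6 - (vtr Y 2 z).2) ≤ max 0 (6 - z.2) := by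
        refine max_le_max le_rfl ?_
        rw [vtr_apply]
        change 6 - (z.2 + 2) ≤ _
        linarith
      have h6 := mul_le_mul_of_nonneg_left h5 (by positivity : 0 ≤ 15 * δ)
      linarith
    · push Not at hz
      have h5 : max 0 (6 - (S z).2) ≤ 5 - z.2 := max_le (by linarith) (by linarith)
      have h6 : max 0 (6 - z.2) = 6 - z.2 := max_eq_right (by linarith)
      rw [h6]
      have h7 := mul_le_mul_of_nonneg_left h5 (by positivity : 0 ≤ 15 * δ)
      have h8 := S3 z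
      nlinarith

omit [NormedSpace ℝ Y] in
include hδ hδ1 S2 S3 in
theorem dist_pow_inv (n : ℕ) (z : Y × ℝ) :
    dist ((S⁻¹ ^ n) z) (z.1, z.2 - 2 * n) ≤ 15 * δ * max 0 (6 + z.2) := by
  induction n generalizing z with
  | zero =>
    simp only [pow_zero, Homeomorph.one_apply, CharP.cast_eq_zero, mul_zero, sub_zero,
      Prod.mk.eta, dist_self]
    positivity
  | succ n ih =>
    rw [pow_succ, Homeomorph.mul_apply]
    obtain ⟨p, hp⟩ : ∃ p, p = S⁻¹ z := ⟨_, rfl⟩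
    have hz : S p = z := by rw [hp, Homeomorph.inv_apply, S.apply_symm_apply]
    rw [← hp]
    have h1 := ih p
    have h2 : dist (p.1, p.2 - 2 * (n : ℝ)) (z.1, z.2 - 2 * ((n + 1 : ℕ) : ℝ)) =
        dist (vtr Y 2 p) (S p) := by
      rw [← dist_vtr (-(2 * (n : ℝ)) - 2) (vtr Y 2 p), vtr_apply, vtr_apply, vtr_apply, hz]
      push_cast
      congr 1
      · congr 1
        ring
      · congr 1
        ring
    have h3 := dist_triangle ((S⁻¹ ^ n) p) (p.1, p.2 - 2 * (n : ℝ))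
      (z.1, z.2 - 2 * ((n + 1 : ℕ) : ℝ))
    rw [h2] at h3
    have h4 := (level_S S3 p).1
    rw [hz] at h4
    by_cases hp' : p.2 ≤ -(9 / 2)
    · have h5 : 9 / 2 ≤ |p.2| := le_abs.2 (Or.inr (by linarith))
      rw [S2 p h5, dist_self] at h3
      have h6 : max 0 (6 + p.2) ≤ max 0 (6 + z.2) := max_le_max le_rfl (by linarith)
      have h7 := mul_le_mul_of_nonneg_left h6 (by positivity : 0 ≤ 15 * δ)
      linarith
    · push Not at hp'
      have h5 : max 0 (6 + p.2) ≤ 5 + z.2 := max_le (by linarith) (by linarith)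
      have h6 : max 0 (6 + z.2) = 6 + z.2 := max_eq_right (by linarith)
      rw [h6]
      have h7 := mul_le_mul_of_nonneg_left h5 (by positivity : 0 ≤ 15 * δ)
      have h8 := S3 p
      rw [dist_comm] at h8
      nlinarith

omit [NormedSpace ℝ Y] in
include hδ hδ1 S2 S3 in
/-- Displacement of integer powers on the middle slab. -/
theorem dist_zpow (j : ℤ) (z : Y × ℝ) (hz : |z.2| ≤ 2) :
    dist ((S ^ j) z) (z.1, z.2 + 2 * j) ≤ 120 * δ := by
  have h2 := abs_le.1 hz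
  obtain ⟨n, rfl | rfl⟩ := j.eq_nat_or_neg
  · rw [zpow_natCast]
    refine (dist_pow hδ hδ1 S2 S3 n z).trans ?_
    have : max 0 (6 - z.2) ≤ 8 := max_le (by norm_num) (by linarith)
    nlinarith [mul_le_mul_of_nonneg_left this (by positivity : 0 ≤ 15 * δ)]
  · rw [zpow_neg, zpow_natCast, ← inv_pow]
    have h3 : ((z.1, z.2 + 2 * ((-(n : ℤ) : ℤ) : ℝ)) : Y × ℝ) = (z.1, z.2 - 2 * n) := by
      push_cast
      congr 1
      ring
    rw [h3]
    refine (dist_pow_inv hδ hδ1 S2 S3 n z).trans ?_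
    have : max 0 (6 + z.2) ≤ 8 := max_le (by norm_num) (by linarith)
    nlinarith [mul_le_mul_of_nonneg_left this (by positivity : 0 ≤ 15 * δ)]

end Level

/-- The extension property for the line. -/
theorem extR_real : ExtR 5 ℝ := by
  refine ⟨1, one_pos, ?_⟩
  intro Y _ _ _ ε hε
  refine ⟨min (1 / 200) (ε / 121), by positivity, ?_⟩
  intro h hO hn
  obtain ⟨δ, hδdef⟩ : ∃ δ, δ = min (1 / 200) (ε / 121) := ⟨_, rfl⟩
  rw [← hδdef] at hn
  have hδ1 : δ ≤ 1 / 200 := hδdef ▸ min_le_left _ _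
  have hδε : 121 * δ ≤ ε := by
    have : δ ≤ ε / 121 := hδdef ▸ min_le_right _ _
    linarith
  let O : Set (Y × ℝ) := univ ×ˢ ball 0 5
  have memO : ∀ z : Y × ℝ, z ∈ O ↔ |z.2| < 5 := by
    intro z
    change (z.1 ∈ univ ∧ z.2 ∈ ball (0 : ℝ) 5) ↔ _
    rw [mem_ball_zero_iff, Real.norm_eq_abs]
    simp
  have hδ0 : 0 < δ := by
    have h0 : ((0, 0) : Y × ℝ) ∈ O := (memO _).2 (by simp)
    exact lt_of_le_of_lt dist_nonneg (hn _ h0)
  obtain ⟨S, S1, S2, S3, S4⟩ := exists_sigma hδ1 hO hn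
  -- the local formulas
  let P : ℤ → Y × ℝ → Y × ℝ := fun j z => (S ^ j) (h (vtr Y (-(2 * j)) z))
  let H : Y × ℝ → Y × ℝ := fun z => P ⌊(z.2 + 1) / 2⌋ z
  let W : ℤ → Set (Y × ℝ) := fun j => {z | -1 + 2 * (j : ℝ) - 1 / 4 < z.2 ∧ z.2 < 1 + 2 * j}
  have hWo : ∀ j, IsOpen (W j) := fun j =>
    (isOpen_lt continuous_const continuous_snd).inter (isOpen_lt continuous_snd continuous_const)
  have hWO : ∀ j, ∀ z ∈ W j, vtr Y (-(2 * (j : ℝ))) z ∈ O := by
    intro j z hz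
    rw [memO, vtr_apply]
    change |z.2 + -(2 * (j : ℝ))| < 5
    rw [abs_lt]
    constructor <;> linarith [hz.1, hz.2]
  have hfl : ∀ z : Y × ℝ, -1 + 2 * (⌊(z.2 + 1) / 2⌋ : ℝ) ≤ z.2 ∧
      z.2 < 1 + 2 * (⌊(z.2 + 1) / 2⌋ : ℝ) := by
    intro z
    have h1 := Int.floor_le ((z.2 + 1) / 2)
    have h2 := Int.lt_floor_add_one ((z.2 + 1) / 2)
    constructor <;> linarith
  have hmemW : ∀ z : Y × ℝ, z ∈ W ⌊(z.2 + 1) / 2⌋ := fun z =>
    ⟨by linarith [(hfl z).1], (hfl z).2⟩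
  -- the floor is determined by the slab
  have hflo : ∀ (z : Y × ℝ) (j : ℤ), -1 + 2 * (j : ℝ) ≤ z.2 → z.2 < 1 + 2 * (j : ℝ) →
      ⌊(z.2 + 1) / 2⌋ = j := by
    intro z j h1 h2
    rw [Int.floor_eq_iff]
    constructor <;> linarith
  have hHP : ∀ j, ∀ z ∈ W j, H z = P j z := by
    intro j z hz
    by_cases h1 : -1 + 2 * (j : ℝ) ≤ z.2
    · change P ⌊(z.2 + 1) / 2⌋ z = P j z
      rw [hflo z j h1 hz.2]
    · push Not at h1
      have h2 : ⌊(z.2 + 1) / 2⌋ = j - 1 := hflo z (j - 1) (by push_cast; linarith [hz.1])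
        (by push_cast; linarith)
      change P ⌊(z.2 + 1) / 2⌋ z = P j z
      rw [h2]
      change (S ^ (j - 1)) (h (vtr Y (-(2 * ((j - 1 : ℤ) : ℝ))) z)) =
        (S ^ j) (h (vtr Y (-(2 * (j : ℝ))) z))
      have h3 : vtr Y (-(2 * ((j - 1 : ℤ) : ℝ))) z = vtr Y 2 (vtr Y (-(2 * (j : ℝ))) z) := by
        rw [vtr_apply, vtr_apply, vtr_apply]
        apply Prod.ext
        · rfl
        · change z.2 + -(2 * ((j - 1 : ℤ) : ℝ)) = z.2 + -(2 * (j : ℝ)) + 2
          push_cast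
          ring
      rw [h3, ← S1, ← Homeomorph.mul_apply, zpow_sub_one, inv_mul_cancel_right]
      rw [vtr_apply]
      change |z.2 + -(2 * (j : ℝ)) + 1| ≤ 1 / 4
      rw [abs_le]
      constructor <;> linarith [hz.1]
  have hPOE : ∀ j, OE (P j) (vtr Y (-(2 * (j : ℝ))) ⁻¹' O) := fun j =>
    hO.conj1 (vtr Y (-(2 * (j : ℝ)))) (S ^ j)
  have hHc : Continuous H := by
    rw [continuous_iff_continuousAt]
    intro z
    have h1 : z ∈ W ⌊(z.2 + 1) / 2⌋ := hmemW z
    have h2 : ContinuousAt (P ⌊(z.2 + 1) / 2⌋) z :=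
      ((hPOE _).cont z (hWO _ z h1)).continuousAt ((hPOE _).isOpen.mem_nhds (hWO _ z h1))
    refine h2.congr ?_
    filter_upwards [(hWo _).mem_nhds h1] with z' hz'
    exact (hHP _ z' hz').symm
  have hHo : IsOpenMap H := by
    intro U hU
    have h1 : H '' U = ⋃ j, P j '' (U ∩ W j) := by
      ext p
      constructor
      · rintro ⟨z, hz, rfl⟩
        exact mem_iUnion.2 ⟨_, z, ⟨hz, hmemW z⟩, rfl⟩
      · intro hp
        obtain ⟨j, z, ⟨hz, hzW⟩, rfl⟩ := mem_iUnion.1 hp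
        exact ⟨z, hz, hHP j z hzW⟩
    rw [h1]
    exact isOpen_iUnion fun j => (hPOE j).openMap _ (fun z hz => hWO j z hz.2)
      (hU.inter (hWo j))
  have hHi : Function.Injective H := by
    have key : ∀ z z' : Y × ℝ, ⌊(z.2 + 1) / 2⌋ ≤ ⌊(z'.2 + 1) / 2⌋ → H z = H z' → z = z' := by
      intro z z' hle heq
      obtain ⟨k, hk⟩ := Int.eq_ofNat_of_zero_le (sub_nonneg.2 hle)
      obtain ⟨x, hx⟩ : ∃ x, x = vtr Y (-(2 * (⌊(z.2 + 1) / 2⌋ : ℝ))) z := ⟨_, rfl⟩
      obtain ⟨x', hx'⟩ : ∃ x', x' = vtr Y (-(2 * (⌊(z'.2 + 1) / 2⌋ : ℝ))) z' := ⟨_, rfl⟩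
      have hxO : x ∈ O := hx ▸ hWO _ z (hmemW z)
      have hxO' : x' ∈ O := hx' ▸ hWO _ z' (hmemW z')
      have l1 : x.2 < 1 := by
        rw [hx, vtr_apply]
        change z.2 + -(2 * _) < 1
        linarith [(hfl z).2]
      have l2 : -1 ≤ x'.2 := by
        rw [hx', vtr_apply]
        change -1 ≤ z'.2 + -(2 * _)
        linarith [(hfl z').1]
      have l3 : x'.2 < 1 := by
        rw [hx', vtr_apply]
        change z'.2 + -(2 * _) < 1
        linarith [(hfl z').2]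
      have heq' : h x = (S ^ k) (h x') := by
        have h1 : (S ^ ⌊(z.2 + 1) / 2⌋) (h x) = (S ^ ⌊(z'.2 + 1) / 2⌋) (h x') := by
          rw [hx, hx']
          exact heq
        have h2 : ⌊(z'.2 + 1) / 2⌋ = ⌊(z.2 + 1) / 2⌋ + (k : ℤ) := by
          linarith
        rw [h2, zpow_add, Homeomorph.mul_apply, zpow_natCast] at h1
        exact (S ^ ⌊(z.2 + 1) / 2⌋).injective h1
      have d1 := abs_le.1 ((abs_snd_sub_le _ _).trans (hn x hxO).le)
      have d2 := abs_le.1 ((abs_snd_sub_le _ _).trans (hn x' hxO').le)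
      have lev := level_pow S3 k (h x')
      rw [← heq'] at lev
      rcases Nat.lt_or_ge k 1 with hk0 | hk1
      · have hk0' : k = 0 := by omega
        subst hk0'
        rw [pow_zero, Homeomorph.one_apply] at heq'
        have h3 : x = x' := hO.inj hxO hxO' heq'
        have h4 : ⌊(z'.2 + 1) / 2⌋ = ⌊(z.2 + 1) / 2⌋ := by
          have : ((0 : ℕ) : ℤ) = 0 := rfl
          omega
        rw [hx, hx', h4] at h3
        exact (vtr Y _).injective h3
      · exfalso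
        rcases Nat.lt_or_ge k 2 with hk2 | hk2
        · have hk1' : k = 1 := by omega
          subst hk1'
          rw [pow_one] at heq'
          by_cases h5 : x'.2 ≤ -3 / 4
          · rw [S1 x' (abs_le.2 ⟨by linarith, by linarith⟩)] at heq'
            have h6 : vtr Y 2 x' ∈ O := by
              rw [memO, vtr_apply]
              exact abs_lt.2 ⟨by change -5 < x'.2 + 2; linarith, by change x'.2 + 2 < 5; linarith⟩
            have h7 : x = vtr Y 2 x' := hO.inj hxO h6 heq'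
            rw [h7, vtr_apply] at l1
            have : x'.2 + 2 < 1 := l1
            linarith
          · push Not at h5
            push_cast at lev
            linarith [d1.2, d2.1]
        · have h5 : (2 : ℝ) ≤ k := by exact_mod_cast hk2
          have h6 : (k : ℝ) * (2 - 15 * δ) ≥ 2 * (2 - 15 * δ) :=
            mul_le_mul_of_nonneg_right h5 (by linarith)
          linarith [d1.2, d2.1]
    intro z z' heq
    rcases le_total ⌊(z.2 + 1) / 2⌋ ⌊(z'.2 + 1) / 2⌋ with h1 | h1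
    · exact key z z' h1 heq
    · exact (key z' z h1 heq.symm).symm
  have hHd : ∀ z, dist (H z) z ≤ ε := by
    intro z
    obtain ⟨j, hj⟩ : ∃ j, j = ⌊(z.2 + 1) / 2⌋ := ⟨_, rfl⟩
    obtain ⟨x, hx⟩ : ∃ x, x = vtr Y (-(2 * (j : ℝ))) z := ⟨_, rfl⟩
    have hxO : x ∈ O := hx ▸ hj ▸ hWO _ z (hmemW z)
    have l1 : x.2 < 1 := by
      rw [hx, vtr_apply, hj]
      change z.2 + -(2 * _) < 1
      linarith [(hfl z).2]
    have l2 : -1 ≤ x.2 := by
      rw [hx, vtr_apply, hj]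
      change -1 ≤ z.2 + -(2 * _)
      linarith [(hfl z).1]
    have hHz : H z = (S ^ j) (h x) := by rw [hx, hj]
    have d1 := hn x hxO
    have d2 := abs_le.1 ((abs_snd_sub_le _ _).trans d1.le)
    have h3 := dist_zpow hδ0.le hδ1 S2 S3 j (h x) (abs_le.2 ⟨by linarith, by linarith⟩)
    have h4 : dist (((h x).1, (h x).2 + 2 * (j : ℝ)) : Y × ℝ) z = dist (h x) x := by
      rw [← dist_vtr (2 * (j : ℝ)) (h x) x, vtr_apply, vtr_apply]
      congr 1
      rw [hx, vtr_apply]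
      apply Prod.ext
      · rfl
      · change z.2 = z.2 + -(2 * (j : ℝ)) + 2 * (j : ℝ)
        ring
    rw [hHz]
    have h5 := dist_triangle ((S ^ j) (h x)) ((h x).1, (h x).2 + 2 * (j : ℝ)) z
    rw [h4] at h5
    linarith
  obtain ⟨Hh, hHh⟩ := exists_homeo_of_near hHc hHo hHi hHd
  refine ⟨Hh, fun z => by rw [hHh]; exact hHd z, ?_, ?_⟩
  · intro z hz
    rw [hHh]
    rw [Real.norm_eq_abs, abs_lt] at hz
    have h1 : ⌊(z.2 + 1) / 2⌋ = 0 := hflo z 0 (by push_cast; linarith) (by push_cast; linarith)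
    change P ⌊(z.2 + 1) / 2⌋ z = h z
    rw [h1]
    change (S ^ (0 : ℤ)) (h (vtr Y (-(2 * ((0 : ℤ) : ℝ))) z)) = h z
    rw [zpow_zero, Homeomorph.one_apply, vtr_apply]
    congr 1
    apply Prod.ext
    · rfl
    · simp
  · intro y hy t
    have h1 : ∀ s, S (y, s) = (y, s + 2) := S4 y hy
    have h2 : ∀ (n : ℕ) s, (S ^ n) (y, s) = (y, s + 2 * n) := by
      intro n
      induction n with
      | zero => intro s; simp
      | succ n ih =>
        intro s
        rw [pow_succ, Homeomorph.mul_apply, h1, ih]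
        push_cast
        congr 1
        ring
    have h3 : ∀ (j : ℤ) s, (S ^ j) (y, s) = (y, s + 2 * j) := by
      intro j s
      obtain ⟨n, rfl | rfl⟩ := j.eq_nat_or_neg
      · rw [zpow_natCast, h2]
        push_cast
        rfl
      · rw [zpow_neg, zpow_natCast, Homeomorph.inv_apply, Homeomorph.symm_apply_eq, h2]
        push_cast
        congr 1
        ring
    rw [hHh]
    obtain ⟨j, hj⟩ : ∃ j, j = ⌊(((y, t) : Y × ℝ).2 + 1) / 2⌋ := ⟨_, rfl⟩
    have h4 : vtr Y (-(2 * (j : ℝ))) (y, t) ∈ O := hj ▸ hWO _ _ (hmemW _)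
    change (S ^ ⌊(((y, t) : Y × ℝ).2 + 1) / 2⌋)
      (h (vtr Y (-(2 * (⌊(((y, t) : Y × ℝ).2 + 1) / 2⌋ : ℝ))) (y, t))) = _
    rw [← hj]
    rw [memO] at h4
    rw [vtr_apply] at h4 ⊢
    have h5 : h (y, t + -(2 * (j : ℝ))) = (y, t + -(2 * (j : ℝ))) := hy _ h4
    rw [h5, h3]
    congr 1
    ring

end Pool.Agent.Work.MP_252c1e_lc.B1
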