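import Pool.Agent.Work.MP_252c1e_lc.B1c

/-!
# Block B1, part d: transfer of the extension property along linear isomorphisms, and the
wrapping map
-/

open Set Topology Metric Filter

namespace Pool.Agent.Work.MP_252c1e_lc.B1

/-- The extension property does not depend on the norm and on the radius. -/
theorem ExtR.transfer {R R' : ℝ} (hR : 0 < R) (hR' : 0 < R') {W W' : Type}
    [NormedAddCommGroup W] [NormedSpace ℝ W] [NormedAddCommGroup W'] [NormedSpace ℝ W']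
    [FiniteDimensional ℝ W'] (hW : ExtR R W) (e₀ : W ≃L[ℝ] W') : ExtR R' W' := by
  -- rescale the isomorphism
  obtain ⟨e, he⟩ : ∃ e : W ≃L[ℝ] W', ∀ w, ‖w‖ < R → ‖e w‖ < R' := by
    let s : ℝ := R' / (R * (‖(e₀ : W →L[ℝ] W')‖ + 1))
    have hs : 0 < s := by positivity
    let m : W' ≃L[ℝ] W' := (LinearEquiv.smulOfNeZero ℝ W' s hs.ne').toContinuousLinearEquiv
    refine ⟨e₀.trans m, fun w hw => ?_⟩
    change ‖s • e₀ w‖ < R'
    rw [norm_smul, Real.norm_eq_abs, abs_of_pos hs]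
    have h1 : ‖e₀ w‖ ≤ ‖(e₀ : W →L[ℝ] W')‖ * ‖w‖ := (e₀ : W →L[ℝ] W').le_opNorm w
    have h2 : ‖e₀ w‖ < (‖(e₀ : W →L[ℝ] W')‖ + 1) * R := by
      refine h1.trans_lt ?_
      have := norm_nonneg (e₀ : W →L[ℝ] W')
      nlinarith [norm_nonneg w]
    calc s * ‖e₀ w‖ < s * ((‖(e₀ : W →L[ℝ] W')‖ + 1) * R) := mul_lt_mul_of_pos_left h2 hs
      _ = R' := by
        simp only [s]
        field_simp
  obtain ⟨r, hr, hW⟩ := hW
  refine ⟨r / (‖(e.symm : W' →L[ℝ] W)‖ + 1), by positivity, ?_⟩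
  intro Y _ _ _ ε hε
  let Φ : (Y × W) ≃L[ℝ] (Y × W') := (ContinuousLinearEquiv.refl ℝ Y).prodCongr e
  have hΦ : ∀ z, Φ z = (z.1, e z.2) := fun z => rfl
  have hΦs : ∀ z, Φ.symm z = (z.1, e.symm z.2) := fun z => rfl
  obtain ⟨δ, hδ, hW⟩ := hW Y (ε / (‖(Φ : (Y × W) →L[ℝ] (Y × W'))‖ + 1)) (by positivity)
  refine ⟨δ / (‖(Φ.symm : (Y × W') →L[ℝ] (Y × W))‖ + 1), by positivity, ?_⟩
  intro h hO hn
  have dΦ : ∀ z z', dist (Φ z) (Φ z') ≤ (‖(Φ : (Y × W) →L[ℝ] (Y × W'))‖ + 1) * dist z z' := by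
    intro z z'
    have := Φ.lipschitz.dist_le_mul z z'
    have h2 := dist_nonneg (x := z) (y := z')
    have h3 : ((‖(Φ : (Y × W) →L[ℝ] (Y × W'))‖₊ : NNReal) : ℝ) =
      ‖(Φ : (Y × W) →L[ℝ] (Y × W'))‖ := rfl
    rw [h3] at this
    linarith
  have dΦs : ∀ z z', dist (Φ.symm z) (Φ.symm z') ≤
      (‖(Φ.symm : (Y × W') →L[ℝ] (Y × W))‖ + 1) * dist z z' := by
    intro z z'
    have := Φ.symm.lipschitz.dist_le_mul z z'
    have h2 := dist_nonneg (x := z) (y := z')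
    have h3 : ((‖(Φ.symm : (Y × W') →L[ℝ] (Y × W))‖₊ : NNReal) : ℝ) =
      ‖(Φ.symm : (Y × W') →L[ℝ] (Y × W))‖ := rfl
    rw [h3] at this
    linarith
  have hsub : (univ ×ˢ ball 0 R : Set (Y × W)) ⊆
      Φ.toHomeomorph ⁻¹' (univ ×ˢ ball 0 R' : Set (Y × W')) := by
    rintro z ⟨-, hz⟩
    refine ⟨mem_univ _, ?_⟩
    rw [mem_ball_zero_iff] at hz ⊢
    exact he _ hz
  obtain ⟨H, H1, H2, H3⟩ := hW (fun z => Φ.symm.toHomeomorph (h (Φ.toHomeomorph z)))
    ((hO.conj1 Φ.toHomeomorph Φ.symm.toHomeomorph).mono (isOpen_univ.prod isOpen_ball) hsub) (by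
      intro z hz
      have h1 := hn (Φ z) (hsub hz)
      have h2 := dΦs (h (Φ z)) (Φ z)
      rw [Φ.symm_apply_apply] at h2
      refine h2.trans_lt ?_
      rw [lt_div_iff₀ (by positivity)] at h1
      linarith)
  refine ⟨Φ.symm.toHomeomorph.trans (H.trans Φ.toHomeomorph), ?_, ?_, ?_⟩
  · intro z
    change dist (Φ (H (Φ.symm z))) z ≤ ε
    have h1 := dΦ (H (Φ.symm z)) (Φ.symm z)
    rw [Φ.apply_symm_apply] at h1
    have h2 := H1 (Φ.symm z)
    rw [le_div_iff₀ (by positivity)] at h2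
    linarith
  · intro z hz
    change Φ (H (Φ.symm z)) = h z
    have h1 : ‖(Φ.symm z).2‖ < r := by
      rw [hΦs]
      have h2 : ‖e.symm z.2‖ ≤ ‖(e.symm : W' →L[ℝ] W)‖ * ‖z.2‖ :=
        (e.symm : W' →L[ℝ] W).le_opNorm _
      rw [lt_div_iff₀ (by positivity)] at hz
      have := norm_nonneg z.2
      change ‖e.symm z.2‖ < r
      linarith
    rw [H2 _ h1]
    change Φ (Φ.symm (h (Φ (Φ.symm z)))) = h z
    rw [Φ.apply_symm_apply, Φ.apply_symm_apply]
  · intro y hy w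
    change Φ (H (Φ.symm (y, w))) = (y, w)
    have h1 := H3 y (fun w' hw' => by
      change Φ.symm (h (y, e w')) = (y, w')
      rw [hy _ (he _ hw'), hΦs]
      simp only [e.symm_apply_apply]) (e.symm w)
    rw [hΦs, h1, hΦ]
    simp only [e.apply_symm_apply]

/-! ### The exponential -/

open Complex in
/-- The complex map `(e^z - 1) / 8`. -/
noncomputable def E0 (z : ℂ) : ℂ := (Complex.exp z - 1) / 8

theorem continuous_E0 : Continuous E0 := by
  unfold E0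
  fun_prop

theorem isOpenMap_E0 : IsOpenMap E0 := by
  have h1 : IsOpenMap (fun w : ℂ => (w - 1) / 8) := by
    have : (fun w : ℂ => (w - 1) / 8) =
        (Homeomorph.subRight (1 : ℂ)).trans (Homeomorph.mulRight₀ (8⁻¹ : ℂ) (by norm_num)) := rfl
    rw [this]
    exact Homeomorph.isOpenMap _
  exact h1.comp Complex.isOpenMap_exp

/-- Clamp to the square of half-side `1/16`. -/
noncomputable def clampC (z : ℂ) : ℂ :=
  ⟨max (-(1 / 16)) (min (1 / 16) z.re), max (-(1 / 16)) (min (1 / 16) z.im)⟩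

theorem clampC_of_le {z : ℂ} (h1 : |z.re| ≤ 1 / 16) (h2 : |z.im| ≤ 1 / 16) : clampC z = z := by
  rw [abs_le] at h1 h2
  apply Complex.ext
  · change max _ (min _ _) = _
    rw [min_eq_right h1.2, max_eq_right h1.1]
  · change max _ (min _ _) = _
    rw [min_eq_right h2.2, max_eq_right h2.1]

theorem norm_clampC (z : ℂ) : ‖clampC z‖ ≤ 1 / 8 := by
  have h0 : ∀ x : ℝ, |max (-(1 / 16)) (min (1 / 16) x)| ≤ 1 / 16 := by
    intro x
    rw [abs_le]
    exact ⟨le_max_left _ _, max_le (by norm_num) (min_le_left _ _)⟩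
  have h1 := Complex.norm_le_abs_re_add_abs_im (clampC z)
  have h2 := h0 z.re
  have h3 := h0 z.im
  change ‖clampC z‖ ≤ |max (-(1 / 16)) (min (1 / 16) z.re)| +
    |max (-(1 / 16)) (min (1 / 16) z.im)| at h1
  linarith

theorem lipschitz_clampC (z w : ℂ) : ‖clampC z - clampC w‖ ≤ ‖z - w‖ := by
  have h0 : ∀ x y : ℝ, |max (-(1 / 16)) (min (1 / 16) x) - max (-(1 / 16)) (min (1 / 16) y)| ≤
      |x - y| := by
    intro x y
    have := ((LipschitzWith.id.const_min (1 / 16 : ℝ)).const_max (-(1 / 16))).dist_le_mul x y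
    rw [Real.dist_eq, Real.dist_eq, NNReal.coe_one, one_mul] at this
    exact this
  have h1 := h0 z.re w.re
  have h2 := h0 z.im w.im
  rw [← sq_le_sq₀ (norm_nonneg _) (norm_nonneg _), ← Complex.normSq_eq_norm_sq,
    ← Complex.normSq_eq_norm_sq, Complex.normSq_apply, Complex.normSq_apply]
  have h3 := sq_le_sq.2 h1
  have h4 := sq_le_sq.2 h2
  have e1 : (clampC z - clampC w).re = max (-(1 / 16)) (min (1 / 16) z.re) -
    max (-(1 / 16)) (min (1 / 16) w.re) := rfl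
  have e2 : (clampC z - clampC w).im = max (-(1 / 16)) (min (1 / 16) z.im) -
    max (-(1 / 16)) (min (1 / 16) w.im) := rfl
  rw [e1, e2, Complex.sub_re, Complex.sub_im]
  nlinarith

end Pool.Agent.Work.MP_252c1e_lc.B1
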