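import Pool.Agent.Work.MP_252c1e_lc.B1d

/-!
# Block B1, part e: wrapping
-/

open Set Topology Metric Filter

namespace Pool.Agent.Work.MP_252c1e_lc.B1

/-- A global homeomorphism of the plane equal to `E0` near the origin. -/
theorem exists_hatE : ∃ U : ℂ ≃ₜ ℂ,
    (∀ z : ℂ, |z.re| ≤ 1 / 16 → |z.im| ≤ 1 / 16 → U z = E0 z) ∧
    (∀ z w, dist (U z) (U w) ≤ 1 / 4 * dist z w) ∧
    (∀ z w, dist z w ≤ 16 * dist (U z) (U w)) := by
  have hψ : ∀ x ∈ closedBall (0 : ℂ) (1 / 8), ∀ y ∈ closedBall (0 : ℂ) (1 / 8),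
      ‖(Complex.exp y - 1 - y) - (Complex.exp x - 1 - x)‖ ≤ 1 / 4 * ‖y - x‖ := by
    intro x hx y hy
    refine Convex.norm_image_sub_le_of_norm_hasDerivWithin_le (f := fun z => Complex.exp z - 1 - z)
      (f' := fun z => Complex.exp z - 1) (s := closedBall (0 : ℂ) (1 / 8)) ?_ ?_
      (convex_closedBall _ _) hx hy
    · intro z _
      exact (((Complex.hasDerivAt_exp z).sub_const 1).sub (hasDerivAt_id z)).hasDerivWithinAt
    · intro z hz
      rw [mem_closedBall_zero_iff] at hz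
      have := Complex.norm_exp_sub_one_le (x := z) (by linarith)
      linarith
  have hφ : LipschitzWith (1 / 4) (fun z => Complex.exp (clampC z) - 1 - clampC z) := by
    refine LipschitzWith.of_dist_le_mul fun z w => ?_
    rw [dist_eq_norm, dist_eq_norm]
    have h1 := hψ (clampC w) (by rw [mem_closedBall_zero_iff]; exact norm_clampC w)
      (clampC z) (by rw [mem_closedBall_zero_iff]; exact norm_clampC z)
    have h2 := lipschitz_clampC z w
    have h3 : (((1 / 4 : NNReal) : NNReal) : ℝ) = 1 / 4 := by norm_num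
    rw [h3]
    linarith
  obtain ⟨U, hU1, hU2, hU3⟩ := exists_homeo_add (by
    rw [div_lt_one (by norm_num)]
    norm_num : (1 / 4 : NNReal) < 1) hφ
  have h3 : (((1 / 4 : NNReal) : NNReal) : ℝ) = 1 / 4 := by norm_num
  have h8 : ∀ a b : ℂ, dist (a * 8⁻¹) (b * 8⁻¹) = dist a b * (1 / 8) := by
    intro a b
    rw [dist_eq_norm, dist_eq_norm, ← sub_mul, norm_mul]
    congr 1
    rw [norm_inv]
    norm_num
  refine ⟨U.trans (Homeomorph.mulRight₀ (8⁻¹ : ℂ) (by norm_num)), ?_, ?_, ?_⟩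
  · intro z h1 h2
    change U z * 8⁻¹ = _
    rw [hU1, clampC_of_le h1 h2, E0]
    ring
  · intro z w
    change dist (U z * 8⁻¹) (U w * 8⁻¹) ≤ _
    rw [h8]
    have h4 := hU2 z w
    rw [h3] at h4
    have := dist_nonneg (x := z) (y := w)
    linarith
  · intro z w
    change _ ≤ 16 * dist (U z * 8⁻¹) (U w * 8⁻¹)
    rw [h8]
    have h4 := hU3 z w
    rw [h3] at h4
    have := dist_nonneg (x := z) (y := w)
    linarith

section

variable {Y V : Type} [NormedAddCommGroup Y] [NormedAddCommGroup V]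

/-- The complex coordinate. -/
def zc (p : (Y × ℝ) × (ℝ × V)) : ℂ := ⟨p.2.1, p.1.2⟩

theorem continuous_zc : Continuous (zc : (Y × ℝ) × (ℝ × V) → ℂ) := by
  have : (zc : (Y × ℝ) × (ℝ × V) → ℂ) = fun p => (p.2.1 : ℂ) + (p.1.2 : ℂ) * Complex.I := by
    ext1 p
    exact Complex.mk_eq_add_mul_I _ _
  rw [this]
  fun_prop

/-- Regrouping the coordinates. -/
def regroup (Y V : Type) [NormedAddCommGroup Y] [NormedAddCommGroup V] :
    (Y × ℝ) × (ℝ × V) ≃ₜ Y × (ℂ × V) where
  toFun p := (p.1.1, (zc p, p.2.2))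
  invFun z := ((z.1, z.2.1.im), (z.2.1.re, z.2.2))
  left_inv _ := rfl
  right_inv _ := rfl
  continuous_toFun := by
    have := continuous_zc (Y := Y) (V := V)
    fun_prop
  continuous_invFun := by
    have h1 : Continuous (fun z : Y × (ℂ × V) => z.2.1.re) :=
      Complex.continuous_re.comp (continuous_fst.comp continuous_snd)
    have h2 : Continuous (fun z : Y × (ℂ × V) => z.2.1.im) :=
      Complex.continuous_im.comp (continuous_fst.comp continuous_snd)
    fun_prop

/-- The wrapping map. -/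
noncomputable def wrap (p : (Y × ℝ) × (ℝ × V)) : Y × (ℂ × V) := (p.1.1, (E0 (zc p), p.2.2))

theorem continuous_wrap : Continuous (wrap : (Y × ℝ) × (ℝ × V) → Y × (ℂ × V)) := by
  have h1 : Continuous (fun p : (Y × ℝ) × (ℝ × V) => E0 (zc p)) :=
    continuous_E0.comp continuous_zc
  unfold wrap
  fun_prop

theorem isOpenMap_wrap : IsOpenMap (wrap : (Y × ℝ) × (ℝ × V) → Y × (ℂ × V)) := by
  have : (wrap : (Y × ℝ) × (ℝ × V) → Y × (ℂ × V)) =
      Prod.map id (Prod.map E0 id) ∘ regroup Y V := rfl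
  rw [this]
  exact (IsOpenMap.id.prodMap (isOpenMap_E0.prodMap IsOpenMap.id)).comp (regroup Y V).isOpenMap

theorem norm_E0_lt {z : ℂ} (hz : |z.re| < 1) : ‖E0 z‖ < 1 := by
  unfold E0
  rw [norm_div]
  have h1 : ‖Complex.exp z - 1‖ ≤ Real.exp z.re + 1 := by
    refine (norm_sub_le _ _).trans ?_
    rw [Complex.norm_exp, norm_one]
  have h2 : Real.exp z.re ≤ Real.exp 1 := Real.exp_le_exp.2 (by linarith [(abs_lt.1 hz).2])
  have h3 := Real.exp_one_lt_d9
  have h4 : ‖(8 : ℂ)‖ = 8 := by norm_num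
  rw [h4, div_lt_one (by norm_num)]
  linarith

theorem norm_exp_ge {z : ℂ} (hz : |z.re| < 1) : 1 / 3 ≤ ‖Complex.exp z‖ := by
  rw [Complex.norm_exp]
  have h1 : Real.exp (-1) ≤ Real.exp z.re := Real.exp_le_exp.2 (by linarith [(abs_lt.1 hz).1])
  have h3 := Real.exp_one_lt_d9
  have h4 : 1 / 3 ≤ Real.exp (-1) := by
    rw [Real.exp_neg, one_div]
    exact inv_anti₀ (Real.exp_pos 1) (by linarith)
  linarith

omit [NormedAddCommGroup Y] [NormedAddCommGroup V] in
/-- The wrapping map is injective on slabs of width less than `2 π`. -/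
theorem wrap_inj {p p' : (Y × ℝ) × (ℝ × V)} (h : wrap p = wrap p') (h2 : |p.1.2 - p'.1.2| < 6) :
    p = p' := by
  have e1 : p.1.1 = p'.1.1 := congrArg (fun z : Y × (ℂ × V) => z.1) h
  have e2 : E0 (zc p) = E0 (zc p') := congrArg (fun z : Y × (ℂ × V) => z.2.1) h
  have e3 : p.2.2 = p'.2.2 := congrArg (fun z : Y × (ℂ × V) => z.2.2) h
  have e4 : Complex.exp (zc p) = Complex.exp (zc p') := by
    unfold E0 at e2
    have := (div_left_inj' (by norm_num : (8 : ℂ) ≠ 0)).1 e2
    linear_combination this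
  rw [Complex.exp_eq_exp_iff_exists_int] at e4
  obtain ⟨n, hn⟩ := e4
  have e5 : p.2.1 = p'.2.1 := by
    have := congrArg Complex.re hn
    simp only [zc, Complex.add_re, Complex.mul_re, Complex.intCast_re, Complex.intCast_im,
      Complex.mul_im, Complex.I_re, Complex.I_im, Complex.ofReal_re, Complex.ofReal_im,
      Complex.re_ofNat, Complex.im_ofNat] at this
    linarith
  have e6 : p.1.2 = p'.1.2 + n * (2 * Real.pi) := by
    have := congrArg Complex.im hn
    simp only [zc, Complex.add_im, Complex.mul_im, Complex.mul_re, Complex.intCast_re,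
      Complex.intCast_im, Complex.I_re, Complex.I_im, Complex.ofReal_re, Complex.ofReal_im,
      Complex.re_ofNat, Complex.im_ofNat] at this
    linarith
  have hn0 : n = 0 := by
    by_contra hne
    have h3 : (1 : ℝ) ≤ |(n : ℝ)| := by exact_mod_cast Int.one_le_abs hne
    have h4 : p.1.2 - p'.1.2 = n * (2 * Real.pi) := by linarith
    rw [h4, abs_mul, abs_of_pos (by positivity : 0 < 2 * Real.pi)] at h2
    have := Real.pi_gt_three
    nlinarith
  rw [hn0] at e6
  apply Prod.ext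
  · apply Prod.ext
    · exact e1
    · simpa using e6
  · exact Prod.ext e5 e3

/-- Lifting a near-identity open embedding through the wrapping map. -/
theorem exists_lift_wrap {δ : ℝ} (hδ1 : δ ≤ 1 / 2000)
    {h : Y × (ℂ × V) → Y × (ℂ × V)} (hO : OE h (univ ×ˢ ball 0 1))
    (hn : ∀ z ∈ (univ ×ˢ ball 0 1 : Set (Y × (ℂ × V))), dist (h z) z < δ) :
    ∃ g : (Y × ℝ) × (ℝ × V) → (Y × ℝ) × (ℝ × V), OE g (univ ×ˢ ball 0 1) ∧
      (∀ p ∈ (univ ×ˢ ball 0 1 : Set ((Y × ℝ) × (ℝ × V))), dist (g p) p ≤ 36 * δ) ∧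
      (∀ p ∈ (univ ×ˢ ball 0 1 : Set ((Y × ℝ) × (ℝ × V))), wrap (g p) = h (wrap p)) ∧
      ∀ p ∈ (univ ×ˢ ball 0 1 : Set ((Y × ℝ) × (ℝ × V))), h (wrap p) = wrap p → g p = p := by
  let D : Set ((Y × ℝ) × (ℝ × V)) := univ ×ˢ ball 0 1
  have memD : ∀ p ∈ D, |p.2.1| < 1 ∧ ‖p.2.2‖ < 1 := by
    rintro p ⟨-, hp⟩
    rw [mem_ball_zero_iff, Prod.norm_def, max_lt_iff] at hp
    exact hp
  have hD : IsOpen D := isOpen_univ.prod isOpen_ball
  have hwD : ∀ p ∈ D, wrap p ∈ (univ ×ˢ ball 0 1 : Set (Y × (ℂ × V))) := by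
    intro p hp
    refine ⟨mem_univ _, ?_⟩
    rw [mem_ball_zero_iff, Prod.norm_def, max_lt_iff]
    exact ⟨norm_E0_lt (memD p hp).1, (memD p hp).2⟩
  let ratio : (Y × ℝ) × (ℝ × V) → ℂ := fun p =>
    (8 * (h (wrap p)).2.1 + 1) / Complex.exp (zc p)
  have hratio : ∀ p ∈ D, ‖ratio p - 1‖ ≤ 24 * δ := by
    intro p hp
    have h1 : ratio p - 1 = 8 * ((h (wrap p)).2.1 - E0 (zc p)) / Complex.exp (zc p) := by
      have := Complex.exp_ne_zero (zc p)
      simp only [ratio, E0]
      field_simp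
      ring
    have h2 : ‖(h (wrap p)).2.1 - E0 (zc p)‖ ≤ δ := by
      have h3 := (hn _ (hwD p hp)).le
      rw [Prod.dist_eq] at h3
      have h4 := (le_max_right _ _).trans h3
      rw [Prod.dist_eq] at h4
      have h5 := (le_max_left _ _).trans h4
      rwa [dist_eq_norm] at h5
    have h6 := norm_exp_ge (z := zc p) (memD p hp).1
    rw [h1, norm_div, norm_mul, div_le_iff₀ (by linarith)]
    have h7 : ‖(8 : ℂ)‖ = 8 := by norm_num
    rw [h7]
    have h8 : 0 ≤ δ := (norm_nonneg _).trans h2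
    nlinarith
  let lam : (Y × ℝ) × (ℝ × V) → ℂ := fun p => Complex.log (ratio p)
  have hrne : ∀ p ∈ D, ratio p ≠ 0 := by
    intro p hp h0
    have := hratio p hp
    rw [h0] at this
    norm_num at this
    linarith
  have hlam : ∀ p ∈ D, ‖lam p‖ ≤ 36 * δ := by
    intro p hp
    have h1 := hratio p hp
    have h2 := Complex.norm_log_one_add_half_le_self (z := ratio p - 1) (by linarith)
    rw [add_sub_cancel] at h2
    change ‖Complex.log (ratio p)‖ ≤ _
    linarith
  have hslit : ∀ p ∈ D, ratio p ∈ Complex.slitPlane := by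
    intro p hp
    have h1 := hratio p hp
    have h2 := Complex.mem_slitPlane_of_norm_lt_one (z := ratio p - 1) (by linarith)
    rwa [add_sub_cancel] at h2
  let g : (Y × ℝ) × (ℝ × V) → (Y × ℝ) × (ℝ × V) := fun p =>
    (((h (wrap p)).1, p.1.2 + (lam p).im), (p.2.1 + (lam p).re, (h (wrap p)).2.2))
  have hzg : ∀ p, zc (g p) = zc p + lam p := fun p => rfl
  have hlift : ∀ p ∈ D, wrap (g p) = h (wrap p) := by
    intro p hp
    have h1 : E0 (zc (g p)) = (h (wrap p)).2.1 := by
      rw [hzg, E0, Complex.exp_add]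
      change (Complex.exp (zc p) * Complex.exp (Complex.log (ratio p)) - 1) / 8 = _
      rw [Complex.exp_log (hrne p hp)]
      have := Complex.exp_ne_zero (zc p)
      simp only [ratio]
      field_simp
      ring
    apply Prod.ext
    · rfl
    · apply Prod.ext
      · exact h1
      · rfl
  have hdist : ∀ p ∈ D, dist (g p) p ≤ 36 * δ := by
    intro p hp
    have h1 := hlam p hp
    have h2 := (Complex.abs_re_le_norm (lam p)).trans h1
    have h3 := (Complex.abs_im_le_norm (lam p)).trans h1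
    have h4 := (hn _ (hwD p hp)).le
    rw [Prod.dist_eq] at h4
    have h5 : dist (h (wrap p)).1 p.1.1 ≤ δ := (le_max_left _ _).trans h4
    have h6 := (le_max_right _ _).trans h4
    rw [Prod.dist_eq] at h6
    have h7 : dist (h (wrap p)).2.2 p.2.2 ≤ δ := (le_max_right _ _).trans h6
    have h8 : 0 ≤ δ := dist_nonneg.trans h7
    rw [Prod.dist_eq, Prod.dist_eq, Prod.dist_eq]
    refine max_le (max_le ?_ ?_) (max_le ?_ ?_)
    · exact h5.trans (by linarith)
    · change dist (p.1.2 + (lam p).im) p.1.2 ≤ _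
      rw [Real.dist_eq, add_sub_cancel_left]
      exact h3
    · change dist (p.2.1 + (lam p).re) p.2.1 ≤ _
      rw [Real.dist_eq, add_sub_cancel_left]
      exact h2
    · exact h7.trans (by linarith)
  have hcont : ContinuousOn g D := by
    have c1 : ContinuousOn (fun p => h (wrap p)) D :=
      hO.cont.comp continuous_wrap.continuousOn hwD
    have c2 : ContinuousOn (fun p => (h (wrap p)).2.1) D :=
      continuous_fst.comp_continuousOn (continuous_snd.comp_continuousOn c1)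
    have c3 : ContinuousOn ratio D := by
      refine ContinuousOn.div ((continuousOn_const.mul c2).add continuousOn_const)
        (Complex.continuous_exp.comp continuous_zc).continuousOn fun p _ => Complex.exp_ne_zero _
    have c4 : ContinuousOn lam D := c3.clog hslit
    refine ContinuousOn.prodMk (ContinuousOn.prodMk ?_ ?_) (ContinuousOn.prodMk ?_ ?_)
    · exact continuous_fst.comp_continuousOn c1
    · exact ((continuous_snd.comp continuous_fst).continuousOn).add
        (Complex.continuous_im.comp_continuousOn c4)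
    · exact ((continuous_fst.comp continuous_snd).continuousOn).add
        (Complex.continuous_re.comp_continuousOn c4)
    · exact continuous_snd.comp_continuousOn (continuous_snd.comp_continuousOn c1)
  have hδD : ∀ p ∈ D, 0 < δ := fun p hp => lt_of_le_of_lt dist_nonneg (hn _ (hwD p hp))
  have hg2 : ∀ p ∈ D, |(g p).1.2 - p.1.2| ≤ 36 * δ := by
    intro p hp
    have h1 := hdist p hp
    rw [Prod.dist_eq, Prod.dist_eq] at h1
    have h2 := (le_max_right _ _).trans ((le_max_left _ _).trans h1)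
    rwa [Real.dist_eq] at h2
  have hinj : InjOn g D := by
    intro p hp p' hp' hpp
    have h1 : wrap p = wrap p' := by
      refine hO.inj (hwD p hp) (hwD p' hp') ?_
      rw [← hlift p hp, ← hlift p' hp', hpp]
    refine wrap_inj h1 ?_
    have h2 := abs_le.1 (hg2 p hp)
    have h3 := abs_le.1 (hg2 p' hp')
    rw [hpp] at h2
    rw [abs_lt]
    constructor <;> linarith [h2.1, h2.2, h3.1, h3.2]
  have hopen : ∀ O' ⊆ D, IsOpen O' → IsOpen (g '' O') := by
    intro O' hO' hO'o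
    rw [isOpen_iff_mem_nhds]
    rintro _ ⟨p, hp, rfl⟩
    let N : Set ((Y × ℝ) × (ℝ × V)) := {q | |q.1.2 - (g p).1.2| < 1}
    have hN : IsOpen N := isOpen_lt
      (((continuous_snd.comp continuous_fst).sub continuous_const).abs) continuous_const
    have hpN : g p ∈ N := by
      change |(g p).1.2 - (g p).1.2| < 1
      simp
    have hO'' : IsOpen (O' ∩ g ⁻¹' N) := (hcont.mono hO').isOpen_inter_preimage hO'o hN
    have himg : g '' (O' ∩ g ⁻¹' N) = N ∩ wrap ⁻¹' (h '' (wrap '' (O' ∩ g ⁻¹' N))) := by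
      ext q
      constructor
      · rintro ⟨p', hp', rfl⟩
        exact ⟨hp'.2, wrap p', ⟨p', hp', rfl⟩, (hlift p' (hO' hp'.1)).symm⟩
      · rintro ⟨hqN, _, ⟨p', hp', rfl⟩, hq⟩
        refine ⟨p', hp', ?_⟩
        rw [← hlift p' (hO' hp'.1)] at hq
        refine wrap_inj hq ?_
        have h1 : |(g p').1.2 - (g p).1.2| < 1 := hp'.2
        have h2 : |q.1.2 - (g p).1.2| < 1 := hqN
        rw [abs_lt] at h1 h2 ⊢
        constructor <;> linarith [h1.1, h1.2, h2.1, h2.2]
    have hop : IsOpen (g '' (O' ∩ g ⁻¹' N)) := by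
      rw [himg]
      refine hN.inter (IsOpen.preimage continuous_wrap (hO.openMap _ ?_ (isOpenMap_wrap _ hO'')))
      rintro _ ⟨p', hp', rfl⟩
      exact hwD p' (hO' hp'.1)
    exact mem_of_superset (hop.mem_nhds ⟨p, ⟨hp, hpN⟩, rfl⟩) (image_mono inter_subset_left)
  refine ⟨g, ⟨hD, hcont, hinj, hopen⟩, hdist, hlift, ?_⟩
  intro p hp hfix
  have h1 : ratio p = 1 := by
    have := Complex.exp_ne_zero (zc p)
    simp only [ratio]
    rw [hfix]
    simp only [wrap, E0]
    field_simp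
    ring
  have h2 : lam p = 0 := by
    change Complex.log (ratio p) = 0
    rw [h1, Complex.log_one]
  change (((h (wrap p)).1, p.1.2 + (lam p).im), (p.2.1 + (lam p).re, (h (wrap p)).2.2)) = p
  rw [hfix, h2]
  simp [wrap]

end

/-- Wrapping step. -/
theorem extR_wrap {V : Type} [NormedAddCommGroup V] [NormedSpace ℝ V]
    (hW : ExtR 1 (ℝ × V)) : ExtR 1 (ℂ × V) := by
  obtain ⟨r, hr, hW⟩ := hW
  obtain ⟨U, hU1, hU2, hU3⟩ := exists_hatE
  refine ⟨min (r / 16) (min (1 / 600) r), by positivity, ?_⟩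
  intro Y _ _ _ ε hε
  obtain ⟨δ, hδ, hW⟩ := hW (Y × ℝ) ε hε
  refine ⟨min (1 / 2000) (δ / 37), by positivity, ?_⟩
  intro h hO hn
  obtain ⟨η, hη⟩ : ∃ η, η = min (1 / 2000) (δ / 37) := ⟨_, rfl⟩
  rw [← hη] at hn
  have hη1 : η ≤ 1 / 2000 := hη ▸ min_le_left _ _
  have hη2 : 37 * η ≤ δ := by
    have : η ≤ δ / 37 := hη ▸ min_le_right _ _
    linarith
  have hη0 : 0 < η := by rw [hη]; positivity
  obtain ⟨g, g1, g2, g3, g4⟩ := exists_lift_wrap hη1 hO hn
  obtain ⟨H, H1, H2, H3⟩ := hW g g1 (fun p hp => (g2 p hp).trans_lt (by linarith))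
  let Θ : (Y × ℝ) × (ℝ × V) ≃ₜ Y × (ℂ × V) := (regroup Y V).trans
    ((Homeomorph.refl Y).prodCongr (U.prodCongr (Homeomorph.refl V)))
  have hΘ : ∀ p, Θ p = (p.1.1, (U (zc p), p.2.2)) := fun p => rfl
  have hΘs : ∀ z, Θ.symm z = ((z.1, (U.symm z.2.1).im), ((U.symm z.2.1).re, z.2.2)) :=
    fun z => rfl
  have hΘd : ∀ p q, dist (Θ p) (Θ q) ≤ dist p q := by
    intro p q
    rw [hΘ, hΘ, Prod.dist_eq, Prod.dist_eq]
    have h1 : dist p.1 q.1 ≤ dist p q := by rw [Prod.dist_eq (x := p)]; exact le_max_left _ _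
    have h2 : dist p.2 q.2 ≤ dist p q := by rw [Prod.dist_eq (x := p)]; exact le_max_right _ _
    have h3 : dist p.1.1 q.1.1 ≤ dist p.1 q.1 := by
      rw [Prod.dist_eq (x := p.1)]; exact le_max_left _ _
    have h4 : dist p.1.2 q.1.2 ≤ dist p.1 q.1 := by
      rw [Prod.dist_eq (x := p.1)]; exact le_max_right _ _
    have h5 : dist p.2.1 q.2.1 ≤ dist p.2 q.2 := by
      rw [Prod.dist_eq (x := p.2)]; exact le_max_left _ _
    have h6 : dist p.2.2 q.2.2 ≤ dist p.2 q.2 := by
      rw [Prod.dist_eq (x := p.2)]; exact le_max_right _ _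
    refine max_le (h3.trans h1) (max_le ?_ (h6.trans h2))
    refine (hU2 _ _).trans ?_
    have h7 : dist (zc p) (zc q) ≤ dist p.2.1 q.2.1 + dist p.1.2 q.1.2 := by
      rw [dist_eq_norm, Real.dist_eq, Real.dist_eq]
      exact Complex.norm_le_abs_re_add_abs_im _
    have := dist_nonneg (x := p) (y := q)
    linarith
  have hU0 : U 0 = 0 := by
    rw [hU1 0 (by simp) (by simp), E0]
    simp
  refine ⟨Θ.symm.trans (H.trans Θ), ?_, ?_, ?_⟩
  · intro z
    change dist (Θ (H (Θ.symm z))) z ≤ ε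
    have h1 := hΘd (H (Θ.symm z)) (Θ.symm z)
    rw [Θ.apply_symm_apply] at h1
    exact h1.trans (H1 _)
  · intro z hz
    change Θ (H (Θ.symm z)) = h z
    obtain ⟨q, hq⟩ : ∃ q, q = Θ.symm z := ⟨_, rfl⟩
    have hz' : ‖z.2.1‖ < min (r / 16) (min (1 / 600) r) ∧
        ‖z.2.2‖ < min (r / 16) (min (1 / 600) r) := by
      rw [Prod.norm_def, max_lt_iff] at hz
      exact hz
    obtain ⟨hz1, hz2⟩ := hz'
    rw [lt_min_iff, lt_min_iff] at hz1 hz2
    have hzq : ‖zc q‖ ≤ 16 * ‖z.2.1‖ := by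
      have h1 := hU3 (U.symm z.2.1) 0
      rw [hU0, U.apply_symm_apply, dist_zero_right, dist_zero_right] at h1
      rw [hq]
      exact h1
    have hqre := Complex.abs_re_le_norm (zc q)
    have hqim := Complex.abs_im_le_norm (zc q)
    have hq2 : ‖q.2.2‖ = ‖z.2.2‖ := by rw [hq]; rfl
    have e1 : (zc q).re = q.2.1 := rfl
    have e2 : (zc q).im = q.1.2 := rfl
    rw [e1] at hqre
    rw [e2] at hqim
    have hqr : ‖q.2‖ < r := by
      rw [Prod.norm_def, max_lt_iff]
      refine ⟨?_, by rw [hq2]; exact hz2.2.2⟩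
      rw [Real.norm_eq_abs]
      linarith [hz1.1]
    have hqD : q ∈ (univ ×ˢ ball 0 1 : Set ((Y × ℝ) × (ℝ × V))) := by
      refine ⟨mem_univ _, ?_⟩
      rw [mem_ball_zero_iff, Prod.norm_def, max_lt_iff, Real.norm_eq_abs]
      refine ⟨by linarith [hz1.2.1], ?_⟩
      rw [hq2]
      linarith [hz2.2.1]
    have hΘq : Θ q = wrap q := by
      rw [hΘ, wrap, hU1 (zc q) (by rw [e1]; linarith [hz1.2.1]) (by rw [e2]; linarith [hz1.2.1])]
    have hgq := g2 q hqD
    have hd1 : |(g q).2.1 - q.2.1| ≤ 36 * η := by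
      rw [Prod.dist_eq] at hgq
      have h2 := (le_max_right _ _).trans hgq
      rw [Prod.dist_eq] at h2
      exact (le_max_left _ _).trans h2
    have hd2 : |(g q).1.2 - q.1.2| ≤ 36 * η := by
      rw [Prod.dist_eq] at hgq
      have h2 := (le_max_left _ _).trans hgq
      rw [Prod.dist_eq] at h2
      exact (le_max_right _ _).trans h2
    have hΘg : Θ (g q) = wrap (g q) := by
      rw [hΘ, wrap, hU1 (zc (g q)) ?_ ?_]
      · change |(g q).2.1| ≤ 1 / 16
        rw [abs_le] at hd1 hqre ⊢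
        constructor <;> linarith [hd1.1, hd1.2, hqre.1, hqre.2, hz1.2.1]
      · change |(g q).1.2| ≤ 1 / 16
        rw [abs_le] at hd2 hqim ⊢
        constructor <;> linarith [hd2.1, hd2.2, hqim.1, hqim.2, hz1.2.1]
    rw [← hq, H2 q hqr, hΘg, g3 q hqD, ← hΘq, hq, Θ.apply_symm_apply]
  · intro y hy w
    change Θ (H (Θ.symm (y, w))) = (y, w)
    have h1 : ∀ θ : ℝ, ∀ w' : ℝ × V, H ((y, θ), w') = ((y, θ), w') := by
      intro θ
      refine H3 (y, θ) fun w' hw' => ?_
      have hD : ((y, θ), w') ∈ (univ ×ˢ ball 0 1 : Set ((Y × ℝ) × (ℝ × V))) :=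
        ⟨mem_univ _, by rw [mem_ball_zero_iff]; exact hw'⟩
      refine g4 _ hD ?_
      refine hy _ ?_
      rw [Prod.norm_def, max_lt_iff] at hw' ⊢
      exact ⟨norm_E0_lt hw'.1, hw'.2⟩
    have h2 : H (Θ.symm (y, w)) = Θ.symm (y, w) := by
      rw [hΘs]
      exact h1 _ _
    rw [h2, Θ.apply_symm_apply]

end Pool.Agent.Work.MP_252c1e_lc.B1
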