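import Pool.Agent.Work.MP_252c1e_lc.OEapi

/-!
# Block B2, part 1: the handle lemma in coordinates; gluing of disjoint handles
-/

open Set Topology

namespace Pool.Agent.Work.MP_252c1e_lc

/-- transport of an open embedding by homeomorphisms -/
theorem OE.conj2 {X X' : Type*} [TopologicalSpace X] [TopologicalSpace X'] {f : X → X}
    {U : Set X} (h : OE f U) (e : X ≃ₜ X') : OE (fun x => e (f (e.symm x))) (e.symm ⁻¹' U) := by
  refine ⟨h.isOpen.preimage e.symm.continuous, ?_, ?_, ?_⟩
  · refine e.continuous.comp_continuousOn (h.cont.comp e.symm.continuous.continuousOn ?_)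
    exact fun x hx => hx
  · intro x hx y hy hxy
    exact e.symm.injective (h.inj hx hy (e.injective hxy))
  · intro V hV hVo
    have h1 : (fun x => e (f (e.symm x))) '' V = e '' (f '' (e.symm '' V)) := by
      simp only [image_image]
    rw [h1]
    refine e.isOpenMap _ (h.openMap _ ?_ (e.symm.isOpenMap _ hVo))
    rintro _ ⟨x, hx, rfl⟩
    exact hV hx

theorem OE.comp_homeo {X Y Z : Type*} [TopologicalSpace X] [TopologicalSpace Y]
    [TopologicalSpace Z] {f : X → Y} {U : Set X} (h : OE f U) (g : Y ≃ₜ Z) :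
    OE (fun x => g (f x)) U := by
  refine ⟨h.isOpen, g.continuous.comp_continuousOn h.cont, ?_, ?_⟩
  · intro x hx y hy hxy
    exact h.inj hx hy (g.injective hxy)
  · intro V hV hVo
    have h1 : (fun x => g (f x)) '' V = g '' (f '' V) := by
      simp only [image_image]
    rw [h1]
    exact g.isOpenMap _ (h.openMap V hV hVo)

section coord

variable {N : ℕ}

/-- the coordinates of `x - c` with index in `I`, and the other coordinates -/
noncomputable def split (I : Finset (Fin N)) (c : Fin N → ℝ) :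
    (Fin N → ℝ) ≃ₜ ({i // i ∈ I} → ℝ) × ({i // i ∉ I} → ℝ) :=
  (Homeomorph.subRight c).trans (Homeomorph.piEquivPiSubtypeProd (fun i => i ∈ I) fun _ => ℝ)

theorem split_fst (I : Finset (Fin N)) (c x : Fin N → ℝ) (i : {i // i ∈ I}) :
    (split I c x).1 i = x i - c i := rfl

theorem split_snd (I : Finset (Fin N)) (c x : Fin N → ℝ) (i : {i // i ∉ I}) :
    (split I c x).2 i = x i - c i := rfl

theorem dist_split (I : Finset (Fin N)) (c x y : Fin N → ℝ) :
    dist (split I c x) (split I c y) = dist x y := by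
  apply le_antisymm
  · rw [Prod.dist_eq, max_le_iff, dist_pi_le_iff dist_nonneg, dist_pi_le_iff dist_nonneg]
    refine ⟨fun i => ?_, fun i => ?_⟩
    · rw [split_fst, split_fst, dist_sub_right]
      exact dist_le_pi_dist x y i
    · rw [split_snd, split_snd, dist_sub_right]
      exact dist_le_pi_dist x y i
  · rw [dist_pi_le_iff dist_nonneg]
    intro i
    by_cases hi : i ∈ I
    · have h1 := dist_le_pi_dist (split I c x).1 (split I c y).1 ⟨i, hi⟩
      rw [split_fst, split_fst, dist_sub_right] at h1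
      exact h1.trans (le_max_left _ _)
    · have h1 := dist_le_pi_dist (split I c x).2 (split I c y).2 ⟨i, hi⟩
      rw [split_snd, split_snd, dist_sub_right] at h1
      exact h1.trans (le_max_right _ _)

theorem norm_split_fst_lt (I : Finset (Fin N)) (c x : Fin N → ℝ) {L : ℝ} (hL : 0 < L) :
    ‖(split I c x).1‖ < L ↔ ∀ i ∈ I, |x i - c i| < L := by
  rw [pi_norm_lt_iff hL]
  simp only [split_fst, Real.norm_eq_abs, Subtype.forall]

theorem norm_split_snd_lt (I : Finset (Fin N)) (c x : Fin N → ℝ) {L : ℝ} (hL : 0 < L) :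
    ‖(split I c x).2‖ < L ↔ ∀ i, i ∉ I → |x i - c i| < L := by
  rw [pi_norm_lt_iff hL]
  simp only [split_snd, Real.norm_eq_abs, Subtype.forall]

/-- the handle lemma in coordinates -/
theorem handle_coord (hH : HandleLemma) (I : Finset (Fin N)) {L R : ℝ} (hL : 0 < L)
    (hR : 0 < R) :
    ∃ r, 0 < r ∧ r < R ∧ ∀ ε, 0 < ε → ∃ δ, 0 < δ ∧
      ∀ (c : Fin N → ℝ) (h : (Fin N → ℝ) → (Fin N → ℝ)),
      OE h {x | ∀ j, j ∉ I → |x j - c j| < R} →
      (∀ x, (∀ j, j ∉ I → |x j - c j| < R) → dist (h x) x < δ) →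
      (∀ x, (∀ j, j ∉ I → |x j - c j| < R) → (∃ i ∈ I, L ≤ |x i - c i|) → h x = x) →
      ∃ g : (Fin N → ℝ) ≃ₜ (Fin N → ℝ), (∀ x, dist (g x) x ≤ ε) ∧
        (∀ x, ((∃ i ∈ I, L ≤ |x i - c i|) ∨ ∃ j, j ∉ I ∧ R ≤ |x j - c j|) → g x = x) ∧
        ∀ x, (∀ j, j ∉ I → |x j - c j| < r) → g x = h x := by
  obtain ⟨r, hr0, hrR, hr⟩ := hH ({i // i ∈ I} → ℝ) ({i // i ∉ I} → ℝ) L R hL hR
  refine ⟨r, hr0, hrR, fun ε hε => ?_⟩
  obtain ⟨δ, hδ0, hδ⟩ := hr ε hε
  refine ⟨δ, hδ0, fun c h hOE hd hfix => ?_⟩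
  set e := split I c with he
  have hmem : ∀ z : ({i // i ∈ I} → ℝ) × ({i // i ∉ I} → ℝ), ‖z.2‖ < R ↔
      ∀ j, j ∉ I → |e.symm z j - c j| < R := by
    intro z
    rw [← norm_split_snd_lt I c _ hR, ← he, e.apply_symm_apply]
  have hset : (univ ×ˢ Metric.ball 0 R : Set (({i // i ∈ I} → ℝ) × ({i // i ∉ I} → ℝ))) =
      e.symm ⁻¹' {x | ∀ j, j ∉ I → |x j - c j| < R} := by
    ext z
    simp only [mem_prod, mem_univ, true_and, mem_ball_zero_iff, mem_preimage, mem_ofPred_eq]
    exact hmem z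
  obtain ⟨g, hg1, hg2, hg3⟩ := hδ (fun z => e (h (e.symm z)))
    (by rw [hset]; exact hOE.conj2 e)
    (by
      intro z hz
      rw [hset] at hz
      have := hd _ hz
      rwa [← dist_split I c, ← he, e.apply_symm_apply] at this)
    (by
      intro z hz hLz
      rw [hset] at hz
      have h1 : ∃ i ∈ I, L ≤ |e.symm z i - c i| := by
        by_contra hcon
        push Not at hcon
        rw [← norm_split_fst_lt I c _ hL, ← he, e.apply_symm_apply] at hcon
        exact absurd hLz (not_le.2 hcon)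
      rw [hfix _ hz h1, e.apply_symm_apply])
  refine ⟨(e.trans g).trans e.symm, ?_, ?_, ?_⟩
  · intro x
    simp only [Homeomorph.trans_apply]
    rw [← dist_split I c, ← he, e.apply_symm_apply]
    exact hg1 (e x)
  · intro x hx
    simp only [Homeomorph.trans_apply]
    rw [hg2, e.symm_apply_apply]
    rcases hx with hx | hx
    · left
      by_contra hcon
      rw [not_le, he, norm_split_fst_lt I c _ hL] at hcon
      obtain ⟨i, hi, hi2⟩ := hx
      exact absurd (hcon i hi) (not_lt.2 hi2)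
    · right
      by_contra hcon
      rw [not_le, he, norm_split_snd_lt I c _ hR] at hcon
      obtain ⟨i, hi, hi2⟩ := hx
      exact absurd (hcon i hi) (not_lt.2 hi2)
  · intro x hx
    simp only [Homeomorph.trans_apply]
    rw [hg3, e.symm_apply_apply, e.symm_apply_apply]
    rw [he, norm_split_snd_lt I c _ hr0]
    exact hx

/-- the handle lemma in coordinates, with constants independent of the index set -/
theorem handle_unif (hH : HandleLemma) (N : ℕ) {L R : ℝ} (hL : 0 < L) (hR : 0 < R) :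
    ∃ r, 0 < r ∧ r < R ∧ ∀ ε, 0 < ε → ∃ δ, 0 < δ ∧
      ∀ (I : Finset (Fin N)) (c : Fin N → ℝ) (h : (Fin N → ℝ) → (Fin N → ℝ)),
      OE h {x | ∀ j, j ∉ I → |x j - c j| < R} →
      (∀ x, (∀ j, j ∉ I → |x j - c j| < R) → dist (h x) x < δ) →
      (∀ x, (∀ j, j ∉ I → |x j - c j| < R) → (∃ i ∈ I, L ≤ |x i - c i|) → h x = x) →
      ∃ g : (Fin N → ℝ) ≃ₜ (Fin N → ℝ), (∀ x, dist (g x) x ≤ ε) ∧
        (∀ x, ((∃ i ∈ I, L ≤ |x i - c i|) ∨ ∃ j, j ∉ I ∧ R ≤ |x j - c j|) → g x = x) ∧
        ∀ x, (∀ j, j ∉ I → |x j - c j| < r) → g x = h x := by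
  choose rf h0 h1 h2 using fun I : Finset (Fin N) => handle_coord hH I hL hR
  obtain ⟨I₀, hI₀⟩ := Finite.exists_min rf
  refine ⟨rf I₀, h0 I₀, h1 I₀, fun ε hε => ?_⟩
  choose df h3 h4 using fun I : Finset (Fin N) => h2 I ε hε
  obtain ⟨I₁, hI₁⟩ := Finite.exists_min df
  refine ⟨df I₁, h3 I₁, fun I c h hOE hd hfix => ?_⟩
  obtain ⟨g, hg1, hg2, hg3⟩ := h4 I c h hOE (fun x hx => (hd x hx).trans_le (hI₁ I)) hfix
  exact ⟨g, hg1, hg2, fun x hx => hg3 x fun j hj => (hx j hj).trans_le (hI₀ I)⟩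

end coord

/-- gluing of finitely many homeomorphisms with disjoint supports -/
theorem glue_homeo2 {X ι : Type*} [TopologicalSpace X] [DecidableEq ι] (G : ι → X ≃ₜ X)
    (reg : ι → Set X) (F : Finset ι) (hG : ∀ i ∈ F, ∀ x, x ∉ reg i → G i x = x)
    (hdis : ∀ i ∈ F, ∀ j ∈ F, i ≠ j → Disjoint (reg i) (reg j)) :
    ∃ g : X ≃ₜ X, (∀ x, (∀ i ∈ F, x ∉ reg i) → g x = x) ∧
      ∀ i ∈ F, ∀ x ∈ reg i, g x = G i x := by
  induction F using Finset.induction_on with
  | empty => exact ⟨Homeomorph.refl X, fun x _ => rfl, by simp⟩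
  | insert a F ha ih =>
    obtain ⟨g, hg1, hg2⟩ := ih (fun i hi => hG i (Finset.mem_insert_of_mem hi))
      (fun i hi j hj => hdis i (Finset.mem_insert_of_mem hi) j (Finset.mem_insert_of_mem hj))
    have hda : ∀ i ∈ F, Disjoint (reg i) (reg a) := by
      intro i hi
      exact hdis i (Finset.mem_insert_of_mem hi) a (Finset.mem_insert_self a F)
        (by rintro rfl; exact ha hi)
    refine ⟨g.trans (G a), ?_, ?_⟩
    · intro x hx
      rw [Homeomorph.trans_apply, hg1 x fun i hi => hx i (Finset.mem_insert_of_mem hi)]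
      exact hG a (Finset.mem_insert_self a F) x (hx a (Finset.mem_insert_self a F))
    · intro i hi x hx
      rw [Finset.mem_insert] at hi
      rcases hi with rfl | hi
      · rw [Homeomorph.trans_apply, hg1]
        intro j hj hxj
        exact Set.disjoint_left.1 (hda j hj) hxj hx
      · rw [Homeomorph.trans_apply, hg2 i hi x hx]
        apply hG a (Finset.mem_insert_self a F)
        have hmem : G i x ∈ reg i := by
          by_contra hcon
          have h1 := hG i (Finset.mem_insert_of_mem hi) _ hcon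
          have h2 := (G i).injective h1
          rw [h2] at hcon
          exact hcon hx
        exact fun hcon => Set.disjoint_left.1 (hda i hi) hmem hcon

end Pool.Agent.Work.MP_252c1e_lc
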