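import Pool.Agent.Work.MP_252c1e_lc.B2Coord

/-!
# Block B2, part 2: cubical faces
-/

open Set Topology

namespace Pool.Agent.Work.MP_252c1e_lc

variable {N : ℕ}

/-- the centre of the face `(I, a)` of the cubical grid of side `s` -/
noncomputable def ctrF (s : ℝ) (I : Finset (Fin N)) (a : Fin N → ℤ) (i : Fin N) : ℝ := by
  classical
  exact if i ∈ I then s * (a i + 1 / 2) else s * a i

theorem ctrF_mem {s : ℝ} {I : Finset (Fin N)} {a : Fin N → ℤ} {i : Fin N} (hi : i ∈ I) :
    ctrF s I a i = s * (a i + 1 / 2) := by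
  unfold ctrF; rw [if_pos hi]

theorem ctrF_not_mem {s : ℝ} {I : Finset (Fin N)} {a : Fin N → ℤ} {i : Fin N} (hi : i ∉ I) :
    ctrF s I a i = s * a i := by
  unfold ctrF; rw [if_neg hi]

/-- the face `(I, a)` -/
def Face (s : ℝ) (I : Finset (Fin N)) (a : Fin N → ℤ) : Set (Fin N → ℝ) :=
  {x | (∀ i ∈ I, s * a i ≤ x i ∧ x i ≤ s * (a i + 1)) ∧ ∀ j, j ∉ I → x j = s * a j}

/-- the open `ρ`-neighbourhood of the face `(I, a)` -/
def Nb (s ρ : ℝ) (I : Finset (Fin N)) (a : Fin N → ℤ) : Set (Fin N → ℝ) :=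
  {x | (∀ i ∈ I, |x i - ctrF s I a i| < s / 2 + ρ) ∧ ∀ j, j ∉ I → |x j - ctrF s I a j| < ρ}

/-- the face `(I, a)` is close to `C` -/
def GoodF (s : ℝ) (C : Set (Fin N → ℝ)) (I : Finset (Fin N)) (a : Fin N → ℤ) : Prop :=
  ∃ x ∈ Face s I a, ∃ c ∈ C, dist x c ≤ s * (N - I.card : ℝ)

/-- the handle of size `R` of the face `(I, a)` -/
def Reg (s R : ℝ) (I : Finset (Fin N)) (a : Fin N → ℤ) : Set (Fin N → ℝ) :=
  {x | (∀ i ∈ I, |x i - ctrF s I a i| < s / 2 - R) ∧ ∀ j, j ∉ I → |x j - ctrF s I a j| < R}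

theorem isOpen_Nb (s ρ : ℝ) (I : Finset (Fin N)) (a : Fin N → ℤ) : IsOpen (Nb s ρ I a) := by
  have h : Nb s ρ I a = ⋂ i : Fin N,
      {x : Fin N → ℝ | |x i - ctrF s I a i| < (if i ∈ I then s / 2 + ρ else ρ)} := by
    ext x
    simp only [Nb, mem_ofPred_eq, mem_iInter]
    constructor
    · rintro ⟨h1, h2⟩ i
      by_cases hi : i ∈ I
      · rw [if_pos hi]; exact h1 i hi
      · rw [if_neg hi]; exact h2 i hi
    · intro h
      refine ⟨fun i hi => ?_, fun i hi => ?_⟩
      · have := h i; rwa [if_pos hi] at this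
      · have := h i; rwa [if_neg hi] at this
  rw [h]
  refine isOpen_iInter_of_finite fun i => ?_
  exact isOpen_lt (((continuous_apply i).sub continuous_const).abs) continuous_const

/-- a point of a handle is far from the grid in the directions of the face -/
theorem Reg.far {s R : ℝ} (hs : 0 < s) {I : Finset (Fin N)} {a : Fin N → ℤ}
    {x : Fin N → ℝ} (hx : x ∈ Reg s R I a) {i : Fin N} (hi : i ∈ I) (m : ℤ) :
    R < |x i - s * m| := by
  have h1 := hx.1 i hi
  rw [ctrF_mem hi, abs_lt] at h1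
  rcases le_or_gt m (a i) with hm | hm
  · have h2 : (m : ℝ) ≤ a i := by exact_mod_cast hm
    have h3 : s * m ≤ s * a i := mul_le_mul_of_nonneg_left h2 hs.le
    rw [lt_abs]; left
    linarith
  · have h2 : (a i : ℝ) + 1 ≤ m := by exact_mod_cast hm
    have h3 : s * (a i + 1) ≤ s * m := mul_le_mul_of_nonneg_left h2 hs.le
    rw [lt_abs]; right
    linarith

theorem Reg.near {s R : ℝ} {I : Finset (Fin N)} {a : Fin N → ℤ}
    {x : Fin N → ℝ} (hx : x ∈ Reg s R I a) {j : Fin N} (hj : j ∉ I) :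
    |x j - s * a j| < R := by
  have h1 := hx.2 j hj
  rwa [ctrF_not_mem hj] at h1

/-- handles of different faces are disjoint -/
theorem Reg.disjoint {s R : ℝ} (hs : 0 < s) (hR : 0 < R) (hRs : R ≤ s / 2)
    {I I' : Finset (Fin N)} {a a' : Fin N → ℤ} (hne : (I, a) ≠ (I', a')) :
    Disjoint (Reg s R I a) (Reg s R I' a') := by
  rw [Set.disjoint_left]
  intro x hx hx'
  apply hne
  have key : ∀ {J J' : Finset (Fin N)} {b b' : Fin N → ℤ}, x ∈ Reg s R J b → x ∈ Reg s R J' b' →
      J ⊆ J' := by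
    intro J J' b b' h h' i hi
    by_contra hcon
    exact absurd (Reg.near h' hcon) (not_lt.2 (Reg.far hs h hi (b' i)).le)
  have hII : I = I' := Finset.Subset.antisymm (key hx hx') (key hx' hx)
  subst hII
  refine Prod.ext rfl ?_
  funext i
  by_cases hi : i ∈ I
  · have h1 := hx.1 i hi
    have h2 := hx'.1 i hi
    rw [ctrF_mem hi, abs_lt] at h1 h2
    by_contra hcon
    rcases lt_or_gt_of_ne hcon with h | h
    · have h3 : (a i : ℝ) + 1 ≤ a' i := by exact_mod_cast h
      have h4 : s * (a i + 1) ≤ s * a' i := mul_le_mul_of_nonneg_left h3 hs.le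
      linarith
    · have h3 : (a' i : ℝ) + 1 ≤ a i := by exact_mod_cast h
      have h4 : s * (a' i + 1) ≤ s * a i := mul_le_mul_of_nonneg_left h3 hs.le
      linarith
  · have h1 := Reg.near hx hi
    have h2 := Reg.near hx' hi
    rw [abs_lt] at h1 h2
    by_contra hcon
    rcases lt_or_gt_of_ne hcon with h | h
    · have h3 : (a i : ℝ) + 1 ≤ a' i := by exact_mod_cast h
      have h4 : s * (a i + 1) ≤ s * a' i := mul_le_mul_of_nonneg_left h3 hs.le
      linarith
    · have h3 : (a' i : ℝ) + 1 ≤ a i := by exact_mod_cast h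
      have h4 : s * (a' i + 1) ≤ s * a i := mul_le_mul_of_nonneg_left h3 hs.le
      linarith

/-- a face of smaller dimension of a good face is good -/
theorem GoodF.erase {s : ℝ} (hs : 0 < s) {C : Set (Fin N → ℝ)} {I : Finset (Fin N)}
    {a : Fin N → ℤ} (hg : GoodF s C I a) {i : Fin N} (hi : i ∈ I) {m : ℤ}
    (hm : m = a i ∨ m = a i + 1) : GoodF s C (I.erase i) (Function.update a i m) := by
  obtain ⟨y, hy, c, hc, hd⟩ := hg
  refine ⟨Function.update y i (s * m), ⟨?_, ?_⟩, c, hc, ?_⟩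
  · intro k hk
    rw [Finset.mem_erase] at hk
    rw [Function.update_of_ne hk.1, Function.update_of_ne hk.1]
    exact hy.1 k hk.2
  · intro j hj
    rcases eq_or_ne j i with rfl | hji
    · rw [Function.update_self, Function.update_self]
    · rw [Function.update_of_ne hji, Function.update_of_ne hji]
      exact hy.2 j fun h => hj (Finset.mem_erase.2 ⟨hji, h⟩)
  · have h1 : dist (Function.update y i (s * m)) y ≤ s := by
      rw [dist_pi_le_iff hs.le]
      intro j
      rcases eq_or_ne j i with rfl | hji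
      · rw [Function.update_self, Real.dist_eq, abs_le]
        have h2 := hy.1 j hi
        rcases hm with rfl | rfl
        · constructor <;> nlinarith [h2.1, h2.2]
        · push_cast
          constructor <;> nlinarith [h2.1, h2.2]
      · rw [Function.update_of_ne hji, dist_self]
        exact hs.le
    have h2 : ((I.erase i).card : ℝ) = I.card - 1 := by
      rw [Finset.card_erase_of_mem hi, Nat.cast_sub (Finset.card_pos.2 ⟨i, hi⟩), Nat.cast_one]
    calc dist (Function.update y i (s * m)) c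
        ≤ dist (Function.update y i (s * m)) y + dist y c := dist_triangle _ _ _
      _ ≤ s + s * (N - I.card : ℝ) := add_le_add h1 hd
      _ = s * (N - (I.erase i).card : ℝ) := by rw [h2]; ring

/-- The part of a small neighbourhood of a face which is not in the corresponding handle region
is near a face of smaller dimension. -/
theorem exists_subface {s ρ r R : ℝ} (hs : 0 < s) (hrR : r ≤ R) (hRρ : R < ρ)
    {C : Set (Fin N → ℝ)} {I : Finset (Fin N)} {a : Fin N → ℤ} (hg : GoodF s C I a)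
    {x : Fin N → ℝ} (hx1 : ∀ i ∈ I, |x i - ctrF s I a i| < s / 2 + r)
    (hx2 : ∀ j, j ∉ I → |x j - ctrF s I a j| < ρ)
    {i : Fin N} (hi : i ∈ I) (hL : s / 2 - R ≤ |x i - ctrF s I a i|) :
    ∃ (a' : Fin N → ℤ) (m : ℤ), GoodF s C (I.erase i) a' ∧ x ∈ Nb s ρ (I.erase i) a' ∧
      |x i - s * m| ≤ R := by
  have h1 := hx1 i hi
  obtain ⟨m, hm, hmR⟩ : ∃ m : ℤ, (m = a i ∨ m = a i + 1) ∧ |x i - s * m| ≤ R := by
    rw [ctrF_mem hi] at h1 hL
    rw [abs_lt] at h1
    rw [le_abs] at hL
    rcases hL with hL | hL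
    · refine ⟨a i + 1, Or.inr rfl, ?_⟩
      push_cast
      rw [abs_le]
      constructor <;> linarith
    · refine ⟨a i, Or.inl rfl, ?_⟩
      rw [abs_le]
      constructor <;> linarith
  refine ⟨Function.update a i m, m, hg.erase hs hi hm, ⟨?_, ?_⟩, hmR⟩
  · intro k hk
    have hk' := Finset.mem_erase.1 hk
    have h2 := hx1 k hk'.2
    rw [ctrF_mem hk'.2] at h2
    rw [ctrF_mem hk, Function.update_of_ne hk'.1]
    linarith
  · intro j hj
    rw [ctrF_not_mem hj]
    rcases eq_or_ne j i with rfl | hji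
    · rw [Function.update_self]
      linarith
    · have hjI : j ∉ I := fun h => hj (Finset.mem_erase.2 ⟨hji, h⟩)
      have h2 := hx2 j hjI
      rw [ctrF_not_mem hjI] at h2
      rwa [Function.update_of_ne hji]

/-- points near a good face are near `C` -/
theorem GoodF.dist_le {s : ℝ} (hs : 0 < s) {C : Set (Fin N → ℝ)} {I : Finset (Fin N)}
    {a : Fin N → ℤ} (hg : GoodF s C I a) {x : Fin N → ℝ}
    (hx : ∀ i, |x i - ctrF s I a i| ≤ s) : ∃ c ∈ C, dist x c ≤ s * (N + 2) := by
  obtain ⟨y, hy, c, hc, hd⟩ := hg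
  refine ⟨c, hc, ?_⟩
  have h1 : dist x y ≤ s * 2 := by
    rw [dist_pi_le_iff (by linarith)]
    intro i
    have h2 := hx i
    rw [Real.dist_eq]
    rw [abs_le] at h2 ⊢
    by_cases hi : i ∈ I
    · rw [ctrF_mem hi] at h2
      have h3 := hy.1 i hi
      constructor <;> nlinarith [h3.1, h3.2]
    · rw [ctrF_not_mem hi] at h2
      have h3 := hy.2 i hi
      constructor <;> linarith
  have h2 : (0 : ℝ) ≤ I.card := Nat.cast_nonneg _
  have h3 : s * (N - I.card : ℝ) ≤ s * N := mul_le_mul_of_nonneg_left (by linarith) hs.le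
  calc dist x c ≤ dist x y + dist y c := dist_triangle _ _ _
    _ ≤ s * 2 + s * (N - I.card : ℝ) := add_le_add h1 hd
    _ ≤ s * (N + 2) := by linarith

/-- there are finitely many good faces -/
theorem finite_good {s : ℝ} (hs : 0 < s) {C : Set (Fin N → ℝ)} (hC : IsCompact C) :
    {σ : Finset (Fin N) × (Fin N → ℤ) | GoodF s C σ.1 σ.2}.Finite := by
  obtain ⟨B, hB⟩ := hC.isBounded.exists_norm_le
  obtain ⟨M, hM⟩ := exists_nat_ge ((B + s * N) / s + 1)
  have hfin : (univ ×ˢ Icc (fun _ => -(M : ℤ)) (fun _ => (M : ℤ)) :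
      Set (Finset (Fin N) × (Fin N → ℤ))).Finite := finite_univ.prod (finite_Icc _ _)
  refine hfin.subset ?_
  rintro ⟨I, a⟩ ⟨y, hy, c, hc, hd⟩
  have key : ∀ i, |(a i : ℝ)| ≤ M := by
    intro i
    have h1 : |y i - c i| ≤ s * (N - I.card : ℝ) := by
      rw [← Real.dist_eq]
      exact (dist_le_pi_dist y c i).trans hd
    have h2 : |c i| ≤ B := (norm_le_pi_norm c i).trans (hB c hc)
    have h3 : (0 : ℝ) ≤ I.card := Nat.cast_nonneg _
    have h4 : s * (N - I.card : ℝ) ≤ s * N := mul_le_mul_of_nonneg_left (by linarith) hs.le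
    have h5 : |s * a i - y i| ≤ s := by
      rw [abs_le]
      by_cases hi : i ∈ I
      · have h3 := hy.1 i hi
        constructor <;> nlinarith [h3.1, h3.2]
      · have h3 := hy.2 i hi
        constructor <;> linarith
    have h6 : |s * (a i : ℝ)| ≤ s + s * N + B := by
      have : s * (a i : ℝ) = (s * a i - y i) + (y i - c i) + c i := by ring
      rw [this]
      refine (abs_add_three _ _ _).trans ?_
      linarith
    rw [abs_mul, abs_of_pos hs] at h6
    have h7 : |(a i : ℝ)| ≤ (B + s * N) / s + 1 := by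
      rw [div_add_one hs.ne', le_div_iff₀ hs]
      linarith
    exact h7.trans hM
  refine ⟨mem_univ _, ?_, ?_⟩
  · intro i
    have := (abs_le.1 (key i)).1
    have h2 : ((-(M : ℤ) : ℤ) : ℝ) ≤ a i := by push_cast; exact this
    exact_mod_cast h2
  · intro i
    have := (abs_le.1 (key i)).2
    have h2 : (a i : ℝ) ≤ ((M : ℤ) : ℝ) := by push_cast; exact this
    exact_mod_cast h2

/-- every point of `C` lies in a good cube -/
theorem exists_good_cube {s ρ : ℝ} (hs : 0 < s) (hρ : 0 < ρ) {C : Set (Fin N → ℝ)}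
    {c : Fin N → ℝ} (hc : c ∈ C) : ∃ a : Fin N → ℤ, GoodF s C Finset.univ a ∧
      c ∈ Nb s ρ Finset.univ a := by
  refine ⟨fun i => ⌊c i / s⌋, ⟨c, ⟨?_, ?_⟩, c, hc, ?_⟩, ⟨?_, ?_⟩⟩
  · intro i _
    have h1 := Int.floor_le (c i / s)
    have h2 := (Int.lt_floor_add_one (c i / s)).le
    rw [le_div_iff₀ hs] at h1
    rw [div_le_iff₀ hs] at h2
    constructor <;> linarith
  · intro j hj; exact absurd (Finset.mem_univ j) hj
  · rw [dist_self, Finset.card_univ, Fintype.card_fin]
    simp
  · intro i hi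
    have h1 := Int.floor_le (c i / s)
    have h2 := Int.lt_floor_add_one (c i / s)
    rw [le_div_iff₀ hs] at h1
    rw [div_lt_iff₀ hs] at h2
    rw [ctrF_mem hi, abs_lt]
    constructor <;> linarith
  · intro j hj; exact absurd (Finset.mem_univ j) hj

end Pool.Agent.Work.MP_252c1e_lc
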