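import Pool.Agent.Work.MP_252c1e_lc.B2Grid

/-!
# Block B2, part 3: induction over the dimension of the faces
-/

open Set Topology

namespace Pool.Agent.Work.MP_252c1e_lc

variable {N : ℕ}

/-- `h` is the identity near the good faces of dimension `k - 1` -/
def Inv (s ρ : ℝ) (C : Set (Fin N → ℝ)) (k : ℕ) (h : (Fin N → ℝ) → (Fin N → ℝ)) : Prop :=
  ∀ I a, I.card + 1 = k → GoodF s C I a → ∀ x ∈ Nb s ρ I a, h x = x

/-- the map `h` on a handle, extended by the identity, is an open embedding -/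
theorem extend_OE {s ρ R δ : ℝ} (hs : 0 < s) (hR : 0 < R) (hRρ : R < ρ) (hρs : ρ ≤ s / 4)
    (hδR : δ ≤ R) {C O : Set (Fin N → ℝ)} (hCO : ∀ x, (∃ c ∈ C, dist x c ≤ s * (N + 2)) → x ∈ O)
    {k : ℕ} {h : (Fin N → ℝ) → (Fin N → ℝ)} (hOE : OE h O) (hd : ∀ x ∈ O, dist (h x) x < δ)
    (hinv : Inv s ρ C k h) {I : Finset (Fin N)} {a : Fin N → ℤ} (hI : I.card = k)
    (hg : GoodF s C I a) :
    ∃ h' : (Fin N → ℝ) → (Fin N → ℝ), OE h' {x | ∀ j, j ∉ I → |x j - ctrF s I a j| < R} ∧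
      (∀ x, (∀ j, j ∉ I → |x j - ctrF s I a j| < R) → dist (h' x) x < δ) ∧
      (∀ x, (∀ j, j ∉ I → |x j - ctrF s I a j| < R) →
        (∃ i ∈ I, s / 2 - R ≤ |x i - ctrF s I a i|) → h' x = x) ∧
      ∀ x, (∀ i ∈ I, |x i - ctrF s I a i| < s / 2) →
        (∀ j, j ∉ I → |x j - ctrF s I a j| < R) → h' x = h x := by
  classical
  have hδ0 : 0 < δ := by
    obtain ⟨y, hy, c, hc, hdc⟩ := hg
    have h1 : c ∈ O := hCO c ⟨c, hc, by rw [dist_self]; positivity⟩
    exact dist_nonneg.trans_lt (hd c h1)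
  -- near the boundary of the face, `h` is the identity
  have hfix : ∀ x : Fin N → ℝ, (∀ i ∈ I, |x i - ctrF s I a i| < s / 2 + R) →
      (∀ j, j ∉ I → |x j - ctrF s I a j| < R) → (∃ i ∈ I, s / 2 - R ≤ |x i - ctrF s I a i|) →
      h x = x := by
    rintro x hx1 hx2 ⟨i, hi, hL⟩
    obtain ⟨a', m, h1, h2, -⟩ := exists_subface hs le_rfl hRρ hg hx1
      (fun j hj => (hx2 j hj).trans hRρ) hi hL
    refine hinv _ a' ?_ h1 x h2
    rw [Finset.card_erase_of_mem hi, hI]
    have := Finset.card_pos.2 ⟨i, hi⟩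
    omega
  -- the domain
  have hO : ∀ x : Fin N → ℝ, (∀ i ∈ I, |x i - ctrF s I a i| < s / 2 + R) →
      (∀ j, j ∉ I → |x j - ctrF s I a j| < R) → x ∈ O := by
    intro x hx1 hx2
    refine hCO x (hg.dist_le hs fun i => ?_)
    by_cases hi : i ∈ I
    · have := hx1 i hi; linarith
    · have := hx2 i hi; linarith
  set U : Set (Fin N → ℝ) := {x | ∀ j, j ∉ I → |x j - ctrF s I a j| < R} with hU
  set A1 : Set (Fin N → ℝ) := {x | x ∈ U ∧ ∀ i ∈ I, |x i - ctrF s I a i| < s / 2} with hA1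
  set A2 : Set (Fin N → ℝ) := {x | x ∈ U ∧ ∃ i ∈ I, s / 2 - R < |x i - ctrF s I a i|} with hA2
  have hcont : ∀ i : Fin N, Continuous fun x : Fin N → ℝ => |x i - ctrF s I a i| := fun i =>
    ((continuous_apply i).sub continuous_const).abs
  have hUo : IsOpen U := by
    have : U = ⋂ j : Fin N, {x | j ∉ I → |x j - ctrF s I a j| < R} := by
      ext x; simp [hU]
    rw [this]
    refine isOpen_iInter_of_finite fun j => ?_
    by_cases hj : j ∈ I
    · have : {x : Fin N → ℝ | j ∉ I → |x j - ctrF s I a j| < R} = univ := by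
        ext x; simp [hj]
      rw [this]; exact isOpen_univ
    · have : {x : Fin N → ℝ | j ∉ I → |x j - ctrF s I a j| < R} =
          {x | |x j - ctrF s I a j| < R} := by
        ext x; simp [hj]
      rw [this]; exact isOpen_lt (hcont j) continuous_const
  have hA1o : IsOpen A1 := by
    have : A1 = U ∩ ⋂ i : Fin N, {x | i ∈ I → |x i - ctrF s I a i| < s / 2} := by
      ext x; simp [hA1]
    rw [this]
    refine hUo.inter (isOpen_iInter_of_finite fun j => ?_)
    by_cases hj : j ∈ I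
    · have : {x : Fin N → ℝ | j ∈ I → |x j - ctrF s I a j| < s / 2} =
          {x | |x j - ctrF s I a j| < s / 2} := by
        ext x; simp [hj]
      rw [this]; exact isOpen_lt (hcont j) continuous_const
    · have : {x : Fin N → ℝ | j ∈ I → |x j - ctrF s I a j| < s / 2} = univ := by
        ext x; simp [hj]
      rw [this]; exact isOpen_univ
  have hA2o : IsOpen A2 := by
    have : A2 = U ∩ ⋃ i ∈ I, {x | s / 2 - R < |x i - ctrF s I a i|} := by
      ext x; simp [hA2]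
    rw [this]
    exact hUo.inter (isOpen_biUnion fun i _ => isOpen_lt continuous_const (hcont i))
  have hcover : ∀ x ∈ U, x ∈ A1 ∨ x ∈ A2 := by
    intro x hx
    by_cases h1 : ∀ i ∈ I, |x i - ctrF s I a i| < s / 2
    · exact Or.inl ⟨hx, h1⟩
    · push Not at h1
      obtain ⟨i, hi, h1⟩ := h1
      exact Or.inr ⟨hx, i, hi, by linarith⟩
  set h' : (Fin N → ℝ) → (Fin N → ℝ) := fun x =>
    if ∀ i ∈ I, |x i - ctrF s I a i| < s / 2 then h x else x with hh'
  have e1 : ∀ x, (∀ i ∈ I, |x i - ctrF s I a i| < s / 2) → h' x = h x := by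
    intro x hx; simp only [hh', if_pos hx]
  have e2 : ∀ x ∈ U, (∃ i ∈ I, s / 2 - R ≤ |x i - ctrF s I a i|) → h' x = x := by
    intro x hx hi
    by_cases h1 : ∀ i ∈ I, |x i - ctrF s I a i| < s / 2
    · rw [e1 x h1]
      exact hfix x (fun i hi => (h1 i hi).trans (by linarith)) hx hi
    · simp only [hh', if_neg h1]
  have hA1O : A1 ⊆ O := fun x hx => hO x (fun i hi => (hx.2 i hi).trans (by linarith)) hx.1
  have e2' : ∀ x ∈ A2, h' x = x := by
    rintro x ⟨hx, i, hi, h1⟩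
    exact e2 x hx ⟨i, hi, h1.le⟩
  refine ⟨h', ⟨hUo, ?_, ?_, ?_⟩, ?_, ?_, ?_⟩
  · -- continuity
    intro x hx
    apply ContinuousAt.continuousWithinAt
    rcases hcover x hx with h1 | h1
    · have hc : ContinuousAt h x := hOE.cont.continuousAt (hOE.isOpen.mem_nhds (hA1O h1))
      refine hc.congr ?_
      filter_upwards [hA1o.mem_nhds h1] with y hy
      exact (e1 y hy.2).symm
    · refine continuousAt_id.congr ?_
      filter_upwards [hA2o.mem_nhds h1] with y hy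
      exact (e2' y hy).symm
  · -- injectivity
    have hmix : ∀ x ∈ U, ∀ y ∈ U, (∀ i ∈ I, |x i - ctrF s I a i| < s / 2) →
        (¬ ∀ i ∈ I, |y i - ctrF s I a i| < s / 2) → h' x ≠ h' y := by
      intro x hx y hy hx1 hy1 heq
      have hxA : x ∈ A1 := ⟨hx, hx1⟩
      have hyy : h' y = y := by simp only [hh', if_neg hy1]
      rw [e1 x hx1, hyy] at heq
      have hxy : dist y x < R := by
        rw [← heq]
        exact (hd x (hA1O hxA)).trans_le hδR
      have hyI : ∀ i ∈ I, |y i - ctrF s I a i| < s / 2 + R := by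
        intro i hi
        have h1 : |y i - x i| < R := by
          rw [← Real.dist_eq]; exact (dist_le_pi_dist y x i).trans_lt hxy
        have h2 := hx1 i hi
        have h3 : |y i - ctrF s I a i| ≤ |y i - x i| + |x i - ctrF s I a i| :=
          abs_sub_le _ _ _
        linarith
      have hfy : h y = y := by
        apply hfix y hyI hy
        push Not at hy1
        obtain ⟨i, hi, h1⟩ := hy1
        exact ⟨i, hi, by linarith⟩
      have hyO : y ∈ O := hO y hyI hy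
      have hxy2 : x = y := hOE.inj (hA1O hxA) hyO (by rw [heq, hfy])
      subst hxy2
      exact hy1 hx1
    intro x hx y hy hxy
    by_cases hx1 : ∀ i ∈ I, |x i - ctrF s I a i| < s / 2
    · by_cases hy1 : ∀ i ∈ I, |y i - ctrF s I a i| < s / 2
      · rw [e1 x hx1, e1 y hy1] at hxy
        exact hOE.inj (hA1O ⟨hx, hx1⟩) (hA1O ⟨hy, hy1⟩) hxy
      · exact absurd hxy (hmix x hx y hy hx1 hy1)
    · by_cases hy1 : ∀ i ∈ I, |y i - ctrF s I a i| < s / 2
      · exact absurd hxy.symm (hmix y hy x hx hy1 hx1)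
      · have h1 : h' x = x := by simp only [hh', if_neg hx1]
        have h2 : h' y = y := by simp only [hh', if_neg hy1]
        rw [← h1, ← h2, hxy]
  · -- openness
    intro V hV hVo
    have h1 : h' '' V = h '' (V ∩ A1) ∪ (V ∩ A2) := by
      ext z
      simp only [mem_image, mem_union, mem_inter_iff]
      constructor
      · rintro ⟨x, hx, rfl⟩
        rcases hcover x (hV hx) with h1 | h1
        · left; exact ⟨x, ⟨hx, h1⟩, (e1 x h1.2).symm⟩
        · right; rw [e2' x h1]; exact ⟨hx, h1⟩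
      · rintro (⟨x, ⟨hx, h1⟩, rfl⟩ | ⟨hz, h1⟩)
        · exact ⟨x, hx, e1 x h1.2⟩
        · exact ⟨z, hz, e2' z h1⟩
    rw [h1]
    exact (hOE.openMap _ (inter_subset_right.trans hA1O) (hVo.inter hA1o)).union (hVo.inter hA2o)
  · intro x hx
    by_cases h1 : ∀ i ∈ I, |x i - ctrF s I a i| < s / 2
    · rw [e1 x h1]
      exact hd x (hA1O ⟨hx, h1⟩)
    · have h2 : h' x = x := by simp only [hh', if_neg h1]
      rw [h2, dist_self]
      exact hδ0
  · exact fun x hx hi => e2 x hx hi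
  · exact fun x hx _ => e1 x hx

/-- one step: the good faces of dimension `k` -/
theorem stage (hH : HandleLemma) {s ρ : ℝ} (hs : 0 < s) (hρ : 0 < ρ) (hρs : ρ ≤ s / 4)
    {C O : Set (Fin N → ℝ)} (hC : IsCompact C)
    (hCO : ∀ x, (∃ c ∈ C, dist x c ≤ s * (N + 2)) → x ∈ O) (k : ℕ) :
    ∃ r, 0 < r ∧ r < ρ ∧ ∀ ε, 0 < ε → ∃ δ, 0 < δ ∧ ∀ h : (Fin N → ℝ) → (Fin N → ℝ), OE h O →
      (∀ x ∈ O, dist (h x) x < δ) → Inv s ρ C k h →
      ∃ g : (Fin N → ℝ) ≃ₜ (Fin N → ℝ), (∀ x, dist (g x) x ≤ ε) ∧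
        (∀ x, (¬ ∃ c ∈ C, dist x c ≤ s * (N + 2)) → g x = x) ∧
        Inv s r C (k + 1) fun x => g.symm (h x) := by
  classical
  have hR : 0 < ρ / 2 := by linarith
  have hRρ : ρ / 2 < ρ := by linarith
  obtain ⟨r, hr0, hrR, hr⟩ := handle_unif hH N (L := s / 2 - ρ / 2) (R := ρ / 2) (by linarith) hR
  refine ⟨r, hr0, by linarith, fun ε hε => ?_⟩
  obtain ⟨δ₀, hδ₀, hδ⟩ := hr ε hε
  refine ⟨min δ₀ (ρ / 2), lt_min hδ₀ hR, fun h hOE hd hinv => ?_⟩
  have hfin := finite_good (N := N) hs hC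
  set F : Finset (Finset (Fin N) × (Fin N → ℤ)) := hfin.toFinset.filter fun σ => σ.1.card = k
    with hF
  have hmemF : ∀ σ, σ ∈ F ↔ GoodF s C σ.1 σ.2 ∧ σ.1.card = k := by
    intro σ; rw [hF, Finset.mem_filter, Set.Finite.mem_toFinset]; rfl
  -- the handle homeomorphisms
  have hex : ∀ σ : Finset (Fin N) × (Fin N → ℤ), ∃ g : (Fin N → ℝ) ≃ₜ (Fin N → ℝ),
      (∀ x, dist (g x) x ≤ ε) ∧ (∀ x, x ∉ Reg s (ρ / 2) σ.1 σ.2 → g x = x) ∧
      (σ ∈ F → ∀ x ∈ Reg s (ρ / 2) σ.1 σ.2, (∀ j, j ∉ σ.1 → |x j - ctrF s σ.1 σ.2 j| < r) →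
        g x = h x) := by
    intro σ
    by_cases hσ : σ ∈ F
    · obtain ⟨hg, hcard⟩ := (hmemF σ).1 hσ
      obtain ⟨h', h1, h2, h3, h4⟩ := extend_OE hs hR hRρ hρs (min_le_right _ _) hCO hOE hd hinv
        hcard hg
      obtain ⟨g, g1, g2, g3⟩ := hδ σ.1 (ctrF s σ.1 σ.2) h' h1
        (fun x hx => (h2 x hx).trans_le (min_le_left _ _)) h3
      refine ⟨g, g1, ?_, ?_⟩
      · intro x hx
        apply g2
        by_contra hcon
        push Not at hcon
        exact hx ⟨hcon.1, hcon.2⟩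
      · intro _ x hx hxr
        rw [g3 x hxr]
        exact h4 x (fun i hi => (hx.1 i hi).trans (by linarith)) hx.2
    · exact ⟨Homeomorph.refl _, fun x => by simp [hε.le], fun x _ => rfl,
        fun h => absurd h hσ⟩
  choose G G1 G2 G3 using hex
  obtain ⟨g, g1, g2⟩ := glue_homeo2 G (fun σ => Reg s (ρ / 2) σ.1 σ.2) F (fun σ _ => G2 σ)
    (fun σ _ τ _ hne => Reg.disjoint hs hR (by linarith) hne)
  refine ⟨g, ?_, ?_, ?_⟩
  · intro x
    by_cases hx : ∃ σ ∈ F, x ∈ Reg s (ρ / 2) σ.1 σ.2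
    · obtain ⟨σ, hσ, hx⟩ := hx
      rw [g2 σ hσ x hx]
      exact G1 σ x
    · push Not at hx
      rw [g1 x hx, dist_self]
      exact hε.le
  · intro x hx
    apply g1
    intro σ hσ hxσ
    obtain ⟨hg, -⟩ := (hmemF σ).1 hσ
    apply hx
    refine hg.dist_le hs fun i => ?_
    by_cases hi : i ∈ σ.1
    · have := hxσ.1 i hi; linarith
    · have := hxσ.2 i hi; linarith
  · intro I a hI hg x hx
    have hcard : I.card = k := by omega
    have hσ : (I, a) ∈ F := (hmemF _).2 ⟨hg, hcard⟩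
    suffices hgx : g x = h x by
      change g.symm (h x) = x
      rw [← hgx, g.symm_apply_apply]
    by_cases hreg : ∀ i ∈ I, |x i - ctrF s I a i| < s / 2 - ρ / 2
    · have hxR : x ∈ Reg s (ρ / 2) I a := ⟨hreg, fun j hj => (hx.2 j hj).trans hrR⟩
      rw [g2 (I, a) hσ x hxR]
      exact G3 (I, a) hσ x hxR hx.2
    · push Not at hreg
      obtain ⟨i, hi, hL⟩ := hreg
      obtain ⟨a', m, h1, h2, h3⟩ := exists_subface hs hrR.le hRρ hg hx.1
        (fun j hj => (hx.2 j hj).trans (by linarith)) hi hL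
      have hhx : h x = x := by
        refine hinv _ a' ?_ h1 x h2
        rw [Finset.card_erase_of_mem hi, hcard]
        have := Finset.card_pos.2 ⟨i, hi⟩
        omega
      rw [hhx]
      apply g1
      rintro ⟨I', b⟩ hτ hxτ
      obtain ⟨-, hcard'⟩ := (hmemF _).1 hτ
      have hsub : I' ⊆ I := by
        intro j hj
        by_contra hjI
        have h4 := Reg.far hs hxτ hj (a j)
        have h5 := hx.2 j hjI
        rw [ctrF_not_mem hjI] at h5
        linarith
      have hII : I' = I := Finset.eq_of_subset_of_card_le hsub (by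
        rw [hcard]; exact hcard'.ge)
      subst hII
      exact absurd h3 (not_le.2 (Reg.far hs hxτ hi m))

/-- all good faces of dimension less than `k` -/
theorem stages (hH : HandleLemma) {s : ℝ} (hs : 0 < s) {C O : Set (Fin N → ℝ)}
    (hC : IsCompact C) (hCO : ∀ x, (∃ c ∈ C, dist x c ≤ s * (N + 2)) → x ∈ O) (k : ℕ) :
    ∃ ρ, 0 < ρ ∧ ρ ≤ s / 4 ∧ ∀ ε, 0 < ε → ∃ δ, 0 < δ ∧ ∀ h : (Fin N → ℝ) → (Fin N → ℝ), OE h O →
      (∀ x ∈ O, dist (h x) x < δ) →
      ∃ g : (Fin N → ℝ) ≃ₜ (Fin N → ℝ), (∀ x, dist (g x) x ≤ ε) ∧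
        (∀ x, (¬ ∃ c ∈ C, dist x c ≤ s * (N + 2)) → g x = x) ∧
        Inv s ρ C k fun x => g.symm (h x) := by
  induction k with
  | zero =>
    refine ⟨s / 4, by linarith, le_rfl, fun ε hε => ⟨1, one_pos, fun h _ _ =>
      ⟨Homeomorph.refl _, fun x => by simp [hε.le], fun _ _ => rfl, ?_⟩⟩⟩
    intro I a hI
    omega
  | succ k ih =>
    obtain ⟨ρ, hρ0, hρs, hρ⟩ := ih
    obtain ⟨r, hr0, hrρ, hr⟩ := stage hH hs hρ0 hρs hC hCO k
    refine ⟨r, hr0, by linarith, fun ε hε => ?_⟩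
    obtain ⟨δ₁, hδ₁, h1⟩ := hr (ε / 2) (by linarith)
    obtain ⟨δ₂, hδ₂, h2⟩ := hρ (min (ε / 2) (δ₁ / 2)) (lt_min (by linarith) (by linarith))
    refine ⟨min δ₂ (δ₁ / 2), lt_min hδ₂ (by linarith), fun h hOE hd => ?_⟩
    obtain ⟨g, g1, g2, g3⟩ := h2 h hOE fun x hx => (hd x hx).trans_le (min_le_left _ _)
    have hinv : ∀ x, dist (g.symm x) x ≤ min (ε / 2) (δ₁ / 2) := by
      intro x
      have := g1 (g.symm x)
      rwa [g.apply_symm_apply, dist_comm] at this
    obtain ⟨g', g1', g2', g3'⟩ := h1 (fun x => g.symm (h x)) (hOE.comp_homeo g.symm)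
      (by
        intro x hx
        calc dist (g.symm (h x)) x ≤ dist (g.symm (h x)) (h x) + dist (h x) x :=
              dist_triangle _ _ _
          _ < δ₁ / 2 + δ₁ / 2 := add_lt_add_of_le_of_lt ((hinv _).trans (min_le_right _ _))
              ((hd x hx).trans_le (min_le_right _ _))
          _ = δ₁ := by ring) g3
    refine ⟨g'.trans g, ?_, ?_, ?_⟩
    · intro x
      rw [Homeomorph.trans_apply]
      calc dist (g (g' x)) x ≤ dist (g (g' x)) (g' x) + dist (g' x) x := dist_triangle _ _ _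
        _ ≤ ε / 2 + ε / 2 := add_le_add ((g1 _).trans (min_le_left _ _)) (g1' x)
        _ = ε := by ring
    · intro x hx
      rw [Homeomorph.trans_apply, g2' x hx, g2 x hx]
    · exact g3'

/-- **Block B2.** -/
theorem ekEuclid_of_handle (hH : HandleLemma) : EKEuclid := by
  intro N C O hC hO hCO
  obtain ⟨η, hη, hηO⟩ := hC.exists_cthickening_subset_open hO hCO
  set s : ℝ := η / (N + 2) with hs_def
  have hN : (0 : ℝ) < N + 2 := by positivity
  have hs : 0 < s := div_pos hη hN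
  have hsN : s * (N + 2) = η := by rw [hs_def, div_mul_cancel₀ _ hN.ne']
  have hth : ∀ x : Fin N → ℝ, (∃ c ∈ C, dist x c ≤ s * (N + 2)) → x ∈ Metric.cthickening η C := by
    rintro x ⟨c, hc, hd⟩
    rw [hsN] at hd
    exact Metric.mem_cthickening_of_dist_le x c η C hc hd
  have hCO' : ∀ x : Fin N → ℝ, (∃ c ∈ C, dist x c ≤ s * (N + 2)) → x ∈ O :=
    fun x hx => hηO (hth x hx)
  obtain ⟨ρ, hρ0, hρs, hρ⟩ := stages hH hs hC hCO' (N + 1)
  obtain ⟨δ, hδ, h1⟩ := hρ 1 one_pos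
  refine ⟨δ, hδ, fun h hOE hd => ?_⟩
  obtain ⟨g, -, g2, g3⟩ := h1 h hOE hd
  refine ⟨g, ⟨Metric.cthickening η C, hC.cthickening, hηO, fun x hx => g2 x fun hc => hx (hth x hc)⟩,
    ⋃ a ∈ {a : Fin N → ℤ | GoodF s C Finset.univ a}, Nb s ρ Finset.univ a, ?_, ?_, ?_, ?_⟩
  · exact isOpen_biUnion fun a _ => isOpen_Nb _ _ _ _
  · intro c hc
    obtain ⟨a, ha, hca⟩ := exists_good_cube hs hρ0 hc
    exact mem_biUnion (show a ∈ {a : Fin N → ℤ | GoodF s C Finset.univ a} from ha) hca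
  · intro x hx
    simp only [mem_iUnion, mem_ofPred_eq] at hx
    obtain ⟨a, ha, hxa⟩ := hx
    refine hCO' x (ha.dist_le hs fun i => ?_)
    have := hxa.1 i (Finset.mem_univ i)
    linarith
  · intro x hx
    simp only [mem_iUnion, mem_ofPred_eq] at hx
    obtain ⟨a, ha, hxa⟩ := hx
    have h2 := g3 Finset.univ a (by rw [Finset.card_univ, Fintype.card_fin]) ha x hxa
    rw [g.symm_apply_eq] at h2
    exact h2.symm

end Pool.Agent.Work.MP_252c1e_lc
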