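import Pool.Agent.Work.MP_252c1e_lc.OEapi

/-!
# Block C: shared definitions and the two auxiliary statements C3, C4
-/

open Set Topology TopologicalSpace

namespace Pool.Agent.Work.MP_252c1e_lc

/-- `f` is an open embedding near `P`. -/
def OEn {X Y : Type*} [TopologicalSpace X] [TopologicalSpace Y] (f : X → Y) (P : Set X) : Prop :=
  ∃ W, OE f W ∧ P ⊆ W

/-- `f` and `g` agree near `P` up to a homeomorphism with compact support in `U`. -/
def Eqv {X : Type*} [TopologicalSpace X] (U P : Set X) (f g : X → X) : Prop :=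
  ∃ φ : X ≃ₜ X, Supp φ U ∧ ∃ V, IsOpen V ∧ P ⊆ V ∧ ∀ x ∈ V, φ (f x) = g x

/-- A countable cofinal family of compact pieces together with countable sup-dense families of
open embeddings defined near the pieces. -/
structure PD (X : Type) [MetricSpace X] where
  /-- the pieces -/
  Pc : ℕ → Set X
  /-- the embeddings -/
  em : ℕ → ℕ → X → X
  compact : ∀ i, IsCompact (Pc i)
  zero : Pc 0 = ∅
  cofinal : ∀ C U : Set X, IsCompact C → IsOpen U → C ⊆ U → ∃ i, C ⊆ interior (Pc i) ∧ Pc i ⊆ U
  oe : ∀ i j, OEn (em i j) (Pc i)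
  id : ∀ i, em i 0 = _root_.id
  dense : ∀ i (g : X → X), OEn g (Pc i) → ∀ δ > 0, ∃ j, ∀ x ∈ Pc i, dist (em i j x) (g x) < δ

/-- C3: stability of open embeddings in a compact space all of whose punctures are `ℝⁿ`. -/
def EKX : Prop := ∀ (n : ℕ) (X : Type) [MetricSpace X] [CompactSpace X],
  (∀ q : X, Nonempty (({q}ᶜ : Set X) ≃ₜ (Fin n → ℝ))) →
  ∀ (U P N : Set X) (f : X → X), IsOpen U → U ≠ univ → IsCompact P → IsCompact N →
    P ⊆ interior N → OEn f N → f '' N ⊆ U →
    ∃ δ, 0 < δ ∧ ∀ g : X → X, OEn g N → (∀ x ∈ N, dist (g x) (f x) < δ) → Eqv U P f g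

/-- C4: existence of the countable families. -/
def PDThm : Prop := ∀ (X : Type) [MetricSpace X] [CompactSpace X], Nonempty (PD X)

end Pool.Agent.Work.MP_252c1e_lc
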