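import Mathlib

/-!
# MP_252c1e_lc, Q2: Borel reducibility of homeomorphism of open subsets of spheres

Statement-level definitions and the definitions shared by the blocks of the proof.
-/

open Set Topology TopologicalSpace

namespace Pool.Agent.Work.MP_252c1e_lc

/-- `Sⁿ`, the one-point compactification of `ℝⁿ`. -/
abbrev Sph (n : ℕ) : Type := OnePoint (EuclideanSpace ℝ (Fin n))

/-- `≈ᵒₙ`: an open subset of `Sⁿ` is coded by its complement, a non-empty compact subset of `Sⁿ`;
two codes are equivalent when the coded open sets are homeomorphic. -/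
def HomeoOpen (n : ℕ) (K L : NonemptyCompacts (Sph n)) : Prop :=
  Nonempty (↥((K : Set (Sph n))ᶜ) ≃ₜ ↥((L : Set (Sph n))ᶜ))

/-- Borel reducibility of a relation `E` on `A` to a relation `F` on `B`. -/
def BorelRed {A B : Type} [TopologicalSpace A] [TopologicalSpace B]
    (E : A → A → Prop) (F : B → B → Prop) : Prop :=
  ∃ f : A → B, @Measurable A B (borel A) (borel B) f ∧ ∀ x y, E x y ↔ F (f x) (f y)

/-- `f` restricts to an open embedding of the open set `W`. -/
structure OE {X Y : Type*} [TopologicalSpace X] [TopologicalSpace Y] (f : X → Y) (W : Set X) :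
    Prop where
  isOpen : IsOpen W
  cont : ContinuousOn f W
  inj : InjOn f W
  openMap : ∀ V ⊆ W, IsOpen V → IsOpen (f '' V)

/-! ## Tree spaces -/

/-- The affine contraction of `[0,1]` onto `[2 · 3^(-a-1), 3^(-a)]`. -/
noncomputable def ctr (a : ℕ) (x : ℝ) : ℝ := (3 : ℝ)⁻¹ ^ a * (2 + x) / 3

/-- The point of `[0,1]` attached to the node `l` of the tree of finite sequences. -/
noncomputable def pt : List ℕ → ℝ
  | [] => 0
  | a :: l => ctr a (pt l)

/-- The space of a tree `T` of finite sequences: nodes and infinite branches. -/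
noncomputable def tsp (T : Set (List ℕ)) : Set ℝ := closure (pt '' T)

/-- `T` is a tree: it contains the root and is closed under initial segments. -/
structure IsTree (T : Set (List ℕ)) : Prop where
  nil : [] ∈ T
  init : ∀ (l : List ℕ) (a : ℕ), l ++ [a] ∈ T → l ∈ T

/-- The code of a node: its depth together with the label of its last letter. -/
def ncode (lab : ℕ → ℕ) (s : List ℕ) : ℕ :=
  Nat.pair s.length (match s.getLast? with | none => 0 | some a => lab a)

/-- What may follow a marker root with code `c`. Even letters lead to a full tree (a Cantor set),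
odd letters lead to the full tree of height `c`. -/
def mark (c : ℕ) (w : List ℕ) : Prop :=
  w = [] ∨ (∃ j w', w = (2 * j) :: w') ∨ (∃ j w', w = (2 * j + 1) :: w' ∧ w'.length ≤ c)

/-- The tree `val` with its letters doubled, and with infinitely many markers of code
`ncode lab s` attached at the node `s`. -/
def plus (lab : ℕ → ℕ) (val : Set (List ℕ)) : Set (List ℕ) :=
  {l | ∃ s ∈ val, l = s.map (2 * ·) ∨
    ∃ k w, l = s.map (2 * ·) ++ (2 * k + 1) :: w ∧ mark (ncode lab s) w}

/-- A back-and-forth relation between two labelled trees, up to finitely many children. -/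
structure Bisim (lab : ℕ → ℕ) (val val' : Set (List ℕ)) (B : List ℕ → List ℕ → Prop) : Prop where
  root : B [] []
  mem : ∀ s t, B s t → s ∈ val ∧ t ∈ val'
  forth : ∀ s t, B s t → ∀ᶠ a in Filter.cofinite, s ++ [a] ∈ val →
    ∃ b, t ++ [b] ∈ val' ∧ lab b = lab a ∧ B (s ++ [a]) (t ++ [b])
  back : ∀ s t, B s t → ∀ᶠ b in Filter.cofinite, t ++ [b] ∈ val' →
    ∃ a, s ++ [a] ∈ val ∧ lab b = lab a ∧ B (s ++ [a]) (t ++ [b])

end Pool.Agent.Work.MP_252c1e_lc
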