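import Pool.Agent.Work.MP_252c1e_lc.CInterface

/-!
# Block C: the relation `Eqv`
-/

open Set Topology TopologicalSpace

namespace Pool.Agent.Work.MP_252c1e_lc

section OEn

variable {X Y Z : Type*} [TopologicalSpace X] [TopologicalSpace Y] [TopologicalSpace Z]

theorem OE.oen {f : X → Y} {W P : Set X} (h : OE f W) (hP : P ⊆ W) : OEn f P := ⟨W, h, hP⟩

theorem OEn.mono {f : X → Y} {P P' : Set X} (h : OEn f P) (hP : P' ⊆ P) : OEn f P' := by
  obtain ⟨W, hW, hPW⟩ := h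
  exact ⟨W, hW, hP.trans hPW⟩

theorem OEn.id (P : Set X) : OEn (id : X → X) P := ⟨univ, OE.idX, subset_univ _⟩

theorem OEn.of_homeo (φ : X ≃ₜ Y) (P : Set X) : OEn φ P := ⟨univ, OE.of_homeo φ, subset_univ _⟩

theorem OEn.comp {f : X → Y} {g : Y → Z} {P : Set X} {Q : Set Y} (hg : OEn g Q) (hf : OEn f P)
    (hm : MapsTo f P Q) : OEn (g ∘ f) P := by
  obtain ⟨V, hV, hQV⟩ := hg
  obtain ⟨W, hW, hPW⟩ := hf
  have ho : IsOpen (W ∩ f ⁻¹' V) := hW.cont.isOpen_inter_preimage hW.isOpen hV.isOpen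
  exact ⟨W ∩ f ⁻¹' V, hV.comp (hW.mono ho inter_subset_left) fun x hx => hx.2,
    fun x hx => ⟨hPW hx, hQV (hm hx)⟩⟩

theorem OEn.congr {f g : X → Y} {P V : Set X} (hf : OEn f P) (hV : IsOpen V) (hPV : P ⊆ V)
    (h : EqOn f g V) : OEn g P := by
  obtain ⟨W, hW, hPW⟩ := hf
  exact ⟨W ∩ V, (hW.mono (hW.isOpen.inter hV) inter_subset_left).congr fun x hx => h hx.2,
    subset_inter hPW hPV⟩

/-- A neighbourhood of `P` in the domain that is mapped into a prescribed open set. -/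
theorem OEn.exists_nhds {f : X → Y} {P : Set X} (hf : OEn f P) {V : Set Y} (hV : IsOpen V)
    (hm : MapsTo f P V) : ∃ W, OE f W ∧ P ⊆ W ∧ MapsTo f W V := by
  obtain ⟨W, hW, hPW⟩ := hf
  have ho : IsOpen (W ∩ f ⁻¹' V) := hW.cont.isOpen_inter_preimage hW.isOpen hV
  exact ⟨W ∩ f ⁻¹' V, hW.mono ho inter_subset_left, fun x hx => ⟨hPW hx, hm hx⟩, fun x hx => hx.2⟩

theorem OEn.continuousOn {f : X → Y} {P : Set X} (hf : OEn f P) : ContinuousOn f P := by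
  obtain ⟨W, hW, hPW⟩ := hf
  exact hW.cont.mono hPW

theorem OEn.isCompact_image {f : X → Y} {P : Set X} (hf : OEn f P) (hP : IsCompact P) :
    IsCompact (f '' P) := hP.image_of_continuousOn hf.continuousOn

end OEn

section Eqv

variable {X : Type*} [TopologicalSpace X] {U U' P P' Q : Set X} {f g k : X → X}

theorem Eqv.refl (U P : Set X) (f : X → X) : Eqv U P f f :=
  ⟨Homeomorph.refl X, Supp.refl U, univ, isOpen_univ, subset_univ _, fun _ _ => rfl⟩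

theorem Eqv.symm (h : Eqv U P f g) : Eqv U P g f := by
  obtain ⟨φ, hφ, V, hV, hPV, he⟩ := h
  refine ⟨φ.symm, hφ.symm, V, hV, hPV, fun x hx => ?_⟩
  rw [φ.symm_apply_eq, he x hx]

theorem Eqv.trans (h : Eqv U P f g) (h' : Eqv U P g k) : Eqv U P f k := by
  obtain ⟨φ, hφ, V, hV, hPV, he⟩ := h
  obtain ⟨ψ, hψ, V', hV', hPV', he'⟩ := h'
  refine ⟨φ.trans ψ, hφ.trans hψ, V ∩ V', hV.inter hV', subset_inter hPV hPV', fun x hx => ?_⟩
  change ψ (φ (f x)) = k x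
  rw [he x hx.1, he' x hx.2]

theorem Eqv.mono (h : Eqv U P f g) (hU : U ⊆ U') (hP : P' ⊆ P) : Eqv U' P' f g := by
  obtain ⟨φ, hφ, V, hV, hPV, he⟩ := h
  exact ⟨φ, hφ.mono hU, V, hV, hP.trans hPV, he⟩

theorem Eqv.of_eqOn {V : Set X} (hV : IsOpen V) (hPV : P ⊆ V) (h : EqOn f g V) : Eqv U P f g :=
  ⟨Homeomorph.refl X, Supp.refl U, V, hV, hPV, fun x hx => h hx⟩

/-- Composition on the right. -/
theorem Eqv.comp_right (h : Eqv U Q f g) {u : X → X} (hu : OEn u P) (hm : MapsTo u P Q) :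
    Eqv U P (f ∘ u) (g ∘ u) := by
  obtain ⟨φ, hφ, V, hV, hPV, he⟩ := h
  obtain ⟨W, hW, hPW, hWV⟩ := hu.exists_nhds hV (fun x hx => hPV (hm hx))
  exact ⟨φ, hφ, W, hW.isOpen, hPW, fun x hx => he _ (hWV hx)⟩

/-- Composition on the left with an open embedding of `U`. -/
theorem Eqv.comp_left [T2Space X] (h : Eqv U P f g) {e : X → X} (he : OE e U)
    (hf : OEn f P) (hfU : MapsTo f P U) : Eqv (e '' U) P (e ∘ f) (e ∘ g) := by
  obtain ⟨φ, ⟨C, hC, hCU, hφ⟩, V, hV, hPV, hfg⟩ := h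
  obtain ⟨ψ, hψ1, hψ2⟩ := exists_conj he hC hCU hφ
  obtain ⟨W, hW, hPW, hWU⟩ := hf.exists_nhds he.isOpen hfU
  refine ⟨ψ, ⟨e '' C, hC.image_of_continuousOn (he.cont.mono hCU), image_mono hCU, hψ1⟩,
    V ∩ W, hV.inter hW.isOpen, subset_inter hPV hPW, fun x hx => ?_⟩
  change ψ (e (f x)) = e (g x)
  rw [hψ2 _ (hWU hx.2), hfg x hx.1]

theorem Eqv.mapsTo (h : Eqv U P f g) (hf : MapsTo f P U) : MapsTo g P U := by
  obtain ⟨φ, hφ, V, hV, hPV, he⟩ := h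
  intro x hx
  rw [← he x (hPV hx)]
  exact (hφ.mem_iff subset_rfl _).2 (hf hx)

theorem Eqv.oen (h : Eqv U P f g) (hf : OEn f P) : OEn g P := by
  obtain ⟨φ, hφ, V, hV, hPV, he⟩ := h
  have h1 : OEn (φ ∘ f) P := (OEn.of_homeo φ univ).comp hf (mapsTo_univ _ _)
  exact h1.congr hV hPV he

end Eqv

end Pool.Agent.Work.MP_252c1e_lc
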