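import Pool.Agent.Work.MP_252c1e_lc.Source1

/-!
# Block C: a back-and-forth relation of the trees gives a homeomorphism
-/

open Set Topology TopologicalSpace

namespace Pool.Agent.Work.MP_252c1e_lc

theorem Bisim.symm {lab : ℕ → ℕ} {v v' : Set (List ℕ)} {B : List ℕ → List ℕ → Prop}
    (h : Bisim lab v v' B) : Bisim lab v' v (fun t s => B s t) := by
  refine ⟨h.root, fun t s hts => (h.mem s t hts).symm, ?_, ?_⟩
  · intro t s hts
    filter_upwards [h.back s t hts] with b hb hbv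
    obtain ⟨a, h1, h2, h3⟩ := hb hbv
    exact ⟨a, h1, h2.symm, h3⟩
  · intro t s hts
    filter_upwards [h.forth s t hts] with a ha hav
    obtain ⟨b, h1, h2, h3⟩ := ha hav
    exact ⟨b, h1, h2.symm, h3⟩

theorem OE.nonempty_homeomorph {X Y : Type*} [TopologicalSpace X] [TopologicalSpace Y] {f : X → Y}
    {W : Set X} {V : Set Y} (h : OE f W) (hV : f '' W = V) : Nonempty (W ≃ₜ V) := by
  have h1 : IsOpenEmbedding (W.domRestrict f) := by
    refine IsOpenEmbedding.of_continuous_injective_isOpenMap ?_ ?_ ?_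
    · rw [← continuousOn_iff_continuous_domRestrict]; exact h.cont
    · intro x y hxy
      exact Subtype.ext (h.inj x.2 y.2 hxy)
    · intro A hA
      obtain ⟨A', hA', rfl⟩ := hA
      have : W.domRestrict f '' (Subtype.val ⁻¹' A') = f '' (W ∩ A') := by
        ext y
        constructor
        · rintro ⟨x, hx, rfl⟩
          exact ⟨x, ⟨x.2, hx⟩, rfl⟩
        · rintro ⟨x, ⟨hx, hx'⟩, rfl⟩
          exact ⟨⟨x, hx⟩, hx', rfl⟩
      rw [this]
      exact h.openMap _ inter_subset_left (h.isOpen.inter hA')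
  have h2 : range (W.domRestrict f) = V := by
    rw [← hV]
    ext y
    constructor
    · rintro ⟨x, rfl⟩
      exact ⟨x, x.2, rfl⟩
    · rintro ⟨x, hx, rfl⟩
      exact ⟨⟨x, hx⟩, rfl⟩
  exact ⟨h1.isEmbedding.toHomeomorph.trans (Homeomorph.setCongr h2)⟩

/-- Union of a chain of partial open embeddings. -/
theorem exhaust {X Y : Type*} [TopologicalSpace X] [TopologicalSpace Y] {U : Set X} {V : Set Y}
    (hU : IsOpen U) (Q : ℕ → Set X) (g : ℕ → X → Y) (hg : ∀ n, OEn (g n) (Q n))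
    (hQU : ∀ n, Q n ⊆ U) (hgV : ∀ n, MapsTo (g n) (Q n) V)
    (hQ : ∀ n, Q n ⊆ interior (Q (n + 1))) (hgg : ∀ n, EqOn (g (n + 1)) (g n) (Q n))
    (hcU : ∀ x ∈ U, ∃ n, x ∈ Q n) (hcV : ∀ y ∈ V, ∃ n, y ∈ g n '' Q n) :
    Nonempty (U ≃ₜ V) := by
  classical
  have hmono : Monotone Q := monotone_nat_of_le_succ fun n => (hQ n).trans interior_subset
  have heq : ∀ n m, n ≤ m → EqOn (g m) (g n) (Q n) := by
    intro n m hnm
    induction m, hnm using Nat.le_induction with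
    | base => exact fun x _ => rfl
    | succ m hm ih => exact fun x hx => (hgg m (hmono hm hx)).trans (ih hx)
  set H : X → Y := fun x => if h : ∃ n, x ∈ Q n then g (Nat.find h) x else g 0 x with hH
  have hHg : ∀ n, EqOn H (g n) (Q n) := by
    intro n x hx
    have h : ∃ n, x ∈ Q n := ⟨n, hx⟩
    have h1 : H x = g (Nat.find h) x := by simp only [hH, h, dif_pos]
    rw [h1]
    exact (heq _ _ (Nat.find_min' h hx) (Nat.find_spec h)).symm
  have hOE : OE H U := by
    refine ⟨hU, ?_, ?_, ?_⟩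
    · intro x hx
      obtain ⟨n, hn⟩ := hcU x hx
      have hn' : interior (Q (n + 1)) ∈ 𝓝 x := isOpen_interior.mem_nhds (hQ n hn)
      obtain ⟨W, hW, hQW⟩ := hg (n + 1)
      have h1 : ContinuousAt (g (n + 1)) x :=
        hW.cont.continuousAt (hW.isOpen.mem_nhds (hQW (interior_subset (hQ n hn))))
      refine (h1.congr ?_).continuousWithinAt
      filter_upwards [hn'] with y hy
      exact (hHg (n + 1) (interior_subset hy)).symm
    · intro x hx y hy hxy
      obtain ⟨n, hn⟩ := hcU x hx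
      obtain ⟨m, hm⟩ := hcU y hy
      have hn' := hmono (le_max_left n m) hn
      have hm' := hmono (le_max_right n m) hm
      rw [hHg _ hn', hHg _ hm'] at hxy
      obtain ⟨W, hW, hQW⟩ := hg (max n m)
      exact hW.inj (hQW hn') (hQW hm') hxy
    · intro A hA ho
      have : H '' A = ⋃ n, g n '' (A ∩ interior (Q n)) := by
        ext y
        constructor
        · rintro ⟨x, hx, rfl⟩
          obtain ⟨n, hn⟩ := hcU x (hA hx)
          rw [mem_iUnion]
          exact ⟨n + 1, x, ⟨hx, hQ n hn⟩, (hHg (n + 1) (interior_subset (hQ n hn))).symm⟩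
        · rw [mem_iUnion]
          rintro ⟨n, x, ⟨hx, hxn⟩, rfl⟩
          exact ⟨x, hx, hHg n (interior_subset hxn)⟩
      rw [this]
      refine isOpen_iUnion fun n => ?_
      obtain ⟨W, hW, hQW⟩ := hg n
      exact hW.openMap _ (fun x hx => hQW (interior_subset hx.2)) (ho.inter isOpen_interior)
  refine hOE.nonempty_homeomorph ?_
  apply Subset.antisymm
  · rintro _ ⟨x, hx, rfl⟩
    obtain ⟨n, hn⟩ := hcU x hx
    rw [hHg n hn]
    exact hgV n hn
  · intro y hy
    obtain ⟨n, x, hx, rfl⟩ := hcV y hy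
    exact ⟨x, hQU n hx, hHg n hx⟩

variable {X : Type} [MetricSpace X]

namespace PD

variable {D : PD X} {U V : Set X} {B : List ℕ → List ℕ → Prop}

/-- The embedding `g` is represented by the node `s`. -/
def Mat (D : PD X) (U : Set X) (s : List ℕ) (q : ℕ) (g : X → X) : Prop :=
  (s = [] ∧ q = 0) ∨ ∃ s₀ a, s = s₀ ++ [a] ∧ lQ a = q ∧ Eqv U (D.Pc q) g (D.f a)

/-- A state of the zig-zag. -/
def St (D : PD X) (U V : Set X) (B : List ℕ → List ℕ → Prop) (q : ℕ) (g : X → X) : Prop :=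
  OEn g (D.Pc q) ∧ D.Pc q ⊆ U ∧ MapsTo g (D.Pc q) V ∧
    ∃ s t, B s t ∧ D.Mat U s q _root_.id ∧ D.Mat V t q g

theorem St.init (hB : B [] []) : D.St U V B 0 _root_.id := by
  refine ⟨OEn.id _, ?_, ?_, [], [], hB, Or.inl ⟨rfl, rfl⟩, Or.inl ⟨rfl, rfl⟩⟩
  · simp [D.zero]
  · simp [D.zero, mapsTo_empty]

theorem exists_notMem_of_cofinite {p : ℕ → Prop} (h : ∀ᶠ b in Filter.cofinite, p b) {e : ℕ → ℕ}
    (he : Function.Injective e) : ∃ k, p (e k) := by
  have h1 : {b | ¬ p b}.Finite := by simpa [Filter.eventually_cofinite] using h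
  obtain ⟨b, ⟨k, rfl⟩, hb⟩ := (infinite_range_of_injective he).exists_notMem_finite h1
  exact ⟨k, by simpa using hb⟩

theorem St.step (hS : Stab X) (hV : IsOpen V) (hneV : V ≠ univ)
    (hB : Bisim slab (D.val U) (D.val V) B) {q : ℕ} {g : X → X} (hst : D.St U V B q g)
    {C : Set X} (hC : IsCompact C) (hCV : C ⊆ V) :
    ∃ q' f', C ⊆ interior (D.Pc q') ∧ MapsTo g (D.Pc q) (interior (D.Pc q')) ∧
      (∀ x ∈ D.Pc q, f' (g x) = x) ∧ D.St V U (fun t s => B s t) q' f' := by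
  obtain ⟨hg, hqU, hgV, s, t, hst, ms, mt⟩ := hst
  have hC1 : IsCompact (C ∪ g '' D.Pc q) := hC.union (hg.isCompact_image (D.compact q))
  obtain ⟨q', hq1, hq2⟩ := D.cofinal _ V hC1 hV (union_subset hCV (image_subset_iff.2 hgV))
  set O := interior (D.Pc q') with hO
  have hOo : IsOpen O := isOpen_interior
  have hOV : O ⊆ V := interior_subset.trans hq2
  have hOne : O ≠ univ := fun h => hneV (univ_subset_iff.1 (h ▸ hOV))
  have hgO : MapsTo g (D.Pc q) O := fun x hx => hq1 (Or.inr (mem_image_of_mem g hx))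
  obtain ⟨W, hW, hqW, hWO⟩ := hg.exists_nhds hOo hgO
  obtain ⟨i, hi1, hi2⟩ := D.cofinal _ _ (D.compact q) hW.isOpen hqW
  obtain ⟨δ, hδ, hE⟩ := hS O (D.Pc q) (D.Pc i) g hOo hOne (D.compact q) (D.compact i) hi1
    (hW.oen hi2) (image_subset_iff.2 fun x hx => hWO (hi2 hx))
  obtain ⟨j, hj⟩ := D.dense i g (hW.oen hi2) δ hδ
  have hgu : Eqv O (D.Pc q) g (D.em i j) := hE _ (D.oe i j) hj
  have huO : MapsTo (D.em i j) (D.Pc q) O := hgu.mapsTo hgO
  obtain ⟨i', hi', -⟩ := D.cofinal _ univ (D.compact q') isOpen_univ (subset_univ _)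
  have hi'' : D.Pc q' ⊆ D.Pc i' := hi'.trans interior_subset
  -- the new letters on the side of `V`
  have hval : ∀ k, t ++ [mkL q i j q' i' 0 k] ∈ D.val V := by
    intro k
    rw [mem_val_snoc]
    refine ⟨(hB.mem s t hst).2, ⟨?_, ?_, ?_, ?_⟩, ?_⟩
    · simpa [P] using hi1.trans interior_subset
    · simpa [P, Q, u] using huO.mono_right interior_subset
    · simpa [Q] using hi''
    · intro x hx
      have : x ∈ D.Pc q' := by simpa [Q] using hx
      simpa [f, D.id] using hq2 this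
    · rcases mt with ⟨rfl, rfl⟩ | ⟨t₀, b, rfl, rfl, hb⟩
      · exact Or.inl ⟨rfl, by simp⟩
      · refine Or.inr ⟨t₀, b, rfl, by simp, ?_⟩
        have h1 : Eqv V (D.Pc (lQ b)) (D.em i j) g := (hgu.mono hOV subset_rfl).symm
        have h2 := h1.trans hb
        simpa [f, u, Q, D.id] using h2
  obtain ⟨k, hk⟩ := exists_notMem_of_cofinite (hB.back s t hst) (mkL_injective q i j q' i' 0)
  obtain ⟨a, ha1, ha2, ha3⟩ := hk (hval k)
  set b' := mkL q i j q' i' 0 k with hb'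
  obtain ⟨hs, haOK, haN⟩ := mem_val_snoc.1 ha1
  have hPa : D.P a = D.Pc q := by simp [P, ← lP_congr ha2, hb']
  have hQa : D.Q a = D.Pc q' := by simp [Q, ← lQ_congr ha2, hb']
  have hua : D.u a = D.em i j := by simp [u, ← lI_congr ha2, ← lJ_congr ha2, hb']
  have hlQa : lQ a = q' := by simp [← lQ_congr ha2, hb']
  -- the equivalence on the side of `U`
  have hEU : Eqv U (D.Pc q) (D.f a ∘ D.em i j) _root_.id := by
    rcases ms with ⟨rfl, rfl⟩ | ⟨s₀, a₀, rfl, rfl, ha₀⟩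
    · refine ⟨Homeomorph.refl X, Supp.refl U, ∅, isOpen_empty, by simp [D.zero], ?_⟩
      intro x hx
      exact absurd hx (notMem_empty x)
    · rcases haN with ⟨h, _⟩ | ⟨s₁, a₁, h, hN⟩
      · simp at h
      · obtain ⟨h1, h2⟩ := List.append_inj' h rfl
        have h3 : a₀ = a₁ := by simpa using h2
        subst h3
        have h4 := hN.2
        rw [hua] at h4
        exact h4.trans ha₀.symm
  obtain ⟨φ, hφ, V1, hV1, hqV1, hφe⟩ := hEU
  obtain ⟨θ, ⟨Cθ, hCθ, hCθO, hθ⟩, V2, hV2, hqV2, hθe⟩ := hgu.symm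
  have hθO : Supp θ O := ⟨Cθ, hCθ, hCθO, hθ⟩
  have hfa : OEn (D.f a) (D.Pc q') := hQa ▸ haOK.oen_f
  have hfaU : MapsTo (D.f a) (D.Pc q') U := hQa ▸ haOK.2.2.2
  have hθq : MapsTo θ.symm (D.Pc q') (D.Pc q') := fun x hx =>
    (hθO.symm.mem_iff interior_subset x).2 hx
  refine ⟨q', φ ∘ D.f a ∘ θ.symm, fun x hx => hq1 (Or.inl hx), hgO, ?_, ?_, hq2, ?_,
    t ++ [b'], s ++ [a], ha3, ?_, ?_⟩
  · intro x hx
    change φ (D.f a (θ.symm (g x))) = x
    rw [← hθe x (hqV2 hx), θ.symm_apply_apply]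
    exact hφe x (hqV1 hx)
  · exact (OEn.of_homeo φ univ).comp (hfa.comp (OEn.of_homeo θ.symm _) hθq) (mapsTo_univ _ _)
  · intro x hx
    exact (hφ.mem_iff subset_rfl _).2 (hfaU (hθq hx))
  · refine Or.inr ⟨t, b', rfl, by simp [hb'], ?_⟩
    have : D.f b' = _root_.id := by simp [f, hb', D.id]
    rw [this]
    exact Eqv.refl _ _ _
  · refine Or.inr ⟨s, a, rfl, hlQa, Eqv.symm ?_⟩
    obtain ⟨Wa, hWa, hqWa⟩ := hfa
    have hCW : Cθ ⊆ Wa := hCθO.trans (interior_subset.trans hqWa)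
    have hθ' : ∀ x, x ∉ Cθ → θ.symm x = x := by
      intro x hx
      rw [θ.symm_apply_eq]
      exact (hθ x hx).symm
    obtain ⟨ψ, hψ1, hψ2⟩ := exists_conj hWa hCθ hCW hθ'
    refine ⟨ψ.trans φ, Supp.trans ⟨D.f a '' Cθ, hCθ.image_of_continuousOn (hWa.cont.mono hCW), ?_,
      hψ1⟩ hφ, Wa, hWa.isOpen, hqWa, ?_⟩
    · rintro _ ⟨x, hx, rfl⟩
      exact hfaU (interior_subset (hCθO hx))
    · intro x hx
      change φ (ψ (D.f a x)) = φ (D.f a (θ.symm x))
      rw [hψ2 x hx]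

theorem St.round (hS : Stab X) (hU : IsOpen U) (hneU : U ≠ univ) (hV : IsOpen V) (hneV : V ≠ univ)
    (hB : Bisim slab (D.val U) (D.val V) B) {q : ℕ} {g : X → X} (hst : D.St U V B q g)
    {C C' : Set X} (hC : IsCompact C) (hCU : C ⊆ U) (hC' : IsCompact C') (hCV : C' ⊆ V) :
    ∃ q' g', D.St U V B q' g' ∧ D.Pc q ⊆ interior (D.Pc q') ∧ C ⊆ D.Pc q' ∧
      EqOn g' g (D.Pc q) ∧ C' ⊆ g' '' D.Pc q' := by
  obtain ⟨q1, f1, h1, h2, h3, h4⟩ := hst.step hS hV hneV hB hC' hCV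
  obtain ⟨q2, g2, k1, k2, k3, k4⟩ := h4.step hS hU hneU hB.symm (hC.union (D.compact q))
    (union_subset hCU hst.2.1)
  refine ⟨q2, g2, k4, subset_union_right.trans k1,
    (subset_union_left.trans k1).trans interior_subset, ?_, ?_⟩
  · intro x hx
    have := k3 (g x) (interior_subset (h2 hx))
    rwa [h3 x hx] at this
  · intro y hy
    exact ⟨f1 y, interior_subset (k2 (interior_subset (h1 hy))), k3 y (interior_subset (h1 hy))⟩

theorem homeo_of_bisim (hS : Stab X) (D : PD X) (hU : IsOpen U) (hneU : U ≠ univ) (hV : IsOpen V)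
    (hneV : V ≠ univ) (hB : Bisim slab (D.val U) (D.val V) B) : Nonempty (U ≃ₜ V) := by
  classical
  have hex : ∀ (n : ℕ) (p : {p : ℕ × (X → X) // D.St U V B p.1 p.2}),
      ∃ p' : {p : ℕ × (X → X) // D.St U V B p.1 p.2},
        D.Pc p.1.1 ⊆ interior (D.Pc p'.1.1) ∧ (D.Pc n ⊆ U → D.Pc n ⊆ D.Pc p'.1.1) ∧
        EqOn p'.1.2 p.1.2 (D.Pc p.1.1) ∧ (D.Pc n ⊆ V → D.Pc n ⊆ p'.1.2 '' D.Pc p'.1.1) := by
    rintro n ⟨⟨q, g⟩, hst⟩
    have h1 : IsCompact (if D.Pc n ⊆ U then D.Pc n else ∅) := by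
      split_ifs
      exacts [D.compact n, isCompact_empty]
    have h2 : IsCompact (if D.Pc n ⊆ V then D.Pc n else ∅) := by
      split_ifs
      exacts [D.compact n, isCompact_empty]
    obtain ⟨q', g', k1, k2, k3, k4, k5⟩ := hst.round hS hU hneU hV hneV hB h1
      (by split_ifs with h; exacts [h, empty_subset _]) h2
      (by split_ifs with h; exacts [h, empty_subset _])
    refine ⟨⟨⟨q', g'⟩, k1⟩, k2, fun h => ?_, k4, fun h => ?_⟩
    · simpa [h] using k3
    · simpa [h] using k5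
  choose nxt hn1 hn2 hn3 hn4 using hex
  let p : ℕ → {p : ℕ × (X → X) // D.St U V B p.1 p.2} := fun n =>
    Nat.rec ⟨⟨0, _root_.id⟩, St.init hB.root⟩ (fun n p => nxt n p) n
  have hp : ∀ n, p (n + 1) = nxt n (p n) := fun n => rfl
  refine exhaust hU (fun n => D.Pc (p n).1.1) (fun n => (p n).1.2) (fun n => (p n).2.1)
    (fun n => (p n).2.2.1) (fun n => (p n).2.2.2.1) ?_ ?_ ?_ ?_
  · intro n
    simp only [hp]
    exact hn1 n (p n)
  · intro n
    simp only [hp]
    exact hn3 n (p n)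
  · intro x hx
    obtain ⟨i, hi1, hi2⟩ := D.cofinal {x} U isCompact_singleton hU (singleton_subset_iff.2 hx)
    refine ⟨i + 1, ?_⟩
    simp only [hp]
    exact hn2 i (p i) hi2 (interior_subset (hi1 rfl))
  · intro y hy
    obtain ⟨i, hi1, hi2⟩ := D.cofinal {y} V isCompact_singleton hV (singleton_subset_iff.2 hy)
    refine ⟨i + 1, ?_⟩
    simp only [hp]
    exact hn4 i (p i) hi2 (interior_subset (hi1 rfl))

end PD

/-- Block C, from C3 and C4. -/
theorem sourceThm (hE : EKX) (hD : PDThm) : SourceThm := by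
  intro n X _ _ _ hX
  let _ : MetricSpace X := TopologicalSpace.metrizableSpaceMetric X
  obtain ⟨D⟩ := hD X
  have hS : Stab X := hE n X hX
  have hne : ∀ K : NonemptyCompacts X, ((K : Set X)ᶜ) ≠ univ := by
    intro K h
    obtain ⟨x, hx⟩ := K.nonempty
    have : x ∈ ((K : Set X)ᶜ) := h ▸ mem_univ x
    exact this hx
  refine ⟨slab, fun K => D.val (K : Set X)ᶜ, fun K => PD.isTree_val,
    fun K s hs => PD.infinite_children hs, fun s => PD.isOpen_mem_val D s, ?_, ?_⟩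
  · intro K L h
    exact PD.homeo_to_letters hS D K.isCompact.isClosed.isOpen_compl
      L.isCompact.isClosed.isOpen_compl (hne K) (hne L) h
  · rintro K L ⟨B, hB⟩
    exact PD.homeo_of_bisim hS D K.isCompact.isClosed.isOpen_compl (hne K)
      L.isCompact.isClosed.isOpen_compl (hne L) hB

end Pool.Agent.Work.MP_252c1e_lc
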