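import Pool.Agent.Work.MP_252c1e_lc.Interface

/-!
# Block T1: Klee's trick
-/

open Set Topology TopologicalSpace

namespace Pool.Agent.Work.MP_252c1e_lc

/-- the shear `v ↦ v + H (v i) e_j` -/
noncomputable def shear {n : ℕ} (i j : Fin n) (hij : i ≠ j) (H : C(ℝ, ℝ)) :
    EuclideanSpace ℝ (Fin n) ≃ₜ EuclideanSpace ℝ (Fin n) where
  toFun v := v + H (v i) • EuclideanSpace.single j (1 : ℝ)
  invFun v := v - H (v i) • EuclideanSpace.single j (1 : ℝ)
  left_inv v := by
    have h1 : (v + H (v i) • EuclideanSpace.single j (1 : ℝ)) i = v i := by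
      simp [hij]
    simp only [h1]
    abel
  right_inv v := by
    have h1 : (v - H (v i) • EuclideanSpace.single j (1 : ℝ)) i = v i := by
      simp [hij]
    simp only [h1]
    abel
  continuous_toFun := by
    have h1 : Continuous (fun v : EuclideanSpace ℝ (Fin n) => v i) := by fun_prop
    exact continuous_id.add ((H.continuous.comp h1).smul continuous_const)
  continuous_invFun := by
    have h1 : Continuous (fun v : EuclideanSpace ℝ (Fin n) => v i) := by fun_prop
    exact continuous_id.sub ((H.continuous.comp h1).smul continuous_const)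

theorem shear_apply {n : ℕ} (i j : Fin n) (hij : i ≠ j) (H : C(ℝ, ℝ)) (v : EuclideanSpace ℝ (Fin n)) :
    shear i j hij H v = v + H (v i) • EuclideanSpace.single j (1 : ℝ) := rfl

theorem shear_symm_apply {n : ℕ} (i j : Fin n) (hij : i ≠ j) (H : C(ℝ, ℝ))
    (v : EuclideanSpace ℝ (Fin n)) :
    (shear i j hij H).symm v = v - H (v i) • EuclideanSpace.single j (1 : ℝ) := rfl

theorem single_eq_smul {n : ℕ} (i : Fin n) (x : ℝ) :
    EuclideanSpace.single i x = x • EuclideanSpace.single i (1 : ℝ) := by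
  ext k
  simp

/-- a homeomorphism of `ℝ^(m+2)` extending a homeomorphism of compact subsets of the axis -/
theorem exists_klee {m : ℕ} {K K' : Set ℝ} (hK : IsCompact K) (hK' : IsCompact K')
    (h : K ≃ₜ K') : ∃ Φ : EuclideanSpace ℝ (Fin (m + 2)) ≃ₜ EuclideanSpace ℝ (Fin (m + 2)),
      ∀ x : K, Φ (EuclideanSpace.single 0 (x : ℝ)) = EuclideanSpace.single 0 ((h x : K') : ℝ) := by
  obtain ⟨H, hH⟩ := ContinuousMap.exists_restrict_eq hK.isClosed
    (⟨fun x : K => ((h x : K') : ℝ), by fun_prop⟩ : C(K, ℝ))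
  obtain ⟨H', hH'⟩ := ContinuousMap.exists_restrict_eq hK'.isClosed
    (⟨fun x : K' => ((h.symm x : K) : ℝ), by fun_prop⟩ : C(K', ℝ))
  have e1 : ∀ x : K, H x = ((h x : K') : ℝ) := fun x => by
    have := congrArg (fun g : C(K, ℝ) => g x) hH
    exact this
  have e2 : ∀ x : K', H' x = ((h.symm x : K) : ℝ) := fun x => by
    have := congrArg (fun g : C(K', ℝ) => g x) hH'
    exact this
  have h01 : (0 : Fin (m + 2)) ≠ 1 := by simp
  have h10 : (1 : Fin (m + 2)) ≠ 0 := by simp
  refine ⟨(((shear 0 1 h01 H).trans (shear 1 0 h10 H').symm).trans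
    (shear 1 0 h10 (ContinuousMap.id ℝ))).trans (shear 0 1 h01 (ContinuousMap.id ℝ)).symm, ?_⟩
  intro x
  simp only [Homeomorph.trans_apply, shear_apply, shear_symm_apply]
  ext k
  rcases eq_or_ne k 0 with rfl | hk0
  · simp [e1, e2]
  · rcases eq_or_ne k 1 with rfl | hk1
    · simp [e1, e2]
    · simp [hk0, hk1]

theorem klee : KleeTrick := by
  intro m K K' hK hK' ⟨h⟩
  obtain ⟨Φ, hΦ⟩ := exists_klee (m := m) hK hK' h
  have himg : Φ.onePointCongr '' (axis (m + 1) '' K) = axis (m + 1) '' K' := by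
    ext p
    constructor
    · rintro ⟨_, ⟨x, hx, rfl⟩, rfl⟩
      refine ⟨h ⟨x, hx⟩, (h ⟨x, hx⟩).2, ?_⟩
      unfold axis
      rw [← hΦ ⟨x, hx⟩]
      rfl
    · rintro ⟨y, hy, rfl⟩
      refine ⟨axis (m + 1) (h.symm ⟨y, hy⟩ : K), ⟨_, (h.symm ⟨y, hy⟩).2, rfl⟩, ?_⟩
      have h1 := hΦ (h.symm ⟨y, hy⟩)
      rw [h.apply_symm_apply] at h1
      unfold axis
      rw [← h1]
      rfl
  refine ⟨(Φ.onePointCongr.image ((axis (m + 1) '' K)ᶜ)).trans (Homeomorph.setCongr ?_)⟩
  rw [Set.image_compl_eq Φ.onePointCongr.bijective, himg]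

end Pool.Agent.Work.MP_252c1e_lc
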