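import Pool.Agent.Work.MP_252c1e_lc.Interface

/-!
# Block T2: ends
-/

open Set Topology TopologicalSpace Filter

namespace Pool.Agent.Work.MP_252c1e_lc

/-- extension of a homeomorphism over totally disconnected, locally nonseparating closed sets -/
theorem ends_ext {X X' : Type*} [TopologicalSpace X] [CompactSpace X] [T2Space X]
    [TopologicalSpace X'] [CompactSpace X'] [T2Space X'] {A : Set X} {A' : Set X'}
    (hA' : IsClosed A') (hdense : Dense Aᶜ) (htd : IsTotallyDisconnected A')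
    (hconn : ∀ x ∈ A, ∀ N ∈ 𝓝 x, ∃ V ∈ 𝓝 x, V ⊆ N ∧ IsPreconnected (V \ A))
    (f : ↥Aᶜ ≃ₜ ↥A'ᶜ) :
    ∃ F : X → X', Continuous F ∧ (∀ u : ↥Aᶜ, F u = f u) ∧ ∀ x ∈ A, F x ∈ A' := by
  have hdi : IsDenseInducing ((↑) : ↥Aᶜ → X) := hdense.isDenseEmbedding_val.toIsDenseInducing
  set g : ↥Aᶜ → X' := fun u => (f u : X') with hg
  have hgc : Continuous g := continuous_subtype_val.comp f.continuous
  -- cluster points at `x ∈ A` lie in `A'`
  have hcl : ∀ x ∈ A, ∀ z, ClusterPt z (map g (comap (↑) (𝓝 x))) → z ∈ A' := by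
    intro x hx z hz
    by_contra hzA
    have hU : A'ᶜ ∈ 𝓝 z := hA'.isOpen_compl.mem_nhds hzA
    obtain ⟨N, hN, hNU, hNc⟩ := local_compact_nhds hU
    have hM1 : IsCompact ((↑) ⁻¹' N : Set ↥A'ᶜ) := by
      rw [Subtype.isCompact_iff, Subtype.image_preimage_coe, inter_eq_self_of_subset_right hNU]
      exact hNc
    have hM : IsCompact (((↑) : ↥Aᶜ → X) '' (f ⁻¹' ((↑) ⁻¹' N))) := by
      apply IsCompact.image _ continuous_subtype_val
      rw [← f.image_symm]
      exact hM1.image f.symm.continuous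
    have hxM : x ∉ (((↑) : ↥Aᶜ → X) '' (f ⁻¹' ((↑) ⁻¹' N))) := by
      rintro ⟨u, _, rfl⟩
      exact u.2 hx
    have h1 : (((↑) : ↥Aᶜ → X) '' (f ⁻¹' ((↑) ⁻¹' N)))ᶜ ∈ 𝓝 x := hM.isClosed.isOpen_compl.mem_nhds hxM
    have h2 : Nᶜ ∈ map g (comap (↑) (𝓝 x)) := by
      rw [mem_map]
      filter_upwards [preimage_mem_comap h1] with u hu hgu
      exact hu ⟨u, hgu, rfl⟩
    obtain ⟨w, hw1, hw2⟩ := clusterPt_iff_nonempty.1 hz hN h2
    exact hw2 hw1
  -- the cluster point is unique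
  have huniq : ∀ x ∈ A, ∀ z1 z2, ClusterPt z1 (map g (comap (↑) (𝓝 x))) →
      ClusterPt z2 (map g (comap (↑) (𝓝 x))) → z1 = z2 := by
    intro x hx z1 z2 h1 h2
    by_contra hne
    have m1 := hcl x hx z1 h1
    have m2 := hcl x hx z2 h2
    have : CompactSpace ↥A' := isCompact_iff_compactSpace.1 hA'.isCompact
    have : TotallyDisconnectedSpace ↥A' := totallyDisconnectedSpace_subtype_iff.2 htd
    obtain ⟨P, hP, hP1, hP2⟩ := exists_isClopen_of_totally_separated
      (show (⟨z1, m1⟩ : ↥A') ≠ ⟨z2, m2⟩ by simpa using hne)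
    have hPc : IsClosed (((↑) : ↥A' → X') '' P) := hA'.isClosedEmbedding_subtypeVal.isClosedMap _ hP.isClosed
    have hQc : IsClosed (((↑) : ↥A' → X') '' Pᶜ) :=
      hA'.isClosedEmbedding_subtypeVal.isClosedMap _ hP.compl.isClosed
    have hdisj : Disjoint (((↑) : ↥A' → X') '' P) (((↑) : ↥A' → X') '' Pᶜ) := by
      rw [Set.disjoint_image_iff Subtype.val_injective]
      exact disjoint_compl_right
    obtain ⟨u, v, hu, hv, hPu, hQv, huv⟩ := normal_separation hPc hQc hdisj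
    have hsub : A' ⊆ u ∪ v := by
      intro a ha
      by_cases haP : (⟨a, ha⟩ : ↥A') ∈ P
      · exact Or.inl (hPu ⟨_, haP, rfl⟩)
      · exact Or.inr (hQv ⟨⟨a, ha⟩, haP, rfl⟩)
    have hmem : u ∪ v ∈ map g (comap (↑) (𝓝 x)) := by
      by_contra hnot
      have hneb : (map g (comap (↑) (𝓝 x)) ⊓ 𝓟 ((u ∪ v)ᶜ)).NeBot := by
        exact ⟨fun hbot => hnot (mem_iff_inf_principal_compl.2 hbot)⟩
      obtain ⟨z, hz⟩ := @exists_clusterPt_of_compactSpace X' _ _
        (map g (comap (↑) (𝓝 x)) ⊓ 𝓟 ((u ∪ v)ᶜ)) hneb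
      have hz1 := hcl x hx z (hz.mono inf_le_left)
      have hz2 : z ∈ (u ∪ v)ᶜ := by
        have : ClusterPt z (𝓟 ((u ∪ v)ᶜ)) := hz.mono inf_le_right
        rw [← (hu.union hv).isClosed_compl.closure_eq]
        exact mem_closure_iff_clusterPt.2 this
      exact hz2 (hsub hz1)
    rw [mem_map, mem_comap] at hmem
    obtain ⟨N, hN, hNg⟩ := hmem
    obtain ⟨V, hV, hVN, hVc⟩ := hconn x hx N hN
    -- the connected set
    have hgV : IsPreconnected (g '' ((↑) ⁻¹' V)) := by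
      have h3 : IsPreconnected ((↑) ⁻¹' V : Set ↥Aᶜ) := by
        rw [← IsInducing.subtypeVal.isPreconnected_image, Subtype.image_preimage_coe, inter_comm]
        exact hVc
      exact h3.image g hgc.continuousOn
    have hgsub : g '' ((↑) ⁻¹' V) ⊆ u ∪ v := by
      rintro _ ⟨w, hw, rfl⟩
      exact hNg (hVN hw)
    have hVmem : g '' ((↑) ⁻¹' V) ∈ map g (comap (↑) (𝓝 x)) := image_mem_map (preimage_mem_comap hV)
    have hz1u : z1 ∈ u := hPu ⟨_, hP1, rfl⟩
    have hz2v : z2 ∈ v := hQv ⟨_, hP2, rfl⟩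
    obtain ⟨w1, hw1, hw1'⟩ := clusterPt_iff_nonempty.1 h1 (hu.mem_nhds hz1u) hVmem
    obtain ⟨w2, hw2, hw2'⟩ := clusterPt_iff_nonempty.1 h2 (hv.mem_nhds hz2v) hVmem
    obtain ⟨w, hw, hwu, hwv⟩ := hgV u v hu hv hgsub ⟨w1, hw1', hw1⟩ ⟨w2, hw2', hw2⟩
    exact huv.le_bot ⟨hwu, hwv⟩
  have hlim : ∀ x : X, ∃ c, Tendsto g (comap (↑) (𝓝 x)) (𝓝 c) := by
    intro x
    by_cases hx : x ∈ A
    · have : (comap ((↑) : ↥Aᶜ → X) (𝓝 x)).NeBot := hdi.comap_nhds_neBot x
      obtain ⟨c, hc⟩ := exists_clusterPt_of_compactSpace (map g (comap (↑) (𝓝 x)))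
      exact ⟨c, le_nhds_of_unique_clusterPt fun y hy => huniq x hx y c hy hc⟩
    · refine ⟨g ⟨x, hx⟩, ?_⟩
      have h1 := hgc.tendsto ⟨x, hx⟩
      rw [nhds_subtype_eq_comap] at h1
      exact h1
  refine ⟨hdi.extend g, hdi.continuous_extend hlim, fun u => hdi.extend_eq hgc u, fun x hx => ?_⟩
  obtain ⟨c, hc⟩ := hlim x
  rw [hdi.extend_eq_of_tendsto hc]
  have : (comap ((↑) : ↥Aᶜ → X) (𝓝 x)).NeBot := hdi.comap_nhds_neBot x
  exact hcl x hx c (ClusterPt.of_le_nhds hc)

/-- the two-sided version -/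
theorem ends_homeo {X X' : Type*} [TopologicalSpace X] [CompactSpace X] [T2Space X]
    [TopologicalSpace X'] [CompactSpace X'] [T2Space X'] {A : Set X} {A' : Set X'}
    (hA : IsClosed A) (hA' : IsClosed A') (hdense : Dense Aᶜ) (hdense' : Dense A'ᶜ)
    (htd : IsTotallyDisconnected A) (htd' : IsTotallyDisconnected A')
    (hconn : ∀ x ∈ A, ∀ N ∈ 𝓝 x, ∃ V ∈ 𝓝 x, V ⊆ N ∧ IsPreconnected (V \ A))
    (hconn' : ∀ x ∈ A', ∀ N ∈ 𝓝 x, ∃ V ∈ 𝓝 x, V ⊆ N ∧ IsPreconnected (V \ A'))
    (f : ↥Aᶜ ≃ₜ ↥A'ᶜ) : Nonempty (A ≃ₜ A') := by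
  obtain ⟨F, hF, hF1, hF2⟩ := ends_ext hA' hdense htd' hconn f
  obtain ⟨G, hG, hG1, hG2⟩ := ends_ext hA hdense' htd hconn' f.symm
  have h1 : ∀ x, G (F x) = x := by
    have : G ∘ F = id := by
      apply Continuous.ext_on hdense (hG.comp hF) continuous_id
      intro x hx
      have e1 := hF1 ⟨x, hx⟩
      have e2 := hG1 (f ⟨x, hx⟩)
      simp only [Function.comp, id]
      simp only at e1
      rw [e1, e2, f.symm_apply_apply]
    exact fun x => congrFun this x
  have h2 : ∀ x, F (G x) = x := by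
    have : F ∘ G = id := by
      apply Continuous.ext_on hdense' (hF.comp hG) continuous_id
      intro x hx
      have e1 := hG1 ⟨x, hx⟩
      have e2 := hF1 (f.symm ⟨x, hx⟩)
      simp only [Function.comp, id]
      simp only at e1
      rw [e1, e2, f.apply_symm_apply]
    exact fun x => congrFun this x
  exact ⟨{
    toFun := fun x => ⟨F x, hF2 x x.2⟩
    invFun := fun x => ⟨G x, hG2 x x.2⟩
    left_inv := fun x => Subtype.ext (h1 x)
    right_inv := fun x => Subtype.ext (h2 x)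
    continuous_toFun := (hF.comp continuous_subtype_val).subtype_mk _
    continuous_invFun := (hG.comp continuous_subtype_val).subtype_mk _ }⟩

theorem isEmbedding_axis (m : ℕ) : IsEmbedding (axis m) := by
  have h1 : IsEmbedding (fun x : ℝ => (EuclideanSpace.single (0 : Fin (m + 1)) x)) := by
    apply Function.LeftInverse.isEmbedding (f := fun v : EuclideanSpace ℝ (Fin (m + 1)) => v 0)
    · intro x
      simp
    · fun_prop
    · have : (fun x : ℝ => (EuclideanSpace.single (0 : Fin (m + 1)) x)) =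
          fun x : ℝ => x • (EuclideanSpace.single (0 : Fin (m + 1)) (1 : ℝ)) := by
        funext x
        ext k
        simp
      rw [this]
      fun_prop
  exact OnePoint.isOpenEmbedding_coe.isEmbedding.comp h1

theorem isTotallyDisconnected_axis {m : ℕ} {K : Set ℝ} (hK : interior K = ∅) :
    IsTotallyDisconnected (axis m '' K) := by
  intro t ht hc
  have h1 : t = axis m '' (axis m ⁻¹' t) := by
    rw [image_preimage_eq_inter_range, left_eq_inter]
    intro x hx
    obtain ⟨y, _, rfl⟩ := ht hx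
    exact ⟨y, rfl⟩
  rw [h1] at hc ⊢
  rw [(isEmbedding_axis m).isInducing.isPreconnected_image] at hc
  apply Set.Subsingleton.image
  have h2 : axis m ⁻¹' t ⊆ K := by
    intro x hx
    obtain ⟨y, hy, hyx⟩ := ht hx
    rwa [(isEmbedding_axis m).injective hyx] at hy
  intro a ha b hb
  by_contra hne
  have key : ∀ a b : ℝ, a ∈ axis m ⁻¹' t → b ∈ axis m ⁻¹' t → a < b → False := by
    intro a b ha hb hab
    have h3 : Ioo a b ⊆ K := Ioo_subset_Icc_self.trans ((hc.ordConnected.out ha hb).trans h2)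
    have h4 : Ioo a b ⊆ interior K := interior_maximal h3 isOpen_Ioo
    rw [hK] at h4
    obtain ⟨c, hc1⟩ := nonempty_Ioo.2 hab
    exact h4 hc1
  rcases lt_or_gt_of_ne hne with h | h
  · exact key a b ha hb h
  · exact key b a hb ha h

/-- balls minus a thin subset of the axis are connected -/
theorem ball_sdiff {m : ℕ} {K : Set ℝ} (hK : interior K = ∅) (k : ℝ) {r : ℝ} (hr : 0 < r) :
    IsPreconnected (Metric.ball (EuclideanSpace.single (0 : Fin (m + 2)) k) r \
      ((fun x : ℝ => EuclideanSpace.single (0 : Fin (m + 2)) x) '' K)) ∧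
    (Metric.ball (EuclideanSpace.single (0 : Fin (m + 2)) k) r \
      ((fun x : ℝ => EuclideanSpace.single (0 : Fin (m + 2)) x) '' K)).Nonempty := by
  set B := Metric.ball (EuclideanSpace.single (0 : Fin (m + 2)) k) r with hB
  set L := (fun x : ℝ => EuclideanSpace.single (0 : Fin (m + 2)) x) '' K with hL
  have hBconv : Convex ℝ B := convex_ball _ _
  have hBopen : IsOpen B := Metric.isOpen_ball
  set e : EuclideanSpace ℝ (Fin (m + 2)) := EuclideanSpace.single 1 (1 : ℝ) with he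
  -- a point of the wall
  obtain ⟨t, htK, htr⟩ : ∃ t, t ∉ K ∧ dist t k < r := by
    by_contra hcon
    push Not at hcon
    have h1 : Metric.ball k r ⊆ K := by
      intro t ht
      by_contra htK
      exact absurd ht (not_lt.2 (hcon t htK))
    have h2 : Metric.ball k r ⊆ interior K := interior_maximal h1 Metric.isOpen_ball
    rw [hK] at h2
    exact h2 (Metric.mem_ball_self hr)
  set S0 : Set (EuclideanSpace ℝ (Fin (m + 2))) := {v | v ∈ B ∧ v 1 = 0 ∧ v ∉ L} with hS0
  have hp : EuclideanSpace.single (0 : Fin (m + 2)) t ∈ S0 := by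
    refine ⟨?_, by simp, ?_⟩
    · rw [hB, Metric.mem_ball, PiLp.dist_single_same]
      exact htr
    · rintro ⟨s, hs, hst⟩
      have h3 := congrArg (fun v : EuclideanSpace ℝ (Fin (m + 2)) => v 0) hst
      simp only [PiLp.single_apply] at h3
      have h4 : s = t := by simpa using h3
      exact htK (h4 ▸ hs)
  have hside : ∀ σ : ℝ, σ ≠ 0 → IsPreconnected ({v | v ∈ B ∧ 0 < σ * v 1} ∪ S0) := by
    intro σ hσ
    have hconv : Convex ℝ {v : EuclideanSpace ℝ (Fin (m + 2)) | v ∈ B ∧ 0 < σ * v 1} := by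
      intro v hv w hw a b ha hb hab
      refine ⟨hBconv hv.1 hw.1 ha hb hab, ?_⟩
      have h1 : (a • v + b • w) 1 = a * v 1 + b * w 1 := by simp
      rw [h1]
      have h2 : σ * (a * v 1 + b * w 1) = a * (σ * v 1) + b * (σ * w 1) := by ring
      rw [h2]
      rcases ha.eq_or_lt with h0 | h0
      · rw [← h0] at hab ⊢
        have hb1 : b = 1 := by linarith
        rw [hb1]
        simpa using hw.2
      · have := mul_pos h0 hv.2
        have := mul_nonneg hb hw.2.le
        linarith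
    refine hconv.isPreconnected.subset_closure subset_union_left ?_
    rintro v (hv | hv)
    · exact subset_closure hv
    · -- `v + s σ e` tends to `v`
      have hlim : Tendsto (fun s : ℝ => v + (s * σ) • e) (𝓝[>] 0) (𝓝 v) := by
        have hc : Continuous (fun s : ℝ => v + (s * σ) • e) := by fun_prop
        have := hc.tendsto 0
        simp only [zero_mul, zero_smul, add_zero] at this
        exact this.mono_left nhdsWithin_le_nhds
      apply mem_closure_of_tendsto hlim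
      have hin : ∀ᶠ s in 𝓝[>] (0 : ℝ), v + (s * σ) • e ∈ B := hlim.eventually (hBopen.mem_nhds hv.1)
      filter_upwards [hin, self_mem_nhdsWithin] with s hs hs0
      refine ⟨hs, ?_⟩
      have h1 : (v + (s * σ) • e) 1 = s * σ := by
        simp [he, hv.2.1]
      rw [h1]
      have hs0' : (0 : ℝ) < s := hs0
      have : 0 < σ * σ := mul_self_pos.2 hσ
      nlinarith
  have hunion : B \ L = ({v | v ∈ B ∧ 0 < (1 : ℝ) * v 1} ∪ S0) ∪ ({v | v ∈ B ∧ 0 < (-1 : ℝ) * v 1} ∪ S0) := by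
    ext v
    constructor
    · rintro ⟨hvB, hvL⟩
      rcases lt_trichotomy (v 1) 0 with h | h | h
      · exact Or.inr (Or.inl ⟨hvB, by linarith⟩)
      · exact Or.inl (Or.inr ⟨hvB, h, hvL⟩)
      · exact Or.inl (Or.inl ⟨hvB, by linarith⟩)
    · have hLw : ∀ v ∈ L, v 1 = 0 := by
        rintro _ ⟨s, _, rfl⟩
        simp
      rintro ((hv | hv) | (hv | hv))
      · refine ⟨hv.1, fun h => ?_⟩
        have := hLw v h
        have := hv.2
        linarith
      · exact ⟨hv.1, hv.2.2⟩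
      · refine ⟨hv.1, fun h => ?_⟩
        have := hLw v h
        have := hv.2
        linarith
      · exact ⟨hv.1, hv.2.2⟩
  refine ⟨?_, ⟨_, hp.1, hp.2.2⟩⟩
  rw [hunion]
  exact IsPreconnected.union _ (Or.inr hp) (Or.inr hp) (hside 1 one_ne_zero)
    (hside (-1) (by norm_num))

theorem axis_local {m : ℕ} {K : Set ℝ} (hK : interior K = ∅) :
    ∀ x ∈ axis (m + 1) '' K, ∀ N ∈ 𝓝 x, ∃ V ∈ 𝓝 x, V ⊆ N ∧ IsPreconnected (V \ axis (m + 1) '' K) ∧
      (V \ axis (m + 1) '' K).Nonempty := by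
  rintro _ ⟨k, hk, rfl⟩ N hN
  unfold axis at hN
  rw [OnePoint.nhds_coe_eq, mem_map] at hN
  obtain ⟨r, hr, hrN⟩ := Metric.mem_nhds_iff.1 hN
  obtain ⟨h1, h2⟩ := ball_sdiff (m := m) hK k hr
  have himg : axis (m + 1) '' K = ((↑) : EuclideanSpace ℝ (Fin (m + 2)) → Sph (m + 2)) ''
      ((fun x : ℝ => EuclideanSpace.single (0 : Fin (m + 2)) x) '' K) := by
    rw [image_image]
    rfl
  have heq : ((↑) : EuclideanSpace ℝ (Fin (m + 2)) → Sph (m + 2)) ''
      Metric.ball (EuclideanSpace.single (0 : Fin (m + 2)) k) r \ axis (m + 1) '' K =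
      ((↑) : EuclideanSpace ℝ (Fin (m + 2)) → Sph (m + 2)) ''
      (Metric.ball (EuclideanSpace.single (0 : Fin (m + 2)) k) r \
        ((fun x : ℝ => EuclideanSpace.single (0 : Fin (m + 2)) x) '' K)) := by
    rw [himg, image_sdiff OnePoint.coe_injective]
  refine ⟨((↑) : EuclideanSpace ℝ (Fin (m + 2)) → Sph (m + 2)) ''
      Metric.ball (EuclideanSpace.single (0 : Fin (m + 2)) k) r, ?_, ?_, ?_, ?_⟩
  · unfold axis
    rw [OnePoint.nhds_coe_eq]
    exact image_mem_map (Metric.ball_mem_nhds _ hr)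
  · rintro _ ⟨v, hv, rfl⟩
    exact hrN hv
  · rw [heq]
    exact h1.image _ OnePoint.continuous_coe.continuousOn
  · rw [heq]
    exact h2.image _

theorem ends : EndsThm := by
  intro m K K' hK hK' hi hi' ⟨f⟩
  have hc : ∀ {K : Set ℝ}, IsCompact K → IsClosed (axis (m + 1) '' K) := fun h =>
    (h.image (isEmbedding_axis (m + 1)).continuous).isClosed
  have hd : ∀ {K : Set ℝ}, interior K = ∅ → Dense (axis (m + 1) '' K)ᶜ := by
    intro K hi
    rw [← interior_eq_empty_iff_dense_compl, Set.eq_empty_iff_forall_notMem]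
    intro x hx
    obtain ⟨V, hV, hVN, _, ⟨y, hy⟩⟩ := axis_local (m := m) hi x (interior_subset hx) _
      (isOpen_interior.mem_nhds hx)
    exact hy.2 (interior_subset (hVN hy.1))
  have hl : ∀ {K : Set ℝ}, interior K = ∅ → ∀ x ∈ axis (m + 1) '' K, ∀ N ∈ 𝓝 x, ∃ V ∈ 𝓝 x,
      V ⊆ N ∧ IsPreconnected (V \ axis (m + 1) '' K) := by
    intro K hi x hx N hN
    obtain ⟨V, hV, hVN, h1, _⟩ := axis_local hi x hx N hN
    exact ⟨V, hV, hVN, h1⟩
  obtain ⟨φ⟩ := ends_homeo (hc hK) (hc hK') (hd hi) (hd hi') (isTotallyDisconnected_axis hi)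
    (isTotallyDisconnected_axis hi') (hl hi) (hl hi') f
  exact ⟨(((isEmbedding_axis (m + 1)).homeomorphImage K).trans φ).trans
    ((isEmbedding_axis (m + 1)).homeomorphImage K').symm⟩

end Pool.Agent.Work.MP_252c1e_lc
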