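import Pool.Agent.Work.MP_252c1e_lc.Interface

/-!
# Block T3: open subsets of the circle; punctured spheres
-/

open Set Topology TopologicalSpace Filter

namespace Pool.Agent.Work.MP_252c1e_lc

/-- the complement of a point of `Sⁿ` is `ℝⁿ` -/
theorem punctured (n : ℕ) (p : Sph n) : Nonempty (({p}ᶜ : Set (Sph n)) ≃ₜ (Fin n → ℝ)) := by
  let E := EuclideanSpace ℝ (Fin (n + 1))
  have : Fact (Module.finrank ℝ E = n + 1) := ⟨by simp [E]⟩
  let Ψ : Sph n ≃ₜ Metric.sphere (0 : E) 1 :=
    onePointEquivSphereOfFinrankEq (ι := Fin (n + 1)) (V := EuclideanSpace ℝ (Fin n)) (by simp)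
  let S := (stereographic' n (Ψ p)).toHomeomorphSourceTarget
  have h1 : (stereographic' n (Ψ p)).source = {Ψ p}ᶜ := stereographic'_source _
  have h2 : (stereographic' n (Ψ p)).target = Set.univ := stereographic'_target _
  have h3 : Ψ '' {p}ᶜ = {Ψ p}ᶜ := by
    rw [Set.image_compl_eq Ψ.bijective, image_singleton]
  exact ⟨(((((Ψ.image {p}ᶜ).trans (Homeomorph.setCongr h3)).trans
    (Homeomorph.setCongr h1.symm)).trans S).trans (Homeomorph.setCongr h2)).trans
    ((Homeomorph.Set.univ _).trans (EuclideanSpace.equiv (Fin n) ℝ).toHomeomorph)⟩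

/-- an open interval is homeomorphic to the line -/
theorem Ioo_homeo {a b : ℝ} (hab : a < b) : Nonempty (↥(Ioo a b) ≃ₜ ℝ) := by
  have hr : 0 < (b - a) / 2 := by linarith
  have h1 : Metric.ball ((a + b) / 2) ((b - a) / 2) = Ioo a b := by
    rw [Real.ball_eq_Ioo]
    congr 1 <;> ring
  let Φ := OpenPartialHomeomorph.univBall ((a + b) / 2 : ℝ) ((b - a) / 2)
  have hs : Φ.source = univ := OpenPartialHomeomorph.univBall_source _ _
  have ht : Φ.target = Ioo a b := by
    rw [OpenPartialHomeomorph.univBall_target _ hr, h1]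
  exact ⟨(((Homeomorph.setCongr ht.symm).trans Φ.toHomeomorphSourceTarget.symm).trans
    (Homeomorph.setCongr hs)).trans (Homeomorph.Set.univ ℝ)⟩

/-- bounded open connected subsets of the line -/
theorem bounded_homeo {C : Set ℝ} (ho : IsOpen C) (hc : IsPreconnected C) (hne : C.Nonempty)
    (hb : BddBelow C) (ha : BddAbove C) : Nonempty (↥C ≃ₜ ℝ) := by
  have h1 : Ioo (sInf C) (sSup C) ⊆ C := IsConnected.Ioo_csInf_csSup_subset ⟨hne, hc⟩ hb ha
  have h2 : C ⊆ Ioo (sInf C) (sSup C) := by
    intro x hx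
    obtain ⟨ε, hε, hεC⟩ := Metric.isOpen_iff.1 ho x hx
    have h3 : x - ε / 2 ∈ C := hεC (by rw [Real.ball_eq_Ioo]; constructor <;> linarith)
    have h4 : x + ε / 2 ∈ C := hεC (by rw [Real.ball_eq_Ioo]; constructor <;> linarith)
    have h5 := csInf_le hb h3
    have h6 := le_csSup ha h4
    constructor <;> linarith
  have h3 : C = Ioo (sInf C) (sSup C) := Subset.antisymm h2 h1
  have h4 : sInf C < sSup C := by
    obtain ⟨x, hx⟩ := hne
    have := h2 hx
    exact this.1.trans this.2
  obtain ⟨φ⟩ := Ioo_homeo h4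
  exact ⟨(Homeomorph.setCongr h3).trans φ⟩

/-- open connected subsets of the line -/
theorem conn_homeo {C : Set ℝ} (ho : IsOpen C) (hc : IsPreconnected C) (hne : C.Nonempty) :
    Nonempty (↥C ≃ₜ ℝ) := by
  let Φ := OpenPartialHomeomorph.univBall (0 : ℝ) 1
  have hs : Φ.source = univ := OpenPartialHomeomorph.univBall_source _ _
  have ht : Φ.target = Metric.ball 0 1 := OpenPartialHomeomorph.univBall_target _ one_pos
  have hemb : IsOpenEmbedding Φ := Φ.isOpenEmbedding hs
  have himg : Φ '' C ⊆ Metric.ball 0 1 := by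
    rw [← ht]
    rintro _ ⟨x, _, rfl⟩
    exact Φ.map_source (by rw [hs]; trivial)
  rw [Real.ball_eq_Ioo] at himg
  have hbd : BddBelow (Φ '' C) := ⟨0 - 1, fun x hx => (himg hx).1.le⟩
  have hba : BddAbove (Φ '' C) := ⟨0 + 1, fun x hx => (himg hx).2.le⟩
  obtain ⟨φ⟩ := bounded_homeo (hemb.isOpenMap _ ho) (hc.image _ hemb.continuous.continuousOn)
    (hne.image _) hbd hba
  exact ⟨(hemb.toIsEmbedding.homeomorphImage C).trans φ⟩

/-- maps defined on an open partition are continuous -/
theorem glue_cont {X X' I I' : Type*} [TopologicalSpace X] [TopologicalSpace X'] (U : I → Set X)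
    (U' : I' → Set X') (hU : ∀ i, IsOpen (U i)) (ind : X → I) (hind : ∀ x, x ∈ U (ind x))
    (huniq : ∀ x i, x ∈ U i → i = ind x) (e : I → I') (φ : ∀ i, U i → U' (e i))
    (hφ : ∀ i, Continuous (φ i)) :
    Continuous (fun x => ((φ (ind x) ⟨x, hind x⟩ : U' (e (ind x))) : X')) := by
  rw [continuous_iff_continuousAt]
  intro x
  have h1 : ContinuousOn (fun y => ((φ (ind y) ⟨y, hind y⟩ : U' (e (ind y))) : X')) (U (ind x)) := by
    rw [continuousOn_iff_continuous_domRestrict]
    have h2 : (U (ind x)).domRestrict (fun y => ((φ (ind y) ⟨y, hind y⟩ : U' (e (ind y))) : X')) =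
        fun y => ((φ (ind x) y : U' (e (ind x))) : X') := by
      funext y
      rw [Set.domRestrict_apply]
      have h3 := huniq y (ind x) y.2
      have : ∀ (j : I) (hj : (y : X) ∈ U j), ind x = j →
          ((φ j ⟨y, hj⟩ : U' (e j)) : X') = ((φ (ind x) y : U' (e (ind x))) : X') := by
        intro j hj hij
        subst hij
        rfl
      exact this _ _ h3
    rw [h2]
    exact continuous_subtype_val.comp (hφ _)
  exact h1.continuousAt ((hU _).mem_nhds (hind x))

/-- gluing along open partitions -/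
theorem glue_homeo {X X' I I' : Type*} [TopologicalSpace X] [TopologicalSpace X'] (U : I → Set X)
    (U' : I' → Set X') (hU : ∀ i, IsOpen (U i)) (hU' : ∀ i, IsOpen (U' i))
    (hd : ∀ x, ∃! i, x ∈ U i) (hd' : ∀ x, ∃! i, x ∈ U' i) (e : I ≃ I')
    (φ : ∀ i, U i ≃ₜ U' (e i)) : Nonempty (X ≃ₜ X') := by
  choose ind hind huniq using hd
  choose ind' hind' huniq' using hd'
  -- the map and its inverse
  let F : X → X' := fun x => ((φ (ind x) ⟨x, hind x⟩ : U' (e (ind x))) : X')
  let ψ : ∀ j, U' j → U (e.symm j) := fun j y =>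
    (φ (e.symm j)).symm ⟨y, by rw [e.apply_symm_apply]; exact y.2⟩
  let G : X' → X := fun y => ((ψ (ind' y) ⟨y, hind' y⟩ : U (e.symm (ind' y))) : X)
  have hF : Continuous F := glue_cont U U' hU ind hind (fun x i h => huniq x i h) e (fun i => φ i)
    (fun i => (φ i).continuous)
  have hG : Continuous G := glue_cont U' U hU' ind' hind' (fun x i h => huniq' x i h) e.symm ψ
    (fun j => (φ (e.symm j)).symm.continuous.comp (continuous_subtype_val.subtype_mk _))
  have hFi : ∀ x, ind' (F x) = e (ind x) := fun x =>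
    (huniq' _ _ (φ (ind x) ⟨x, hind x⟩).2).symm
  have hGF : ∀ x, G (F x) = x := by
    intro x
    have : ∀ (j : I') (hj : F x ∈ U' j), j = e (ind x) → ((ψ j ⟨F x, hj⟩ : U (e.symm j)) : X) = x := by
      intro j hj hji
      subst hji
      simp only [ψ]
      have h2 : ∀ (i : I) (hi : F x ∈ U' (e i)), i = ind x → (((φ i).symm ⟨F x, hi⟩ : U i) : X) = x := by
        intro i hi hix
        subst hix
        have h3 : (⟨F x, hi⟩ : U' (e (ind x))) = φ (ind x) ⟨x, hind x⟩ := Subtype.ext rfl
        rw [h3, (φ (ind x)).symm_apply_apply]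
      exact h2 _ _ (e.symm_apply_apply _)
    exact this _ _ (hFi x)
  have hGi : ∀ y, ind (G y) = e.symm (ind' y) := fun y =>
    (huniq _ _ (ψ (ind' y) ⟨y, hind' y⟩).2).symm
  have hFG : ∀ y, F (G y) = y := by
    intro y
    have : ∀ (i : I) (hi : G y ∈ U i), i = e.symm (ind' y) → ((φ i ⟨G y, hi⟩ : U' (e i)) : X') = y := by
      intro i hi hij
      subst hij
      have h3 : (⟨G y, hi⟩ : U (e.symm (ind' y))) = ψ (ind' y) ⟨y, hind' y⟩ := Subtype.ext rfl
      rw [h3]
      simp only [ψ]
      rw [(φ _).apply_symm_apply]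
    exact this _ _ (hGi y)
  exact ⟨{ toFun := F, invFun := G, left_inv := hGF, right_inv := hFG,
           continuous_toFun := hF, continuous_invFun := hG }⟩

/-- the invariant of a space -/
noncomputable def ncomp (X : Type*) [TopologicalSpace X] : ℕ :=
  open Classical in if Finite (ConnectedComponents X) then Nat.card (ConnectedComponents X) + 1 else 0

theorem ncomp_congr {X X' : Type*} [TopologicalSpace X] [TopologicalSpace X'] (h : X ≃ₜ X') :
    ncomp X = ncomp X' := by
  have e : ConnectedComponents X ≃ ConnectedComponents X' :=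
    { toFun := h.continuous.connectedComponentsMap
      invFun := h.symm.continuous.connectedComponentsMap
      left_inv := by
        intro c
        obtain ⟨x, rfl⟩ := ConnectedComponents.surjective_coe c
        simp [Continuous.connectedComponentsMap]
      right_inv := by
        intro c
        obtain ⟨x, rfl⟩ := ConnectedComponents.surjective_coe c
        simp [Continuous.connectedComponentsMap] }
  unfold ncomp
  by_cases h1 : Finite (ConnectedComponents X)
  · rw [if_pos h1, if_pos (e.finite_iff.1 h1), Nat.card_congr e]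
  · rw [if_neg h1, if_neg (fun h2 => h1 (e.finite_iff.2 h2))]

/-- open subsets of the line with the same number of components are homeomorphic -/
theorem line_classes {O O' : Set ℝ} (hO : IsOpen O) (hO' : IsOpen O') (h : ncomp O = ncomp O') :
    Nonempty (O ≃ₜ O') := by
  -- facts about one open set
  have facts : ∀ {O : Set ℝ}, IsOpen O → (∀ i : ConnectedComponents O,
      IsOpen (((↑) : O → ConnectedComponents O) ⁻¹' {i}) ∧
      Nonempty (↥(((↑) : O → ConnectedComponents O) ⁻¹' {i}) ≃ₜ ℝ)) ∧
      Countable (ConnectedComponents O) := by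
    intro O hO
    have : LocallyConnectedSpace O := hO.isOpenEmbedding_subtypeVal.locallyConnectedSpace
    have h1 : ∀ i : ConnectedComponents O, IsOpen (((↑) : O → ConnectedComponents O) ⁻¹' {i}) := by
      intro i
      obtain ⟨x, rfl⟩ := ConnectedComponents.surjective_coe i
      rw [connectedComponents_preimage_singleton]
      exact isOpen_connectedComponent
    refine ⟨fun i => ⟨h1 i, ?_⟩, ?_⟩
    · obtain ⟨x, rfl⟩ := ConnectedComponents.surjective_coe i
      have h2 := h1 (x : ConnectedComponents O)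
      rw [connectedComponents_preimage_singleton] at h2 ⊢
      have h3 : IsOpen (((↑) : O → ℝ) '' connectedComponent x) := hO.isOpenMap_subtype_val _ h2
      have h4 : IsPreconnected (((↑) : O → ℝ) '' connectedComponent x) :=
        isPreconnected_connectedComponent.image _ continuous_subtype_val.continuousOn
      obtain ⟨φ⟩ := conn_homeo h3 h4 ⟨_, ⟨x, mem_connectedComponent, rfl⟩⟩
      exact ⟨(IsEmbedding.subtypeVal.homeomorphImage _).trans φ⟩
    · have : DiscreteTopology (ConnectedComponents O) := by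
        rw [discreteTopology_iff_isOpen_singleton]
        intro i
        exact (ConnectedComponents.isQuotientMap_coe.isOpen_preimage).1 (h1 i)
      have : SecondCountableTopology (ConnectedComponents O) := by
        apply ConnectedComponents.isQuotientMap_coe.secondCountableTopology
        intro s hs
        exact isOpen_discrete _
      exact countable_of_Lindelof_of_discrete
  obtain ⟨f1, c1⟩ := facts hO
  obtain ⟨f2, c2⟩ := facts hO'
  have hcard : Nonempty (ConnectedComponents O ≃ ConnectedComponents O') := by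
    unfold ncomp at h
    by_cases h1 : Finite (ConnectedComponents O)
    · by_cases h2 : Finite (ConnectedComponents O')
      · rw [if_pos h1, if_pos h2] at h
        exact Finite.card_eq.1 (by omega)
      · rw [if_pos h1, if_neg h2] at h
        omega
    · by_cases h2 : Finite (ConnectedComponents O')
      · rw [if_neg h1, if_pos h2] at h
        omega
      · rw [not_finite_iff_infinite] at h1 h2
        exact ⟨(nonempty_denumerable (ConnectedComponents O)).some.eqv.trans
          (nonempty_denumerable (ConnectedComponents O')).some.eqv.symm⟩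
  obtain ⟨e⟩ := hcard
  exact glue_homeo (fun i => ((↑) : O → ConnectedComponents O) ⁻¹' {i})
    (fun i => ((↑) : O' → ConnectedComponents O') ⁻¹' {i}) (fun i => (f1 i).1) (fun i => (f2 i).1)
    (fun x => ⟨_, rfl, fun y hy => hy.symm⟩) (fun x => ⟨_, rfl, fun y hy => hy.symm⟩) e
    (fun i => (f1 i).2.some.trans (f2 (e i)).2.some.symm)

/-- a proper open subset of the circle is an open subset of the line -/
theorem circle_open (K : NonemptyCompacts (Sph 1)) :
    ∃ O : Set ℝ, IsOpen O ∧ Nonempty (↥((K : Set (Sph 1))ᶜ) ≃ₜ O) := by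
  obtain ⟨p, hp⟩ := K.nonempty
  obtain ⟨φ⟩ := punctured 1 p
  let ψ : ({p}ᶜ : Set (Sph 1)) ≃ₜ ℝ := φ.trans (Homeomorph.funUnique (Fin 1) ℝ)
  have hsub : ((K : Set (Sph 1))ᶜ) ⊆ {p}ᶜ := compl_subset_compl.2 (singleton_subset_iff.2 hp)
  have hopen : IsOpen ((K : Set (Sph 1))ᶜ) := K.isCompact.isClosed.isOpen_compl
  let V : Set ({p}ᶜ : Set (Sph 1)) := ((↑) : ({p}ᶜ : Set (Sph 1)) → Sph 1) ⁻¹' ((K : Set (Sph 1))ᶜ)
  have hV : IsOpen V := hopen.preimage continuous_subtype_val
  have himg : ((↑) : ({p}ᶜ : Set (Sph 1)) → Sph 1) '' V = ((K : Set (Sph 1))ᶜ) := by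
    rw [Subtype.image_preimage_coe, inter_eq_self_of_subset_right hsub]
  refine ⟨ψ '' V, ψ.isOpenMap _ hV, ⟨?_⟩⟩
  exact ((Homeomorph.setCongr himg.symm).trans
    (IsEmbedding.subtypeVal.homeomorphImage V).symm).trans (ψ.image V)

theorem circle : CircleClasses := by
  refine ⟨fun K => ncomp ↥((K : Set (Sph 1))ᶜ), fun K L h => ?_⟩
  obtain ⟨O, hO, ⟨φ⟩⟩ := circle_open K
  obtain ⟨O', hO', ⟨φ'⟩⟩ := circle_open L
  simp only at h
  rw [ncomp_congr φ, ncomp_congr φ'] at h
  obtain ⟨ψ⟩ := line_classes hO hO' h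
  exact ⟨(φ.trans ψ).trans φ'.symm⟩

end Pool.Agent.Work.MP_252c1e_lc
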