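import Pool.Agent.Work.MP_252c1e_lc.A1
import Pool.Agent.Work.MP_252c1e_lc.A2
import Pool.Agent.Work.MP_252c1e_lc.A3
import Pool.Agent.Work.MP_252c1e_lc.B1
import Pool.Agent.Work.MP_252c1e_lc.B2Main
import Pool.Agent.Work.MP_252c1e_lc.T1
import Pool.Agent.Work.MP_252c1e_lc.T2
import Pool.Agent.Work.MP_252c1e_lc.T3
import Pool.Agent.Work.MP_252c1e_lc.Source2
import Pool.Agent.Work.MP_252c1e_lc_h31.C3
import Pool.Agent.Work.MP_252c1e_lc_h31.C4

/-!
# MP_252c1e_lc, Q2: final assembly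
-/

open Set Topology TopologicalSpace

namespace Pool.Agent.Work.MP_252c1e_lc

theorem metrizable_sph (n : ℕ) : MetrizableSpace (Sph n) := by
  let Ψ : Sph n ≃ₜ Metric.sphere (0 : EuclideanSpace ℝ (Fin (n + 1))) 1 :=
    onePointEquivSphereOfFinrankEq (ι := Fin (n + 1)) (V := EuclideanSpace ℝ (Fin n)) (by simp)
  exact Ψ.isEmbedding.metrizableSpace

/-- Block C for the spheres, with all hypotheses discharged. -/
theorem source (n : ℕ) : ∃ (lab : ℕ → ℕ) (val : NonemptyCompacts (Sph n) → Set (List ℕ)),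
    (∀ K, IsTree (val K)) ∧ (∀ K, ∀ s ∈ val K, {a | s ++ [a] ∈ val K}.Infinite) ∧
    (∀ s, IsOpen {K | s ∈ val K}) ∧
    (∀ K L : NonemptyCompacts (Sph n),
      Nonempty (↥((K : Set (Sph n))ᶜ) ≃ₜ ↥((L : Set (Sph n))ᶜ)) →
      ∃ (f : ℕ → ℕ) (A : Set ℕ), InjOn f A ∧ (∀ s ∈ val K, ∀ a ∈ s, a ∈ A) ∧
        (∀ a ∈ A, lab (f a) = lab a) ∧ val L = List.map f '' val K) ∧
    (∀ K L : NonemptyCompacts (Sph n), (∃ B, Bisim lab (val K) (val L) B) →
      Nonempty (↥((K : Set (Sph n))ᶜ) ≃ₜ ↥((L : Set (Sph n))ᶜ))) := by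
  have := metrizable_sph n
  exact sourceThm (ekX (ekEuclid_of_handle handleLemma)) pdThm n (Sph n) (punctured n)

/-! ### Trees with markers -/

theorem isTree_plus {lab : ℕ → ℕ} {val : Set (List ℕ)} (h : IsTree val) :
    IsTree (plus lab val) := by
  refine ⟨⟨[], h.nil, Or.inl rfl⟩, ?_⟩
  rintro l a ⟨s, hs, hl | ⟨k, w, hl, hw⟩⟩
  · rcases List.eq_nil_or_concat' s with rfl | ⟨s₀, b, rfl⟩
    · simp at hl
    · rw [List.map_append] at hl
      obtain ⟨h1, h2⟩ := List.append_inj' hl rfl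
      exact ⟨s₀, h.init _ _ hs, Or.inl h1⟩
  · rcases List.eq_nil_or_concat' w with rfl | ⟨w₀, b, rfl⟩
    · obtain ⟨h1, h2⟩ := List.append_inj' hl rfl
      exact ⟨s, hs, Or.inl h1⟩
    · have hl' : l ++ [a] = (List.map (2 * ·) s ++ (2 * k + 1) :: w₀) ++ [b] := by
        simpa using hl
      obtain ⟨h1, h2⟩ := List.append_inj' hl' rfl
      refine ⟨s, hs, Or.inr ⟨k, w₀, h1, ?_⟩⟩
      rcases hw with hw | ⟨j, w', hw⟩ | ⟨j, w', hw, hc⟩
      · simp at hw
      · cases w₀ with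
        | nil => exact Or.inl rfl
        | cons c w₀ =>
          simp only [List.cons_append, List.cons.injEq] at hw
          exact Or.inr (Or.inl ⟨j, w₀, by rw [hw.1]⟩)
      · cases w₀ with
        | nil => exact Or.inl rfl
        | cons c w₀ =>
          simp only [List.cons_append, List.cons.injEq] at hw
          refine Or.inr (Or.inr ⟨j, w₀, by rw [hw.1], ?_⟩)
          rw [← hw.2] at hc
          simp at hc
          omega

theorem isOpen_mem_plus {Z : Type} [TopologicalSpace Z] {lab : ℕ → ℕ} {val : Z → Set (List ℕ)}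
    (h : ∀ s, IsOpen {z | s ∈ val z}) (l : List ℕ) : IsOpen {z | l ∈ plus lab (val z)} := by
  have : {z | l ∈ plus lab (val z)} = ⋃ s, ⋃ (_ : l = s.map (2 * ·) ∨
      ∃ k w, l = s.map (2 * ·) ++ (2 * k + 1) :: w ∧ mark (ncode lab s) w),
      {z | s ∈ val z} := by
    ext z
    simp only [mem_iUnion]
    constructor
    · rintro ⟨s, hs, hl⟩
      exact ⟨s, hl, hs⟩
    · rintro ⟨s, hl, hs⟩
      exact ⟨s, hs, hl⟩
  rw [this]
  exact isOpen_iUnion fun s => isOpen_iUnion fun _ => h s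

/-- The compact set of a labelled tree. -/
noncomputable def tc (T : Set (List ℕ)) (h : [] ∈ T) : NonemptyCompacts ℝ :=
  ⟨⟨tsp T, (tspBasic T).1⟩, (tspBasic T).2.1 h⟩

@[simp] theorem coe_tc (T : Set (List ℕ)) (h : [] ∈ T) : (tc T h : Set ℝ) = tsp T := rfl

theorem continuous_axis (m : ℕ) : Continuous (axis m) := (isEmbedding_axis m).continuous

/-- The target set. -/
noncomputable def tgt (m : ℕ) (lab : ℕ → ℕ) (v : Set (List ℕ)) (h : IsTree v) :
    NonemptyCompacts (Sph (m + 1)) :=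
  (tc (plus lab v) (isTree_plus h).nil).map (axis m) (continuous_axis m)

theorem coe_tgt (m : ℕ) (lab : ℕ → ℕ) (v : Set (List ℕ)) (h : IsTree v) :
    (tgt m lab v h : Set (Sph (m + 1))) = axis m '' tsp (plus lab v) := by
  simp [tgt]

theorem decode {m : ℕ} {lab : ℕ → ℕ} {v v' : Set (List ℕ)} (h : IsTree v) (h' : IsTree v')
    (hi : ∀ s ∈ v, {a | s ++ [a] ∈ v}.Infinite) (hi' : ∀ s ∈ v', {a | s ++ [a] ∈ v'}.Infinite)
    (hh : HomeoOpen (m + 2) (tgt (m + 1) lab v h) (tgt (m + 1) lab v' h')) :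
    ∃ B, Bisim lab v v' B := by
  unfold HomeoOpen at hh
  rw [coe_tgt, coe_tgt] at hh
  have h1 := ends m _ _ (tspBasic _).1 (tspBasic _).1 (tspBasic _).2.2 (tspBasic _).2.2 hh
  exact treeDecode lab v v' h h' hi hi' h1

/-- Positive part. -/
theorem red_of_two_le (n m : ℕ) : BorelRed (HomeoOpen n) (HomeoOpen (m + 2)) := by
  obtain ⟨lab, val, hT, hI, hO, hF, hB⟩ := source n
  refine ⟨fun K => tgt (m + 1) lab (val K) (hT K), ?_, fun K L => ⟨fun h => ?_, fun h => ?_⟩⟩
  · have h1 : @Measurable _ (NonemptyCompacts ℝ) (borel _) (borel _)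
        (fun K => tc (plus lab (val K)) (isTree_plus (hT K)).nil) :=
      tspMeasurable (NonemptyCompacts (Sph n)) (fun K => plus lab (val K))
        (fun K => isTree_plus (hT K))
        (fun s => MeasurableSpace.measurableSet_generateFrom (isOpen_mem_plus hO s)) _
        (fun K => coe_tc _ _)
    have h2 : @Measurable _ (NonemptyCompacts (Sph (m + 1 + 1))) (borel _) (borel _)
        (fun K : NonemptyCompacts ℝ => K.map (axis (m + 1)) (continuous_axis (m + 1))) :=
      (continuous_axis (m + 1)).nonemptyCompacts_map.borel_measurable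
    exact h2.comp h1
  · obtain ⟨f, A, hf, hA, hl, hv⟩ := hF K L h
    have h1 := treeIso lab (val K) (hT K) f A hf hA hl
    unfold HomeoOpen
    rw [coe_tgt, coe_tgt, hv]
    exact klee m _ _ (tspBasic _).1 (tspBasic _).1 h1
  · exact hB K L (decode (hT K) (hT L) (hI K) (hI L) h)

/-! ### The negative part -/

/-- The tree of all sequences with labels in `A`. -/
def vA (A : Set ℕ) : Set (List ℕ) := {s | ∀ a ∈ s, (Nat.unpair a).1 ∈ A}

theorem isTree_vA (A : Set ℕ) : IsTree (vA A) :=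
  ⟨by simp [vA], fun l a h b hb => h b (List.mem_append_left _ hb)⟩

theorem snoc_mem_vA {A : Set ℕ} {s : List ℕ} {a : ℕ} :
    s ++ [a] ∈ vA A ↔ s ∈ vA A ∧ (Nat.unpair a).1 ∈ A := by
  constructor
  · intro h
    exact ⟨(isTree_vA A).init _ _ h, h a (by simp)⟩
  · rintro ⟨h, ha⟩ b hb
    rw [List.mem_append, List.mem_singleton] at hb
    rcases hb with hb | rfl
    · exact h b hb
    · exact ha

theorem infinite_vA {A : Set ℕ} {x : ℕ} (hx : x ∈ A) :
    ∀ s ∈ vA A, {a | s ++ [a] ∈ vA A}.Infinite := by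
  intro s hs
  have : Function.Injective (fun k => Nat.pair x k) := by
    intro k k' h
    have := congrArg (fun z => (Nat.unpair z).2) h
    simpa using this
  refine (infinite_range_of_injective this).mono ?_
  rintro _ ⟨k, rfl⟩
  exact snoc_mem_vA.2 ⟨hs, by simpa using hx⟩

theorem subset_of_bisim {A A' : Set ℕ} {B : List ℕ → List ℕ → Prop}
    (hB : Bisim (fun a => (Nat.unpair a).1) (vA A) (vA A') B) : A ⊆ A' := by
  intro x hx
  have hinj : Function.Injective (fun k => Nat.pair x k) := by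
    intro k k' h
    have := congrArg (fun z => (Nat.unpair z).2) h
    simpa using this
  obtain ⟨k, hk⟩ := PD.exists_notMem_of_cofinite (hB.forth [] [] hB.root) hinj
  obtain ⟨b, hb1, hb2, _⟩ := hk (snoc_mem_vA.2 ⟨(isTree_vA A).nil, by simpa using hx⟩)
  have h1 := (snoc_mem_vA.1 hb1).2
  have h2 : (Nat.unpair b).1 = x := by simpa using hb2
  rwa [h2] at h1

theorem not_red_one (n : ℕ) : ¬ BorelRed (HomeoOpen (n + 2)) (HomeoOpen 1) := by
  rintro ⟨f, _, hf⟩
  obtain ⟨c, hc⟩ := circle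
  let S : Set ℕ → Set ℕ := fun A => insert 0 (Nat.succ '' A)
  have hS : ∀ A A', S A = S A' → A = A' := by
    intro A A' h
    ext x
    have : Nat.succ x ∈ S A ↔ Nat.succ x ∈ S A' := by rw [h]
    simpa [S] using this
  let K : Set ℕ → NonemptyCompacts (Sph (n + 2)) := fun A =>
    tgt (n + 1) (fun a => (Nat.unpair a).1) (vA (S A)) (isTree_vA _)
  refine Function.cantor_injective (fun A => c (f (K A))) ?_
  intro A A' h
  have h1 : HomeoOpen 1 (f (K A)) (f (K A')) := hc _ _ h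
  have h2 : HomeoOpen (n + 2) (K A) (K A') := (hf _ _).2 h1
  obtain ⟨B, hB⟩ := decode (isTree_vA _) (isTree_vA _)
    (infinite_vA (x := 0) (mem_insert _ _)) (infinite_vA (x := 0) (mem_insert _ _)) h2
  exact hS _ _ (Subset.antisymm (subset_of_bisim hB) (subset_of_bisim hB.symm))

/-- The final theorem. -/
theorem mainThm : MainThm := by
  intro n m hn hm
  constructor
  · intro h
    by_contra hc
    rw [not_or] at hc
    obtain ⟨n', rfl⟩ : ∃ n', n = n' + 2 := ⟨n - 2, by omega⟩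
    obtain rfl : m = 1 := by omega
    exact not_red_one n' h
  · intro h
    by_cases h2 : 2 ≤ m
    · obtain ⟨m', rfl⟩ : ∃ m', m = m' + 2 := ⟨m - 2, by omega⟩
      exact red_of_two_le n m'
    · obtain rfl : n = 1 := by omega
      obtain rfl : m = 1 := by omega
      exact ⟨id, measurable_id, fun _ _ => Iff.rfl⟩

end Pool.Agent.Work.MP_252c1e_lc
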