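import Pool.Agent.Work.MP_252c1e_lc.Defs

/-!
# MP_252c1e_lc, Q2: exact statements of the blocks (see BLUEPRINT.md)

Each block proves a theorem of the stated type; there is no `sorry` here, the statements are
definitions of propositions.
-/

open Set Topology TopologicalSpace

namespace Pool.Agent.Work.MP_252c1e_lc

/-! ## Block A: tree spaces -/

/-- A1. -/
def TspBasic : Prop := ∀ T : Set (List ℕ),
  IsCompact (tsp T) ∧ ([] ∈ T → (tsp T).Nonempty) ∧ interior (tsp T) = ∅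

/-- A2. A letterwise isomorphism of labelled trees gives a homeomorphism of tree spaces. -/
def TreeIso : Prop := ∀ (lab : ℕ → ℕ) (val : Set (List ℕ)), IsTree val →
  ∀ (f : ℕ → ℕ) (A : Set ℕ), InjOn f A → (∀ s ∈ val, ∀ a ∈ s, a ∈ A) →
  (∀ a ∈ A, lab (f a) = lab a) →
  Nonempty (tsp (plus lab val) ≃ₜ tsp (plus lab (List.map f '' val)))

/-- A3. A homeomorphism of tree spaces gives a back-and-forth relation. -/
def TreeDecode : Prop := ∀ (lab : ℕ → ℕ) (val val' : Set (List ℕ)), IsTree val → IsTree val' →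
  (∀ s ∈ val, {a | s ++ [a] ∈ val}.Infinite) → (∀ s ∈ val', {a | s ++ [a] ∈ val'}.Infinite) →
  Nonempty (tsp (plus lab val) ≃ₜ tsp (plus lab val')) →
  ∃ B, Bisim lab val val' B

/-- A4. `T ↦ tsp T` is Borel. -/
def TspMeasurable : Prop := ∀ (Z : Type) [TopologicalSpace Z] (T : Z → Set (List ℕ)),
  (∀ z, IsTree (T z)) → (∀ s, @MeasurableSet Z (borel Z) {z | s ∈ T z}) →
  ∀ F : Z → NonemptyCompacts ℝ, (∀ z, (F z : Set ℝ) = tsp (T z)) →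
  @Measurable Z (NonemptyCompacts ℝ) (borel Z) (borel _) F

/-! ## Block T: the target sphere -/

/-- The embedding of the line in `S^(m+1)` as a coordinate axis of `ℝ^(m+1)`. -/
noncomputable def axis (m : ℕ) (x : ℝ) : Sph (m + 1) :=
  ((EuclideanSpace.single (0 : Fin (m + 1)) x : EuclideanSpace ℝ (Fin (m + 1))) :
    OnePoint (EuclideanSpace ℝ (Fin (m + 1))))

/-- T1 (Klee's trick). -/
def KleeTrick : Prop := ∀ (m : ℕ) (K K' : Set ℝ), IsCompact K → IsCompact K' →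
  Nonempty (K ≃ₜ K') → Nonempty (↥((axis (m + 1) '' K)ᶜ) ≃ₜ ↥((axis (m + 1) '' K')ᶜ))

/-- T2 (ends). -/
def EndsThm : Prop := ∀ (m : ℕ) (K K' : Set ℝ), IsCompact K → IsCompact K' →
  interior K = ∅ → interior K' = ∅ →
  Nonempty (↥((axis (m + 1) '' K)ᶜ) ≃ₜ ↥((axis (m + 1) '' K')ᶜ)) → Nonempty (K ≃ₜ K')

/-- T3: countably many homeomorphism types of proper open subsets of the circle. -/
def CircleClasses : Prop :=
  ∃ c : NonemptyCompacts (Sph 1) → ℕ, ∀ K L, c K = c L → HomeoOpen 1 K L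

/-! ## Block B: the Edwards-Kirby stability theorem in `ℝᴺ` -/

/-- B1 (handle lemma). `r` depends on `L, R` only; `δ` also on `ε`. `W` may be zero-dimensional. -/
def HandleLemma : Prop := ∀ (Y W : Type) [NormedAddCommGroup Y] [NormedSpace ℝ Y]
  [FiniteDimensional ℝ Y] [NormedAddCommGroup W] [NormedSpace ℝ W] [FiniteDimensional ℝ W]
  (L R : ℝ), 0 < L → 0 < R → ∃ r, 0 < r ∧ r < R ∧ ∀ ε, 0 < ε → ∃ δ, 0 < δ ∧
  ∀ h : Y × W → Y × W, OE h (univ ×ˢ Metric.ball 0 R) →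
    (∀ z ∈ (univ ×ˢ Metric.ball 0 R : Set (Y × W)), dist (h z) z < δ) →
    (∀ z ∈ (univ ×ˢ Metric.ball 0 R : Set (Y × W)), L ≤ ‖z.1‖ → h z = z) →
    ∃ g : Y × W ≃ₜ Y × W, (∀ z, dist (g z) z ≤ ε) ∧
      (∀ z : Y × W, L ≤ ‖z.1‖ ∨ R ≤ ‖z.2‖ → g z = z) ∧
      (∀ z : Y × W, ‖z.2‖ < r → g z = h z)

/-- B2 (stability of embeddings in `ℝᴺ`). -/
def EKEuclid : Prop := ∀ (N : ℕ) (C O : Set (Fin N → ℝ)), IsCompact C → IsOpen O → C ⊆ O →
  ∃ δ, 0 < δ ∧ ∀ h : (Fin N → ℝ) → (Fin N → ℝ), OE h O → (∀ x ∈ O, dist (h x) x < δ) →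
    ∃ g : (Fin N → ℝ) ≃ₜ (Fin N → ℝ), (∃ K, IsCompact K ∧ K ⊆ O ∧ ∀ x, x ∉ K → g x = x) ∧
      ∃ V, IsOpen V ∧ C ⊆ V ∧ V ⊆ O ∧ ∀ x ∈ V, g x = h x

/-! ## Block C: the source -/

/-- Every open subset of a punctured-Euclidean compact space is coded by a labelled tree. -/
def SourceThm : Prop := ∀ (n : ℕ) (X : Type) [TopologicalSpace X] [CompactSpace X]
  [MetrizableSpace X], (∀ q : X, Nonempty (({q}ᶜ : Set X) ≃ₜ (Fin n → ℝ))) →
  ∃ (lab : ℕ → ℕ) (val : NonemptyCompacts X → Set (List ℕ)),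
    (∀ K, IsTree (val K)) ∧ (∀ K, ∀ s ∈ val K, {a | s ++ [a] ∈ val K}.Infinite) ∧
    (∀ s, IsOpen {K | s ∈ val K}) ∧
    (∀ K L : NonemptyCompacts X, Nonempty (↥((K : Set X)ᶜ) ≃ₜ ↥((L : Set X)ᶜ)) →
      ∃ (f : ℕ → ℕ) (A : Set ℕ), InjOn f A ∧ (∀ s ∈ val K, ∀ a ∈ s, a ∈ A) ∧
        (∀ a ∈ A, lab (f a) = lab a) ∧ val L = List.map f '' val K) ∧
    (∀ K L : NonemptyCompacts X, (∃ B, Bisim lab (val K) (val L) B) →
      Nonempty (↥((K : Set X)ᶜ) ≃ₜ ↥((L : Set X)ᶜ)))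

/-- The final theorem. -/
def MainThm : Prop := ∀ n m : ℕ, 1 ≤ n → 1 ≤ m →
  (BorelRed (HomeoOpen n) (HomeoOpen m) ↔ n = 1 ∨ 2 ≤ m)

end Pool.Agent.Work.MP_252c1e_lc
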