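import Pool.Agent.Work.MP_252c1e_lc.Eqv

/-!
# Block C: letters and the tree `val`
-/

open Set Topology TopologicalSpace

namespace Pool.Agent.Work.MP_252c1e_lc

/-- The letter with given components. -/
def mkL (p i j q i' j' k : ℕ) : ℕ :=
  Nat.pair (Nat.pair p (Nat.pair i (Nat.pair j q))) (Nat.pair i' (Nat.pair j' k))

/-- The label of a letter: piece, move, piece. -/
def slab (a : ℕ) : ℕ := (Nat.unpair a).1

/-- Components of a letter. -/
def lP (a : ℕ) : ℕ := (Nat.unpair (slab a)).1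
/-- Components of a letter. -/
def lI (a : ℕ) : ℕ := (Nat.unpair (Nat.unpair (slab a)).2).1
/-- Components of a letter. -/
def lJ (a : ℕ) : ℕ := (Nat.unpair (Nat.unpair (Nat.unpair (slab a)).2).2).1
/-- Components of a letter. -/
def lQ (a : ℕ) : ℕ := (Nat.unpair (Nat.unpair (Nat.unpair (slab a)).2).2).2
/-- Components of a letter. -/
def mI (a : ℕ) : ℕ := (Nat.unpair (Nat.unpair a).2).1
/-- Components of a letter. -/
def mJ (a : ℕ) : ℕ := (Nat.unpair (Nat.unpair (Nat.unpair a).2).2).1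
/-- Components of a letter. -/
def mK (a : ℕ) : ℕ := (Nat.unpair (Nat.unpair (Nat.unpair a).2).2).2

section
variable (p i j q i' j' k : ℕ)
@[simp] theorem slab_mkL : slab (mkL p i j q i' j' k) = Nat.pair p (Nat.pair i (Nat.pair j q)) := by
  simp [slab, mkL]
@[simp] theorem lP_mkL : lP (mkL p i j q i' j' k) = p := by simp [lP]
@[simp] theorem lI_mkL : lI (mkL p i j q i' j' k) = i := by simp [lI]
@[simp] theorem lJ_mkL : lJ (mkL p i j q i' j' k) = j := by simp [lJ]
@[simp] theorem lQ_mkL : lQ (mkL p i j q i' j' k) = q := by simp [lQ]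
@[simp] theorem mI_mkL : mI (mkL p i j q i' j' k) = i' := by simp [mI, mkL]
@[simp] theorem mJ_mkL : mJ (mkL p i j q i' j' k) = j' := by simp [mJ, mkL]
@[simp] theorem mK_mkL : mK (mkL p i j q i' j' k) = k := by simp [mK, mkL]
end

theorem mkL_injective (p i j q i' j' : ℕ) : Function.Injective (mkL p i j q i' j') := by
  intro k k' h
  have := congrArg mK h
  simpa using this

theorem lP_congr {a b : ℕ} (h : slab a = slab b) : lP a = lP b := by simp [lP, h]
theorem lI_congr {a b : ℕ} (h : slab a = slab b) : lI a = lI b := by simp [lI, h]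
theorem lJ_congr {a b : ℕ} (h : slab a = slab b) : lJ a = lJ b := by simp [lJ, h]
theorem lQ_congr {a b : ℕ} (h : slab a = slab b) : lQ a = lQ b := by simp [lQ, h]

theorem slab_eq (a : ℕ) : slab a = Nat.pair (lP a) (Nat.pair (lI a) (Nat.pair (lJ a) (lQ a))) := by
  simp [lP, lI, lJ, lQ]

variable {X : Type} [MetricSpace X]

namespace PD

variable (D : PD X)

/-- The first piece of a letter. -/
def P (a : ℕ) : Set X := D.Pc (lP a)
/-- The second piece of a letter. -/
def Q (a : ℕ) : Set X := D.Pc (lQ a)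
/-- The move of a letter. -/
def u (a : ℕ) : X → X := D.em (lI a) (lJ a)
/-- The embedding of a letter. -/
def f (a : ℕ) : X → X := D.em (mI a) (mJ a)

/-- The letter is admissible for the open set `U`. -/
def OKL (U : Set X) (a : ℕ) : Prop :=
  D.P a ⊆ D.Pc (lI a) ∧ MapsTo (D.u a) (D.P a) (D.Q a) ∧ D.Q a ⊆ D.Pc (mI a) ∧
    MapsTo (D.f a) (D.Q a) U

/-- The letter `a` may follow the letter `b`. -/
def Nx (U : Set X) (b a : ℕ) : Prop :=
  lP a = lQ b ∧ Eqv U (D.Q b) (D.f a ∘ D.u a) (D.f b)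

/-- The tree of the open set `U`. -/
def val (U : Set X) : Set (List ℕ) :=
  {s | (∀ a ∈ s, D.OKL U a) ∧ (∀ a ∈ s.head?, lP a = 0) ∧ s.IsChain (D.Nx U)}

variable {D} {U U' : Set X} {a b : ℕ}

theorem OKL.oen_u (h : D.OKL U a) : OEn (D.u a) (D.P a) := (D.oe _ _).mono h.1

theorem OKL.oen_f (h : D.OKL U a) : OEn (D.f a) (D.Q a) := (D.oe _ _).mono h.2.2.1

theorem OKL.oen_fu (h : D.OKL U a) : OEn (D.f a ∘ D.u a) (D.P a) :=
  h.oen_f.comp h.oen_u h.2.1

theorem OKL.mapsTo_fu (h : D.OKL U a) : MapsTo (D.f a ∘ D.u a) (D.P a) U :=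
  h.2.2.2.comp h.2.1

theorem isTree_val : IsTree (D.val U) := by
  refine ⟨⟨by simp, by simp, by simp⟩, ?_⟩
  rintro l a ⟨h1, h2, h3⟩
  refine ⟨fun b hb => h1 b (List.mem_append_left _ hb), fun b hb => h2 b ?_, h3.left_of_append⟩
  cases l with
  | nil => simp at hb
  | cons c l => simpa using hb

theorem nil_mem_val : [] ∈ D.val U := isTree_val.nil

/-- The condition for the next letter. -/
def Nxt (D : PD X) (U : Set X) (s : List ℕ) (a : ℕ) : Prop :=
  (s = [] ∧ lP a = 0) ∨ ∃ s₀ b, s = s₀ ++ [b] ∧ D.Nx U b a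

theorem mem_val_snoc {s : List ℕ} :
    s ++ [a] ∈ D.val U ↔ s ∈ D.val U ∧ D.OKL U a ∧ D.Nxt U s a := by
  constructor
  · intro h
    refine ⟨isTree_val.init _ _ h, h.1 a (by simp), ?_⟩
    rcases List.eq_nil_or_concat' s with rfl | ⟨s₀, b, rfl⟩
    · exact Or.inl ⟨rfl, h.2.1 a (by simp)⟩
    · refine Or.inr ⟨s₀, b, rfl, ?_⟩
      have h3 := h.2.2
      rw [List.append_assoc] at h3
      have h4 := h3.right_of_append
      simpa using h4
  · rintro ⟨h, ha, hn⟩
    refine ⟨?_, ?_, ?_⟩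
    · intro b hb
      rw [List.mem_append, List.mem_singleton] at hb
      rcases hb with hb | rfl
      · exact h.1 b hb
      · exact ha
    · intro b hb
      rcases hn with ⟨rfl, h0⟩ | ⟨s₀, c, rfl, _⟩
      · simp at hb; rw [← hb]; exact h0
      · refine h.2.1 b ?_
        cases s₀ with
        | nil => simpa using hb
        | cons d l => simpa using hb
    · rcases hn with ⟨rfl, h0⟩ | ⟨s₀, c, rfl, hc⟩
      · simp
      · rw [List.isChain_append]
        refine ⟨h.2.2, by simp, ?_⟩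
        intro x hx y hy
        simp at hx hy
        rw [← hx, ← hy]; exact hc

theorem okl_zero (k : ℕ) : D.OKL U (mkL 0 0 0 0 0 0 k) := by
  refine ⟨?_, ?_, ?_, ?_⟩ <;> simp [P, Q, D.zero, mapsTo_empty]

theorem infinite_children {s : List ℕ} (hs : s ∈ D.val U) : {a | s ++ [a] ∈ D.val U}.Infinite := by
  rcases List.eq_nil_or_concat' s with rfl | ⟨s₀, b, rfl⟩
  · refine (infinite_range_of_injective (mkL_injective 0 0 0 0 0 0)).mono ?_
    rintro _ ⟨k, rfl⟩
    exact mem_val_snoc.2 ⟨hs, okl_zero k, Or.inl ⟨rfl, by simp⟩⟩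
  · have hb : D.OKL U b := hs.1 b (by simp)
    refine (infinite_range_of_injective
      (mkL_injective (lQ b) (mI b) 0 (lQ b) (mI b) (mJ b))).mono ?_
    rintro _ ⟨k, rfl⟩
    refine mem_val_snoc.2 ?_
    have hu : D.u (mkL (lQ b) (mI b) 0 (lQ b) (mI b) (mJ b) k) = _root_.id := by
      simp [u, D.id]
    have hf : D.f (mkL (lQ b) (mI b) 0 (lQ b) (mI b) (mJ b) k) = D.f b := by
      simp [f]
    refine ⟨hs, ⟨?_, ?_, ?_, ?_⟩, Or.inr ⟨s₀, b, rfl, by simp, ?_⟩⟩
    · simpa [P, Q] using hb.2.2.1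
    · rw [hu]; intro x hx; simpa [P, Q] using hx
    · simpa [Q] using hb.2.2.1
    · rw [hf]; simpa [Q] using hb.2.2.2
    · rw [hu, hf]; exact Eqv.refl _ _ _

/-! ### Openness -/

theorem isOpen_okl [CompactSpace X] (D : PD X) (a : ℕ) :
    IsOpen {K : NonemptyCompacts X | D.OKL (K : Set X)ᶜ a} := by
  by_cases h : D.P a ⊆ D.Pc (lI a) ∧ MapsTo (D.u a) (D.P a) (D.Q a) ∧ D.Q a ⊆ D.Pc (mI a)
  · have hc : IsClosed (D.f a '' D.Q a) :=
      (((D.oe _ _).mono h.2.2).isCompact_image (D.compact _)).isClosed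
    convert NonemptyCompacts.isOpen_subsets_of_isOpen hc.isOpen_compl using 1
    ext K
    simp only [mem_ofPred_eq, OKL, h.1, h.2.1, h.2.2, true_and]
    rw [mapsTo_iff_image_subset, subset_compl_comm]
  · convert isOpen_empty using 1
    ext K
    simp only [mem_ofPred_eq, mem_empty_iff_false, iff_false]
    exact fun hK => h ⟨hK.1, hK.2.1, hK.2.2.1⟩

theorem isOpen_eqv [CompactSpace X] (P : Set X) (f g : X → X) :
    IsOpen {K : NonemptyCompacts X | Eqv (K : Set X)ᶜ P f g} := by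
  rw [isOpen_iff_forall_mem_open]
  rintro K ⟨φ, ⟨C, hC, hCK, hφ⟩, V, hV, hPV, he⟩
  refine ⟨{K' | (K' : Set X) ⊆ Cᶜ}, ?_,
    NonemptyCompacts.isOpen_subsets_of_isOpen hC.isClosed.isOpen_compl, ?_⟩
  · intro K' hK'
    exact ⟨φ, ⟨C, hC, subset_compl_comm.1 hK', hφ⟩, V, hV, hPV, he⟩
  · exact subset_compl_comm.1 hCK

theorem isOpen_nx [CompactSpace X] (D : PD X) (b a : ℕ) :
    IsOpen {K : NonemptyCompacts X | D.Nx (K : Set X)ᶜ b a} := by
  by_cases h : lP a = lQ b
  · simp only [Nx, h, true_and]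
    exact isOpen_eqv _ _ _
  · simp [Nx, h]

theorem isOpen_mem_val [CompactSpace X] (D : PD X) (s : List ℕ) :
    IsOpen {K : NonemptyCompacts X | s ∈ D.val (K : Set X)ᶜ} := by
  have h1 : IsOpen {K : NonemptyCompacts X | ∀ a ∈ s, D.OKL (K : Set X)ᶜ a} := by
    have : {K : NonemptyCompacts X | ∀ a ∈ s, D.OKL (K : Set X)ᶜ a} =
        ⋂ a ∈ s.toFinset, {K : NonemptyCompacts X | D.OKL (K : Set X)ᶜ a} := by
      ext K; simp
    rw [this]
    exact isOpen_biInter_finset fun a _ => isOpen_okl D a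
  have h2 : IsOpen {K : NonemptyCompacts X | s.IsChain (D.Nx (K : Set X)ᶜ)} := by
    induction s with
    | nil => simp
    | cons b s ih =>
      have h1' : IsOpen {K : NonemptyCompacts X | ∀ a ∈ s, D.OKL (K : Set X)ᶜ a} := by
        have : {K : NonemptyCompacts X | ∀ a ∈ s, D.OKL (K : Set X)ᶜ a} =
            ⋂ a ∈ s.toFinset, {K : NonemptyCompacts X | D.OKL (K : Set X)ᶜ a} := by
          ext K; simp
        rw [this]
        exact isOpen_biInter_finset fun a _ => isOpen_okl D a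
      cases s with
      | nil => simp
      | cons c s =>
        simp only [List.isChain_cons_cons]
        exact (isOpen_nx D b c).inter (ih h1')
  have : {K : NonemptyCompacts X | s ∈ D.val (K : Set X)ᶜ} =
      {K : NonemptyCompacts X | ∀ a ∈ s, D.OKL (K : Set X)ᶜ a} ∩
      ({K : NonemptyCompacts X | ∀ a ∈ s.head?, lP a = 0} ∩
      {K : NonemptyCompacts X | s.IsChain (D.Nx (K : Set X)ᶜ)}) := by
    ext K; rfl
  rw [this]
  refine h1.inter (IsOpen.inter ?_ h2)
  exact isOpen_const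

end PD

end Pool.Agent.Work.MP_252c1e_lc
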