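import Pool.Agent.Work.MP_252c1e_lc.Interface

/-!
# Open embeddings of open sets: basic API
-/

open Set Topology TopologicalSpace

namespace Pool.Agent.Work.MP_252c1e_lc

variable {X Y Z : Type*} [TopologicalSpace X] [TopologicalSpace Y] [TopologicalSpace Z]

namespace OE

theorem mono {f : X → Y} {W W' : Set X} (h : OE f W) (hW : IsOpen W') (hs : W' ⊆ W) : OE f W' :=
  ⟨hW, h.cont.mono hs, h.inj.mono hs, fun V hV ho => h.openMap V (hV.trans hs) ho⟩

theorem congr {f g : X → Y} {W : Set X} (h : OE f W) (hfg : EqOn f g W) : OE g W :=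
  ⟨h.isOpen, h.cont.congr fun x hx => (hfg hx).symm, h.inj.congr hfg, fun V hV ho => by
    rw [← (hfg.mono hV).image_eq]; exact h.openMap V hV ho⟩

theorem comp {f : X → Y} {g : Y → Z} {W : Set X} {V : Set Y} (hg : OE g V) (hf : OE f W)
    (hm : MapsTo f W V) : OE (g ∘ f) W :=
  ⟨hf.isOpen, hg.cont.comp hf.cont hm, hg.inj.comp hf.inj hm, fun A hA ho => by
    rw [image_comp]
    exact hg.openMap _ ((image_mono hA).trans hm.image_subset) (hf.openMap A hA ho)⟩

theorem isOpen_image {f : X → Y} {W : Set X} (h : OE f W) : IsOpen (f '' W) :=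
  h.openMap W subset_rfl h.isOpen

theorem of_homeo (φ : X ≃ₜ Y) : OE φ univ :=
  ⟨isOpen_univ, φ.continuous.continuousOn, φ.injective.injOn, fun V _ ho => φ.isOpenMap V ho⟩

theorem of_isOpenEmbedding {f : X → Y} (h : IsOpenEmbedding f) : OE f univ :=
  ⟨isOpen_univ, h.continuous.continuousOn, h.injective.injOn, fun V _ ho => h.isOpenMap V ho⟩

theorem idX : OE (id : X → X) univ := of_homeo (Homeomorph.refl X)

theorem invFunOn [Nonempty X] {f : X → Y} {W : Set X} (h : OE f W) :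
    OE (Function.invFunOn f W) (f '' W) := by
  have hinv : ∀ x ∈ W, Function.invFunOn f W (f x) = x := fun x hx =>
    h.inj.leftInvOn_invFunOn hx
  refine ⟨h.isOpen_image, ?_, ?_, ?_⟩
  · rw [continuousOn_iff']
    intro A hA
    refine ⟨f '' (W ∩ A), h.openMap _ inter_subset_left (h.isOpen.inter hA), ?_⟩
    ext y
    constructor
    · rintro ⟨hy, x, hx, rfl⟩
      rw [mem_preimage, hinv x hx] at hy
      exact ⟨⟨x, ⟨hx, hy⟩, rfl⟩, ⟨x, hx, rfl⟩⟩
    · rintro ⟨⟨x, ⟨hx, hxA⟩, rfl⟩, _⟩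
      refine ⟨?_, ⟨x, hx, rfl⟩⟩
      rw [mem_preimage, hinv x hx]; exact hxA
  · rintro _ ⟨x, hx, rfl⟩ _ ⟨y, hy, rfl⟩ hxy
    rw [hinv x hx, hinv y hy] at hxy
    rw [hxy]
  · intro A hA ho
    have : Function.invFunOn f W '' A = W ∩ f ⁻¹' A := by
      ext x
      constructor
      · rintro ⟨y, hy, rfl⟩
        obtain ⟨x, hx, rfl⟩ := hA hy
        rw [hinv x hx]
        exact ⟨hx, hy⟩
      · rintro ⟨hx, hxA⟩
        exact ⟨f x, hxA, hinv x hx⟩
    rw [this]
    exact h.cont.isOpen_inter_preimage h.isOpen ho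

end OE

/-- `φ` is supported in a compact subset of `U`. -/
def Supp (φ : X ≃ₜ X) (U : Set X) : Prop := ∃ C, IsCompact C ∧ C ⊆ U ∧ ∀ x, x ∉ C → φ x = x

theorem Supp.refl (U : Set X) : Supp (Homeomorph.refl X) U :=
  ⟨∅, isCompact_empty, empty_subset _, fun _ _ => rfl⟩

theorem Supp.symm {φ : X ≃ₜ X} {U : Set X} (h : Supp φ U) : Supp φ.symm U := by
  obtain ⟨C, hC, hCU, hφ⟩ := h
  refine ⟨C, hC, hCU, fun x hx => ?_⟩
  rw [φ.symm_apply_eq]
  exact (hφ x hx).symm

theorem Supp.trans {φ ψ : X ≃ₜ X} {U : Set X} (h : Supp φ U) (h' : Supp ψ U) :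
    Supp (φ.trans ψ) U := by
  obtain ⟨C, hC, hCU, hφ⟩ := h
  obtain ⟨D, hD, hDU, hψ⟩ := h'
  refine ⟨C ∪ D, hC.union hD, union_subset hCU hDU, fun x hx => ?_⟩
  rw [mem_union, not_or] at hx
  change ψ (φ x) = x
  rw [hφ x hx.1, hψ x hx.2]

theorem Supp.mono {φ : X ≃ₜ X} {U V : Set X} (h : Supp φ U) (hUV : U ⊆ V) : Supp φ V := by
  obtain ⟨C, hC, hCU, hφ⟩ := h
  exact ⟨C, hC, hCU.trans hUV, hφ⟩

/-- A homeomorphism supported in `C` maps every set containing `C` onto itself. -/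
theorem mem_iff_of_supp {φ : X ≃ₜ X} {C : Set X} (h : ∀ x, x ∉ C → φ x = x) {S : Set X}
    (hCS : C ⊆ S) (x : X) : φ x ∈ S ↔ x ∈ S := by
  by_cases hx : x ∈ C
  · refine ⟨fun _ => hCS hx, fun _ => ?_⟩
    by_contra hn
    have h1 : φ x ∉ C := fun h2 => hn (hCS h2)
    have h2 : φ (φ x) = φ x := h _ h1
    have h3 : φ x = x := φ.injective h2
    rw [h3] at h1
    exact h1 hx
  · rw [h x hx]

theorem Supp.mem_iff {φ : X ≃ₜ X} {U S : Set X} (h : Supp φ U) (hUS : U ⊆ S) (x : X) :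
    φ x ∈ S ↔ x ∈ S := by
  obtain ⟨C, hC, hCU, hφ⟩ := h
  exact mem_iff_of_supp hφ (hCU.trans hUS) x

/-- Transport of a compactly supported homeomorphism by an open embedding. -/
theorem exists_conj [T2Space Y] {f : X → Y} {W : Set X} (hf : OE f W) {φ : X ≃ₜ X} {C : Set X}
    (hC : IsCompact C) (hCW : C ⊆ W) (hφ : ∀ x, x ∉ C → φ x = x) :
    ∃ ψ : Y ≃ₜ Y, (∀ y, y ∉ f '' C → ψ y = y) ∧ ∀ x ∈ W, ψ (f x) = f (φ x) := by
  classical
  rcases W.eq_empty_or_nonempty with rfl | ⟨x0, hx0⟩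
  · refine ⟨Homeomorph.refl Y, fun _ _ => rfl, fun x hx => absurd hx (notMem_empty x)⟩
  have : Nonempty X := ⟨x0⟩
  set fi := Function.invFunOn f W with hfi
  have hinv : ∀ x ∈ W, fi (f x) = x := fun x hx => hf.inj.leftInvOn_invFunOn hx
  -- the general construction
  have key : ∀ θ : X ≃ₜ X, (∀ x, x ∉ C → θ x = x) → ∃ T : Y → Y, Continuous T ∧
      (∀ x ∈ W, T (f x) = f (θ x)) ∧ (∀ y, y ∉ f '' C → T y = y) := by
    intro θ hθ
    have hθW : ∀ x, θ x ∈ W ↔ x ∈ W := mem_iff_of_supp hθ hCW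
    refine ⟨fun y => if y ∈ f '' W then f (θ (fi y)) else y, ?_, ?_, ?_⟩
    · rw [continuous_iff_continuousAt]
      intro y
      by_cases hy : y ∈ f '' W
      · have h1 : ContinuousOn (fun y => f (θ (fi y))) (f '' W) := by
          refine hf.cont.comp (θ.continuous.comp_continuousOn (OE.invFunOn hf).cont) ?_
          rintro _ ⟨x, hx, rfl⟩
          change θ (fi (f x)) ∈ W
          rw [hinv x hx]
          exact (hθW x).2 hx
        have h2 : (fun y => if y ∈ f '' W then f (θ (fi y)) else y) =ᶠ[𝓝 y]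
            fun y => f (θ (fi y)) := by
          filter_upwards [hf.isOpen_image.mem_nhds hy] with z hz
          simp only [hz, if_true]
        exact (h1.continuousAt (hf.isOpen_image.mem_nhds hy)).congr h2.symm
      · have hcl : IsClosed (f '' C) := (hC.image_of_continuousOn (hf.cont.mono hCW)).isClosed
        have hy' : y ∈ (f '' C)ᶜ := fun h => hy (image_mono hCW h)
        have h2 : (fun y => if y ∈ f '' W then f (θ (fi y)) else y) =ᶠ[𝓝 y] fun y => y := by
          filter_upwards [hcl.isOpen_compl.mem_nhds hy'] with z hz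
          by_cases hzW : z ∈ f '' W
          · obtain ⟨x, hx, rfl⟩ := hzW
            have hxC : x ∉ C := fun h => hz ⟨x, h, rfl⟩
            simp only [mem_image_of_mem f hx, if_true, hinv x hx, hθ x hxC]
          · simp only [hzW, if_false]
        exact continuousAt_id.congr h2.symm
    · intro x hx
      simp only [mem_image_of_mem f hx, if_true, hinv x hx]
    · intro y hy
      by_cases hyW : y ∈ f '' W
      · obtain ⟨x, hx, rfl⟩ := hyW
        have hxC : x ∉ C := fun h => hy ⟨x, h, rfl⟩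
        simp only [mem_image_of_mem f hx, if_true, hinv x hx, hθ x hxC]
      · simp only [hyW, if_false]
  have hφ' : ∀ x, x ∉ C → φ.symm x = x := by
    intro x hx
    rw [φ.symm_apply_eq]
    exact (hφ x hx).symm
  obtain ⟨T, hTc, hT1, hT2⟩ := key φ hφ
  obtain ⟨S, hSc, hS1, hS2⟩ := key φ.symm hφ'
  have hφW : ∀ x, φ x ∈ W ↔ x ∈ W := mem_iff_of_supp hφ hCW
  have hφW' : ∀ x, φ.symm x ∈ W ↔ x ∈ W := mem_iff_of_supp hφ' hCW
  have hTS : ∀ y, S (T y) = y := by
    intro y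
    by_cases hy : y ∈ f '' W
    · obtain ⟨x, hx, rfl⟩ := hy
      rw [hT1 x hx, hS1 _ ((hφW x).2 hx), φ.symm_apply_apply]
    · have h1 : y ∉ f '' C := fun h => hy (image_mono hCW h)
      rw [hT2 y h1, hS2 y h1]
  have hST : ∀ y, T (S y) = y := by
    intro y
    by_cases hy : y ∈ f '' W
    · obtain ⟨x, hx, rfl⟩ := hy
      rw [hS1 x hx, hT1 _ ((hφW' x).2 hx), φ.apply_symm_apply]
    · have h1 : y ∉ f '' C := fun h => hy (image_mono hCW h)
      rw [hS2 y h1, hT2 y h1]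
  exact ⟨⟨⟨T, S, hTS, hST⟩, hTc, hSc⟩, hT2, hT1⟩

end Pool.Agent.Work.MP_252c1e_lc
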