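import Pool.Agent.Work.MP_252c1e_lc.Letters

/-!
# Block C: a homeomorphism of open sets gives a letterwise isomorphism of the trees
-/

open Set Topology TopologicalSpace

namespace Pool.Agent.Work.MP_252c1e_lc

/-- A homeomorphism between two open sets, extended to the whole space. -/
structure PHomeo {X : Type*} [TopologicalSpace X] (U U' : Set X) (e ei : X → X) : Prop where
  oe : OE e U
  oei : OE ei U'
  image : e '' U = U'
  imagei : ei '' U' = U
  left : ∀ x ∈ U, ei (e x) = x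
  right : ∀ x ∈ U', e (ei x) = x

theorem PHomeo.symm {X : Type*} [TopologicalSpace X] {U U' : Set X} {e ei : X → X}
    (h : PHomeo U U' e ei) : PHomeo U' U ei e :=
  ⟨h.oei, h.oe, h.imagei, h.image, h.right, h.left⟩

/-- Extension of a map by the identity. -/
noncomputable def extI {X : Type*} {U U' : Set X} (h : U → U') (x : X) : X :=
  open Classical in if hx : x ∈ U then (h ⟨x, hx⟩ : X) else x

theorem extI_apply {X : Type*} {U U' : Set X} (h : U → U') {x : X} (hx : x ∈ U) :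
    extI h x = h ⟨x, hx⟩ := by simp [extI, hx]

theorem oe_extI {X : Type*} [TopologicalSpace X] {U U' : Set X} (hU : IsOpen U) (hU' : IsOpen U')
    (h : U ≃ₜ U') : OE (extI h) U := by
  refine ⟨hU, ?_, ?_, ?_⟩
  · rw [continuousOn_iff_continuous_domRestrict]
    have : U.domRestrict (extI h) = Subtype.val ∘ h := by
      ext x; exact extI_apply h x.2
    rw [this]
    exact continuous_subtype_val.comp h.continuous
  · intro x hx y hy hxy
    rw [extI_apply h hx, extI_apply h hy] at hxy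
    have := h.injective (Subtype.ext hxy)
    simpa using this
  · intro V hV ho
    have : extI h '' V = Subtype.val '' (h '' (Subtype.val ⁻¹' V)) := by
      ext y
      constructor
      · rintro ⟨x, hx, rfl⟩
        exact ⟨h ⟨x, hV hx⟩, ⟨⟨x, hV hx⟩, hx, rfl⟩, (extI_apply h (hV hx)).symm⟩
      · rintro ⟨_, ⟨⟨x, hxU⟩, hx, rfl⟩, rfl⟩
        exact ⟨x, hx, extI_apply h hxU⟩
    rw [this]
    exact hU'.isOpenMap_subtype_val _ (h.isOpenMap _ (ho.preimage continuous_subtype_val))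

theorem pHomeo_of_homeo {X : Type*} [TopologicalSpace X] {U U' : Set X} (hU : IsOpen U)
    (hU' : IsOpen U') (h : U ≃ₜ U') : PHomeo U U' (extI h) (extI h.symm) := by
  have key : ∀ {U U' : Set X} (h : U ≃ₜ U'), (∀ x ∈ U, extI h x ∈ U') ∧
      ∀ x ∈ U, extI h.symm (extI h x) = x := by
    intro U U' h
    refine ⟨fun x hx => ?_, fun x hx => ?_⟩
    · rw [extI_apply h hx]; exact (h ⟨x, hx⟩).2
    · rw [extI_apply h hx, extI_apply h.symm (h ⟨x, hx⟩).2]; simp
  have h1 := key h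
  have h2 := key h.symm
  refine ⟨oe_extI hU hU' h, oe_extI hU' hU h.symm, ?_, ?_, h1.2, h2.2⟩
  · apply Subset.antisymm
    · rintro _ ⟨x, hx, rfl⟩; exact h1.1 x hx
    · intro y hy; exact ⟨_, h2.1 y hy, h2.2 y hy⟩
  · apply Subset.antisymm
    · rintro _ ⟨x, hx, rfl⟩; exact h2.1 x hx
    · intro y hy; exact ⟨_, h1.1 y hy, h1.2 y hy⟩

/-- The stability property of `X`, as given by `EKX`. -/
def Stab (X : Type) [MetricSpace X] : Prop :=
  ∀ (U P N : Set X) (f : X → X), IsOpen U → U ≠ univ → IsCompact P → IsCompact N →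
    P ⊆ interior N → OEn f N → f '' N ⊆ U →
    ∃ δ, 0 < δ ∧ ∀ g : X → X, OEn g N → (∀ x ∈ N, dist (g x) (f x) < δ) → Eqv U P f g

variable {X : Type} [MetricSpace X]

namespace PD

variable {D : PD X} {U U' : Set X} {a b : ℕ}

theorem exists_match (hS : Stab X) (D : PD X) (hU : IsOpen U) (hne : U ≠ univ) (q : ℕ) {g : X → X}
    (hg : OEn g (D.Pc q)) (hm : MapsTo g (D.Pc q) U) :
    ∃ i j, D.Pc q ⊆ D.Pc i ∧ MapsTo (D.em i j) (D.Pc q) U ∧ Eqv U (D.Pc q) g (D.em i j) := by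
  obtain ⟨W, hW, hqW, hWU⟩ := hg.exists_nhds hU hm
  obtain ⟨i, hi1, hi2⟩ := D.cofinal _ _ (D.compact q) hW.isOpen hqW
  obtain ⟨δ, hδ, hE⟩ := hS U (D.Pc q) (D.Pc i) g hU hne (D.compact q) (D.compact i) hi1
    (hW.oen hi2) (image_subset_iff.2 fun x hx => hWU (hi2 hx))
  obtain ⟨j, hj⟩ := D.dense i g (hW.oen hi2) δ hδ
  have h := hE _ (D.oe i j) hj
  exact ⟨i, j, hi1.trans interior_subset, h.mapsTo hm, h⟩

/-- The relation between letters of `U` and letters of `U'`. -/
def LR (D : PD X) (U U' : Set X) (e : X → X) (a b : ℕ) : Prop :=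
  D.OKL U a ∧ D.OKL U' b ∧ slab a = slab b ∧ Eqv U' (D.Q a) (e ∘ D.f a) (D.f b)

theorem exists_lr (hS : Stab X) {e ei : X → X} (he : PHomeo U U' e ei) (hU' : IsOpen U')
    (hne : U' ≠ univ) (ha : D.OKL U a) (k : ℕ) : ∃ b, D.LR U U' e a b ∧ mK b = k := by
  have hm : MapsTo (e ∘ D.f a) (D.Q a) U' := by
    intro x hx
    rw [← he.image]
    exact mem_image_of_mem _ (ha.2.2.2 hx)
  have hoe : OEn (e ∘ D.f a) (D.Q a) := (he.oe.oen subset_rfl).comp ha.oen_f ha.2.2.2
  obtain ⟨i, j, h1, h2, h3⟩ := exists_match hS D hU' hne (lQ a) hoe hm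
  refine ⟨mkL (lP a) (lI a) (lJ a) (lQ a) i j k, ⟨ha, ⟨?_, ?_, ?_, ?_⟩, ?_, ?_⟩, by simp⟩
  · simpa [P] using ha.1
  · simpa [P, Q, u] using ha.2.1
  · simpa [Q] using h1
  · simpa [Q, f] using h2
  · rw [slab_mkL, ← slab_eq]
  · simpa [f, Q] using h3

theorem LR.symm {e ei : X → X} (he : PHomeo U U' e ei) (h : D.LR U U' e a b) :
    D.LR U' U ei b a := by
  obtain ⟨ha, hb, hl, h⟩ := h
  refine ⟨hb, ha, hl.symm, ?_⟩
  have hm : MapsTo (e ∘ D.f a) (D.Q a) U' := by
    intro x hx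
    rw [← he.image]
    exact mem_image_of_mem _ (ha.2.2.2 hx)
  have hoe : OEn (e ∘ D.f a) (D.Q a) := (he.oe.oen subset_rfl).comp ha.oen_f ha.2.2.2
  have h1 := h.comp_left he.oei hoe hm
  rw [he.imagei] at h1
  have hQ : D.Q b = D.Q a := by simp [Q, lQ_congr hl]
  rw [hQ]
  obtain ⟨W, hW, hqW, hWU⟩ := ha.oen_f.exists_nhds he.oe.isOpen ha.2.2.2
  have h2 : Eqv U (D.Q a) (ei ∘ (e ∘ D.f a)) (D.f a) :=
    Eqv.of_eqOn hW.isOpen hqW fun x hx => he.left _ (hWU hx)
  exact h1.symm.trans h2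

theorem LR.nx_imp {e ei : X → X} (he : PHomeo U U' e ei) {a' b' : ℕ}
    (ha : D.LR U U' e a a') (hb : D.LR U U' e b b') (h : D.Nx U b a) : D.Nx U' b' a' := by
  obtain ⟨h0, h1⟩ := h
  have hQa : D.Q a' = D.Q a := by simp [Q, lQ_congr ha.2.2.1]
  have hQb : D.Q b' = D.Q b := by simp [Q, lQ_congr hb.2.2.1]
  have hu : D.u a' = D.u a := by simp [u, lI_congr ha.2.2.1, lJ_congr ha.2.2.1]
  have hPQ : D.P a = D.Q b := by simp [P, Q, h0]
  have hfu := ha.1.oen_fu
  have hfum := ha.1.mapsTo_fu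
  have hou := ha.1.oen_u
  have hum := ha.1.2.1
  rw [hPQ] at hfu hfum hou hum
  refine ⟨?_, ?_⟩
  · rw [← lP_congr ha.2.2.1, ← lQ_congr hb.2.2.1, h0]
  · rw [hu, hQb]
    -- e ∘ f a ∘ u a ~ e ∘ f b
    have h2 := h1.comp_left he.oe hfu hfum
    rw [he.image] at h2
    have h3 : Eqv U' (D.Q b) ((e ∘ D.f a) ∘ D.u a) (D.f a' ∘ D.u a) :=
      ha.2.2.2.comp_right hou hum
    exact (h3.symm.trans h2).trans hb.2.2.2

theorem LR.nx_iff {e ei : X → X} (he : PHomeo U U' e ei) {a' b' : ℕ}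
    (ha : D.LR U U' e a a') (hb : D.LR U U' e b b') : D.Nx U b a ↔ D.Nx U' b' a' :=
  ⟨ha.nx_imp he hb, (ha.symm he).nx_imp he.symm (hb.symm he)⟩

/-- A homeomorphism of open sets gives a bijection of the admissible letters. -/
theorem exists_letter_bij (hS : Stab X) (D : PD X) (hU : IsOpen U) (hU' : IsOpen U')
    (hne : U ≠ univ) (hne' : U' ≠ univ) (h : U ≃ₜ U') :
    ∃ F : ℕ → ℕ, BijOn F {a | D.OKL U a} {a | D.OKL U' a} ∧
      (∀ a, D.OKL U a → slab (F a) = slab a) ∧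
      ∀ a b, D.OKL U a → D.OKL U b → (D.Nx U b a ↔ D.Nx U' (F b) (F a)) := by
  classical
  have he := pHomeo_of_homeo hU hU' h
  set e := extI h with hedef
  set ei := extI h.symm with heidef
  choose! F1 hF1 using fun (a : {a | D.OKL U a}) =>
    exists_lr (a := a.1) hS he hU' hne' a.2 a.1
  choose! F2 hF2 using fun (a : {a | D.OKL U' a}) =>
    exists_lr (a := a.1) hS he.symm hU hne a.2 a.1
  obtain ⟨H, hH, hR⟩ := Function.Embedding.schroeder_bernstein_of_rel
    (f := fun a : {a | D.OKL U a} => (⟨F1 a, (hF1 a).1.2.1⟩ : {a | D.OKL U' a}))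
    (g := fun a : {a | D.OKL U' a} => (⟨F2 a, (hF2 a).1.2.1⟩ : {a | D.OKL U a}))
    (by
      intro a b hab
      have h1 : F1 a = F1 b := congrArg Subtype.val hab
      have h2 := (hF1 a).2
      rw [h1, (hF1 b).2] at h2
      exact Subtype.ext h2.symm)
    (by
      intro a b hab
      have h1 : F2 a = F2 b := congrArg Subtype.val hab
      have h2 := (hF2 a).2
      rw [h1, (hF2 b).2] at h2
      exact Subtype.ext h2.symm)
    (fun a b => D.LR U U' e a.1 b.1)
    (fun a => (hF1 a).1)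
    (fun a => (hF2 a).1.symm he.symm)
  set F : ℕ → ℕ := fun a => if ha : D.OKL U a then (H ⟨a, ha⟩).1 else a with hF
  have hFa : ∀ a (ha : D.OKL U a), F a = (H ⟨a, ha⟩).1 := fun a ha => by simp [hF, ha]
  have hFR : ∀ a (ha : D.OKL U a), D.LR U U' e a (F a) := fun a ha => by
    rw [hFa a ha]; exact hR ⟨a, ha⟩
  refine ⟨F, ⟨?_, ?_, ?_⟩, ?_, ?_⟩
  · intro a ha
    exact (hFR a ha).2.1
  · intro a ha b hb hab
    rw [hFa a ha, hFa b hb] at hab
    have := hH.1 (Subtype.ext hab)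
    simpa using this
  · intro b hb
    obtain ⟨⟨a, ha⟩, hab⟩ := hH.2 ⟨b, hb⟩
    exact ⟨a, ha, by rw [hFa a ha, hab]⟩
  · intro a ha
    exact (hFR a ha).2.2.1.symm
  · intro a b ha hb
    exact (hFR a ha).nx_iff he (hFR b hb)

theorem lP_zero_iff {F : ℕ → ℕ} (h : slab (F a) = slab a) : lP (F a) = 0 ↔ lP a = 0 := by
  rw [lP_congr h]

theorem val_eq_image {F : ℕ → ℕ} (hF : BijOn F {a | D.OKL U a} {a | D.OKL U' a})
    (hl : ∀ a, D.OKL U a → slab (F a) = slab a)
    (hN : ∀ a b, D.OKL U a → D.OKL U b → (D.Nx U b a ↔ D.Nx U' (F b) (F a))) :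
    D.val U' = List.map F '' D.val U := by
  have key : ∀ s : List ℕ, (∀ a ∈ s, D.OKL U a) → (s.map F ∈ D.val U' ↔ s ∈ D.val U) := by
    intro s hs
    induction s using List.reverseRecOn with
    | nil => simp [nil_mem_val]
    | append_singleton s a ih =>
      have hs' : ∀ b ∈ s, D.OKL U b := fun b hb => hs b (List.mem_append_left _ hb)
      have ha : D.OKL U a := hs a (by simp)
      have ha' : D.OKL U' (F a) := hF.mapsTo ha
      rw [List.map_append, List.map_singleton, mem_val_snoc, mem_val_snoc, ih hs']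
      simp only [ha, ha', true_and]
      refine and_congr_right fun _ => ?_
      rcases List.eq_nil_or_concat' s with rfl | ⟨s₀, b, rfl⟩
      · simp [Nxt, lP_congr (hl a ha)]
      · have hb : D.OKL U b := hs' b (by simp)
        simp only [Nxt, List.map_append, List.map_singleton]
        constructor
        · rintro (⟨h, _⟩ | ⟨s₁, c, h, h'⟩)
          · simp at h
          · obtain ⟨h1, h2⟩ := List.append_inj' h rfl
            have h3 : F b = c := by simpa using h2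
            rw [← h3] at h'
            exact Or.inr ⟨s₀, b, rfl, (hN a b ha hb).2 h'⟩
        · rintro (⟨h, _⟩ | ⟨s₁, c, h, h'⟩)
          · simp at h
          · obtain ⟨h1, h2⟩ := List.append_inj' h rfl
            have h3 : b = c := by simpa using h2
            rw [← h3] at h'
            exact Or.inr ⟨s₀.map F, F b, rfl, (hN a b ha hb).1 h'⟩
  apply Subset.antisymm
  · intro t ht
    -- all letters of `t` are in the image
    have : ∀ t : List ℕ, (∀ b ∈ t, D.OKL U' b) → ∃ s : List ℕ, (∀ a ∈ s, D.OKL U a) ∧ s.map F = t := by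
      intro t
      induction t with
      | nil => intro _; exact ⟨[], by simp, rfl⟩
      | cons b t ih =>
        intro h
        obtain ⟨s, hs1, hs2⟩ := ih fun c hc => h c (List.mem_cons_of_mem _ hc)
        obtain ⟨a, ha, hab⟩ := hF.surjOn (h b (by simp))
        refine ⟨a :: s, ?_, by simp [hs2, hab]⟩
        intro c hc
        rcases List.mem_cons.1 hc with rfl | hc
        · exact ha
        · exact hs1 c hc
    obtain ⟨s, hs, rfl⟩ := this t ht.1
    exact ⟨s, (key s hs).1 ht, rfl⟩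
  · rintro _ ⟨s, hs, rfl⟩
    exact (key s hs.1).2 hs

/-- Part (iii) of `SourceThm`. -/
theorem homeo_to_letters (hS : Stab X) (D : PD X) (hU : IsOpen U) (hU' : IsOpen U')
    (hne : U ≠ univ) (hne' : U' ≠ univ) (h : Nonempty (U ≃ₜ U')) :
    ∃ (F : ℕ → ℕ) (A : Set ℕ), InjOn F A ∧ (∀ s ∈ D.val U, ∀ a ∈ s, a ∈ A) ∧
      (∀ a ∈ A, slab (F a) = slab a) ∧ D.val U' = List.map F '' D.val U := by
  obtain ⟨h⟩ := h
  obtain ⟨F, hF, hl, hN⟩ := exists_letter_bij hS D hU hU' hne hne' h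
  exact ⟨F, {a | D.OKL U a}, hF.injOn, fun s hs a ha => hs.1 a ha, hl, val_eq_image hF hl hN⟩

end PD

end Pool.Agent.Work.MP_252c1e_lc
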